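import Mathlib

-- merged part: Pool.Agent.Work.MP_8c604c_gt.B.Neg
section
/-!
The negative eigenspace of a symmetric operator of constant index depends continuously on the operator.
Plan. IsNegP A P delta: P symmetric idempotent, commutes with A, A <= -delta on the range of P, A >= 0 on the kernel of P.
Existence for Idx k A: eigenvector basis (LinearMap.IsSymmetric.eigenvectorBasis), P = starProjection onto the span of the eigenvectors with
negative eigenvalue; its rank is k (a negative definite and a nonnegative subspace meet in 0, Submodule.finrank_add_le_finrank_of_disjoint...).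
Uniqueness (no spectral theory): for two such P, P2 put T = (1 - P2) P; T and its adjoint commute with A, so trace (T* A T) = trace (T A T*),
the first is >= 0, the second is a sum of terms <= 0 which vanish only if T* = 0. (Or: an eigenvector with negative eigenvalue is fixed by every such P.)
Local uniform gap: A0 < -delta on a k-dimensional W, so A < -delta/2 on W near A0; if A has index k and an eigenvector v in range (negP A) with
eigenvalue > -delta/2, then A >= -delta/2 on ker P + R v, which has dimension dim V - k + 1 and meets W. Hence A <= -delta/2 on range (negP A).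
Continuity: sequences A_j -> A0 in Idx k, negP A_j lies in the compact unit ball, every limit point satisfies the closed conditions, so is negP A0
(tendsto_of_subseq_tendsto or isCompact + unique cluster point: IsCompact.tendsto_nhds_of_unique_mapClusterPt).
range_proj: negP (-(T T*)) = starProjection (range T). ker_proj: 1 - range_proj of the adjoint, or negP (-(T* T)).
-/

open Set Filter Topology
open scoped RealInnerProductSpace

noncomputable section
namespace Pool.Agent.Work.MP_8c604c_gt.B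

variable {V : Type} [NormedAddCommGroup V] [InnerProductSpace ℝ V] [FiniteDimensional ℝ V]

/-- Symmetric operators with exactly `k` negative eigenvalues. -/
structure Idx (k : ℕ) (A : V →L[ℝ] V) : Prop where
  symm : ∀ u v, ⟪A u, v⟫ = ⟪u, A v⟫
  neg : ∃ W : Submodule ℝ V, Module.finrank ℝ W = k ∧ ∀ v ∈ W, v ≠ 0 → ⟪A v, v⟫ < 0
  pos : ∃ W : Submodule ℝ V, Module.finrank ℝ V ≤ Module.finrank ℝ W + k ∧ ∀ v ∈ W, 0 ≤ ⟪A v, v⟫

/-- `P` is the orthogonal projection onto the negative eigenspace of `A`. -/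
structure IsNegP (k : ℕ) (A P : V →L[ℝ] V) : Prop where
  symm : ∀ u v, ⟪P u, v⟫ = ⟪u, P v⟫
  idem : ∀ v, P (P v) = P v
  comm : ∀ v, A (P v) = P (A v)
  rank : Module.finrank ℝ (LinearMap.range (P : V →ₗ[ℝ] V)) = k
  neg : ∀ v, v ≠ 0 → P v = v → ⟪A v, v⟫ < 0
  pos : ∀ v, P v = 0 → 0 ≤ ⟪A v, v⟫

/-- Orthogonal projections of constant rank: continuity on the range suffices. -/
theorem Neg_cont {X : Type} [TopologicalSpace X] {s : Set X} {Q : X → V →L[ℝ] V} {k : ℕ}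
    (h1 : ∀ x ∈ s, ∀ u v, ⟪Q x u, v⟫ = ⟪u, Q x v⟫) (h2 : ∀ x ∈ s, ∀ v, Q x (Q x v) = Q x v)
    (h3 : ∀ x ∈ s, Module.finrank ℝ (LinearMap.range (Q x : V →ₗ[ℝ] V)) = k)
    (h4 : ∀ x ∈ s, ∀ v, Tendsto (fun y => Q y (Q x v)) (𝓝[s] x) (𝓝 (Q x v))) :
    ContinuousOn Q s := by
  intro x hx
  let b := stdOrthonormalBasis ℝ V
  obtain ⟨C, -, hb⟩ := b.toBasis.exists_opNorm_le (F := V)
  have tr : ∀ y ∈ s, ∑ i, ⟪b i, Q y (b i)⟫ = k := fun y hy => by
    have h : LinearMap.IsProj (LinearMap.range (Q y : V →ₗ[ℝ] V)) (Q y : V →ₗ[ℝ] V) :=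
      ⟨fun v => ⟨v, rfl⟩, by rintro _ ⟨v, rfl⟩; exact h2 y hy v⟩
    rw [← h3 y hy, ← h.trace, LinearMap.trace_eq_sum_inner _ b]
    rfl
  have hs : ∀ y ∈ s, ∑ i, ‖(Q y - Q x) (b i)‖ ^ 2 =
      2 * k - 2 * ∑ i, ⟪b i, Q y (Q x (b i))⟫ := fun y hy => by
    simp only [sub_apply, norm_sub_sq_real]
    simp only [← real_inner_self_eq_norm_sq, h1 y hy, h1 x hx, h2 y hy, h2 x hx,
      Finset.sum_add_distrib, Finset.sum_sub_distrib, ← Finset.mul_sum, tr y hy, tr x hx]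
    ring
  have ht : Tendsto (fun y => C * √(2 * k - 2 * ∑ i, ⟪b i, Q y (Q x (b i))⟫)) (𝓝[s] x)
      (𝓝 (C * √(2 * k - 2 * ∑ i, ⟪b i, Q x (b i)⟫))) :=
    (tendsto_const_nhds.sub ((tendsto_finsetSum _ fun i _ =>
      tendsto_const_nhds.inner (h4 x hx _)).const_mul 2)).sqrt.const_mul C
  rw [tr x hx, sub_self, Real.sqrt_zero, mul_zero] at ht
  refine tendsto_iff_norm_sub_tendsto_zero.2 (squeeze_zero' (.of_forall fun _ => norm_nonneg _)
    (eventually_nhdsWithin_of_forall fun y hy => hb (Real.sqrt_nonneg _) fun i => ?_) ht)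
  rw [← hs y hy]
  exact Real.le_sqrt_of_sq_le (Finset.single_le_sum (f := fun i => ‖(Q y - Q x) (b i)‖ ^ 2)
    (fun _ _ => sq_nonneg _) (Finset.mem_univ i))

theorem Neg_eig {A : V →L[ℝ] V} (h : ∀ u v, ⟪A u, v⟫ = ⟪u, A v⟫) :
    ∃ (b : OrthonormalBasis (Fin (Module.finrank ℝ V)) ℝ V) (μ : Fin (Module.finrank ℝ V) → ℝ),
      ∀ i, A (b i) = μ i • b i :=
  ⟨_, _, LinearMap.IsSymmetric.apply_eigenvectorBasis (T := (A : V →ₗ[ℝ] V)) h rfl⟩

theorem Neg_ex {A : V →L[ℝ] V} (h : ∀ u v, ⟪A u, v⟫ = ⟪u, A v⟫) : ∃ P k, IsNegP k A P := by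
  obtain ⟨b, μ, hb⟩ := Neg_eig h
  let c : Fin (Module.finrank ℝ V) → ℝ := fun i => if μ i < 0 then 1 else 0
  let P : V →L[ℝ] V := ∑ i, (innerSL ℝ (c i • b i)).smulRight (b i)
  have hP : ∀ j v, ⟪b j, P v⟫ = c j * ⟪b j, v⟫ := fun j v => by
    simp only [P, sum_apply, ContinuousLinearMap.smulRight_apply,
      b.orthonormal.inner_right_fintype, innerSL_apply_apply, real_inner_smul_left]
  have hA : ∀ j v, ⟪b j, A v⟫ = μ j * ⟪b j, v⟫ := fun j v => by
    rw [← h, hb, real_inner_smul_left]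
  have hi : ∀ u v, ⟪u, v⟫ = ∑ i, ⟪b i, u⟫ * ⟪b i, v⟫ := fun u v => by
    simp only [← b.sum_inner_mul_inner u v, real_inner_comm]
  have he : ∀ {u v}, (∀ i, ⟪b i, u⟫ = ⟪b i, v⟫) → u = v := fun h =>
    InnerProductSpace.ext_inner_left_basis b.toBasis h
  refine ⟨P, _, fun u v => ?_, fun v => he fun i => ?_, fun v => he fun i => ?_, rfl,
    fun v h0 hv => ?_, fun v hv => ?_⟩
  · rw [hi, hi u]
    exact Finset.sum_congr rfl fun i _ => by rw [hP, hP]; ring
  · simp only [hP, c]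
    split_ifs <;> simp
  · rw [hA, hP, hP, hA, mul_left_comm]
  · have h1 : ∀ i, ⟪b i, v⟫ ≠ 0 → ⟪b i, A v⟫ * ⟪b i, v⟫ < 0 := fun i h1 => by
      rw [hA, mul_assoc]
      refine mul_neg_of_neg_of_pos (by_contra fun h2 => h1 ?_) (mul_self_pos.2 h1)
      rw [← hv, hP, show c i = 0 from if_neg h2, zero_mul]
    obtain ⟨j, hj⟩ := not_forall.1 fun e : ∀ i, ⟪b i, v⟫ = 0 =>
      h0 (he fun i => (e i).trans (inner_zero_right _).symm)
    rw [hi]
    refine Finset.sum_neg' (fun i _ => ?_) ⟨j, Finset.mem_univ j, h1 j hj⟩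
    by_cases e : ⟪b i, v⟫ = 0
    exacts [by rw [e, mul_zero], (h1 i e).le]
  · rw [hi]
    refine Finset.sum_nonneg fun i _ => ?_
    rw [hA, mul_assoc]
    by_cases e : μ i < 0
    · rw [← one_mul ⟪b i, v⟫, ← show c i = 1 from if_pos e, ← hP, hv]
      simp
    · exact mul_nonneg (not_lt.1 e) (mul_self_nonneg _)

theorem Neg_rank {A P : V →L[ℝ] V} {k l : ℕ} (h : Idx k A) (hP : IsNegP l A P) : l = k := by
  obtain ⟨W, e, hW⟩ := h.neg
  obtain ⟨W', e', hW'⟩ := h.pos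
  have h1 := Submodule.finrank_add_finrank_le_of_disjoint
    (s := W) (t := LinearMap.ker (P : V →ₗ[ℝ] V)) (Submodule.disjoint_def.2 fun v h1 h2 =>
      by_contra fun h0 => (hW v h1 h0).not_ge (hP.pos v h2))
  have h2 := Submodule.finrank_add_finrank_le_of_disjoint
    (s := W') (t := LinearMap.range (P : V →ₗ[ℝ] V)) (Submodule.disjoint_def.2 (by
      rintro _ h1 ⟨v, rfl⟩
      exact by_contra fun h0 => (hP.neg _ h0 (hP.idem v)).not_ge (hW' _ h1)))
  have h3 := LinearMap.finrank_range_add_finrank_ker (P : V →ₗ[ℝ] V)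
  have h4 := hP.rank
  omega

omit [FiniteDimensional ℝ V] in
theorem Neg_est {A P : V →L[ℝ] V} {k : ℕ} (hP : IsNegP k A P) {B : V →L[ℝ] V} {u : V} {μ : ℝ}
    (hu : B u = μ • u) (hμ : μ < 0) : ‖P u - u‖ ≤ ‖A - B‖ * (‖u‖ / -μ) := by
  obtain ⟨w, hw⟩ : ∃ w, u = P u + w := ⟨u - P u, (add_sub_cancel _ _).symm⟩
  have h0 : P w = 0 := by
    have := congrArg P hw
    rwa [map_add, hP.idem, left_eq_add] at this
  have h1 : ⟪A u, w⟫ = ⟪A w, w⟫ := by
    rw [hw, map_add, inner_add_left, hP.comm, hP.symm, h0, inner_zero_right, zero_add]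
  have h2 : ⟪u, w⟫ = ‖w‖ * ‖w‖ := by
    rw [hw, inner_add_left, hP.symm, h0, inner_zero_right, zero_add, real_inner_self_eq_norm_mul_norm]
  have h3 := (real_inner_le_norm ((A - B) u) w).trans
    (mul_le_mul_of_nonneg_right ((A - B).le_opNorm u) (norm_nonneg w))
  rw [sub_apply, inner_sub_left, h1, hu, real_inner_smul_left, h2] at h3
  have h4 := hP.pos w h0
  rw [norm_sub_rev, sub_eq_of_eq_add' hw, ← mul_div_assoc, le_div_iff₀ (neg_pos.2 hμ)]
  rcases (norm_nonneg w).eq_or_lt with e | e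
  · rw [← e, zero_mul]
    positivity
  · exact le_of_mul_le_mul_right (by linarith) e

theorem exists_negP : ∃ P : (V →L[ℝ] V) → V →L[ℝ] V, ∀ k : ℕ,
    ContinuousOn P {A | Idx k A} ∧ ∀ A, Idx k A → IsNegP k A (P A) := by
  have key : ∀ k A, Idx k A →
      IsNegP k A (Classical.epsilon fun P : V →L[ℝ] V => ∃ l, IsNegP l A P) := fun k A h => by
    obtain ⟨l, hl⟩ := Classical.epsilon_spec (Neg_ex h.symm)
    exact Neg_rank h hl ▸ hl
  refine ⟨_, fun k => ⟨Neg_cont (fun A h => (key k A h).symm) (fun A h => (key k A h).idem)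
    (fun A h => (key k A h).rank) fun A h v => ?_, key k⟩⟩
  obtain ⟨b, μ, hb⟩ := Neg_eig h.symm
  have hP := key k A h
  generalize Classical.epsilon (fun P : V →L[ℝ] V => ∃ l, IsNegP l A P) = P at hP ⊢
  rw [← b.sum_repr v]
  simp only [map_sum, map_smul]
  refine tendsto_finsetSum _ fun i _ => Tendsto.const_smul ?_ _
  by_cases e : P (b i) = 0
  · simp only [e, map_zero]
    exact tendsto_const_nhds
  have h1 : A (P (b i)) = μ i • P (b i) := by rw [hP.comm, hb, map_smul]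
  have h2 := hP.neg _ e (hP.idem _)
  rw [h1, real_inner_smul_left] at h2
  refine tendsto_iff_norm_sub_tendsto_zero.2 (squeeze_zero' (.of_forall fun _ => norm_nonneg _)
    (eventually_nhdsWithin_of_forall fun B hB => Neg_est (key k B hB) h1
      (neg_of_mul_neg_left h2 real_inner_self_nonneg)) ?_)
  rw [← zero_mul (‖P (b i)‖ / -μ i)]
  exact (tendsto_iff_norm_sub_tendsto_zero.1 (tendsto_id.mono_left nhdsWithin_le_nhds)).mul_const _

variable {U : Type} [NormedAddCommGroup U] [InnerProductSpace ℝ U] [FiniteDimensional ℝ U]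

/-- The orthogonal projection onto the range of a family of constant rank is continuous. -/
theorem continuousOn_range_proj {X : Type} [TopologicalSpace X] {s : Set X} {T : X → U →L[ℝ] V}
    (hT : ContinuousOn T s) {k : ℕ}
    (hk : ∀ x ∈ s, Module.finrank ℝ (LinearMap.range (T x : U →ₗ[ℝ] V)) = k) :
    ContinuousOn (fun x => (LinearMap.range (T x : U →ₗ[ℝ] V)).starProjection) s := by
  refine Neg_cont (k := k) (fun x _ => Submodule.inner_starProjection_left_eq_right _)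
    (fun x _ v => Submodule.starProjection_eq_self_iff.2 (Submodule.starProjection_apply_mem _ v))
    (fun x hx => by rw [Submodule.range_starProjection, hk x hx]) fun x hx v => ?_
  obtain ⟨u, hu⟩ := Submodule.starProjection_apply_mem (LinearMap.range (T x : U →ₗ[ℝ] V)) v
  rw [← hu]
  refine tendsto_iff_norm_sub_tendsto_zero.2 (squeeze_zero (fun _ => norm_nonneg _) (fun y => ?_)
    (tendsto_iff_norm_sub_tendsto_zero.1 (continuousOn_clm_apply.1 hT u x hx)))
  rw [norm_sub_rev, Submodule.starProjection_minimal, norm_sub_rev (T y u)]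
  exact ciInf_le ⟨0, forall_mem_range.2 fun _ => norm_nonneg _⟩
    (⟨T y u, u, rfl⟩ : LinearMap.range (T y : U →ₗ[ℝ] V))

/-- The orthogonal projection onto the kernel of a family of constant rank is continuous. -/
theorem continuousOn_ker_proj {X : Type} [TopologicalSpace X] {s : Set X} {T : X → U →L[ℝ] V}
    (hT : ContinuousOn T s) {k : ℕ}
    (hk : ∀ x ∈ s, Module.finrank ℝ (LinearMap.ker (T x : U →ₗ[ℝ] V)) = k) :
    ContinuousOn (fun x => (LinearMap.ker (T x : U →ₗ[ℝ] V)).starProjection) s := by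
  have := FiniteDimensional.complete ℝ U
  have := FiniteDimensional.complete ℝ V
  have e : ∀ x, (LinearMap.range ((T x).adjoint : V →ₗ[ℝ] U))ᗮ =
      LinearMap.ker (T x : U →ₗ[ℝ] V) := fun x => by
    rw [ContinuousLinearMap.orthogonal_range, ContinuousLinearMap.adjoint_adjoint]
  have h := continuousOn_range_proj (T := fun x => (T x).adjoint) (k := Module.finrank ℝ U - k)
    (ContinuousLinearMap.adjoint.continuous.comp_continuousOn hT) fun x hx => by
      rw [← hk x hx, ← e, ← Submodule.finrank_add_finrank_orthogonal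
        (LinearMap.range ((T x).adjoint : V →ₗ[ℝ] U)), Nat.add_sub_cancel]
  refine (continuousOn_const (c := 1).sub h).congr fun x _ => ?_
  simp only [← e]
  exact Submodule.starProjection_orthogonal' _

/-- A uniform negative bound on a compact family. -/
theorem negP_uniform {X : Type} [TopologicalSpace X] {s : Set X} (hs : IsCompact s)
    {A P : X → V →L[ℝ] V} (hA : ContinuousOn A s) (hP : ContinuousOn P s)
    (h : ∀ x ∈ s, ∀ v, v ≠ 0 → P x v = v → ⟪A x v, v⟫ < 0) :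
    ∃ δ : ℝ, 0 < δ ∧ ∀ x ∈ s, ∀ v, P x v = v → ⟪A x v, v⟫ ≤ -(δ * ‖v‖ ^ 2) := by
  have hc : ∀ {B : X → V →L[ℝ] V}, ContinuousOn B s →
      ContinuousOn (fun p : X × V => B p.1 p.2) (s ×ˢ Metric.sphere 0 1) := fun hB =>
    (hB.comp continuousOn_fst fun _ hp => hp.1).clm_apply continuousOn_snd
  obtain ⟨δ, h0, hδ⟩ := (hs.prod (isCompact_sphere (0 : V) 1)).exists_forall_le'
    (f := fun p => max (-⟪A p.1 p.2, p.2⟫) ‖P p.1 p.2 - p.2‖)
    (((hc hA).inner (𝕜 := ℝ) continuousOn_snd).neg.sup ((hc hP).sub continuousOn_snd).norm) (a := 0)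
    fun p hp => by
      by_cases e : P p.1 p.2 = p.2
      · exact lt_max_of_lt_left (neg_pos.2 (h _ hp.1 _ (ne_zero_of_mem_unit_sphere ⟨_, hp.2⟩) e))
      · exact lt_max_of_lt_right (norm_pos_iff.2 (sub_ne_zero.2 e))
  refine ⟨δ, h0, fun x hx v hv => ?_⟩
  rcases eq_or_ne v 0 with rfl | e
  · simp
  have h1 := norm_pos_iff.2 e
  have h2 := hδ (x, ‖v‖⁻¹ • v) ⟨hx, by simp [norm_smul, h1.ne']⟩
  simp only [map_smul, hv, sub_self, norm_zero, real_inner_smul_left, real_inner_smul_right] at h2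
  have h3 := (le_max_iff.1 h2).resolve_right h0.not_ge
  rw [← mul_assoc, ← mul_inv, ← sq, ← mul_neg, le_inv_mul_iff₀ (pow_pos h1 2)] at h3
  linarith

end Pool.Agent.Work.MP_8c604c_gt.B
end
end

-- merged part: Pool.Agent.Work.MP_8c604c_gt.OS.Defs
section
/-!
Block S of the Blaschke theorem for the Cayley plane (owner helper80): definitions.
A system is a loop `V t` of Lagrangian subspaces of a symplectic space `(T, ω)` inside a Euclidean space `H`
(think of the Jacobi fields that vanish at time `t`).  A comb is a finite family of times `t a` and forces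
`f a ∈ V (t a)` (the jumps of a broken Jacobi field); `qf` is its index form.
-/

set_option maxSynthPendingDepth 3
set_option linter.unusedSectionVars false

open Set Filter Topology Real Module
open scoped RealInnerProductSpace

noncomputable section
namespace Pool.Agent.Work.MP_8c604c_gt.OS

/-- Bilinear forms. -/
abbrev Bi (H : Type) [NormedAddCommGroup H] [InnerProductSpace ℝ H] : Type := H →L[ℝ] H →L[ℝ] ℝ

/-- The Euclidean space of the coefficients of a comb. -/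
abbrev WW (ι H : Type) : Type := PiLp 2 fun _ : ι => H

/-- The teeth of the combs: four for each phase. -/
abbrev Te (m : ℕ) : Type := Fin (m + 1) × Fin 4

/-- The saw function of period `π`, continuous from the right. -/
def saw (s : ℝ) : ℝ := 1 / 2 - Int.fract (s / π)

/-- The saw function of period `2 π`. -/
def saw2 (s : ℝ) : ℝ := saw (s / 2)

/-- One half on `[0, π)`, minus one half on `[π, 2 π)`, period `2 π`. -/
def sgp (s : ℝ) : ℝ := saw2 s - saw2 (s + π)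

/-- One half of the sign. -/
def hsg (s : ℝ) : ℝ := (SignType.sign s : ℝ) / 2

/-- The times of the teeth for phases of speed `2`; they are defined modulo `π`. -/
def tm1 {m : ℕ} (z : Fin (m + 1) → ℂ) (a : Te m) : ℝ := -(z a.1).arg / 2 + (a.2 : ℕ) * (π / 4)

/-- The times of the teeth for phases of speed `1`; they are defined modulo `2 π`. -/
def tm2 {m : ℕ} (ζ : Fin (m + 1) → ℂ) (a : Te m) : ℝ := -(ζ a.1).arg + (a.2 : ℕ) * (π / 4)

section Cl
variable {X F : Type} [TopologicalSpace X] [NormedAddCommGroup F] [NormedSpace ℝ F]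

/-- The family `A` over `s` has a closed graph over the point `p`. -/
def Cl (A : X → Submodule ℝ F) (s : Set X) (p : X) : Prop :=
  ∀ v, (p, v) ∈ closure {x : X × F | x.1 ∈ s ∧ x.2 ∈ A x.1} → v ∈ A p

end Cl

variable {H : Type} [NormedAddCommGroup H] [InnerProductSpace ℝ H] [FiniteDimensional ℝ H]

/-- Continuous families of subspaces. -/
def CS {X : Type} [TopologicalSpace X] (A : X → Submodule ℝ H) (s : Set X) : Prop :=
  ContinuousOn (fun x => (A x).starProjection) s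

/-- The vector that represents a linear form. -/
def shp (H : Type) [NormedAddCommGroup H] [InnerProductSpace ℝ H] [FiniteDimensional ℝ H] :
    (H →L[ℝ] ℝ) →L[ℝ] H :=
  ∑ i, (ContinuousLinearMap.apply ℝ ℝ (stdOrthonormalBasis ℝ H i)).smulRight (stdOrthonormalBasis ℝ H i)

theorem inner_shp (φ : H →L[ℝ] ℝ) (u : H) : ⟪shp H φ, u⟫ = φ u := by
  conv_rhs => rw [← (stdOrthonormalBasis ℝ H).sum_repr' u]
  simp only [shp, sum_apply, ContinuousLinearMap.smulRight_apply, ContinuousLinearMap.apply_apply,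
    sum_inner, real_inner_smul_left, map_sum, map_smul, smul_eq_mul, mul_comm]

/-- The `ω`-orthogonal complement of `A` in `T`. -/
def orth (ω : Bi H) (T A : Submodule ℝ H) : Submodule ℝ H where
  carrier := {u | u ∈ T ∧ ∀ a ∈ A, ω a u = 0}
  add_mem' := fun hu hw => ⟨T.add_mem hu.1 hw.1, fun a ha => by rw [map_add, hu.2 a ha, hw.2 a ha, add_zero]⟩
  zero_mem' := ⟨T.zero_mem, fun a _ => map_zero _⟩
  smul_mem' := fun c _ hu => ⟨T.smul_mem c hu.1, fun a ha => by rw [map_smul, hu.2 a ha, smul_zero]⟩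

theorem mem_orth {ω : Bi H} {T A : Submodule ℝ H} {u : H} :
    u ∈ orth ω T A ↔ u ∈ T ∧ ∀ a ∈ A, ω a u = 0 := Iff.rfl

/-- A symplectic subspace of dimension `2 n`. -/
structure Sym (n : ℕ) (ω : Bi H) (T : Submodule ℝ H) : Prop where
  alt : ∀ u, ω u u = 0
  nd : ∀ u ∈ T, (∀ w ∈ T, ω u w = 0) → u = 0
  dimT : finrank ℝ T = 2 * n

/-- The conjugate directions. -/
def KK (V : ℝ → Submodule ℝ H) (t : ℝ) : Submodule ℝ H := V t ⊓ V (t + π / 2)

/-- A loop of Lagrangian subspaces, positive on windows of length `π / 2`. -/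
structure Sys0 (n : ℕ) (ω : Bi H) (T : Submodule ℝ H) (V : ℝ → Submodule ℝ H) : Prop
    extends Sym n ω T where
  le : ∀ t, V t ≤ T
  dim : ∀ t, finrank ℝ (V t) = n
  iso : ∀ t, ∀ u ∈ V t, ∀ w ∈ V t, ω u w = 0
  per : ∀ t, V (t + π) = V t
  tr : ∀ s t, s < t → t < s + π / 2 → ∀ u ∈ V s, u ∈ V t → u = 0
  pos : ∀ s x y, s < x → x < y → y ≤ s + π / 2 → ∀ a ∈ V s, ∀ b ∈ V x, a + b ∈ V y → 0 ≤ ω a b

/-- The same, with conjugate multiplicity `k`. -/
structure Sys (n k : ℕ) (ω : Bi H) (T : Submodule ℝ H) (V : ℝ → Submodule ℝ H) : Prop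
    extends Sys0 n ω T V where
  dimK : ∀ t, finrank ℝ (KK V t) = k

/-- The symplectic subspace spanned by two conjugate spaces. -/
def Sg (V : ℝ → Submodule ℝ H) : Submodule ℝ H := KK V 0 ⊔ KK V (π / 4)

/-- Its complement. -/
def Tp (ω : Bi H) (T : Submodule ℝ H) (V : ℝ → Submodule ℝ H) : Submodule ℝ H := orth ω T (Sg V)

/-- The part of the system in the complement. -/
def VP (ω : Bi H) (T : Submodule ℝ H) (V : ℝ → Submodule ℝ H) (t : ℝ) : Submodule ℝ H :=
  V t ⊓ Tp ω T V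

/-- Multiplication of `p.1 - i p.2` by a complex number. -/
def cm (u : ℂ) : H × H →L[ℝ] H × H :=
  (u.re • ContinuousLinearMap.fst ℝ H H + u.im • ContinuousLinearMap.snd ℝ H H).prod
    (u.re • ContinuousLinearMap.snd ℝ H H - u.im • ContinuousLinearMap.fst ℝ H H)

theorem cm_apply (u : ℂ) (p : H × H) :
    cm u p = (u.re • p.1 + u.im • p.2, u.re • p.2 - u.im • p.1) := rfl

/-- The value at time `t` of a harmonic section. -/
def evt (t : ℝ) : H × H →L[ℝ] H :=
  cos (2 * t) • ContinuousLinearMap.fst ℝ H H + sin (2 * t) • ContinuousLinearMap.snd ℝ H H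

theorem evt_apply (t : ℝ) (p : H × H) : evt t p = cos (2 * t) • p.1 + sin (2 * t) • p.2 := rfl

/-- The graph of an isomorphism from `KK V 0` to `KK V (π / 4)`. -/
def Gr (ω : Bi H) (T : Submodule ℝ H) (V : ℝ → Submodule ℝ H) : Submodule ℝ (H × H) where
  carrier := {p | p.1 ∈ KK V 0 ∧ p.2 ∈ KK V (π / 4) ∧
    ∃ c ∈ V (π / 4), p.1 + c ∈ V (π / 8) ∧ c - p.2 ∈ Tp ω T V}
  add_mem' := by
    rintro p q ⟨p1, p2, c, c1, c2, c3⟩ ⟨q1, q2, e, e1, e2, e3⟩
    refine ⟨add_mem p1 q1, add_mem p2 q2, c + e, add_mem c1 e1, ?_, ?_⟩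
    · convert add_mem c2 e2 using 1
      simp only [Prod.fst_add]; abel
    · convert add_mem c3 e3 using 1
      simp only [Prod.snd_add]; abel
  zero_mem' := ⟨zero_mem _, zero_mem _, 0, zero_mem _, by simp, by simp⟩
  smul_mem' := by
    rintro r p ⟨p1, p2, c, c1, c2, c3⟩
    refine ⟨Submodule.smul_mem _ r p1, Submodule.smul_mem _ r p2, r • c, Submodule.smul_mem _ r c1, ?_, ?_⟩
    · convert Submodule.smul_mem _ r c2 using 1
      simp only [Prod.smul_fst, smul_add]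
    · convert Submodule.smul_mem _ r c3 using 1
      simp only [Prod.smul_snd, smul_sub]

theorem mem_Gr {ω : Bi H} {T : Submodule ℝ H} {V : ℝ → Submodule ℝ H} {p : H × H} :
    p ∈ Gr ω T V ↔ p.1 ∈ KK V 0 ∧ p.2 ∈ KK V (π / 4) ∧
      ∃ c ∈ V (π / 4), p.1 + c ∈ V (π / 8) ∧ c - p.2 ∈ Tp ω T V := Iff.rfl

/-- The standard rotation in `Sg V`. -/
def VS (ω : Bi H) (T : Submodule ℝ H) (V : ℝ → Submodule ℝ H) (t : ℝ) : Submodule ℝ H :=
  (Gr ω T V).map (evt (H := H) t).toLinearMap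

/-- The deformation of a system: the angle `0` gives the system, the angle `π / 2` a standard one. -/
def dfm (ω : Bi H) (T : Submodule ℝ H) (V : ℝ → Submodule ℝ H) (θ t : ℝ) : Submodule ℝ H where
  carrier := {x | ∃ κ ∈ KK V 0, ∃ l ∈ KK V (π / 4), ∃ u ∈ Tp ω T V, ∃ p ∈ Gr ω T V,
    κ + cos θ • l + u ∈ V t ∧ sin (2 * t) • p.2 = sin θ • l ∧
      x = cos θ • κ + (sin θ * cos (2 * t)) • p.1 + l + u}
  add_mem' := by
    rintro _ _ ⟨κ, hκ, l, hl, u, hu, p, hp, h1, h2, rfl⟩ ⟨κ', hκ', l', hl', u', hu', p', hp', h1', h2', rfl⟩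
    refine ⟨κ + κ', add_mem hκ hκ', l + l', add_mem hl hl', u + u', add_mem hu hu', p + p',
      add_mem hp hp', ?_, ?_, ?_⟩
    · convert add_mem h1 h1' using 1
      simp only [smul_add]; abel
    · simp only [Prod.snd_add, smul_add, h2, h2']
    · simp only [Prod.fst_add, smul_add]; abel
  zero_mem' := ⟨0, zero_mem _, 0, zero_mem _, 0, zero_mem _, 0, zero_mem _, by simp, by simp, by simp⟩
  smul_mem' := by
    rintro r _ ⟨κ, hκ, l, hl, u, hu, p, hp, h1, h2, rfl⟩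
    refine ⟨r • κ, Submodule.smul_mem _ r hκ, r • l, Submodule.smul_mem _ r hl, r • u,
      Submodule.smul_mem _ r hu, r • p, Submodule.smul_mem _ r hp, ?_, ?_, ?_⟩
    · convert Submodule.smul_mem _ r h1 using 1
      simp only [smul_add, smul_comm r]
    · simp only [Prod.smul_snd, smul_comm _ r, h2]
    · simp only [Prod.smul_fst, smul_add, smul_comm r]

theorem mem_dfm {ω : Bi H} {T : Submodule ℝ H} {V : ℝ → Submodule ℝ H} {θ t : ℝ} {x : H} :
    x ∈ dfm ω T V θ t ↔ ∃ κ ∈ KK V 0, ∃ l ∈ KK V (π / 4), ∃ u ∈ Tp ω T V, ∃ p ∈ Gr ω T V,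
      κ + cos θ • l + u ∈ V t ∧ sin (2 * t) • p.2 = sin θ • l ∧
        x = cos θ • κ + (sin θ * cos (2 * t)) • p.1 + l + u := Iff.rfl

/-- Harmonic sections of a system. -/
def Sec (V : ℝ → Submodule ℝ H) : Submodule ℝ (H × H) := ⨅ t, (V t).comap (evt (H := H) t).toLinearMap

theorem mem_Sec {V : ℝ → Submodule ℝ H} {p : H × H} : p ∈ Sec V ↔ ∀ t, evt t p ∈ V t := by
  simp only [Sec, Submodule.mem_iInf, Submodule.mem_comap]
  rfl

/-- Standard systems: a rotation plus a system in the complement. -/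
def Std (ω : Bi H) (T : Submodule ℝ H) (V : ℝ → Submodule ℝ H) : Prop :=
  ∀ t, ∀ x ∈ V t, ∃ p ∈ Sec V, x - evt t p ∈ Tp ω T V

section comb
variable {ι : Type} [Fintype ι]

/-- The form of a comb with kernel `c`. -/
def qf (c : ℝ → ℝ) (ω : Bi H) (t : ι → ℝ) (f f' : ι → H) : ℝ :=
  ∑ a, ∑ b, c (t b - t a) * ω (f a) (f' b)

/-- The forces with weights `w`. -/
def frc (V : ℝ → Submodule ℝ H) (w t : ι → ℝ) : WW ι H →L[ℝ] ι → H :=
  ContinuousLinearMap.pi fun a => w a • ((V (t a)).starProjection.comp (PiLp.proj 2 (fun _ : ι => H) a))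

theorem frc_apply (V : ℝ → Submodule ℝ H) (w t : ι → ℝ) (h : WW ι H) (a : ι) :
    frc V w t h a = w a • (V (t a)).starProjection (h a) := rfl

/-- The sum of the forces. -/
def tot (ι H : Type) [Fintype ι] [NormedAddCommGroup H] [InnerProductSpace ℝ H] : (ι → H) →L[ℝ] H :=
  ∑ a, ContinuousLinearMap.proj a

theorem tot_apply (f : ι → H) : tot ι H f = ∑ a, f a := by
  simp only [tot, sum_apply, ContinuousLinearMap.proj_apply]

/-- The coefficients whose forces have sum zero. -/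
def ker0 (V : ℝ → Submodule ℝ H) (w t : ι → ℝ) : Submodule ℝ (WW ι H) :=
  LinearMap.ker ((tot ι H).comp (frc V w t) : WW ι H →ₗ[ℝ] H)

/-- The forces after projection to sum zero. -/
def frc0 (V : ℝ → Submodule ℝ H) (w t : ι → ℝ) : WW ι H →L[ℝ] ι → H :=
  (frc V w t).comp (ker0 V w t).starProjection

/-- The operator of the form `qf` on a family `F` of combs. -/
def opq {W : Type} [NormedAddCommGroup W] [InnerProductSpace ℝ W] [FiniteDimensional ℝ W]
    (c : ℝ → ℝ) (ω : Bi H) (t : ι → ℝ) (F : W →L[ℝ] ι → H) : W →L[ℝ] W :=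
  (shp W).comp (∑ a, ∑ b, c (t b - t a) •
    ω.bilinearComp ((ContinuousLinearMap.proj a).comp F) ((ContinuousLinearMap.proj b).comp F))

theorem inner_opq {W : Type} [NormedAddCommGroup W] [InnerProductSpace ℝ W] [FiniteDimensional ℝ W]
    (c : ℝ → ℝ) (ω : Bi H) (t : ι → ℝ) (F : W →L[ℝ] ι → H) (h h' : W) :
    ⟪opq c ω t F h, h'⟫ = qf c ω t (F h) (F h') := by
  simp only [opq, ContinuousLinearMap.comp_apply, inner_shp, qf, sum_apply, smul_apply,
    ContinuousLinearMap.bilinearComp_apply, ContinuousLinearMap.proj_apply, smul_eq_mul]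

/-- The comb contains four consecutive teeth. -/
def Full (w t : ι → ℝ) : Prop := ∃ s : ℝ, ∀ j : Fin 4, ∃ a, w a ≠ 0 ∧ t a = s + (j : ℕ) * (π / 4)

/-- Weights and times over `s`: where the weight is not zero the time is continuous modulo `p`. -/
structure Wt {Y : Type} [TopologicalSpace Y] (s : Set Y) (p : ℝ) (w t : Y → ι → ℝ) : Prop where
  cw : ContinuousOn w s
  br : ∀ y ∈ s, ∀ a, w y a ≠ 0 → ∃ τ : Y → ℝ, ContinuousWithinAt τ s y ∧
    ∀ᶠ y' in 𝓝[s] y, ∃ j : ℤ, t y' a = τ y' + j * p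
  full : ∀ y ∈ s, Full (w y) (t y)

end comb

/-- The projector onto the negative eigenspace. -/
def ngP (W : Type) [NormedAddCommGroup W] [InnerProductSpace ℝ W] [FiniteDimensional ℝ W] :
    (W →L[ℝ] W) → W →L[ℝ] W := (B.exists_negP (V := W)).choose

theorem ngP_cont {W : Type} [NormedAddCommGroup W] [InnerProductSpace ℝ W] [FiniteDimensional ℝ W]
    (k : ℕ) : ContinuousOn (ngP W) {A | B.Idx k A} := ((B.exists_negP (V := W)).choose_spec k).1

theorem ngP_spec {W : Type} [NormedAddCommGroup W] [InnerProductSpace ℝ W] [FiniteDimensional ℝ W]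
    {k : ℕ} {A : W →L[ℝ] W} (h : B.Idx k A) : B.IsNegP k A (ngP W A) :=
  ((B.exists_negP (V := W)).choose_spec k).2 A h

section fam
variable {Y : Type} [TopologicalSpace Y] {m : ℕ}

/-- Continuous families of systems. -/
structure Fam0 (n k : ℕ) (s : Set Y) (ω : Y → Bi H) (T : Y → Submodule ℝ H)
    (V : Y → ℝ → Submodule ℝ H) : Prop where
  sys : ∀ y ∈ s, Sys n k (ω y) (T y) (V y)
  cω : ContinuousOn ω s
  cT : CS T s
  cV : CS (fun p : Y × ℝ => V p.1 p.2) (s ×ˢ univ)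

/-- A compact set with a flow and phases of speed `2`. -/
structure Flw (s : Set Y) (φ : ℝ → Y → Y) (z : Y → Fin (m + 1) → ℂ) : Prop where
  cpt : IsCompact s
  mem : ∀ r, MapsTo (φ r) s s
  cz : ContinuousOn z s
  ne : ∀ y ∈ s, z y ≠ 0
  eqv : ∀ r, ∀ y ∈ s, z (φ r y) = (Circle.exp (2 * r) : ℂ) • z y

/-- The weights of the teeth. -/
def wt (z : Fin (m + 1) → ℂ) (a : Te m) : ℝ := ‖z a.1‖

/-- Families of systems that are invariant under the flow. -/
structure Fam (n k : ℕ) (s : Set Y) (φ : ℝ → Y → Y) (ω : Y → Bi H) (T : Y → Submodule ℝ H)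
    (V : Y → ℝ → Submodule ℝ H) : Prop extends Fam0 n k s ω T V where
  iω : ∀ r, ∀ y ∈ s, ω (φ r y) = ω y
  iT : ∀ r, ∀ y ∈ s, T (φ r y) = T y
  iV : ∀ r, ∀ y ∈ s, ∀ t, V (φ r y) t = V y (t + r)

/-- The square roots of the phases. -/
def S2 (s : Set Y) (z : Y → Fin (m + 1) → ℂ) : Set (Y × (Fin (m + 1) → ℂ)) :=
  {p | p.1 ∈ s ∧ p.2 * p.2 = z p.1}

/-- The flow on the square roots. -/
def φ2 (φ : ℝ → Y → Y) (r : ℝ) (p : Y × (Fin (m + 1) → ℂ)) : Y × (Fin (m + 1) → ℂ) :=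
  (φ r p.1, (Circle.exp r : ℂ) • p.2)

/-- Rotation of a pair of vectors. -/
def rt {A : Type} [AddCommGroup A] [Module ℝ A] (r : ℝ) (n : A × A) : A × A :=
  (cos r • n.1 - sin r • n.2, sin r • n.1 + cos r • n.2)

/-- The output: a bundle `K` with negative combs `F1` of sum zero, identified with the conjugate
directions by `R`; a bundle `P` identified with `V 0 / KK V 0` by `R'`; negative antiperiodic combs `F2`
on `K + K + P`.  The ambient spaces are `A` and `A'`. -/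
structure Out (n k : ℕ) (s : Set Y) (φ : ℝ → Y → Y) (z : Y → Fin (m + 1) → ℂ) (ω : Y → Bi H)
    (V : Y → ℝ → Submodule ℝ H) (A A' : Type) [NormedAddCommGroup A] [InnerProductSpace ℝ A]
    [NormedAddCommGroup A'] [InnerProductSpace ℝ A'] where
  K : Y → A →L[ℝ] A
  cK : ContinuousOn K s
  idK : ∀ y ∈ s, ∀ a, K y (K y a) = K y a
  syK : ∀ y ∈ s, ∀ a b, ⟪K y a, b⟫ = ⟪a, K y b⟫
  rkK : ∀ y ∈ s, finrank ℝ (LinearMap.range (K y : A →ₗ[ℝ] A)) = k
  invK : ∀ r, ∀ y ∈ s, K (φ r y) = K y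
  R : Y → A →L[ℝ] H
  cR : ContinuousOn R s
  memR : ∀ y ∈ s, ∀ a, K y a = a → R y a ∈ KK (V y) 0
  injR : ∀ y ∈ s, ∀ a, K y a = a → R y a = 0 → a = 0
  F1 : Y → A →L[ℝ] Te m → H
  cF1 : ContinuousOn F1 s
  invF1 : ∀ r, ∀ y ∈ s, F1 (φ r y) = F1 y
  memF1 : ∀ y ∈ s, ∀ a b, F1 y a b ∈ V y (tm1 (z y) b)
  zeroF1 : ∀ y ∈ s, ∀ a b, z y b.1 = 0 → F1 y a b = 0
  sumF1 : ∀ y ∈ s, ∀ a, ∑ b, F1 y a b = 0
  neg1 : ∀ y ∈ s, ∀ a, K y a = a → a ≠ 0 → qf saw (ω y) (tm1 (z y)) (F1 y a) (F1 y a) < 0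
  P : Y × (Fin (m + 1) → ℂ) → A' →L[ℝ] A'
  cP : ContinuousOn P (S2 s z)
  idP : ∀ p ∈ S2 s z, ∀ a, P p (P p a) = P p a
  rkP : ∀ p ∈ S2 s z, finrank ℝ (LinearMap.range (P p : A' →ₗ[ℝ] A')) + k = n
  invP : ∀ r, ∀ p ∈ S2 s z, P (φ2 φ r p) = P p
  R' : Y × (Fin (m + 1) → ℂ) → A' →L[ℝ] H
  cR' : ContinuousOn R' (S2 s z)
  memR' : ∀ p ∈ S2 s z, ∀ a, P p a = a → R' p a ∈ V p.1 0
  injR' : ∀ p ∈ S2 s z, ∀ a, P p a = a → R' p a ∈ KK (V p.1) 0 → a = 0
  F2 : Y × (Fin (m + 1) → ℂ) → (A × A) × A' →L[ℝ] Te m → H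
  cF2 : ContinuousOn F2 (S2 s z)
  invF2 : ∀ r, ∀ p ∈ S2 s z, ∀ v a, F2 (φ2 φ r p) (rt r v, a) = F2 p (v, a)
  memF2 : ∀ p ∈ S2 s z, ∀ v b, F2 p v b ∈ V p.1 (tm2 p.2 b)
  zeroF2 : ∀ p ∈ S2 s z, ∀ v b, p.2 b.1 = 0 → F2 p v b = 0
  neg2 : ∀ p ∈ S2 s z, ∀ v : (A × A) × A', K p.1 v.1.1 = v.1.1 → K p.1 v.1.2 = v.1.2 →
    P p v.2 = v.2 → v ≠ 0 → qf sgp (ω p.1) (tm2 p.2) (F2 p v) (F2 p v) < 0

/-- The same data on the level of coefficients. -/
structure Pre (n k : ℕ) (s : Set Y) (φ : ℝ → Y → Y) (z : Y → Fin (m + 1) → ℂ) (ω : Y → Bi H)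
    (V : Y → ℝ → Submodule ℝ H) (A A' : Type) [NormedAddCommGroup A] [InnerProductSpace ℝ A]
    [NormedAddCommGroup A'] [InnerProductSpace ℝ A'] where
  K : Y → A →L[ℝ] A
  cK : ContinuousOn K s
  idK : ∀ y ∈ s, ∀ a, K y (K y a) = K y a
  syK : ∀ y ∈ s, ∀ a b, ⟪K y a, b⟫ = ⟪a, K y b⟫
  rkK : ∀ y ∈ s, finrank ℝ (LinearMap.range (K y : A →ₗ[ℝ] A)) = k
  invK : ∀ r, ∀ y ∈ s, K (φ r y) = K y
  R : Y → A →L[ℝ] H
  cR : ContinuousOn R s
  memR : ∀ y ∈ s, ∀ a, K y a = a → R y a ∈ KK (V y) 0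
  injR : ∀ y ∈ s, ∀ a, K y a = a → R y a = 0 → a = 0
  h1 : Y → A →L[ℝ] WW (Te m) H
  ch1 : ContinuousOn h1 s
  invh1 : ∀ r, ∀ y ∈ s, h1 (φ r y) = h1 y
  neg1 : ∀ y ∈ s, ∀ a, K y a = a → a ≠ 0 → qf saw (ω y) (tm1 (z y))
    (frc0 (V y) (wt (z y)) (tm1 (z y)) (h1 y a)) (frc0 (V y) (wt (z y)) (tm1 (z y)) (h1 y a)) < 0
  P : Y × (Fin (m + 1) → ℂ) → A' →L[ℝ] A'
  cP : ContinuousOn P (S2 s z)
  idP : ∀ p ∈ S2 s z, ∀ a, P p (P p a) = P p a
  rkP : ∀ p ∈ S2 s z, finrank ℝ (LinearMap.range (P p : A' →ₗ[ℝ] A')) + k = n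
  invP : ∀ r, ∀ p ∈ S2 s z, P (φ2 φ r p) = P p
  R' : Y × (Fin (m + 1) → ℂ) → A' →L[ℝ] H
  cR' : ContinuousOn R' (S2 s z)
  memR' : ∀ p ∈ S2 s z, ∀ a, P p a = a → R' p a ∈ V p.1 0
  injR' : ∀ p ∈ S2 s z, ∀ a, P p a = a → R' p a ∈ KK (V p.1) 0 → a = 0
  h2 : Y × (Fin (m + 1) → ℂ) → (A × A) × A' →L[ℝ] WW (Te m) H
  ch2 : ContinuousOn h2 (S2 s z)
  invh2 : ∀ r, ∀ p ∈ S2 s z, ∀ v a, h2 (φ2 φ r p) (rt r v, a) = h2 p (v, a)
  neg2 : ∀ p ∈ S2 s z, ∀ v : (A × A) × A', K p.1 v.1.1 = v.1.1 → K p.1 v.1.2 = v.1.2 →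
    P p v.2 = v.2 → v ≠ 0 → qf sgp (ω p.1) (tm2 p.2)
      (frc (V p.1) (wt (z p.1)) (tm2 p.2) (h2 p v)) (frc (V p.1) (wt (z p.1)) (tm2 p.2) (h2 p v)) < 0

end fam

end Pool.Agent.Work.MP_8c604c_gt.OS
end
end

-- merged part: Pool.Agent.Work.MP_8c604c_gt.OS.Saw
section
/-!
Elementary facts on the saw functions and on the times of the teeth.
Plan. `saw s = 1/2 - s/π` on `[0, π)` (`Int.fract_eq_self`), period `π` (`Int.fract_add_intCast`); every real number is
`r + j π` with `r ∈ [0, π)` (`toIcoMod`, or `Int.floor`), and `sin s = 0` iff `s` is a multiple of `π` (`Real.sin_eq_zero_iff`).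
Near a point of `[j π, (j+1) π)` from the right, and near a point of the open interval from both sides, `saw` is affine.
Branches of the argument: near `u ≠ 0` use `arg` if `u ∈ slitPlane` and `arg (-u) + π` otherwise (`Complex.arg_neg_eq_arg_sub_pi_of_im_pos` and relatives,
or `Complex.arg_coe_angle_eq_iff`, `Real.Angle.angle_eq_iff_two_pi_dvd_sub`).
-/

set_option maxSynthPendingDepth 3
set_option linter.unusedSectionVars false

open Set Filter Topology Real Module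
open scoped RealInnerProductSpace

noncomputable section
namespace Pool.Agent.Work.MP_8c604c_gt.OS

theorem Saw_dec (a s : ℝ) {p : ℝ} (hp : 0 < p) : ∃ r ∈ Ico a (a + p), ∃ j : ℤ, s = r + j * p :=
  ⟨_, toIcoMod_mem_Ico hp a s, toIcoDiv hp a s, by
    rw [← zsmul_eq_mul, toIcoMod_add_toIcoDiv_zsmul]⟩

theorem Saw_fr {s : ℝ} (h : sin s ≠ 0) : s / π ≠ ⌊s / π⌋ := fun e => h (by
  rw [(div_eq_iff pi_ne_zero).1 e, sin_int_mul_pi])

theorem saw_int (s : ℝ) (j : ℤ) : saw (s + j * π) = saw s := by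
  rw [saw, saw, add_div s, mul_div_cancel_right₀ _ pi_ne_zero, Int.fract_add_intCast]

theorem saw_add_pi (s : ℝ) : saw (s + π) = saw s := by
  simpa only [Int.cast_one, one_mul] using saw_int s 1

theorem saw_eq {s : ℝ} (h : s ∈ Ico 0 π) : saw s = 1 / 2 - s / π := by
  rw [saw, Int.fract_eq_self.2 ⟨div_nonneg h.1 pi_pos.le, (div_lt_one pi_pos).2 h.2⟩]

theorem saw_neg {s : ℝ} (h : sin s ≠ 0) : saw (-s) = -saw s := by
  rw [saw, saw, neg_div, Int.fract_neg (sub_ne_zero.2 (Saw_fr h))]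
  ring

theorem abs_saw_le (s : ℝ) : |saw s| ≤ 1 / 2 := by
  have h1 := Int.fract_nonneg (s / π)
  have h2 := Int.fract_lt_one (s / π)
  rw [saw, abs_le]
  constructor <;> linarith

theorem continuousAt_saw {s : ℝ} (h : sin s ≠ 0) : ContinuousAt saw s := by
  exact continuousAt_const.sub ((continuousAt_fract (Saw_fr h)).comp (f := fun x : ℝ => x / π)
    (continuousAt_id.div_const π))

theorem measurable_saw : Measurable saw := by
  exact measurable_const.sub (measurable_id.div_const π).fract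

theorem saw_hsg {s : ℝ} (h : |s| < π) (h0 : s ≠ 0) : saw s = hsg s - s / π := by
  obtain ⟨h1, h2⟩ := abs_lt.1 h
  rcases lt_or_gt_of_ne h0 with h3 | h3
  · rw [← saw_add_pi, saw_eq ⟨by linarith, by linarith⟩, hsg, sign_neg h3, add_div,
      div_self pi_ne_zero, SignType.coe_neg_one]
    ring
  · rw [saw_eq ⟨h3.le, h2⟩, hsg, sign_pos h3, SignType.coe_one]

theorem saw_half (s : ℝ) : (saw s - saw (s + π / 2)) * sin (2 * s) = |sin (2 * s)| / 2 := by
  obtain ⟨r, ⟨h1, h2⟩, j, rfl⟩ := Saw_dec 0 s pi_pos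
  have e : 2 * (r + j * π) = 2 * r + j * (2 * π) := by ring
  have hp := pi_pos
  rw [add_right_comm, saw_int, saw_int, e, sin_add_int_mul_two_pi, saw_eq ⟨h1, by linarith⟩]
  rcases lt_or_ge r (π / 2) with h3 | h3
  · rw [saw_eq ⟨by linarith, by linarith⟩,
      abs_of_nonneg (sin_nonneg_of_nonneg_of_le_pi (by linarith) (by linarith))]
    field_simp
    ring
  · have h4 : sin (2 * r) ≤ 0 := by
      have := sin_nonneg_of_nonneg_of_le_pi (x := 2 * r - π) (by linarith) (by linarith)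
      rw [sin_sub_pi] at this
      linarith
    rw [show r + π / 2 = r - π / 2 + π by ring, saw_add_pi, saw_eq ⟨by linarith, by linarith⟩,
      abs_of_nonpos h4]
    field_simp
    ring

theorem saw_deriv (s : ℝ) : HasDerivWithinAt saw (-(1 / π)) (Ici s) s := by
  obtain ⟨r, ⟨h1, h2⟩, j, e⟩ := Saw_dec 0 s pi_pos
  have key : ∀ x ∈ Ico s (π + j * π), saw x = 1 / 2 - (x - j * π) / π := fun x hx => by
    rw [← saw_eq ⟨by linarith [hx.1], by linarith [hx.2]⟩, ← saw_int (x - j * π) j, sub_add_cancel]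
  have hs : s < π + j * π := by linarith
  refine HasDerivWithinAt.congr_of_eventuallyEq ?_
    (eventually_of_mem (Ico_mem_nhdsGE hs) key) (key s ⟨le_rfl, hs⟩)
  exact ((((hasDerivAt_id s).sub_const _).div_const π).const_sub _).hasDerivWithinAt

theorem saw2_int (s : ℝ) (j : ℤ) : saw2 (s + j * (2 * π)) = saw2 s := by
  rw [saw2, saw2, ← saw_int (s / 2) j]
  congr 1
  ring

theorem saw2_eq {s : ℝ} (h : s ∈ Ico 0 (2 * π)) : saw2 s = 1 / 2 - s / (2 * π) := by
  rw [saw2, saw_eq ⟨by linarith [h.1], by linarith [h.2]⟩, div_div]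

theorem Saw_two (s : ℝ) : saw2 (s + π + π) = saw2 s := by
  rw [← saw2_int s 1]
  congr 1
  push_cast
  ring

theorem saw2_add (s : ℝ) : saw2 s + saw2 (s + π) = saw s := by
  obtain ⟨r, ⟨h1, h2⟩, j, rfl⟩ := Saw_dec (-π) s two_pi_pos
  have e : r + j * (2 * π) = r + ((2 * j : ℤ) : ℝ) * π := by
    push_cast
    ring
  have hp := pi_pos
  rw [add_right_comm, saw2_int, saw2_int, e, saw_int, saw2_eq (s := r + π) ⟨by linarith, by linarith⟩]
  rcases lt_or_ge r 0 with h3 | h3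
  · rw [← Saw_two, ← saw_add_pi, saw2_eq ⟨by linarith, by linarith⟩,
      saw_eq ⟨by linarith, by linarith⟩]
    field_simp
    ring
  · rw [saw2_eq ⟨h3, by linarith⟩, saw_eq ⟨h3, by linarith⟩]
    field_simp
    ring

theorem saw2_deriv (s : ℝ) : HasDerivWithinAt saw2 (-(1 / (2 * π))) (Ici s) s := by
  have h := (saw_deriv (s / 2)).comp s (h := fun x : ℝ => x / 2) (s := Ici s)
    ((hasDerivAt_id s).div_const 2).hasDerivWithinAt fun x hx => by
      have : s ≤ x := hx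
      change s / 2 ≤ x / 2
      linarith
  refine h.congr_deriv ?_
  field_simp

theorem sgp_add_pi (s : ℝ) : sgp (s + π) = -sgp s := by
  rw [sgp, sgp, Saw_two, neg_sub]

theorem sgp_int (s : ℝ) (j : ℤ) : sgp (s + j * (2 * π)) = sgp s := by
  rw [sgp, sgp, add_right_comm, saw2_int, saw2_int]

theorem sgp_eq {s : ℝ} (h : s ∈ Ico 0 π) : sgp s = 1 / 2 := by
  have hp := pi_pos
  rw [sgp, saw2_eq ⟨h.1, by linarith [h.2]⟩, saw2_eq ⟨by linarith [h.1], by linarith [h.2]⟩]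
  field_simp
  ring

theorem sgp_eq' {s : ℝ} (h : s ∈ Ico (-π) 0) : sgp s = -(1 / 2) := by
  rw [← sgp_eq (s := s + π) ⟨by linarith [h.1], by linarith [h.2]⟩, sgp_add_pi, neg_neg]

theorem Saw_sin (s : ℝ) : sgp s * sin s = |sin s| / 2 := by
  have h := saw_half (s / 2)
  rwa [← add_div, mul_div_cancel₀ _ two_ne_zero] at h

theorem sgp_neg {s : ℝ} (h : sin s ≠ 0) : sgp (-s) = -sgp s := by
  have h1 := Saw_sin (-s)
  rw [sin_neg, abs_neg, ← Saw_sin s] at h1
  refine mul_right_cancel₀ h ?_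
  linarith

theorem abs_sgp_le (s : ℝ) : |sgp s| ≤ 1 / 2 := by
  obtain ⟨r, ⟨h1, h2⟩, j, rfl⟩ := Saw_dec (-π) s two_pi_pos
  rw [sgp_int]
  rcases lt_or_ge r 0 with h3 | h3
  · rw [sgp_eq' ⟨h1, h3⟩, abs_neg, abs_of_pos one_half_pos]
  · rw [sgp_eq ⟨h3, by linarith⟩, abs_of_pos one_half_pos]

theorem continuousAt_sgp {s : ℝ} (h : sin s ≠ 0) : ContinuousAt sgp s := by
  refine ContinuousAt.congr (f := fun x => |sin x| / 2 / sin x)
    ((continuous_sin.abs.div_const 2).continuousAt.div continuous_sin.continuousAt h) ?_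
  filter_upwards [continuous_sin.continuousAt.eventually_ne h] with x hx
  rw [← Saw_sin, mul_div_cancel_right₀ _ hx]

theorem measurable_sgp : Measurable sgp := by
  have h : Measurable saw2 := measurable_saw.comp (measurable_id.div_const 2)
  exact h.sub (h.comp (measurable_id.add_const π))

theorem sgp_hsg {s : ℝ} (h : |s| < π) (h0 : s ≠ 0) : sgp s = hsg s := by
  obtain ⟨h1, h2⟩ := abs_lt.1 h
  rcases lt_or_gt_of_ne h0 with h3 | h3
  · rw [sgp_eq' ⟨h1.le, h3⟩, hsg, sign_neg h3, SignType.coe_neg_one, neg_div]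
  · rw [sgp_eq ⟨h3.le, h2⟩, hsg, sign_pos h3, SignType.coe_one]

theorem sgp_sin (s : ℝ) : sgp s * sin s = |sin s| / 2 := by
  exact Saw_sin s

theorem sgp_deriv (s : ℝ) : HasDerivWithinAt sgp 0 (Ici s) s := by
  have h := (saw2_deriv (s + π)).comp s (h := fun x : ℝ => x + π) (s := Ici s)
    ((hasDerivAt_id s).add_const π).hasDerivWithinAt fun x hx => add_le_add_left hx π
  refine ((saw2_deriv s).sub h).congr_deriv ?_
  rw [mul_one, sub_self]

theorem Saw_conj (u : ℂ) :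
    (‖u‖ : ℂ) * Complex.exp (-(u.arg * Complex.I)) = (starRingEnd ℂ) u := by
  conv_rhs => rw [← Complex.norm_mul_exp_arg_mul_I u]
  rw [map_mul, Complex.conj_ofReal, ← Complex.exp_conj, map_mul, Complex.conj_ofReal,
    Complex.conj_I, mul_neg]

theorem Saw_mul {u v : ℂ} (hu : u ≠ 0) (hv : v ≠ 0) :
    ∃ j : ℤ, (u * v).arg = u.arg + v.arg + j * (2 * π) := by
  have h := Complex.arg_mul_coe_angle hu hv
  rw [← Angle.coe_add, Angle.angle_eq_iff_two_pi_dvd_sub] at h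
  obtain ⟨j, hj⟩ := h
  exact ⟨j, by linarith⟩

theorem Saw_rot (r : ℝ) {u : ℂ} (hu : u ≠ 0) :
    ∃ j : ℤ, ((Circle.exp r : ℂ) * u).arg = u.arg + r + j * (2 * π) := by
  obtain ⟨j, hj⟩ := Saw_mul (Circle.coe_ne_zero (Circle.exp r)) hu
  have h := toIocMod_add_toIocDiv_zsmul two_pi_pos (-π) r
  rw [← Complex.arg_exp_mul_I, ← Circle.coe_exp, zsmul_eq_mul] at h
  refine ⟨j - toIocDiv two_pi_pos (-π) r, ?_⟩
  rw [Int.cast_sub]
  linarith

variable {m : ℕ}

/-- At the time of a tooth the phase is a positive multiple of a power of `I`. -/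
theorem exp_tm1 (z : Fin (m + 1) → ℂ) (a : Te m) :
    (‖z a.1‖ : ℂ) * Complex.exp (2 * tm1 z a * Complex.I) =
      Complex.I ^ (a.2 : ℕ) * (starRingEnd ℂ) (z a.1) := by
  rw [← Saw_conj, mul_left_comm, ← Complex.exp_pi_div_two_mul_I, ← Complex.exp_nat_mul,
    Complex.exp_pi_div_two_mul_I, ← Complex.exp_add, tm1]
  congr 2
  push_cast
  ring

theorem exp_tm2 (ζ : Fin (m + 1) → ℂ) (a : Te m) :
    (‖ζ a.1‖ : ℂ) * Complex.exp (tm2 ζ a * Complex.I) =
      Complex.exp (((a.2 : ℕ) * (π / 4) : ℝ) * Complex.I) * (starRingEnd ℂ) (ζ a.1) := by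
  rw [← Saw_conj, mul_left_comm, ← Complex.exp_add, tm2]
  congr 2
  push_cast
  ring

theorem tm1_flow (z : Fin (m + 1) → ℂ) (r : ℝ) {a : Te m} (h : z a.1 ≠ 0) :
    ∃ j : ℤ, tm1 ((Circle.exp (2 * r) : ℂ) • z) a + r = tm1 z a + j * π := by
  obtain ⟨j, hj⟩ := Saw_rot (2 * r) h
  refine ⟨-j, ?_⟩
  rw [tm1, tm1, Pi.smul_apply, smul_eq_mul, hj]
  push_cast
  ring

theorem tm2_flow (ζ : Fin (m + 1) → ℂ) (r : ℝ) {a : Te m} (h : ζ a.1 ≠ 0) :
    ∃ j : ℤ, tm2 ((Circle.exp r : ℂ) • ζ) a + r = tm2 ζ a + j * (2 * π) := by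
  obtain ⟨j, hj⟩ := Saw_rot r h
  refine ⟨-j, ?_⟩
  rw [tm2, tm2, Pi.smul_apply, smul_eq_mul, hj]
  push_cast
  ring

theorem tm1_sq (ζ : Fin (m + 1) → ℂ) (a : Te m) : ∃ j : ℤ, tm1 (ζ * ζ) a = tm2 ζ a + j * π := by
  rw [tm1, tm2, Pi.mul_apply]
  rcases eq_or_ne (ζ a.1) 0 with h | h
  · refine ⟨0, ?_⟩
    rw [h, mul_zero, Complex.arg_zero]
    push_cast
    ring
  · obtain ⟨j, hj⟩ := Saw_mul h h
    refine ⟨-j, ?_⟩
    rw [hj]
    push_cast
    ring

theorem wt_flow (z : Fin (m + 1) → ℂ) (θ : Circle) : wt ((θ : ℂ) • z) = wt z := by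
  funext a
  rw [wt, wt, Pi.smul_apply, smul_eq_mul, norm_mul, Circle.norm_coe, one_mul]

variable {Y : Type} [TopologicalSpace Y] {s : Set Y}

/-- A continuous branch of the argument. -/
theorem arg_branch {u : Y → ℂ} {y : Y} (hu : ContinuousWithinAt u s y) (h0 : u y ≠ 0) :
    ∃ τ : Y → ℝ, ContinuousWithinAt τ s y ∧
      ∀ᶠ y' in 𝓝[s] y, ∃ j : ℤ, (u y').arg = τ y' + j * (2 * π) := by
  have h1 : ContinuousAt Complex.arg (u y / u y) := by
    rw [div_self h0]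
    exact Complex.continuousAt_arg Complex.one_mem_slitPlane
  refine ⟨fun y' => (u y' / u y).arg + (u y).arg, (h1.comp_continuousWithinAt
    (f := fun y' => u y' / u y) (hu.div_const _)).add continuousWithinAt_const, ?_⟩
  · filter_upwards [Filter.Tendsto.eventually_ne hu h0] with y' hy'
    have h := Saw_mul (div_ne_zero hy' h0) h0
    rwa [div_mul_cancel₀ _ h0] at h

theorem wt_tm1 {z : Y → Fin (m + 1) → ℂ} (hz : ContinuousOn z s) (h0 : ∀ y ∈ s, z y ≠ 0)
    {w : Y → Te m → ℝ} (hw : ContinuousOn w s) (e : ∀ y ∈ s, ∀ a, w y a = 0 ↔ z y a.1 = 0) :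
    Wt s π w fun y => tm1 (z y) := by
  refine ⟨hw, fun y hy a ha => ?_, fun y hy => ?_⟩
  · obtain ⟨τ, h1, h2⟩ := arg_branch (continuousOn_pi.1 hz a.1 y hy) (mt (e y hy a).2 ha)
    refine ⟨fun y' => -τ y' / 2 + (a.2 : ℕ) * (π / 4),
      (h1.neg.div_const 2).add continuousWithinAt_const, h2.mono fun y' ⟨j, hj⟩ => ⟨-j, ?_⟩⟩
    rw [tm1, hj]
    push_cast
    ring
  · obtain ⟨i, hi⟩ := Function.ne_iff.1 (h0 y hy)
    exact ⟨-(z y i).arg / 2, fun j => ⟨(i, j), mt (e y hy _).1 hi, rfl⟩⟩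

theorem wt_tm2 {ζ : Y → Fin (m + 1) → ℂ} (hζ : ContinuousOn ζ s) (h0 : ∀ y ∈ s, ζ y ≠ 0)
    {w : Y → Te m → ℝ} (hw : ContinuousOn w s) (e : ∀ y ∈ s, ∀ a, w y a = 0 ↔ ζ y a.1 = 0) :
    Wt s (2 * π) w fun y => tm2 (ζ y) := by
  refine ⟨hw, fun y hy a ha => ?_, fun y hy => ?_⟩
  · obtain ⟨τ, h1, h2⟩ := arg_branch (continuousOn_pi.1 hζ a.1 y hy) (mt (e y hy a).2 ha)
    refine ⟨fun y' => -τ y' + (a.2 : ℕ) * (π / 4),
      h1.neg.add continuousWithinAt_const, h2.mono fun y' ⟨j, hj⟩ => ⟨-j, ?_⟩⟩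
    rw [tm2, hj]
    push_cast
    ring
  · obtain ⟨i, hi⟩ := Function.ne_iff.1 (h0 y hy)
    exact ⟨-(ζ y i).arg, fun j => ⟨(i, j), mt (e y hy _).1 hi, rfl⟩⟩

/-- A bounded periodic coefficient times a continuous function that vanishes where the coefficient jumps. -/
theorem cont_coef {F : Type} [NormedAddCommGroup F] [NormedSpace ℝ F] {c : ℝ → ℝ} {p : ℝ}
    (c1 : ∀ x, |c x| ≤ 1) (c2 : ∀ x, sin x ≠ 0 → ContinuousAt c x) (c3 : ∀ x (j : ℤ), c (x + j * p) = c x)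
    {u : Y → ℝ} {B : Y → F} (hB : ContinuousOn B s)
    (h : ∀ y ∈ s, B y = 0 ∨ (sin (u y) ≠ 0 ∧ ∃ τ : Y → ℝ, ContinuousWithinAt τ s y ∧
      ∀ᶠ y' in 𝓝[s] y, ∃ j : ℤ, u y' = τ y' + j * p)) :
    ContinuousOn (fun y => c (u y) • B y) s := by
  intro y hy
  rcases h y hy with h1 | ⟨h1, τ, h2, h3⟩
  · have h2 : Tendsto B (𝓝[s] y) (𝓝 0) := h1 ▸ hB y hy
    rw [ContinuousWithinAt, h1, smul_zero]
    exact Filter.IsBoundedUnder.smul_tendsto_zero
      (isBoundedUnder_of ⟨1, fun y' => c1 (u y')⟩) h2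
  · obtain ⟨j₀, h4⟩ := h3.self_of_nhdsWithin hy
    have h5 : ContinuousWithinAt (fun y' => c (τ y' + j₀ * p)) s y :=
      ContinuousAt.comp_continuousWithinAt (f := fun y' => τ y' + j₀ * p) (h4 ▸ c2 _ h1)
        (h2.add continuousWithinAt_const)
    refine (h5.congr_of_eventuallyEq (h3.mono fun y' ⟨j, hj⟩ => ?_) (by rw [h4])).smul (hB y hy)
    rw [hj, c3]
    exact (c3 _ j₀).symm

theorem isCompact_S2 [T2Space Y] {z : Y → Fin (m + 1) → ℂ} (hs : IsCompact s) (hz : ContinuousOn z s) :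
    IsCompact (S2 s z) := by
  obtain ⟨C, hC⟩ := hs.exists_bound_of_continuousOn hz
  refine (hs.prod (isCompact_closedBall (0 : Fin (m + 1) → ℂ) (|C| + 1))).of_isClosed_subset ?_ ?_
  · exact (hs.isClosed.preimage continuous_fst).isClosed_eq
      (continuous_snd.mul continuous_snd).continuousOn
      (hz.comp continuousOn_fst fun _ hp => hp)
  · rintro ⟨y, ζ⟩ ⟨h1, h2⟩
    refine ⟨h1, mem_closedBall_zero_iff.2 ((pi_norm_le_iff_of_nonneg (by positivity)).2 fun i => ?_)⟩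
    have h3 := (norm_le_pi_norm _ i).trans (hC y h1)
    rw [← show ζ * ζ = z y from h2, Pi.mul_apply, norm_mul] at h3
    have h4 := le_abs_self C
    have h5 := abs_nonneg C
    change ‖ζ i‖ ≤ |C| + 1
    nlinarith [norm_nonneg (ζ i), sq_nonneg (‖ζ i‖ - 1)]

end Pool.Agent.Work.MP_8c604c_gt.OS
end
end
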