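import Pool.Agent.Work.MP_8c604c_gt.OS.NDa
import Mathlib
import Pool.Agent.Work.MP_8c604c_gt.O.KS

-- merged part: Pool.Agent.Work.MP_8c604c_gt.OS.NDb
section
/-!
The negative fields: the index form.
Plan. `cQ`: pass to the subtype of `{z | z.1 ∈ XT}` and use `intervalIntegral.continuousAt_parametric_primitive_of_dominated`.  By `fld_fl` the integrand is `D2` of `brk`; it is measurable in `t` (`measurable_saw`, `measurable_sgp`),
locally bounded (`bd`, `nc_cont_D2` on the compact set `UT`), and at `z₀` it is continuous in `z` for all `t` outside the countable set where some `sin (t - tm2 ζ₀ b)` vanishes (`cont_coef`-type argument at one point: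
`arg_branch` if `ζ₀ b.1 ≠ 0`, vanishing forces otherwise).
`neg0`: `fld_fl`, `brk_int`, `UT_eq`, `psi_UT`; the two sums are `qf saw` (change the times `tm2` into `tm1` by `tm1_sq`, `saw_int`) and `qf sgp`; each is negative or zero by `neg1`, `neg2`.
`neg`: the integral is continuous (`cQ`), homogeneous of degree two in `z.2`, and negative on the compact set of `z ∈ tt2` with `‖z.2‖ = 1`.
`tr`: `fld_fl` at the times `0, π, π/2, 3π/2`; `saw_add_pi`, `sgp_add_pi`, `JJ_add_pi` separate the two parts; lift `(δ₁ - δ₂)/2` and `(δ₁ + δ₂)/2` (`lift`, `al_inv`, `al0`); `brk_tr1`, `brk_tr2` contradict `neg1`, `neg2`.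
-/

set_option maxSynthPendingDepth 3
set_option linter.unusedSectionVars false

open Set Filter Topology MeasureTheory
open scoped ContDiff

noncomputable section
namespace Pool.Agent.Work.MP_8c604c_gt.O

open OT OS Real
open T (RN cs)

variable {E : Type} [NormedAddCommGroup E] [InnerProductSpace ℝ E] [FiniteDimensional ℝ E] {d : ℕ}
  {μ : Model E d} {g : Met E} {G : Geo μ g} {m : ℕ}

theorem NDb_prim {X : Type} [TopologicalSpace X] [FirstCountableTopology X] {S : Set X}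
    {F : X → ℝ → ℝ} (hm : ∀ x ∈ S, AEStronglyMeasurable (F x) volume)
    (hb : ∀ x₀ ∈ S, ∃ C : ℝ, ∀ᶠ x in 𝓝[S] x₀, ∀ t, |F x t| ≤ C)
    (hc : ∀ x₀ ∈ S, ∀ᵐ t, ContinuousWithinAt (fun x => F x t) S x₀) :
    ContinuousOn (fun y : X × ℝ => ∫ t in (0 : ℝ)..y.2, F y.1 t) (S ×ˢ univ) := by
  have e : S ×ˢ (univ : Set ℝ) = Prod.map (Subtype.val : S → X) id '' univ := by
    rw [image_univ, range_prodMap, Subtype.range_coe, range_id]
  rw [e, (Topology.IsInducing.subtypeVal.prodMap .id).continuousOn_image_iff]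
  refine Continuous.continuousOn (continuous_iff_continuousAt.2 ?_)
  rintro ⟨x₀, r⟩
  obtain ⟨C, hC⟩ := hb x₀ x₀.2
  rw [nhdsWithin_eq_map_subtype_coe x₀.2, eventually_map] at hC
  exact intervalIntegral.continuousAt_parametric_primitive_of_dominated
    (F := fun x : S => F x) (μ := volume) (fun _ => C) (-(|r| + 1)) (|r| + 1)
    (fun x => (hm x x.2).restrict) (hC.mono fun x hx => Eventually.of_forall hx)
    intervalIntegrable_const
    (ae_restrict_of_ae ((hc x₀ x₀.2).mono fun t ht =>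
      (continuousWithinAt_iff_continuousAt_domRestrict _ x₀.2).1 ht))
    ⟨by linarith [abs_nonneg r], by linarith [abs_nonneg r]⟩
    ⟨by linarith [neg_abs_le r], by linarith [le_abs_self r]⟩ (measure_singleton r)

theorem NDb_coef {Y F : Type} [TopologicalSpace Y] [NormedAddCommGroup F] [NormedSpace ℝ F]
    {c : ℝ → ℝ} {p : ℝ} (c1 : ∀ x, |c x| ≤ 1 / 2) (c2 : ∀ x, sin x ≠ 0 → ContinuousAt c x)
    (c3 : ∀ x (j : ℤ), c (x + j * p) = c x) {u : Y → ℝ} {B : Y → F} {s : Set Y} {y : Y} (hy : y ∈ s)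
    (hB : ContinuousWithinAt B s y)
    (h : B y = 0 ∨ (sin (u y) ≠ 0 ∧ ∃ τ : Y → ℝ, ContinuousWithinAt τ s y ∧
      ∀ᶠ y' in 𝓝[s] y, ∃ j : ℤ, u y' = τ y' + j * p)) :
    ContinuousWithinAt (fun y => c (u y) • B y) s y := by
  rcases h with h1 | ⟨h1, τ, h2, h3⟩
  · have h2 : Tendsto B (𝓝[s] y) (𝓝 0) := h1 ▸ hB
    rw [ContinuousWithinAt, h1, smul_zero]
    exact Filter.IsBoundedUnder.smul_tendsto_zero
      (isBoundedUnder_of ⟨1 / 2, fun y' => c1 (u y')⟩) h2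
  · obtain ⟨j₀, h4⟩ := h3.self_of_nhdsWithin hy
    have h5 : ContinuousWithinAt (fun y' => c (τ y' + j₀ * p)) s y :=
      ContinuousAt.comp_continuousWithinAt (f := fun y' => τ y' + j₀ * p) (h4 ▸ c2 _ h1)
        (h2.add continuousWithinAt_const)
    refine (h5.congr_of_eventuallyEq (h3.mono fun y' ⟨j, hj⟩ => ?_) (by rw [h4])).smul hB
    rw [hj, c3]
    exact (c3 _ j₀).symm

theorem NDb_sin (c : ℝ) : ∀ᵐ t : ℝ, sin (t - c) ≠ 0 := by
  filter_upwards [(countable_range fun j : ℤ => c + j * π).ae_notMem volume] with t ht e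
  obtain ⟨j, hj⟩ := sin_eq_zero_iff.1 e
  exact ht ⟨j, by linarith⟩

theorem NDb_saw (x : ℝ) (j : ℤ) : saw (x + j * (2 * π)) = saw x := by
  rw [show x + j * (2 * π) = x + ((2 * j : ℤ) : ℝ) * π by push_cast; ring, saw_int]

theorem NDb_meas {ι : Type} [Fintype ι] {L : ℝ → E × E →L[ℝ] E} (hL : ∀ δ, Continuous fun s => L s δ)
    (t : ι → ℝ) (δ₁ δ₂ : ι → E × E) : AEStronglyMeasurable (brk L t δ₁ δ₂) volume :=
  Finset.aestronglyMeasurable_fun_sum _ fun a _ =>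
    ((measurable_saw.comp (measurable_id.sub_const (t a))).aestronglyMeasurable.smul
      (hL _).aestronglyMeasurable).add
    ((measurable_sgp.comp (measurable_id.sub_const (t a))).aestronglyMeasurable.smul
      (hL _).aestronglyMeasurable)

theorem NDb_rot {A : Type} [NormedAddCommGroup A] [NormedSpace ℝ A] (θ : Circle) (v : A × A) :
    ‖rot θ v‖ ≤ 2 * ‖v‖ := by
  have h1 : |(θ : ℂ).re| ≤ 1 := (Complex.abs_re_le_norm _).trans (Circle.norm_coe θ).le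
  have h2 : |(θ : ℂ).im| ≤ 1 := (Complex.abs_im_le_norm _).trans (Circle.norm_coe θ).le
  have k : ∀ (r : ℝ) (a : A), |r| ≤ 1 → ‖a‖ ≤ ‖v‖ → ‖r • a‖ ≤ ‖v‖ := fun r a hr ha => by
    rw [norm_smul, Real.norm_eq_abs]
    exact (mul_le_of_le_one_left (norm_nonneg _) hr).trans ha
  rw [rot, Prod.norm_mk]
  refine max_le ((norm_sub_le _ _).trans ?_) ((norm_add_le _ _).trans ?_)
  · linarith [k _ _ h1 (norm_fst_le v), k _ _ h2 (norm_snd_le v)]
  · linarith [k _ _ h2 (norm_fst_le v), k _ _ h1 (norm_snd_le v)]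

theorem NDb_fl_norm {N N' : ℕ} (t : ℝ) (z : ((E × E) × CM m) × FB N N') :
    ‖(G.fl t z).2‖ ≤ 2 * ‖z.2‖ := by
  have h0 := norm_nonneg z.2
  have h1 := norm_fst_le z.2
  have h2 := (norm_fst_le z.2.2).trans (norm_snd_le z.2)
  have h3 := (norm_snd_le z.2.2).trans (norm_snd_le z.2)
  have h4 := NDb_rot (Circle.exp t) z.2.2.1
  show ‖(z.2.1, rot (Circle.exp t) z.2.2.1, z.2.2.2)‖ ≤ _
  rw [Prod.norm_mk, Prod.norm_mk]
  exact max_le (by linarith) (max_le (by linarith) (by linarith))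

theorem NDb_fl_zero {N N' : ℕ} {z : ((E × E) × CM m) × FB N N'} (hz : z.1 ∈ XT μ g m) :
    G.fl 0 z = z := by
  obtain ⟨⟨x, ζ⟩, a, v, b⟩ := z
  have h1 : G.psi 0 x = x := G.psi_zero' hz.1.1
  simp [Geo.fl, Geo.f2, rot, h1]

theorem NDb_fld_smul {N N' : ℕ} (X1 : (E × E) × CM m → RN N →L[ℝ] E)
    (X2 : (E × E) × CM m → (RN N × RN N) × RN N' →L[ℝ] E) (t r : ℝ) (w : (E × E) × CM m)
    (v : FB N N') : fld X1 X2 (G.fl t (w, r • v)) = r • fld X1 X2 (G.fl t (w, v)) := by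
  have e : ((rot (Circle.exp t) (r • v.2.1), r • v.2.2) : (RN N × RN N) × RN N') =
      r • (rot (Circle.exp t) v.2.1, v.2.2) := by
    simp only [rot, Prod.smul_mk, Prod.smul_fst, Prod.smul_snd, smul_sub, smul_add, smul_comm r]
  show X1 _ (r • v.1) + X2 _ (rot (Circle.exp t) (r • v.2.1), r • v.2.2) = r • (X1 _ v.1 + X2 _ _)
  rw [e, map_smul, map_smul, smul_add]
  rfl

theorem NDb_q2 (x : E × E) (r : ℝ) (a b : E) : q2 g x (r • a) (r • b) = r ^ 2 * q2 g x a b := by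
  rw [q2, q2, D2, D2, ← Prod.smul_mk, map_smul, map_smul, _root_.smul_apply, smul_eq_mul,
    smul_eq_mul]
  ring

theorem NDb_sq2 : Continuous (sq2 : (E × E) × CM m → (E × E) × CM m) :=
  continuous_fst.prodMk (continuous_snd.mul continuous_snd)

theorem NDb_J (B : Bl g G) (t : ℝ) (x : E × E) (hx : x ∈ μ.OO) (δ : E × E) :
    G.JJ t x δ = G.JJ 0 (G.psi t x) (fderiv ℝ (G.psi t) x δ) := by
  rw [← G.JJ_add B.met 0 t hx, zero_add]

theorem NDb_D (B : Bl g G) (t : ℝ) (x : E × E) (hx : x ∈ μ.OO) (δ : E × E) :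
    G.JD t x δ = G.JD 0 (G.psi t x) (fderiv ℝ (G.psi t) x δ) := by
  rw [← G.JD_add B.met 0 t hx, zero_add]

theorem NDb_sl {Y : Type} [NormedAddCommGroup Y] [NormedSpace ℝ Y] {f : ℝ → E × E → Y}
    (hf : ContDiffOn ℝ ∞ (fun p : ℝ × E × E => f p.1 p.2) {p | p.2 ∈ μ.OO}) (t : ℝ) :
    ContinuousOn (f t) (UT μ g) :=
  hf.continuousOn.comp (f := fun x : E × E => (t, x))
    (continuous_const.prodMk continuous_id).continuousOn fun _ hx => Model.TT_OO hx.1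

namespace EV
variable (D : EV G m) {n k N N' : ℕ} (O : Out n k (XT μ g m) G.f1 Prod.snd D.sw D.V (RN N) (RN N'))

/-- The density of the index form. -/
def den (z : ((E × E) × CM m) × FB N N') (t : ℝ) : ℝ :=
  q2 g (G.fl t z).1.1 (fld (D.X1 O (G.JJ 0)) (D.X2 O (G.JJ 0)) (G.fl t z))
    (fld (D.X1 O (G.JD 0)) (D.X2 O (G.JD 0)) (G.fl t z))

theorem NDb_den (B : Bl g G) {z : ((E × E) × CM m) × FB N N'} (hz : z.1 ∈ XT μ g m) (t : ℝ) :
    D.den O z t = D2 g (G.Z t z.1.1, vel g (G.psi t z.1.1))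
      (brk (fun s => G.JJ s z.1.1) (tm2 z.1.2) (D.d1 O z) (D.d2 O z) t,
        brk (fun s => G.JD s z.1.1) (tm2 z.1.2) (D.d1 O z) (D.d2 O z) t)
      (brk (fun s => G.JJ s z.1.1) (tm2 z.1.2) (D.d1 O z) (D.d2 O z) t,
        brk (fun s => G.JD s z.1.1) (tm2 z.1.2) (D.d1 O z) (D.d2 O z) t) := by
  rw [den, D.fld_fl O B G.JJ (NDb_J B) hz, D.fld_fl O B G.JD (NDb_D B) hz, q2]
  exact congrArg (fun p => D2 g p _ _) (UT_eq (G.psi_UT B.met t hz.1)).symm

theorem NDb_hom (t r : ℝ) (w : (E × E) × CM m) (v : FB N N') :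
    D.den O (w, r • v) t = r ^ 2 * D.den O (w, v) t := by
  rw [den, den, NDb_fld_smul, NDb_fld_smul, NDb_q2]
  rfl

theorem NDb_c1 (a : Te m) : ContinuousOn (fun z => D.d1 O z a) {z | z.1 ∈ XT μ g m} := by
  have h1 : ContinuousOn (fun z : ((E × E) × CM m) × FB N N' => sq2 z.1) {z | z.1 ∈ XT μ g m} :=
    (NDb_sq2.comp continuous_fst).continuousOn
  have h2 : MapsTo (fun z : ((E × E) × CM m) × FB N N' => sq2 z.1) {z | z.1 ∈ XT μ g m}
      (XT μ g m) := fun _ hz => sq2_mem hz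
  exact (D.cev.comp h1 h2).clm_apply ((continuous_apply a).comp_continuousOn
    ((O.cF1.comp h1 h2).clm_apply (continuous_fst.comp continuous_snd).continuousOn))

theorem NDb_c2 (a : Te m) : ContinuousOn (fun z => D.d2 O z a) {z | z.1 ∈ XT μ g m} := by
  have h1 : Continuous fun z : ((E × E) × CM m) × FB N N' => sq2 z.1 := NDb_sq2.comp continuous_fst
  have h2 : MapsTo (fun z : ((E × E) × CM m) × FB N N' => sq2 z.1) {z | z.1 ∈ XT μ g m}
      (XT μ g m) := fun _ hz => sq2_mem hz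
  have h3 : ContinuousOn (fun z : ((E × E) × CM m) × FB N N' => O.F2 (sq2 z.1, z.1.2))
      {z | z.1 ∈ XT μ g m} :=
    O.cF2.comp (f := fun z : ((E × E) × CM m) × FB N N' => (sq2 z.1, z.1.2))
      (h1.prodMk (continuous_snd.comp continuous_fst)).continuousOn fun _ hz => sq2_S2 hz
  exact (D.cev.comp h1.continuousOn h2).clm_apply ((continuous_apply a).comp_continuousOn
    (h3.clm_apply (continuous_snd.comp continuous_snd).continuousOn))

theorem NDb_cb {L : ℝ → E × E → E × E →L[ℝ] E} {t : ℝ} (hL : ContinuousOn (L t) (UT μ g))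
    {z₀ : ((E × E) × CM m) × FB N N'} (hz : z₀.1 ∈ XT μ g m)
    (ht : ∀ a, sin (t - tm2 z₀.1.2 a) ≠ 0) :
    ContinuousWithinAt (fun z : ((E × E) × CM m) × FB N N' =>
      brk (fun s => L s z.1.1) (tm2 z.1.2) (D.d1 O z) (D.d2 O z) t) {z | z.1 ∈ XT μ g m} z₀ := by
  have h1 : ContinuousOn (fun z : ((E × E) × CM m) × FB N N' => L t z.1.1) {z | z.1 ∈ XT μ g m} :=
    hL.comp (f := fun z : ((E × E) × CM m) × FB N N' => z.1.1)
      (continuous_fst.comp continuous_fst).continuousOn fun _ hz => hz.1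
  have key : ∀ a : Te m, z₀.1.2 a.1 ≠ 0 → ∃ τ : ((E × E) × CM m) × FB N N' → ℝ,
      ContinuousWithinAt τ {z | z.1 ∈ XT μ g m} z₀ ∧ ∀ᶠ z in 𝓝[{z | z.1 ∈ XT μ g m}] z₀,
        ∃ j : ℤ, t - tm2 z.1.2 a = τ z + j * (2 * π) := fun a ha => by
    obtain ⟨τ, h2, h3⟩ := arg_branch (s := {z | z.1 ∈ XT μ g m})
      (u := fun z : ((E × E) × CM m) × FB N N' => z.1.2 a.1) (y := z₀)
      (((continuous_apply a.1).comp (continuous_snd.comp continuous_fst)).continuousWithinAt) ha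
    refine ⟨fun z => t + τ z - (a.2 : ℕ) * (π / 4),
      (continuousWithinAt_const.add h2).sub continuousWithinAt_const,
      h3.mono fun z ⟨j, hj⟩ => ⟨j, ?_⟩⟩
    rw [tm2, hj]
    ring
  refine tendsto_finsetSum _ fun a _ => ContinuousWithinAt.add ?_ ?_
  · refine NDb_coef abs_saw_le (fun _ => continuousAt_saw) NDb_saw
      (u := fun z : ((E × E) × CM m) × FB N N' => t - tm2 z.1.2 a) hz
      ((h1.clm_apply (D.NDb_c1 O a)) z₀ hz) ?_
    by_cases ha : z₀.1.2 a.1 = 0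
    · refine Or.inl ?_
      have : O.F1 (sq2 z₀.1) z₀.2.1 a = 0 :=
        O.zeroF1 _ (sq2_mem hz) _ _ (show z₀.1.2 a.1 * z₀.1.2 a.1 = 0 by rw [ha, mul_zero])
      rw [d1, this, map_zero, map_zero]
    · exact Or.inr ⟨ht a, key a ha⟩
  · refine NDb_coef abs_sgp_le (fun _ => continuousAt_sgp) sgp_int
      (u := fun z : ((E × E) × CM m) × FB N N' => t - tm2 z.1.2 a) hz
      ((h1.clm_apply (D.NDb_c2 O a)) z₀ hz) ?_
    by_cases ha : z₀.1.2 a.1 = 0
    · refine Or.inl ?_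
      have : O.F2 (sq2 z₀.1, z₀.1.2) z₀.2.2 a = 0 := O.zeroF2 _ (sq2_S2 hz) _ _ ha
      rw [d2, this, map_zero, map_zero]
    · exact Or.inr ⟨ht a, key a ha⟩

theorem NDb_bd (B : Bl g G) : ∃ C : ℝ, 0 ≤ C ∧ ∀ z : ((E × E) × CM m) × FB N N', z.1 ∈ XT μ g m →
    ∀ t, |D.den O z t| ≤ C * ‖z.2‖ ^ 2 := by
  obtain ⟨C1, h1⟩ := D.bd O B (G.JJ 0) (NDb_sl (G.contDiffOn_JJ B.met) 0)
  obtain ⟨C2, h2⟩ := D.bd O B (G.JD 0) (NDb_sl (G.contDiffOn_JD B.met) 0)
  have hc : ContinuousOn (fun x => ‖fderiv ℝ (fderiv ℝ (Lg g)) x‖) (UT μ g) :=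
    (continuous_norm (E := E × E →L[ℝ] E × E →L[ℝ] ℝ)).comp_continuousOn
      (B.met.nc_cont_D2.mono fun x hx => hx.1.1.1)
  obtain ⟨M, hM⟩ := (B.met.isCompact_UT.image_of_continuousOn hc).bddAbove
  refine ⟨|M| * ((|C1| + |C2|) * 2) ^ 2, by positivity, fun z hz t => ?_⟩
  have hz' : (G.fl t z).1 ∈ XT μ g m := G.f2_mem B.met t hz
  have k0 := NDb_fl_norm (G := G) t z
  have k : ∀ C : ℝ, C * ‖(G.fl t z).2‖ ≤ |C| * (2 * ‖z.2‖) := fun C =>
    mul_le_mul (le_abs_self C) k0 (norm_nonneg _) (abs_nonneg C)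
  have k1 := (h1 _ hz').trans (k C1)
  have k2 := (h2 _ hz').trans (k C2)
  have k3 := (hM (mem_image_of_mem _ hz'.1)).trans (le_abs_self M)
  rw [den, q2, D2]
  generalize fld (D.X1 O (G.JJ 0)) (D.X2 O (G.JJ 0)) (G.fl t z) = a at k1
  generalize fld (D.X1 O (G.JD 0)) (D.X2 O (G.JD 0)) (G.fl t z) = b at k2
  have p1 : 0 ≤ |C1| * (2 * ‖z.2‖) := by positivity
  have p2 : 0 ≤ |C2| * (2 * ‖z.2‖) := by positivity
  have k4 : ‖((a, b) : E × E)‖ ≤ (|C1| + |C2|) * 2 * ‖z.2‖ := by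
    rw [Prod.norm_mk]
    exact max_le (by linarith) (by linarith)
  refine ((fderiv ℝ (fderiv ℝ (Lg g)) (G.fl t z).1.1).le_opNorm₂ (a, b) (a, b)).trans ?_
  rw [mul_assoc, mul_assoc, ← sq, ← mul_pow]
  exact mul_le_mul k3 (pow_le_pow_left₀ (norm_nonneg _) k4 2) (sq_nonneg _) (abs_nonneg M)

theorem NDb_q1 {z : ((E × E) × CM m) × FB N N'} (hz : z ∈ tt2 (XT μ g m) O.K (D.P2 O))
    (h0 : z.2.1 ≠ 0) : qf saw (D.sw (sq2 z.1)) (tm2 z.1.2) (O.F1 (sq2 z.1) z.2.1)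
      (O.F1 (sq2 z.1) z.2.1) < 0 := by
  refine lt_of_eq_of_lt ?_ (O.neg1 _ (sq2_mem hz.1) _ hz.2.1 h0)
  refine Finset.sum_congr rfl fun a _ => Finset.sum_congr rfl fun b _ => ?_
  obtain ⟨i, hi⟩ := tm1_sq z.1.2 a
  obtain ⟨j, hj⟩ := tm1_sq z.1.2 b
  have e : tm1 (sq2 z.1).2 b - tm1 (sq2 z.1).2 a =
      tm2 z.1.2 b - tm2 z.1.2 a + ((j - i : ℤ) : ℝ) * π := by
    show tm1 (z.1.2 * z.1.2) b - tm1 (z.1.2 * z.1.2) a = _
    rw [hi, hj]
    push_cast
    ring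
  rw [e, saw_int]

theorem NDb_q2' {z : ((E × E) × CM m) × FB N N'} (hz : z ∈ tt2 (XT μ g m) O.K (D.P2 O))
    (h0 : z.2.2 ≠ 0) : qf sgp (D.sw (sq2 z.1)) (tm2 z.1.2) (O.F2 (sq2 z.1, z.1.2) z.2.2)
      (O.F2 (sq2 z.1, z.1.2) z.2.2) < 0 :=
  O.neg2 _ (sq2_S2 hz.1) _ hz.2.2.1 hz.2.2.2.1 hz.2.2.2.2 h0

theorem NDb_split (B : Bl g G) {z : ((E × E) × CM m) × FB N N'} (hz : z.1 ∈ XT μ g m) (s : ℝ) :
    fld (D.X1 O (G.JJ 0)) (D.X2 O (G.JJ 0)) (G.fl s z) =
      G.JJ s z.1.1 (D.ev (sq2 z.1) (∑ a, saw (s - tm2 z.1.2 a) • O.F1 (sq2 z.1) z.2.1 a)) +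
      G.JJ s z.1.1 (D.ev (sq2 z.1)
        (∑ a, sgp (s - tm2 z.1.2 a) • O.F2 (sq2 z.1, z.1.2) z.2.2 a)) := by
  rw [D.fld_fl O B G.JJ (NDb_J B) hz, brk, Finset.sum_add_distrib]
  simp only [map_sum, map_smul, d1, d2]

variable (B : Bl g G) (hn : ∀ y ∈ XT μ g m, Sys n k (D.sw y) (D.T y) (D.V y))
include B hn

theorem cQ : ContinuousOn
    (fun y : (((E × E) × CM m) × FB N N') × ℝ => ∫ t in (0 : ℝ)..y.2, D.den O y.1 t)
    ({z | z.1 ∈ XT μ g m} ×ˢ univ) := by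
  have _ := hn
  refine NDb_prim (F := D.den O) (fun z hz => ?_) (fun z₀ _ => ?_) fun z₀ hz => ?_
  · have hx : z.1.1 ∈ μ.OO := Model.TT_OO hz.1.1
    have hΦ : Continuous fun p : ℝ × E × E =>
        D2 g (G.Z p.1 z.1.1, vel g (G.psi p.1 z.1.1)) p.2 p.2 :=
      (((G.nc_cont_second B.met hx).comp continuous_fst).clm_apply continuous_snd).clm_apply
        continuous_snd
    rw [funext (D.NDb_den O B hz)]
    exact hΦ.comp_aestronglyMeasurable (aestronglyMeasurable_id.prodMk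
      ((NDb_meas (L := fun s => G.JJ s z.1.1) (fun δ => continuous_iff_continuousAt.2 fun t =>
        (G.hasDerivAt_JJ B.met t hx δ).continuousAt) _ _ _).prodMk
      (NDb_meas (L := fun s => G.JD s z.1.1) (G.nc_cont_JD B.met hx) _ _ _)))
  · obtain ⟨C, hC, H⟩ := D.NDb_bd O B
    refine ⟨C * (‖z₀.2‖ + 1) ^ 2, ?_⟩
    have h1 : ∀ᶠ z : ((E × E) × CM m) × FB N N' in 𝓝 z₀, ‖z.2‖ < ‖z₀.2‖ + 1 :=
      continuous_snd.norm.continuousAt.eventually_lt_const (lt_add_one _)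
    filter_upwards [self_mem_nhdsWithin, mem_nhdsWithin_of_mem_nhds h1] with z h2 h3 t
    exact (H z h2 t).trans
      (mul_le_mul_of_nonneg_left (pow_le_pow_left₀ (norm_nonneg _) (le_of_lt h3) 2) hC)
  · filter_upwards [ae_all_iff.2 fun a => NDb_sin (tm2 z₀.1.2 a)] with t ht
    have h1 := (D.NDb_cb O (NDb_sl (G.contDiffOn_JJ B.met) t) hz ht).prodMk
      (D.NDb_cb O (NDb_sl (G.contDiffOn_JD B.met) t) hz ht)
    have h2 : ContinuousOn (fun x : E × E => ((G.Z t x, vel g (G.psi t x)) : E × E)) (UT μ g) :=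
      (NDb_sl (G.contDiffOn_Z B.met) t).prodMk
        (NDb_sl (f := fun t x => vel g (G.psi t x)) (G.jacA_vel B.met) t)
    have h3 : ContinuousOn (fun x : E × E =>
        fderiv ℝ (fderiv ℝ (Lg g)) ((G.Z t x, vel g (G.psi t x)) : E × E)) (UT μ g) :=
      B.met.nc_cont_D2.comp h2 fun x hx => G.Z_U t (Model.TT_OO hx.1)
    have h4 : ContinuousOn (fun z : ((E × E) × CM m) × FB N N' =>
        fderiv ℝ (fderiv ℝ (Lg g)) ((G.Z t z.1.1, vel g (G.psi t z.1.1)) : E × E))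
        {z | z.1 ∈ XT μ g m} :=
      h3.comp (f := fun z : ((E × E) × CM m) × FB N N' => z.1.1)
        (continuous_fst.comp continuous_fst).continuousOn fun _ hz => hz.1
    exact (((h4 z₀ hz).clm_apply h1).clm_apply h1).congr (fun z hz' => D.NDb_den O B hz' t)
      (D.NDb_den O B hz t)

theorem neg0 {z : ((E × E) × CM m) × FB N N'} (hz : z ∈ tt2 (XT μ g m) O.K (D.P2 O)) (h0 : z.2 ≠ 0) :
    ∫ t in (0 : ℝ)..2 * π, D.den O z t < 0 := by
  obtain ⟨e1, e2, e3⟩ := D.d_spec O B hn hz.1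
  have e : ∫ t in (0 : ℝ)..2 * π, D.den O z t =
      2 * qf saw (D.sw (sq2 z.1)) (tm2 z.1.2) (O.F1 (sq2 z.1) z.2.1) (O.F1 (sq2 z.1) z.2.1) +
        2 * qf sgp (D.sw (sq2 z.1)) (tm2 z.1.2) (O.F2 (sq2 z.1, z.1.2) z.2.2)
          (O.F2 (sq2 z.1, z.1.2) z.2.2) := by
    rw [funext (D.NDb_den O B hz.1)]
    exact brk_int B (Model.TT_OO hz.1.1.1) e1 e2 e3
  rw [e]
  by_cases h1 : z.2.1 = 0
  · have h2 : z.2.2 ≠ 0 := fun h2 => h0 (Prod.ext h1 h2)
    have h3 : qf saw (D.sw (sq2 z.1)) (tm2 z.1.2) (O.F1 (sq2 z.1) z.2.1)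
        (O.F1 (sq2 z.1) z.2.1) = 0 := by simp [h1, qf]
    linarith [D.NDb_q2' O hz h2]
  · by_cases h2 : z.2.2 = 0
    · have h3 : qf sgp (D.sw (sq2 z.1)) (tm2 z.1.2) (O.F2 (sq2 z.1, z.1.2) z.2.2)
          (O.F2 (sq2 z.1, z.1.2) z.2.2) = 0 := by simp [h2, qf]
      linarith [D.NDb_q1 O hz h1]
    · linarith [D.NDb_q1 O hz h1, D.NDb_q2' O hz h2]

theorem neg : ∃ δ : ℝ, 0 < δ ∧ ∀ z ∈ tt2 (XT μ g m) O.K (D.P2 O),
    ∫ t in (0 : ℝ)..2 * π, D.den O z t ≤ -(δ * ‖z.2‖ ^ 2) := by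
  have hC : IsCompact (XT μ g m ×ˢ Metric.sphere (0 : FB N N') 1) :=
    (B.met.isCompact_XT m).prod (isCompact_sphere _ _)
  have s1 : Continuous fun z : ((E × E) × CM m) × FB N N' => sq2 z.1 := NDb_sq2.comp continuous_fst
  have hK : ContinuousOn (fun z : ((E × E) × CM m) × FB N N' => O.K (sq2 z.1))
      (XT μ g m ×ˢ Metric.sphere (0 : FB N N') 1) :=
    O.cK.comp s1.continuousOn fun _ hz => sq2_mem hz.1
  have hP : ContinuousOn (fun z : ((E × E) × CM m) × FB N N' => D.P2 O z.1)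
      (XT μ g m ×ˢ Metric.sphere (0 : FB N N') 1) :=
    O.cP.comp (f := fun z : ((E × E) × CM m) × FB N N' => (sq2 z.1, z.1.2))
      (s1.prodMk (continuous_snd.comp continuous_fst)).continuousOn fun _ hz => sq2_S2 hz.1
  have hf : ContinuousOn (fun z : ((E × E) × CM m) × FB N N' =>
      ((O.K (sq2 z.1) z.2.1, (O.K (sq2 z.1) z.2.2.1.1, O.K (sq2 z.1) z.2.2.1.2),
        D.P2 O z.1 z.2.2.2) : FB N N') - z.2) (XT μ g m ×ˢ Metric.sphere (0 : FB N N') 1) :=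
    ((hK.clm_apply (by fun_prop)).prodMk (((hK.clm_apply (by fun_prop)).prodMk
      (hK.clm_apply (by fun_prop))).prodMk (hP.clm_apply (by fun_prop)))).sub
      continuous_snd.continuousOn
  have hT := hC.of_isClosed_subset
    (hf.preimage_isClosed_of_isClosed hC.isClosed (isClosed_singleton (x := 0))) inter_subset_left
  have hQ : ContinuousOn (fun z : ((E × E) × CM m) × FB N N' =>
      -∫ t in (0 : ℝ)..2 * π, D.den O z t) {z | z.1 ∈ XT μ g m} :=
    ((D.cQ O B hn).comp (f := fun z => (z, 2 * π))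
      (continuous_id.prodMk continuous_const).continuousOn fun _ hz => ⟨hz, mem_univ _⟩).neg
  obtain ⟨δ, hδ, H⟩ := hT.exists_forall_le' (a := 0) (hQ.mono fun z hz => hz.1.1) fun z hz => by
    have h1 := sub_eq_zero.1 (mem_singleton_iff.1 hz.2)
    refine neg_pos.2 (D.neg0 O B hn ⟨hz.1.1, congrArg (·.1) h1, congrArg (·.2.1.1) h1,
      congrArg (·.2.1.2) h1, congrArg (·.2.2) h1⟩ fun h2 => ?_)
    have h3 := mem_sphere_zero_iff_norm.1 hz.1.2
    rw [h2, norm_zero] at h3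
    exact zero_ne_one h3
  refine ⟨δ, hδ, ?_⟩
  rintro ⟨w, v⟩ ⟨h1, h2, h3, h4, h5⟩
  by_cases h0 : v = 0
  · have e : D.den O (w, v) = fun _ => 0 := funext fun t => by
      rw [h0, ← zero_smul ℝ (0 : FB N N'), D.NDb_hom O]
      simp
    rw [e]
    simp [h0]
  · have hv : ‖v‖ ≠ 0 := norm_ne_zero_iff.2 h0
    have e : D.den O (w, v) = fun t => ‖v‖ ^ 2 * D.den O (w, ‖v‖⁻¹ • v) t := funext fun t => by
      rw [← D.NDb_hom O, smul_inv_smul₀ hv]
    have h6 := H (w, ‖v‖⁻¹ • v) ⟨⟨h1, mem_sphere_zero_iff_norm.2 (norm_smul_inv_norm h0)⟩, by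
      refine mem_singleton_iff.2 (sub_eq_zero.2 ?_)
      show ((O.K (sq2 w) (‖v‖⁻¹ • v.1), (O.K (sq2 w) (‖v‖⁻¹ • v.2.1.1),
        O.K (sq2 w) (‖v‖⁻¹ • v.2.1.2)), D.P2 O w (‖v‖⁻¹ • v.2.2)) : FB N N') = ‖v‖⁻¹ • v
      rw [map_smul, map_smul, map_smul, map_smul, h2, h3, h4, h5]
      rfl⟩
    rw [e, intervalIntegral.integral_const_mul]
    have h7 := mul_le_mul_of_nonneg_left h6 (sq_nonneg ‖v‖)
    show _ ≤ -(δ * ‖v‖ ^ 2)
    linarith

theorem tr {z : ((E × E) × CM m) × FB N N'} (hz : z ∈ tt2 (XT μ g m) O.K (D.P2 O)) {δ₁ δ₂ : E × E}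
    (h0 : fld (D.X1 O (G.JJ 0)) (D.X2 O (G.JJ 0)) (G.fl π z) = fld (D.X1 O (G.JJ 0)) (D.X2 O (G.JJ 0)) z)
    (h1 : G.JJ 0 z.1.1 δ₁ = fld (D.X1 O (G.JJ 0)) (D.X2 O (G.JJ 0)) z)
    (h2 : G.JJ (π / 2) z.1.1 δ₁ = fld (D.X1 O (G.JJ 0)) (D.X2 O (G.JJ 0)) (G.fl (π / 2) z))
    (h3 : G.JJ 0 z.1.1 δ₂ = fld (D.X1 O (G.JJ 0)) (D.X2 O (G.JJ 0)) z)
    (h4 : G.JJ (π / 2) z.1.1 δ₂ = fld (D.X1 O (G.JJ 0)) (D.X2 O (G.JJ 0)) (G.fl (3 * π / 2) z)) :
    z.2 = 0 := by
  have hy := sq2_mem hz.1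
  have hx : z.1.1 ∈ μ.OO := Model.TT_OO hz.1.1.1
  have hS := (hn _ hy).toSys0
  have m1 : ∀ a, O.F1 (sq2 z.1) z.2.1 a ∈ D.V (sq2 z.1) (tm2 z.1.2 a) := fun a => by
    obtain ⟨j, hj⟩ := tm1_sq z.1.2 a
    rw [← hS.per_int _ j, ← hj]
    exact O.memF1 _ hy _ a
  have m2 : ∀ a, O.F2 (sq2 z.1, z.1.2) z.2.2 a ∈ D.V (sq2 z.1) (tm2 z.1.2 a) := fun a =>
    O.memF2 _ (sq2_S2 hz.1) _ a
  have e0 := D.NDb_split O B hz.1 0
  have e1 := D.NDb_split O B hz.1 (0 + π)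
  have e2 := D.NDb_split O B hz.1 (π / 2)
  have e3 := D.NDb_split O B hz.1 (π / 2 + π)
  rw [NDb_fl_zero hz.1] at e0
  simp only [add_sub_right_comm _ π, saw_add_pi, sgp_add_pi, neg_smul, Finset.sum_neg_distrib,
    map_neg, B.JJ_add_pi _ hx] at e1 e3
  rw [zero_add] at e1
  rw [show π / 2 + π = 3 * π / 2 by ring] at e3
  rw [e0] at h0 h1 h3
  rw [e1] at h0
  rw [e2] at h2
  rw [e3] at h4
  have T1 : ∀ s, ∑ a, saw (s - tm2 z.1.2 a) • O.F1 (sq2 z.1) z.2.1 a ∈ D.T (sq2 z.1) := fun s =>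
    Submodule.sum_mem _ fun a _ => Submodule.smul_mem _ _ (m1 a).1
  have T2 : ∀ s, ∑ a, sgp (s - tm2 z.1.2 a) • O.F2 (sq2 z.1, z.1.2) z.2.2 a ∈ D.T (sq2 z.1) :=
    fun s => Submodule.sum_mem _ fun a _ => Submodule.smul_mem _ _ (m2 a).1
  have k1 := fun u => brk_tr1 hS m1 (O.sumF1 _ hy _) (u := u)
  have k2 := fun u h => brk_tr2 hS m2 h (u := u)
  have t10 := T1 0
  have t11 := T1 (π / 2)
  have t20 := T2 0
  have t21 := T2 (π / 2)
  generalize ∑ a, saw (0 - tm2 z.1.2 a) • O.F1 (sq2 z.1) z.2.1 a = a0 at h0 h1 h3 k1 t10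
  generalize ∑ a, saw (π / 2 - tm2 z.1.2 a) • O.F1 (sq2 z.1) z.2.1 a = a1 at h2 h4 k1 t11
  generalize ∑ a, sgp (0 - tm2 z.1.2 a) • O.F2 (sq2 z.1, z.1.2) z.2.2 a = b0 at h0 h1 h3 k2 t20
  generalize ∑ a, sgp (π / 2 - tm2 z.1.2 a) • O.F2 (sq2 z.1, z.1.2) z.2.2 a = b1 at h2 h4 k2 t21
  have z0 : G.JJ 0 z.1.1 (D.ev (sq2 z.1) b0) = 0 := by
    have h5 := add_left_cancel h0
    have h6 : (2 : ℝ) • G.JJ 0 z.1.1 (D.ev (sq2 z.1) b0) = 0 := by
      rw [two_smul]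
      nth_rewrite 1 [← h5]
      exact neg_add_cancel _
    exact (smul_eq_zero.1 h6).resolve_left two_ne_zero
  rw [z0, add_zero] at h1 h3
  have p0 : G.JJ 0 z.1.1 ((1 / 2 : ℝ) • (δ₁ + δ₂)) = G.JJ 0 z.1.1 (D.ev (sq2 z.1) a0) := by
    rw [map_smul, map_add, h1, h3]
    module
  have p1 : G.JJ (π / 2) z.1.1 ((1 / 2 : ℝ) • (δ₁ + δ₂)) =
      G.JJ (π / 2) z.1.1 (D.ev (sq2 z.1) a1) := by
    rw [map_smul, map_add, h2, h4]
    module
  have q0 : G.JJ 0 z.1.1 ((1 / 2 : ℝ) • (δ₁ - δ₂)) = 0 := by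
    rw [map_smul, map_sub, h1, h3, sub_self, smul_zero]
  have q1 : G.JJ (π / 2) z.1.1 ((1 / 2 : ℝ) • (δ₁ - δ₂)) =
      G.JJ (π / 2) z.1.1 (D.ev (sq2 z.1) b1) := by
    rw [map_smul, map_sub, h2, h4]
    module
  obtain ⟨u, hu, lu⟩ := D.lift B hy (δ := (1 / 2 : ℝ) • (δ₁ + δ₂)) (by
    show al g z.1.1 _ = 0
    rw [← G.al_inv B.met 0 hx, p0, G.al_inv B.met 0 hx]
    exact D.al0 _ hy _)
  obtain ⟨v, hv, lv⟩ := D.lift B hy (δ := (1 / 2 : ℝ) • (δ₁ - δ₂)) (by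
    show al g z.1.1 _ = 0
    rw [← G.al_inv B.met 0 hx, q0, map_zero])
  have mem : ∀ (s : ℝ) (a b : RN D.M), a ∈ D.T (sq2 z.1) → b ∈ D.T (sq2 z.1) →
      G.JJ s z.1.1 (D.ev (sq2 z.1) b) = G.JJ s z.1.1 (D.ev (sq2 z.1) a) →
      a - b ∈ D.V (sq2 z.1) s := fun s a b ha hb e => by
    refine D.mem_V.2 ⟨sub_mem ha hb, ?_⟩
    rw [map_sub, map_sub]
    exact sub_eq_zero.2 e.symm
  have r1 := k1 u (mem 0 a0 u t10 hu ((lu 0).trans p0)) (mem _ a1 u t11 hu ((lu _).trans p1))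
  have r2 := k2 v (D.mem_V.2 ⟨t20, z0⟩) (D.mem_V.2 ⟨hv, (lv 0).trans q0⟩)
    (mem _ b1 v t21 hv ((lv _).trans q1))
  exact Prod.ext (not_not.1 fun h => (D.NDb_q1 O hz h).not_ge r1)
    (not_not.1 fun h => (D.NDb_q2' O hz h).not_ge r2)

end EV

end Pool.Agent.Work.MP_8c604c_gt.O
end
end

-- merged part: Pool.Agent.Work.MP_8c604c_gt.OS.ND
section
-- merged part: Pool.Agent.Work.MP_8c604c_gt.B.Gen
section
/-!
Generic linear projections of a thin cone.
Plan. Thin d C: C is covered by countably many C^1 images of open subsets of a fixed space D of dimension d; it is easier to carry only dimH C <= d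
(dimH_image_le_of_locally_lipschitzOn or ContDiffOn.dimH_image_le on balls, dimH_iUnion; a continuous linear image does not raise dimH: LipschitzWith.dimH_image_le).
gen_proj: induction on finrank V - m (generalising V; use V = Fin N -> C or EuclideanSpace and a linear equivalence at the end).
If finrank V <= m take an injective linear map. Else dimH (C u {0}) <= 2m < finrank over R of V, so there is v0 outside (Real.dimH_univ_eq_finrank),
take a surjection L1 onto a space of dimension finrank V - 1 with kernel C v0; L1 '' C is a cone that misses 0.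
-/

open Set Filter Topology
open scoped ContDiff

noncomputable section
namespace Pool.Agent.Work.MP_8c604c_gt.B

theorem dimH_le_of_cover {ι D V : Type} [Countable ι] [NormedAddCommGroup D] [NormedSpace ℝ D]
    [FiniteDimensional ℝ D] [NormedAddCommGroup V] [NormedSpace ℝ V] {U : ι → Set D}
    (hU : ∀ i, IsOpen (U i)) {f : ι → D → V} (hf : ∀ i, ContDiffOn ℝ 1 (f i) (U i)) {C : Set V}
    (hC : C ⊆ ⋃ i, f i '' U i) : dimH C ≤ Module.finrank ℝ D := by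
  refine (dimH_mono hC).trans ?_
  rw [dimH_iUnion]
  refine iSup_le fun i => ?_
  refine (dimH_image_le_of_locally_lipschitzOn fun x hx => ?_).trans
    ((dimH_mono (subset_univ _)).trans (Real.dimH_univ_eq_finrank D).le)
  obtain ⟨K, t, ht, h⟩ := ((hf i).contDiffAt ((hU i).mem_nhds hx)).exists_lipschitzOnWith
  exact ⟨K, t, mem_nhdsWithin_of_mem_nhds ht, h⟩

theorem gen_aux {W : Type} [NormedAddCommGroup W] [NormedSpace ℂ W] [FiniteDimensional ℂ W]
    (n : ℕ) : ∀ (V : Type) [NormedAddCommGroup V] [NormedSpace ℂ V] [FiniteDimensional ℂ V]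
      (C : Set V), Module.finrank ℂ V = n →
      dimH C ≤ ((2 * Module.finrank ℂ W : ℕ) : ENNReal) →
      (∀ c : ℂ, c ≠ 0 → ∀ v ∈ C, c • v ∈ C) → (0 : V) ∉ C →
      ∃ L : V →L[ℂ] W, ∀ v ∈ C, L v ≠ 0 := by
  have base : ∀ (V : Type) [NormedAddCommGroup V] [NormedSpace ℂ V] [FiniteDimensional ℂ V]
      (C : Set V), Module.finrank ℂ V ≤ Module.finrank ℂ W → (0 : V) ∉ C →
      ∃ L : V →L[ℂ] W, ∀ v ∈ C, L v ≠ 0 := by
    intro V _ _ _ C h h0
    obtain ⟨f, hf⟩ := finrank_le_iff_exists_linearMap.1 h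
    refine ⟨LinearMap.toContinuousLinearMap f, fun v hv e => h0 ?_⟩
    rwa [hf (show f v = f 0 from e.trans (map_zero f).symm)] at hv
  induction n with
  | zero => exact fun V _ _ _ C h _ _ h0 => base V C (h ▸ Nat.zero_le _) h0
  | succ n ih =>
    intro V _ _ _ C h hd hc h0
    by_cases hle : Module.finrank ℂ V ≤ Module.finrank ℂ W
    · exact base V C hle h0
    obtain ⟨v0, hv0⟩ : ∃ v0 : V, v0 ∉ C ∪ {0} := by
      by_contra hn
      have e : C ∪ {0} = univ := eq_univ_of_forall fun v => by_contra fun k => hn ⟨v, k⟩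
      have e2 := Real.dimH_univ_eq_finrank V
      rw [← e, dimH_union, dimH_singleton, max_eq_left zero_le, finrank_real_of_complex] at e2
      rw [e2, Nat.cast_le] at hd
      omega
    have h1 : v0 ≠ 0 := fun e => hv0 (Or.inr e)
    have h2 : Module.finrank ℂ (V ⧸ Submodule.span ℂ {v0}) = Module.finrank ℂ (Fin n → ℂ) := by
      have := Submodule.finrank_quotient_add_finrank (Submodule.span ℂ {v0})
      rw [finrank_span_singleton h1, h] at this
      rw [Module.finrank_fin_fun]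
      omega
    let e := LinearEquiv.ofFinrankEq (R := ℂ) _ _ h2
    let L1 : V →L[ℂ] (Fin n → ℂ) :=
      LinearMap.toContinuousLinearMap (e.toLinearMap ∘ₗ (Submodule.span ℂ {v0}).mkQ)
    obtain ⟨L, hL⟩ := ih (Fin n → ℂ) (L1 '' C) (Module.finrank_fin_fun ℂ)
      ((L1.lipschitz.dimH_image_le C).trans hd)
      (by
        rintro c hc0 _ ⟨v, hv, rfl⟩
        exact ⟨c • v, hc c hc0 v hv, map_smul L1 c v⟩)
      (by
        rintro ⟨v, hv, h3⟩
        have h4 : (Submodule.span ℂ {v0}).mkQ v = 0 := e.map_eq_zero_iff.1 h3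
        rw [Submodule.mkQ_apply, Submodule.Quotient.mk_eq_zero, Submodule.mem_span_singleton] at h4
        obtain ⟨c, rfl⟩ := h4
        have h5 : c ≠ 0 := fun k => h0 (by rwa [k, zero_smul] at hv)
        have h6 := hc c⁻¹ (inv_ne_zero h5) _ hv
        rw [inv_smul_smul₀ h5] at h6
        exact hv0 (Or.inl h6))
    exact ⟨L.comp L1, fun v hv => hL _ ⟨v, hv, rfl⟩⟩

theorem gen_proj {V W : Type} [NormedAddCommGroup V] [NormedSpace ℂ V] [FiniteDimensional ℂ V]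
    [NormedAddCommGroup W] [NormedSpace ℂ W] [FiniteDimensional ℂ W] {C : Set V}
    (hd : dimH C ≤ ((2 * Module.finrank ℂ W : ℕ) : ENNReal))
    (hc : ∀ c : ℂ, c ≠ 0 → ∀ v ∈ C, c • v ∈ C) (h0 : (0 : V) ∉ C) :
    ∃ L : V →L[ℂ] W, ∀ v ∈ C, L v ≠ 0 := by
  exact gen_aux _ V C rfl hd hc h0

end Pool.Agent.Work.MP_8c604c_gt.B
end
end

-- merged part: Pool.Agent.Work.MP_8c604c_gt.OC.Phi
section
/-!
Phase functions and the equivariant map to `ℂ ^ d`.
-/

set_option maxSynthPendingDepth 3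
set_option linter.unusedSectionVars false

open Set Filter Topology MeasureTheory
open scoped ContDiff

noncomputable section
namespace Pool.Agent.Work.MP_8c604c_gt.O

open Real Model

variable {E : Type} [NormedAddCommGroup E] [InnerProductSpace ℝ E] [FiniteDimensional ℝ E] {d : ℕ}
  {μ : Model E d} {g : Met E} {G : Geo μ g}

theorem Bl.exists_phase (hB : Bl g G) {x₀ : E × E} (hx : x₀ ∈ μ.OO) : ∃ f : E × E → ℂ,
    ContDiffOn ℝ ∞ f μ.OO ∧ (∀ r, 0 < r → ∀ x ∈ μ.OO, f (sc r x) = f x) ∧ f x₀ ≠ 0 ∧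
      ∀ t, ∀ x ∈ μ.OO, f (G.psi t x) = Complex.exp (2 * t * Complex.I) * f x := by
  have hZ := G.nc_cont_Z hB.met hx
  have hA : Continuous fun t => ‖G.Z t x₀ - G.Z 0 x₀‖ ^ 2 := (hZ.sub continuous_const).norm.pow 2
  have hpi := pi_pos
  obtain ⟨t₀, ht₀, hmin⟩ := (isCompact_Icc (a := π / 4) (b := 3 * π / 4)).exists_isMinOn
    ⟨π / 4, le_rfl, by linarith⟩ hA.continuousOn
  set m := ‖G.Z t₀ x₀ - G.Z 0 x₀‖ ^ 2 with hm
  have hm0 : 0 < m := pow_pos (norm_pos_iff.2 (sub_ne_zero.2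
    (hB.Z_not_mem hx ⟨by linarith [ht₀.1], by linarith [ht₀.2]⟩))) 2
  set u : ℝ × E × E → ℂ := fun y => (expNegInvGlue (m - ‖G.Z y.1 y.2 - G.Z 0 x₀‖ ^ 2) : ℝ) *
    Complex.exp (-(2 * y.1 * Complex.I)) with hu
  have hus : ContDiffOn ℝ ∞ u {y | y.2 ∈ μ.OO} := by
    refine ContDiffOn.mul (Complex.ofRealCLM.contDiff.comp_contDiffOn
      (expNegInvGlue.contDiff.comp_contDiffOn (contDiffOn_const.sub
        ((contDiff_norm_sq ℝ).comp_contDiffOn ((G.contDiffOn_Z hB.met).sub contDiffOn_const)))))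
      (ContDiff.contDiffOn ?_)
    exact Complex.contDiff_exp.comp ((contDiff_const.mul
      (Complex.ofRealCLM.contDiff.comp contDiff_fst)).mul contDiff_const).neg
  refine ⟨fun x => ∫ t in (0 : ℝ)..π, u (t, x), contDiffOn_integral isOpen_OO hus 0 π,
    fun r hr x hx => ?_, fun h => ?_, fun s x hx => ?_⟩
  · simp only [hu, G.Z_sc _ hr hx]
  · have hc : Continuous fun t => u (t, x₀) :=
      hus.continuousOn.comp_continuous (by fun_prop) fun _ => hx
    have h1 := Complex.reCLM.intervalIntegral_comp_comm (hc.intervalIntegrable (μ := volume) 0 π)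
    have h2 : ∀ t : ℝ, Complex.reCLM (u (t, x₀)) =
        expNegInvGlue (m - ‖G.Z t x₀ - G.Z 0 x₀‖ ^ 2) * cos (2 * t) := fun t => by
      simp only [hu, Complex.reCLM_apply, Complex.re_ofReal_mul]
      simp [Complex.exp_re]
    simp only at h
    rw [h, map_zero] at h1
    refine (intervalIntegral.integral_pos hpi (Complex.reCLM.continuous.comp hc).continuousOn
      (fun t ht => ?_) ⟨0, ⟨le_rfl, hpi.le⟩, ?_⟩).ne' h1
    · rw [Function.comp_apply, h2]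
      by_cases a1 : t ≤ π / 4
      · exact mul_nonneg (expNegInvGlue.nonneg _)
          (cos_nonneg_of_mem_Icc ⟨by linarith [ht.1], by linarith⟩)
      by_cases a2 : 3 * π / 4 ≤ t
      · rw [← cos_sub_two_pi]
        exact mul_nonneg (expNegInvGlue.nonneg _)
          (cos_nonneg_of_mem_Icc ⟨by linarith, by linarith [ht.2]⟩)
      · rw [expNegInvGlue.zero_of_nonpos (sub_nonpos.2 (hmin ⟨by linarith, by linarith⟩)),
          zero_mul]
    · rw [Function.comp_apply, h2, sub_self, norm_zero, zero_pow two_ne_zero, sub_zero, mul_zero,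
        cos_zero, mul_one]
      exact expNegInvGlue.pos_of_pos hm0
  · have hper : Function.Periodic (fun t => u (t, x)) π := fun t => by
      simp only [hu, hB.per x hx t]
      congr 1
      rw [← Complex.exp_periodic (-(2 * ((t + π : ℝ) : ℂ) * Complex.I))]
      congr 1
      push_cast
      ring
    have h1 : ∀ t : ℝ, u (t, G.psi s x) = Complex.exp (2 * s * Complex.I) * u (t + s, x) := by
      intro t
      simp only [hu, G.Z_add t s hx]
      rw [mul_left_comm, ← Complex.exp_add]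
      congr 2
      push_cast
      ring
    simp only [h1]
    rw [intervalIntegral.integral_const_mul,
      intervalIntegral.integral_comp_add_right (fun t => u (t, x)) s, zero_add, add_comm π s,
      hper.intervalIntegral_add_eq s 0, zero_add]

theorem Bl.exists_F (hB : Bl g G) : ∃ F : E × E → Fin d → ℂ,
    ContDiffOn ℝ ∞ F μ.OO ∧ (∀ r, 0 < r → ∀ x ∈ μ.TT, F (sc r x) = F x) ∧ (∀ x ∈ μ.TT, F x ≠ 0) ∧
      ∀ t, ∀ x ∈ μ.TT, F (G.psi t x) = Complex.exp (2 * t * Complex.I) • F x := by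
  choose φ h1 h2 h3 h4 using fun y : μ.slice => hB.exists_phase (TT_OO (slice_subset y.2))
  obtain ⟨s, hs⟩ := μ.isCompact_slice.elim_finite_subcover
    (fun y : μ.slice => μ.OO ∩ φ y ⁻¹' {0}ᶜ)
    (fun y => (h1 y).continuousOn.isOpen_inter_preimage isOpen_OO isOpen_compl_singleton)
    fun y hy => mem_iUnion.2 ⟨⟨y, hy⟩, TT_OO (slice_subset hy), h3 _⟩
  let f : E × E → s → ℂ := fun x i => φ i x
  have f1 : ContDiffOn ℝ ∞ f μ.OO := contDiffOn_pi.2 fun i => h1 i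
  have f2 : ∀ r, 0 < r → ∀ x ∈ μ.TT, f (sc r x) = f x := fun r hr x hx =>
    funext fun i => h2 i r hr x (TT_OO hx)
  have f3 : ∀ x ∈ μ.TT, f x ≠ 0 := fun x hx e => by
    obtain ⟨y, hy, m, hm, rfl⟩ := exists_slice hx
    obtain ⟨i, hi, -, k⟩ := mem_iUnion₂.1 (hs hy)
    rw [f2 _ hm _ (slice_subset hy)] at e
    exact k (congrFun e ⟨i, hi⟩)
  have f4 : ∀ t, ∀ x ∈ μ.TT, f (G.psi t x) = Complex.exp (2 * t * Complex.I) • f x :=
    fun t x hx => funext fun i => h4 i t x (TT_OO hx)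
  refine (B.gen_proj (W := Fin d → ℂ) (C := {v | ∃ r : ℝ, 0 < r ∧ ∃ x ∈ μ.TT, v = r • f x})
    ?_ ?_ ?_).elim fun L hL => ?_
  rotate_right
  · refine ⟨fun x => L (f x), (L.restrictScalars ℝ).contDiff.comp_contDiffOn f1,
      fun r hr x hx => congrArg L (f2 r hr x hx),
      fun x hx => hL _ ⟨1, one_pos, x, hx, (one_smul _ _).symm⟩, fun t x hx => ?_⟩
    simp only [f4 t x hx, map_smul]
  · refine (B.dimH_le_of_cover (D := RF d × RF d) (U := fun _ => {p | p.2 ≠ 0})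
      (f := fun (i : Fin (μ.N + 1)) p => ‖(μ.κ i p).2‖ • f (μ.κ i p))
      (fun _ => isOpen_ne_fun continuous_snd continuous_const) (fun i => ?_) ?_).trans_eq ?_
    · exact (((contDiff_κ i).snd.contDiffOn.norm ℝ fun p hp => (κ_TT i hp).2.2).smul
        (f1.comp (contDiff_κ i).contDiffOn fun p hp => TT_OO (κ_TT i hp))).of_le (by simp)
    · rintro _ ⟨r, hr, x, hx, rfl⟩
      have n0 := norm_pos_iff.2 hx.2.2
      obtain ⟨i, y, k1, k2⟩ := exists_κ (sc_mem_TT (div_pos hr n0).ne' hx)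
      refine mem_iUnion.2 ⟨i, y, k1, ?_⟩
      simp only [k2, f2 _ (div_pos hr n0) x hx]
      rw [sc, norm_smul, Real.norm_of_nonneg (div_pos hr n0).le, div_mul_cancel₀ _ n0.ne']
    · congr 1
      simp
      ring
  · rintro c hc _ ⟨r, hr, x, hx, rfl⟩
    refine ⟨‖c‖ * r, mul_pos (norm_pos_iff.2 hc) hr, _, G.psi_TT hB.met (c.arg / 2) (TT_OO hx), ?_⟩
    rw [f4 _ x hx, mul_smul, smul_comm r, ← Complex.coe_smul ‖c‖, smul_smul]
    congr 1
    rw [show 2 * ((c.arg / 2 : ℝ) : ℂ) = c.arg by push_cast; ring, Complex.norm_mul_exp_arg_mul_I]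
  · rintro ⟨r, hr, x, hx, e⟩
    exact smul_ne_zero hr.ne' (f3 x hx) e.symm

end Pool.Agent.Work.MP_8c604c_gt.O
end
end

-- merged part: Pool.Agent.Work.MP_8c604c_gt.OS.ND
section
/-!
The output of the first half of block S.
Plan. `exists_EV`, `EV.fam` with `d = 16`, `k = 7`, `Fam.exists_out`.  `K = O.K`, `R y = ρ y ∘ O.R y` (onto `KS` by `ρ_surj`, `injR` and the dimension), `P = P2`, `R' x = ρ (sq2 x) ∘ O.R' (sq2 x, x.2)`,
`X1 = D.X1 O (G.JJ 0)`, `Y1 = D.X1 O (G.JD 0)`, and so on.  `der`, `rc`: `fld_fl` (with `JJ_add`, `JD_add`; `G.fl 0 z = z`), `brk_deriv`, `brk_rc`.  `perp`: `al_inv`, `al0`.  `tan`: `JJ_tan`.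
-/

set_option maxSynthPendingDepth 3
set_option linter.unusedSectionVars false

open Set Filter Topology MeasureTheory
open scoped ContDiff

noncomputable section
namespace Pool.Agent.Work.MP_8c604c_gt.O

open OT OS Real
open T (RN cs)

variable {E : Type} [NormedAddCommGroup E] [InnerProductSpace ℝ E] [FiniteDimensional ℝ E] {d : ℕ}
  {μ : Model E d} {g : Met E} {G : Geo μ g} {m : ℕ}

theorem ND_surj {A H : Type} [NormedAddCommGroup A] [NormedSpace ℝ A] [NormedAddCommGroup H]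
    [NormedSpace ℝ H] [FiniteDimensional ℝ H] {K : A →L[ℝ] A} {R : A →L[ℝ] H} {W : Submodule ℝ H}
    (h1 : ∀ a, K (K a) = K a)
    (h2 : Module.finrank ℝ (LinearMap.range (K : A →ₗ[ℝ] A)) = Module.finrank ℝ W)
    (h3 : ∀ a, K a = a → R a ∈ W) (h4 : ∀ a, K a = a → R a = 0 → a = 0) {u : H} (hu : u ∈ W) :
    ∃ a, K a = a ∧ R a = u := by
  have hf : ∀ a : LinearMap.range (K : A →ₗ[ℝ] A), K a.1 = a.1 := by
    rintro ⟨_, a, rfl⟩
    exact h1 a
  let f := (R : A →ₗ[ℝ] H).domRestrict (LinearMap.range (K : A →ₗ[ℝ] A))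
  have hi : Function.Injective f :=
    (injective_iff_map_eq_zero f).2 fun a ha => Subtype.ext (h4 a.1 (hf a) ha)
  have e : LinearMap.range f = W := Submodule.eq_of_le_of_finrank_eq
    (by rintro _ ⟨a, rfl⟩; exact h3 a.1 (hf a)) ((LinearMap.finrank_range_of_inj hi).trans h2)
  obtain ⟨a, ha⟩ : u ∈ LinearMap.range f := e ▸ hu
  exact ⟨a.1, hf a, ha⟩

theorem ND_fl_zero {N N' : ℕ} {z : ((E × E) × CM m) × FB N N'} (hz : z.1 ∈ XT μ g m) :
    G.fl 0 z = z := by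
  simp only [Geo.fl, Geo.f2, G.psi_zero' hz.1.1, Circle.exp_zero, Circle.coe_one, one_smul, rot,
    Complex.one_re, Complex.one_im, zero_smul, sub_zero, zero_add]

theorem Bl.exists_ND2 {μ : Model E 16} {G : Geo μ g} (B : Bl g G) (hk : ∀ x ∈ μ.TT, G.kk x = 7)
    (m : ℕ) : Nonempty (ND2 G m) := by
  obtain ⟨D⟩ := B.exists_EV m
  have F := D.fam B hk
  obtain ⟨N, N', ⟨O⟩⟩ := F.exists_out (G.flw B.met m)
  have hn := F.sys
  obtain ⟨C, hC⟩ := D.bd O B (G.JD 0) ((G.contDiffOn_JD B.met).continuousOn.comp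
    (f := fun x : E × E => ((0 : ℝ), x)) (by fun_prop) fun x hx => Model.TT_OO hx.1)
  obtain ⟨δ, hδ, hneg⟩ := D.neg O B hn
  have cs2 : Continuous (sq2 : (E × E) × CM m → (E × E) × CM m) := by
    unfold sq2
    fun_prop
  have cS : ContinuousOn (fun x : (E × E) × CM m => (sq2 x, x.2)) (XT μ g m) :=
    (cs2.prodMk continuous_snd).continuousOn
  have eJ {z : ((E × E) × CM m) × FB N N'} (hz : z.1 ∈ XT μ g m) :=
    D.fld_fl O B G.JJ (fun t x hx δ => by rw [← G.JJ_add B.met 0 t hx, zero_add]) hz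
  have eD {z : ((E × E) × CM m) × FB N N'} (hz : z.1 ∈ XT μ g m) :=
    D.fld_fl O B G.JD (fun t x hx δ => by rw [← G.JD_add B.met 0 t hx, zero_add]) hz
  exact ⟨{
    N := N
    K := O.K
    cK := O.cK
    idK := O.idK
    syK := O.syK
    rkK := O.rkK
    invK := O.invK
    R := fun y => (D.ρ y).comp (O.R y)
    cR := (D.cont_ρ B).clm_comp O.cR
    memR := fun x hx a ha => (D.ρ_KS B hx (O.memR x hx a ha).1).2 (O.memR x hx a ha)
    surjR := fun x hx u hu => by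
      obtain ⟨h, h1, rfl⟩ := D.ρ_surj B hx hu
      obtain ⟨a, h2, rfl⟩ := ND_surj (O.idK x hx) ((O.rkK x hx).trans ((hn x hx).dimK 0).symm)
        (O.memR x hx) (O.injR x hx) h1
      exact ⟨a, h2, rfl⟩
    N' := N'
    P := D.P2 O
    cP := O.cP.comp cS fun x hx => EV.sq2_S2 hx
    idP := fun x hx => O.idP _ (EV.sq2_S2 hx)
    rkP := fun x hx => by
      have := O.rkP _ (EV.sq2_S2 hx)
      exact Nat.add_right_cancel (m := 7) this
    invP := fun t x hx => by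
      rw [EV.P2, G.sq2_f2]
      exact O.invP t _ (EV.sq2_S2 hx)
    R' := fun x => (D.ρ (sq2 x)).comp (O.R' (sq2 x, x.2))
    cR' := ((D.cont_ρ B).comp cs2.continuousOn sq2_mem).clm_comp
      (O.cR'.comp cS fun x hx => EV.sq2_S2 hx)
    tanR' := fun x hx a ha => (D.ρ_spec B (sq2_mem hx) (O.memR' _ (EV.sq2_S2 hx) a ha)).1
    injR' := fun x hx a ha h => O.injR' _ (EV.sq2_S2 hx) a ha
      ((D.ρ_KS B (sq2_mem hx) (O.memR' _ (EV.sq2_S2 hx) a ha)).1 h)
    X1 := D.X1 O (G.JJ 0)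
    Y1 := D.X1 O (G.JD 0)
    X2 := D.X2 O (G.JJ 0)
    Y2 := D.X2 O (G.JD 0)
    cX := (D.cX O B hn).mono fun z hz => hz.1
    tan := fun z hz => by
      have h (v : E × E) := G.JJ_tan B.met 0 (Model.TT_OO hz.1.1.1) v
      have e := eJ hz.1 0
      rw [G.Z_zero' hz.1.1.1] at h
      rw [ND_fl_zero hz.1] at e
      simp only [e, brk, map_sum, map_add, map_smul, h]
    perp := fun z hz => by
      have h (v : RN D.M) := (G.al_inv B.met 0 (Model.TT_OO hz.1.1.1) (D.ev (sq2 z.1) v)).trans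
        (D.al0 _ (sq2_mem hz.1) v)
      have e := eJ hz.1 0
      rw [G.Z_zero' hz.1.1.1, G.psi_zero' hz.1.1.1,
        show vel g z.1.1 = z.1.1.2 from congrArg Prod.snd (UT_eq hz.1.1)] at h
      rw [ND_fl_zero hz.1] at e
      simp only [e, brk, map_sum, map_add, map_smul, EV.d1, EV.d2, h, smul_zero, add_zero,
        Finset.sum_const_zero]
    der := fun z hz => by
      have e := eD hz.1 0
      rw [ND_fl_zero hz.1] at e
      rw [funext (eJ hz.1), e]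
      exact brk_deriv B (Model.TT_OO hz.1.1.1) (D.d_spec O B hn hz.1).2.2 0
    rc := fun z hz => by
      rw [funext (eD hz.1)]
      exact brk_rc B (Model.TT_OO hz.1.1.1) 0
    C := C
    bd := fun z hz => hC z hz.1
    cQ := (D.cQ O B hn).mono (prod_mono (fun z hz => hz.1) subset_rfl)
    δ := δ
    δ_pos := hδ
    neg := hneg
    tr := fun z hz _ _ => D.tr O B hn hz }⟩

end Pool.Agent.Work.MP_8c604c_gt.O
end
end
end
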