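import Pool.Agent.Work.MP_8c604c_gt.OB.Lp
import Pool.Agent.Work.MP_8c604c_gt.OS.Saw

/-!
An invariant description of the normal Jacobi fields along the closed geodesics.
Plan. `isCompact_UT`: the image of `μ.slice` under `x ↦ (x.1, vel g x)`.
`exists_EV`: let `ξ x = deriv (fun s => G.psi s x) 0` (continuous on `OO`, `jac_fst`, `contDiffOn_psi`); for `x ∈ TT` one has `al g x (ξ x) = 1` (`hasDerivAt_Z`) and
`fderiv (psi r) x (ξ x) = ξ (psi r x)` (both are the derivative of `s ↦ psi (r + s) x`).  Put `nz x δ = δ - al g x δ • ξ x`, take `e : RN M ≃L[ℝ] (Fin (m + 1) → E × E)` and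
`ev (x, z) h = ∑ i, ‖z i‖ • nz x (fderiv (psi (-t i)) (psi (t i) x) (e h i))` with `t i = -arg (z i) / 2`.  The map `(x, t) ↦ nz x ∘ fderiv (psi (-t)) (psi t x)` is continuous (`jacA_fd`), of period `π` in `t`
(`psi_add_pi` on the open set `OO`), hence bounded on `UT × ℝ`; continuity of `ev` by `arg_branch` where `z i ≠ 0` and by the bound where `z i = 0`.
Equivariance: `tm1_flow` at the tooth `(i, 0)`, `fderiv_psi_add`, `al_psi`.  `surj`: one index `i` with `z i ≠ 0`, `fderiv_psi_neg`, `sub_DR_mem`, `al_R`.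
-/

set_option maxSynthPendingDepth 3
set_option linter.unusedSectionVars false

open Set Filter Topology MeasureTheory
open scoped ContDiff

noncomputable section
namespace Pool.Agent.Work.MP_8c604c_gt.O

open OT OS Real Model
open T (RN cs)

variable {E : Type} [NormedAddCommGroup E] [InnerProductSpace ℝ E] [FiniteDimensional ℝ E] {d : ℕ}
  {μ : Model E d} {g : Met E} {G : Geo μ g} {m : ℕ}

theorem Ev_eq {x : E × E} (hx : x ∈ UT μ g) : (x.1, vel g x) = x := by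
  rw [vel, hx.2, inv_one, one_smul]

theorem Ev_rot (θ : Circle) {z : CM m} (hz : z ∈ Sp m) : (θ : ℂ) • z ∈ Sp m := by
  rw [Sp, mem_sphere_zero_iff_norm] at hz ⊢
  rw [norm_smul, hz, Circle.norm_coe, mul_one]

theorem Ev_ne {z : CM m} (hz : z ∈ Sp m) : z ≠ 0 := by
  rintro rfl
  rw [Sp, mem_sphere_zero_iff_norm, norm_zero] at hz
  exact zero_ne_one hz

theorem IsMetric.isCompact_XT (h : IsMetric μ g) (m : ℕ) : IsCompact (XT μ g m) :=
  h.isCompact_UT.prod (isCompact_sphere 0 1)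

theorem Geo.psi_UT (G : Geo μ g) (h : IsMetric μ g) (t : ℝ) {x : E × E} (hx : x ∈ UT μ g) :
    G.psi t x ∈ UT μ g :=
  ⟨G.psi_TT h t (TT_OO hx.1), (G.spd_psi t (TT_OO hx.1)).trans hx.2⟩

theorem UT_eq {x : E × E} (hx : x ∈ UT μ g) : (x.1, vel g x) = x := Ev_eq hx

theorem sq2_mem : MapsTo sq2 (XT μ g m) (XT μ g m) := by
  rintro ⟨x, z⟩ ⟨h1, h2⟩
  refine ⟨h1, ?_⟩
  simp only [Sp, mem_sphere_zero_iff_norm, sq2] at h2 ⊢
  refine le_antisymm ((norm_mul_le z z).trans (by rw [h2, mul_one])) (not_lt.1 fun h3 => ?_)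
  refine h2.not_lt ((pi_norm_lt_iff one_pos).2 fun i => ?_)
  have h4 := (norm_le_pi_norm (z * z) i).trans_lt h3
  rw [Pi.mul_apply, norm_mul] at h4
  nlinarith [norm_nonneg (z i)]

theorem Geo.f2_mem (G : Geo μ g) (h : IsMetric μ g) (t : ℝ) :
    MapsTo (G.f2 t) (XT μ g m) (XT μ g m) :=
  fun _ hx => ⟨G.psi_UT h t hx.1, Ev_rot _ hx.2⟩

theorem Geo.sq2_f2 (G : Geo μ g) (t : ℝ) (x : (E × E) × CM m) : sq2 (G.f2 t x) = G.f1 t (sq2 x) := by
  refine Prod.ext rfl ?_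
  simp only [sq2, Geo.f2, Geo.f1]
  rw [smul_mul_smul_comm, two_mul, Circle.exp_add, Circle.coe_mul]

theorem Geo.flw (G : Geo μ g) (h : IsMetric μ g) (m : ℕ) : Flw (XT μ g m) G.f1 Prod.snd :=
  ⟨h.isCompact_XT m, fun r _ hx => ⟨G.psi_UT h r hx.1, Ev_rot _ hx.2⟩, continuousOn_snd,
    fun _ hy => Ev_ne hy.2, fun _ _ _ => rfl⟩

/-- An equivariant family of maps onto the initial conditions of normal Jacobi fields. -/
structure EV (G : Geo μ g) (m : ℕ) where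
  M : ℕ
  ev : (E × E) × CM m → RN M →L[ℝ] E × E
  cev : ContinuousOn ev (XT μ g m)
  eqv : ∀ r, ∀ y ∈ XT μ g m, ∀ h, ev (G.f1 r y) h = fderiv ℝ (G.psi r) y.1 (ev y h)
  al0 : ∀ y ∈ XT μ g m, ∀ h, al g y.1 (ev y h) = 0
  surj : ∀ y ∈ XT μ g m, ∀ δ, al g y.1 δ = 0 → ∃ h, ev y h - δ ∈ μ.Bdir y.1

theorem Ev_cont {Y F : Type} [TopologicalSpace Y] [NormedAddCommGroup F] [NormedSpace ℝ F]
    {s : Set Y} {u : Y → ℂ} (hu : ContinuousOn u s) {A : Y → ℝ → F}
    (hA : ContinuousOn (fun p : Y × ℝ => A p.1 p.2) (s ×ˢ univ))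
    (hp : ∀ y ∈ s, ∀ t (j : ℤ), A y (t + j * π) = A y t) {C : ℝ} (hC : ∀ y ∈ s, ∀ t, ‖A y t‖ ≤ C) :
    ContinuousOn (fun y => ‖u y‖ • A y ((u y).arg / 2)) s := by
  intro y hy
  by_cases h0 : u y = 0
  · have h1 : Tendsto (fun y => ‖u y‖ * C) (𝓝[s] y) (𝓝 0) := by
      simpa [h0] using (hu y hy).norm.tendsto.mul_const C
    rw [ContinuousWithinAt, h0, norm_zero, zero_smul]
    refine squeeze_zero_norm' ?_ h1
    filter_upwards [self_mem_nhdsWithin] with y' hy'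
    rw [norm_smul, norm_norm]
    exact mul_le_mul_of_nonneg_left (hC y' hy' _) (norm_nonneg _)
  · obtain ⟨τ, h1, h2⟩ := arg_branch (hu y hy) h0
    have h3 : ContinuousWithinAt (fun y => A y (τ y / 2)) s y :=
      ContinuousWithinAt.comp (f := fun y => (y, τ y / 2)) (hA _ ⟨hy, trivial⟩)
        (continuousWithinAt_id.prodMk (h1.div_const 2)) fun y' hy' => ⟨hy', trivial⟩
    refine (hu y hy).norm.smul (h3.congr_of_eventuallyEq_of_mem ?_ hy)
    filter_upwards [h2, self_mem_nhdsWithin] with y' ⟨j, hj⟩ hy'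
    rw [hj, ← hp y' hy' (τ y' / 2) j]
    congr 1
    ring

/-- the generator of the flow -/
def Geo.Ev_xi (G : Geo μ g) (x : E × E) : E × E :=
  fderiv ℝ (fun p : ℝ × E × E => G.psi p.1 p.2) (0, x) (1, 0)

/-- the projection onto the kernel of the contact form -/
def Geo.Ev_nz (G : Geo μ g) (x : E × E) : E × E →L[ℝ] E × E :=
  ContinuousLinearMap.id ℝ _ -
    ContinuousLinearMap.smulRightL ℝ (E × E) (E × E) (al g x) (G.Ev_xi x)

theorem Geo.Ev_nz_apply (G : Geo μ g) (x δ : E × E) :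
    G.Ev_nz x δ = δ - al g x δ • G.Ev_xi x := rfl

/-- transport from time `-s` -/
def Geo.Ev_A (G : Geo μ g) (x : E × E) (s : ℝ) : E × E →L[ℝ] E × E :=
  (G.Ev_nz x).comp (fderiv ℝ (G.psi s) (G.psi (-s) x))

theorem Geo.Ev_der (G : Geo μ g) (h : IsMetric μ g) {x : E × E} (hx : x ∈ μ.OO) :
    HasDerivAt (fun s => G.psi s x) (G.Ev_xi x) 0 :=
  jac_fst ((jac_at isOpen_OO (G.contDiffOn_psi h) 0 hx).differentiableAt (by simp))

theorem Geo.Ev_al (G : Geo μ g) (h : IsMetric μ g) {x : E × E} (hx : x ∈ μ.TT) :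
    al g x (G.Ev_xi x) = 1 := by
  have h1 := G.hasDerivAt_Z h 0 (TT_OO hx)
  rw [G.psi_zero' hx] at h1
  have h2 : HasDerivAt (fun s => G.Z s x) (G.Ev_xi x).1 0 :=
    (ContinuousLinearMap.fst ℝ E E).hasFDerivAt.comp_hasDerivAt 0 (G.Ev_der h (TT_OO hx))
  rw [al_apply, h2.unique h1, h.vel_unit (TT_OO hx)]

theorem Geo.Ev_push (G : Geo μ g) (h : IsMetric μ g) (r : ℝ) {x : E × E} (hx : x ∈ μ.TT) :
    fderiv ℝ (G.psi r) x (G.Ev_xi x) = G.Ev_xi (G.psi r x) := by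
  have ho := TT_OO hx
  have h1 := jac_curve (G.jac_dpsi h r ho) (G.Ev_der h ho) (G.psi_zero' hx)
  refine h1.unique ?_
  have e : (fun s => G.psi r (G.psi s x)) = fun s => G.psi s (G.psi r x) := funext fun s => by
    rw [← G.psi_add r s ho, add_comm, G.psi_add s r ho]
  rw [e]
  exact G.Ev_der h (G.psi_mem h r ho)

theorem Geo.Ev_cA (G : Geo μ g) (h : IsMetric μ g) :
    ContinuousOn (fun p : (E × E) × ℝ => G.Ev_A p.1 p.2) (μ.OO ×ˢ univ) := by
  have ho : IsOpen {p : ℝ × E × E | p.2 ∈ μ.OO} := isOpen_OO.preimage continuous_snd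
  have h1 : ContinuousOn G.Ev_xi μ.OO :=
    (((G.contDiffOn_psi h).continuousOn_fderiv_of_isOpen ho (by simp)).comp
      (f := fun x : E × E => ((0 : ℝ), x)) (by fun_prop) fun x hx => hx).clm_apply continuousOn_const
  have h2 : ContinuousOn G.Ev_nz μ.OO := continuousOn_const.sub
    ((continuousOn_const.clm_apply h.contDiffOn_al.continuousOn).clm_apply h1)
  have h3 : ContinuousOn (fun p : (E × E) × ℝ => G.psi (-p.2) p.1) (μ.OO ×ˢ univ) :=
    (G.contDiffOn_psi h).continuousOn.comp (f := fun p : (E × E) × ℝ => (-p.2, p.1)) (by fun_prop)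
      fun p hp => hp.1
  exact (h2.comp continuousOn_fst fun p hp => hp.1).clm_comp
    ((jacA_fd isOpen_OO G.psi (G.contDiffOn_psi h)).continuousOn.comp
      (f := fun p : (E × E) × ℝ => (p.2, G.psi (-p.2) p.1)) (continuousOn_snd.prodMk h3)
      fun p hp => G.psi_mem h _ hp.1)

theorem Bl.Ev_per (B : Bl g G) (t : ℝ) (j : ℤ) {x : E × E} (hx : x ∈ μ.OO) :
    G.psi (t + j * π) x = G.psi t x :=
  Function.Periodic.int_mul (f := fun t => G.psi t x) (fun t => B.psi_add_pi t hx) j t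

theorem Bl.Ev_perA (B : Bl g G) (t : ℝ) (j : ℤ) {x : E × E} (hx : x ∈ μ.OO) :
    G.Ev_A x (t + j * π) = G.Ev_A x t := by
  have e : -(t + j * π) = -t + ((-j : ℤ) : ℝ) * π := by push_cast; ring
  rw [Geo.Ev_A, Geo.Ev_A, e, B.Ev_per _ _ hx]
  congr 1
  refine Filter.EventuallyEq.fderiv_eq ?_
  filter_upwards [isOpen_OO.mem_nhds (G.psi_mem B.met (-t) hx)] with y hy
  exact B.Ev_per t j hy

theorem Geo.Ev_eqv (G : Geo μ g) (h : IsMetric μ g) (r s : ℝ) {x : E × E} (hx : x ∈ μ.TT)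
    (δ : E × E) : G.Ev_A (G.psi r x) (r + s) δ = fderiv ℝ (G.psi r) x (G.Ev_A x s δ) := by
  have ho := TT_OO hx
  have e1 : G.psi (-(r + s)) (G.psi r x) = G.psi (-s) x := by
    rw [← G.psi_add _ _ ho]
    congr 1
    ring
  have e2 : G.psi s (G.psi (-s) x) = x := by
    rw [← G.psi_add _ _ ho, add_neg_cancel, G.psi_zero' hx]
  simp only [Geo.Ev_A, ContinuousLinearMap.comp_apply, Geo.Ev_nz_apply]
  rw [e1, G.fderiv_psi_add h r s (G.psi_mem h _ ho), e2, G.al_psi h r ho, map_sub, map_smul,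
    G.Ev_push h r hx]

theorem Bl.exists_EV (B : Bl g G) (m : ℕ) : Nonempty (EV G m) := by
  have h := B.met
  have e : RN (Module.finrank ℝ (Fin (m + 1) → E × E)) ≃L[ℝ] (Fin (m + 1) → E × E) :=
    ContinuousLinearEquiv.ofFinrankEq (by simp)
  have hs : ∀ y ∈ XT μ g m, y.1 ∈ μ.OO := fun y hy => TT_OO hy.1.1
  obtain ⟨C, hC⟩ := (h.isCompact_UT.prod (isCompact_Icc (a := 0) (b := π))).exists_bound_of_continuousOn
    ((G.Ev_cA h).mono fun p hp => ⟨TT_OO hp.1.1, trivial⟩)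
  have ap : ∀ (y : (E × E) × CM m) v, (∑ i, (‖y.2 i‖ • G.Ev_A y.1 ((y.2 i).arg / 2)).comp
      ((ContinuousLinearMap.proj i).comp e.toContinuousLinearMap)) v =
      ∑ i, ‖y.2 i‖ • G.Ev_A y.1 ((y.2 i).arg / 2) (e v i) := fun y v => by
    rw [sum_apply]
    rfl
  refine ⟨⟨_, fun y => ∑ i, (‖y.2 i‖ • G.Ev_A y.1 ((y.2 i).arg / 2)).comp
    ((ContinuousLinearMap.proj i).comp e.toContinuousLinearMap), ?_, fun r y hy v => ?_,
    fun y hy v => ?_, fun y hy δ hδ => ?_⟩⟩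
  · refine continuousOn_finsetSum _ fun i _ => ContinuousOn.clm_comp ?_ continuousOn_const
    refine Ev_cont (u := fun y : (E × E) × CM m => y.2 i) (A := fun y t => G.Ev_A y.1 t) (C := C)
      (by fun_prop) ((G.Ev_cA h).comp (f := fun p : ((E × E) × CM m) × ℝ => (p.1.1, p.2))
        (by fun_prop) fun p hp => ⟨hs _ hp.1, trivial⟩)
      (fun y hy t j => B.Ev_perA t j (hs y hy)) fun y hy t => ?_
    obtain ⟨r, hr, j, rfl⟩ := Saw_dec 0 t pi_pos
    rw [B.Ev_perA r j (hs y hy)]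
    exact hC (y.1, r) ⟨hy.1, hr.1, by simpa using hr.2.le⟩
  · rw [ap, ap, map_sum]
    refine Finset.sum_congr rfl fun i _ => ?_
    simp only [Geo.f1, Pi.smul_apply, smul_eq_mul, norm_mul, Circle.norm_coe, one_mul, map_smul]
    by_cases h0 : y.2 i = 0
    · rw [h0, norm_zero, zero_smul, zero_smul]
    · obtain ⟨j, hj⟩ := Saw_rot (2 * r) h0
      have e1 : ((Circle.exp (2 * r) : ℂ) * y.2 i).arg / 2 = r + (y.2 i).arg / 2 + j * π := by
        rw [hj]
        ring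
      rw [e1, B.Ev_perA _ j (G.psi_mem h r (hs y hy)), G.Ev_eqv h r _ hy.1.1]
  · rw [ap, map_sum]
    refine Finset.sum_eq_zero fun i _ => ?_
    rw [map_smul, Geo.Ev_A, ContinuousLinearMap.comp_apply, Geo.Ev_nz_apply, map_sub, map_smul,
      G.Ev_al h hy.1.1, smul_eq_mul, smul_eq_mul, mul_one, sub_self, mul_zero]
  · obtain ⟨i, hi⟩ := Function.ne_iff.1 (Ev_ne hy.2)
    refine ⟨e.symm (Pi.single i (‖y.2 i‖⁻¹ • fderiv ℝ (G.psi (-((y.2 i).arg / 2))) y.1 δ)), ?_⟩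
    have h1 := G.fderiv_psi_neg h (-((y.2 i).arg / 2)) (hs y hy) δ
    have h2 := h.al_R (hs y hy).1 δ
    rw [neg_neg] at h1
    rw [R_of_TT hy.1.1, hδ] at h2
    rw [ap, e.apply_symm_apply, Finset.sum_eq_single i
      (fun j _ hj => by rw [Pi.single_eq_of_ne hj, map_zero, smul_zero]) (by simp),
      Pi.single_eq_same, map_smul, smul_inv_smul₀ (norm_ne_zero_iff.2 hi), Geo.Ev_A,
      ContinuousLinearMap.comp_apply, h1, Geo.Ev_nz_apply, h2, zero_smul, sub_zero, ← neg_sub]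
    exact neg_mem (sub_DR_mem (TT_TM hy.1.1) δ)

end Pool.Agent.Work.MP_8c604c_gt.O
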