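import Pool.Agent.Work.MP_8c604c_gt.OS.Saw

-- merged part: Pool.Agent.Work.MP_8c604c_gt.OS.Lin
section
/-!
Symplectic linear algebra.
Plan. `orth_dim`: restrict `ω` to a nondegenerate bilinear form on `T` (`LinearMap.BilinForm.finrank_orthogonal`), or: the map `T → dual A` is onto
because `T → dual T` is injective hence onto and `dual T → dual A` is onto; its kernel is `orth ω T A`.  The rest follows by counting dimensions
(`Submodule.eq_of_le_of_finrank_eq`, `Submodule.finrank_sup_add_finrank_inf_eq`).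
`pos_lt`: the form `(a, b), (a', b') ↦ ω a b'` on the pairs with `a + b ∈ V y` is symmetric and nonnegative.  If `ω a b = 0` then `ω a b' = 0` for
all `b' ∈ V x ⊓ (V s ⊔ V y)` (discriminant), so `a ∈ V x ⊔ (V s ⊓ V y)` by `orth_inf`, `orth_sup`, `orth_V`; write `a = b'' + κ`, then `a - κ ∈ V s ⊓ V x`
is zero, so `a ∈ V y`, so `b ∈ V x ⊓ V y` is zero.
`pair`: `κ = a + c` with `a ∈ V (π/4)`, `c ∈ V (3π/4) = V (-π/4)` by `orth_KK`; `pos_lt` for the times `π/4 < π/2 < 3π/4` and `-π/4 < 0 < π/4` gives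
`ω a κ < 0` and `ω c κ < 0` unless `κ = 0`, but the sum is `ω κ κ = 0`.  `pair'` is `pair` for the shifted system.
-/

set_option maxSynthPendingDepth 3
set_option linter.unusedSectionVars false

open Set Filter Topology Real Module
open scoped RealInnerProductSpace

noncomputable section
namespace Pool.Agent.Work.MP_8c604c_gt.OS

variable {H : Type} [NormedAddCommGroup H] [InnerProductSpace ℝ H] [FiniteDimensional ℝ H]
  {n k : ℕ} {ω : Bi H} {T A B : Submodule ℝ H} {V : ℝ → Submodule ℝ H}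

theorem orth_le : orth ω T A ≤ T := fun _ h => h.1

theorem orth_sup : orth ω T (A ⊔ B) = orth ω T A ⊓ orth ω T B := by
  ext u
  simp only [Submodule.mem_inf, mem_orth]
  refine ⟨fun h => ⟨⟨h.1, fun a ha => h.2 a (Submodule.mem_sup_left ha)⟩,
    h.1, fun a ha => h.2 a (Submodule.mem_sup_right ha)⟩, fun h => ⟨h.1.1, fun a ha => ?_⟩⟩
  obtain ⟨p, hp, q, hq, rfl⟩ := Submodule.mem_sup.1 ha
  rw [map_add, add_apply, h.1.2 p hp, h.2.2 q hq, add_zero]

theorem Sym.skew (h : Sym n ω T) (u w : H) : ω u w = -ω w u := by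
  have := h.alt (u + w)
  simp only [map_add, add_apply, h.alt] at this
  linarith

theorem Sym.orth_dim (h : Sym n ω T) (hA : A ≤ T) :
    finrank ℝ (orth ω T A) + finrank ℝ A = 2 * n := by
  let g : T →ₗ[ℝ] Module.Dual ℝ T := LinearMap.mk₂ ℝ (fun u w : T => ω w u)
    (fun _ _ _ => by simp) (fun _ _ _ => by simp) (fun _ _ _ => by simp) (fun _ _ _ => by simp)
  have hg : Function.Injective g := by
    rw [injective_iff_map_eq_zero]
    intro u hu
    refine Subtype.ext (h.nd u u.2 fun w hw => ?_)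
    have : ω w u = 0 := LinearMap.congr_fun hu ⟨w, hw⟩
    rw [h.skew, this, neg_zero]
  have hs : Function.Surjective g :=
    (LinearMap.injective_iff_surjective_of_finrank_eq_finrank Subspace.dual_finrank_eq.symm).1 hg
  let f := (Submodule.inclusion hA).dualMap ∘ₗ g
  have hf : Function.Surjective f :=
    (LinearMap.dualMap_surjective_of_injective (Submodule.inclusion_injective hA)).comp hs
  have e1 := LinearMap.finrank_range_add_finrank_ker f
  rw [LinearMap.range_eq_top.2 hf, finrank_top, Subspace.dual_finrank_eq, h.dimT] at e1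
  have e2 : orth ω T A = (LinearMap.ker f).map T.subtype := by
    ext u
    refine ⟨fun hu => ⟨⟨u, hu.1⟩, LinearMap.ext fun a => hu.2 a a.2, rfl⟩, ?_⟩
    rintro ⟨u, hu, rfl⟩
    exact ⟨u.2, fun a ha => LinearMap.congr_fun hu ⟨a, ha⟩⟩
  rw [e2, Submodule.finrank_map_subtype_eq, add_comm, e1]

theorem Sym.orth_orth (h : Sym n ω T) (hA : A ≤ T) : orth ω T (orth ω T A) = A := by
  symm
  refine Submodule.eq_of_le_of_finrank_eq (fun a ha => ⟨hA ha, fun u hu => ?_⟩) ?_
  · rw [h.skew, hu.2 a ha, neg_zero]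
  · have e1 := h.orth_dim hA
    have e2 := h.orth_dim (A := orth ω T A) orth_le
    omega

theorem Sym.orth_inf (h : Sym n ω T) (hA : A ≤ T) (hB : B ≤ T) :
    orth ω T (A ⊓ B) = orth ω T A ⊔ orth ω T B := by
  rw [← h.orth_orth (A := orth ω T A ⊔ orth ω T B) (sup_le orth_le orth_le), orth_sup,
    h.orth_orth hA, h.orth_orth hB]

theorem Sym.iso_dim (h : Sym n ω T) (hA : A ≤ T) (hi : ∀ u ∈ A, ∀ w ∈ A, ω u w = 0) :
    finrank ℝ A ≤ n := by
  have e1 := h.orth_dim hA
  have e2 : finrank ℝ A ≤ finrank ℝ (orth ω T A) :=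
    Submodule.finrank_mono fun a ha => ⟨hA ha, fun u hu => hi u hu a ha⟩
  omega

theorem Sys0.orth_V (h : Sys0 n ω T V) (t : ℝ) : orth ω T (V t) = V t := by
  symm
  refine Submodule.eq_of_le_of_finrank_eq
    (fun a ha => ⟨h.le t ha, fun u hu => h.iso t u hu a ha⟩) ?_
  have e1 := h.toSym.orth_dim (h.le t)
  have e2 := h.dim t
  omega

theorem Sys0.shift (h : Sys0 n ω T V) (r : ℝ) : Sys0 n ω T fun t => V (t + r) :=
  { toSym := h.toSym
    le := fun _ => h.le _
    dim := fun _ => h.dim _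
    iso := fun _ => h.iso _
    per := fun t => by rw [add_right_comm, h.per]
    tr := fun s t h1 h2 => h.tr _ _ (by linarith) (by linarith)
    pos := fun s x y h1 h2 h3 => h.pos _ _ _ (by linarith) (by linarith) (by linarith) }

theorem KK_shift (V : ℝ → Submodule ℝ H) (r t : ℝ) : KK (fun t => V (t + r)) t = KK V (t + r) := by
  simp only [KK]
  rw [add_right_comm]

theorem Sys.shift (h : Sys n k ω T V) (r : ℝ) : Sys n k ω T fun t => V (t + r) :=
  { toSys0 := h.toSys0.shift r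
    dimK := fun t => by rw [KK_shift, h.dimK] }

theorem Sys0.per_int (h : Sys0 n ω T V) (t : ℝ) (j : ℤ) : V (t + j * π) = V t :=
  Function.Periodic.int_mul (f := V) h.per j t

theorem Sys0.iso' (h : Sys0 n ω T V) {s t : ℝ} (e : sin (t - s) = 0) {u w : H} (hu : u ∈ V s)
    (hw : w ∈ V t) : ω u w = 0 := by
  obtain ⟨j, hj⟩ := sin_eq_zero_iff.1 e
  rw [show t = s + j * π by linarith, h.per_int] at hw
  exact h.iso s u hu w hw

theorem Sys0.tr' (h : Sys0 n ω T V) {s t : ℝ} (e : sin (2 * (t - s)) ≠ 0) {u : H} (hs : u ∈ V s)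
    (ht : u ∈ V t) : u = 0 := by
  obtain ⟨j, d, h1, h2, rfl⟩ : ∃ (j : ℤ) (d : ℝ), 0 ≤ d ∧ d < π ∧ t = s + d + j * π := by
    refine ⟨⌊(t - s) / π⌋, t - s - ⌊(t - s) / π⌋ * π, ?_, ?_, by ring⟩
    · have := (le_div_iff₀ pi_pos).1 (Int.floor_le ((t - s) / π))
      linarith
    · have := (div_lt_iff₀ pi_pos).1 (Int.lt_floor_add_one ((t - s) / π))
      linarith
  rw [h.per_int] at ht
  rw [show 2 * (s + d + j * π - s) = 2 * d + j * (2 * π) by ring, sin_add_int_mul_two_pi] at e
  have h0 : d ≠ 0 := by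
    rintro rfl
    exact e (by simp)
  have h3 : d ≠ π / 2 := by
    rintro rfl
    exact e (by rw [show 2 * (π / 2) = π by ring, sin_pi])
  have h4 : 0 < d := lt_of_le_of_ne h1 h0.symm
  rcases lt_or_gt_of_ne h3 with h5 | h5
  · exact h.tr s (s + d) (by linarith) (by linarith) u hs ht
  · exact h.tr (s + d) (s + π) (by linarith) (by linarith) u ht (by rwa [h.per])

theorem Sys0.sup_eq (h : Sys0 n ω T V) {s t : ℝ} (e : sin (2 * (t - s)) ≠ 0) : V s ⊔ V t = T := by
  refine Submodule.eq_of_le_of_finrank_eq (sup_le (h.le s) (h.le t)) ?_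
  have e1 := Submodule.finrank_sup_add_finrank_inf_eq (V s) (V t)
  have e2 : V s ⊓ V t = ⊥ := eq_bot_iff.2 fun u hu => h.tr' e hu.1 hu.2
  rw [e2, finrank_bot, h.dim, h.dim] at e1
  rw [h.dimT]
  omega

theorem Sys0.pos_lt (h : Sys0 n ω T V) {s x y : ℝ} (h1 : s < x) (h2 : x < y) (h3 : y ≤ s + π / 2)
    {a b : H} (ha : a ∈ V s) (hb : b ∈ V x) (hc : a + b ∈ V y) (h0 : b ≠ 0) : 0 < ω a b := by
  refine lt_of_le_of_ne (h.pos s x y h1 h2 h3 a ha b hb hc) fun e => h0 ?_
  have key : ∀ a' ∈ V s, ∀ b' ∈ V x, a' + b' ∈ V y → ω a b' = 0 := by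
    intro a' ha' b' hb' hc'
    have e1 := h.iso y _ hc _ hc'
    simp only [map_add, add_apply] at e1
    rw [h.iso s a ha a' ha', h.iso x b hb b' hb', h.toSym.skew b a'] at e1
    have e2 : ∀ r : ℝ, 0 ≤ 2 * r * ω a b' + ω a' b' := fun r => by
      have := h.pos s x y h1 h2 h3 (r • a + a') (add_mem (Submodule.smul_mem _ r ha) ha')
        (r • b + b') (add_mem (Submodule.smul_mem _ r hb) hb') (by
          rw [add_add_add_comm, ← smul_add]
          exact add_mem (Submodule.smul_mem _ r hc) hc')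
      simp only [map_add, map_smul, add_apply, smul_apply,
        smul_eq_mul, ← e] at this
      rw [show ω a' b = ω a b' by linarith] at this
      linarith
    by_contra hne
    have := e2 (-(ω a' b' + 1) / (2 * ω a b'))
    rw [show 2 * (-(ω a' b' + 1) / (2 * ω a b')) * ω a b' = -(ω a' b' + 1) by field_simp] at this
    linarith
  have h4 : a ∈ orth ω T (V x ⊓ (V s ⊔ V y)) := by
    refine ⟨h.le s ha, fun b' hb' => ?_⟩
    obtain ⟨p, hp, q, hq, e1⟩ := Submodule.mem_sup.1 hb'.2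
    rw [h.toSym.skew, key (-p) (neg_mem hp) b' hb'.1 (by rwa [← e1, neg_add_cancel_left]), neg_zero]
  rw [h.toSym.orth_inf (h.le x) (sup_le (h.le s) (h.le y)), orth_sup, h.orth_V, h.orth_V,
    h.orth_V] at h4
  obtain ⟨p, hp, q, hq, rfl⟩ := Submodule.mem_sup.1 h4
  have h5 : p = 0 := h.tr s x h1 (by linarith) p
    (by simpa using sub_mem ha hq.1) hp
  subst h5
  exact h.tr x y h2 (by linarith) b hb (by simpa using sub_mem hc hq.2)

theorem Sys0.KK_half (h : Sys0 n ω T V) (t : ℝ) (j : ℤ) : KK V (t + j * (π / 2)) = KK V t := by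
  refine Function.Periodic.int_mul (f := KK V) (fun t => ?_) j t
  rw [KK, KK, add_assoc, add_halves, h.per, inf_comm]

theorem Sys0.KK_le (h : Sys0 n ω T V) (t : ℝ) (j : ℤ) : KK V t ≤ V (t + j * (π / 2)) := by
  rw [← h.KK_half t j]
  exact inf_le_left

theorem Sys0.orth_KK (h : Sys0 n ω T V) (t : ℝ) : orth ω T (KK V t) = V t ⊔ V (t + π / 2) := by
  rw [KK, h.toSym.orth_inf (h.le _) (h.le _), h.orth_V, h.orth_V]

theorem Lin_pair (h : Sys0 n ω T V) (t : ℝ) {κ : H} (hκ : κ ∈ KK V t)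
    (e : ∀ l ∈ KK V (t + π / 4), ω κ l = 0) : κ = 0 := by
  by_contra h0
  have hp := pi_pos
  have h1 : κ ∈ orth ω T (KK V (t + π / 4)) :=
    ⟨h.le t hκ.1, fun l hl => by rw [h.toSym.skew, e l hl, neg_zero]⟩
  rw [h.orth_KK] at h1
  obtain ⟨a, ha, c, hc, e1⟩ := Submodule.mem_sup.1 h1
  have h2 : 0 < ω a (-κ) := h.pos_lt (s := t + π / 4) (x := t + π / 2) (y := t + π / 4 + π / 2)
    (by linarith) (by linarith) le_rfl ha (neg_mem hκ.2)
    (by rw [← e1, neg_add, add_neg_cancel_left]; exact neg_mem hc) (neg_ne_zero.2 h0)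
  have h3 : 0 < ω c (-κ) := h.pos_lt (s := t - π / 4) (x := t) (y := t + π / 4)
    (by linarith) (by linarith) (by linarith)
    (by rwa [← h.per, show t - π / 4 + π = t + π / 4 + π / 2 by ring]) (neg_mem hκ.1)
    (by rw [← e1, neg_add_rev, add_neg_cancel_left]; exact neg_mem ha) (neg_ne_zero.2 h0)
  have h4 := add_pos h2 h3
  rw [← add_apply, ← map_add, e1, map_neg, h.alt, neg_zero] at h4
  exact lt_irrefl _ h4

theorem Sys0.pair (h : Sys0 n ω T V) {κ : H} (hκ : κ ∈ KK V 0)
    (e : ∀ l ∈ KK V (π / 4), ω κ l = 0) : κ = 0 :=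
  Lin_pair h 0 hκ (by rwa [zero_add])

theorem Sys0.pair' (h : Sys0 n ω T V) {l : H} (hl : l ∈ KK V (π / 4))
    (e : ∀ κ ∈ KK V 0, ω κ l = 0) : l = 0 := by
  refine Lin_pair h (π / 4) hl fun κ hκ => ?_
  rw [show π / 4 + π / 4 = 0 + (1 : ℤ) * (π / 2) by push_cast; ring, h.KK_half] at hκ
  rw [h.toSym.skew, e κ hκ, neg_zero]

theorem Sys0.Sg_le (h : Sys0 n ω T V) : Sg V ≤ T :=
  sup_le (inf_le_left.trans (h.le _)) (inf_le_left.trans (h.le _))

theorem Sys0.Sg_Tp (h : Sys0 n ω T V) {u : H} (h1 : u ∈ Sg V) (h2 : u ∈ Tp ω T V) : u = 0 := by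
  obtain ⟨κ, hκ, l, hl, rfl⟩ := Submodule.mem_sup.1 h1
  have e1 : κ = 0 := h.pair hκ fun l' hl' => by
    have := h2.2 l' (Submodule.mem_sup_right hl')
    rw [map_add, h.iso _ l' hl'.1 l hl.1, add_zero] at this
    rw [h.toSym.skew, this, neg_zero]
  have e2 : l = 0 := h.pair' hl fun κ' hκ' => by
    have := h2.2 κ' (Submodule.mem_sup_left hκ')
    rwa [map_add, h.iso _ κ' hκ'.1 κ hκ.1, zero_add] at this
  rw [e1, e2, add_zero]

theorem Sys0.Sg_sup (h : Sys0 n ω T V) : Sg V ⊔ Tp ω T V = T := by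
  refine Submodule.eq_of_le_of_finrank_eq (sup_le h.Sg_le orth_le) ?_
  have e1 := Submodule.finrank_sup_add_finrank_inf_eq (Sg V) (Tp ω T V)
  have e2 : Sg V ⊓ Tp ω T V = ⊥ := eq_bot_iff.2 fun u hu => h.Sg_Tp hu.1 hu.2
  have e3 : finrank ℝ (Tp ω T V) + finrank ℝ (Sg V) = 2 * n := h.toSym.orth_dim h.Sg_le
  rw [e2, finrank_bot] at e1
  rw [h.dimT]
  omega

/-- The three parts are unique. -/
theorem Sys0.three (h : Sys0 n ω T V) {κ l u : H} (hκ : κ ∈ KK V 0) (hl : l ∈ KK V (π / 4))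
    (hu : u ∈ Tp ω T V) (e : κ + l + u = 0) : κ = 0 ∧ l = 0 ∧ u = 0 := by
  have hp := pi_pos
  have e1 : κ + l = 0 := h.Sg_Tp (Submodule.add_mem_sup hκ hl)
    (by rw [eq_neg_of_add_eq_zero_left e]; exact neg_mem hu)
  have e2 : κ = 0 := h.tr 0 (π / 4) (by linarith) (by linarith) κ hκ.1
    (by rw [eq_neg_of_add_eq_zero_left e1]; exact neg_mem hl.1)
  rw [e1, zero_add] at e
  rw [e2, zero_add] at e1
  exact ⟨e2, e1, e⟩

theorem Sys.sym_Sg (h : Sys n k ω T V) : Sym k ω (Sg V) := by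
  have hp := pi_pos
  refine ⟨h.alt, fun u hu e => h.toSys0.Sg_Tp hu ⟨h.toSys0.Sg_le hu, fun a ha => ?_⟩, ?_⟩
  · rw [h.toSym.skew, e a ha, neg_zero]
  · have e1 := Submodule.finrank_sup_add_finrank_inf_eq (KK V 0) (KK V (π / 4))
    have e2 : KK V 0 ⊓ KK V (π / 4) = ⊥ := eq_bot_iff.2 fun u hu =>
      h.tr 0 (π / 4) (by linarith) (by linarith) u hu.1.1 hu.2.1
    rw [e2, finrank_bot, h.dimK, h.dimK] at e1
    rw [Sg]
    omega

theorem Sys.le_n (h : Sys n k ω T V) : k ≤ n := by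
  rw [← h.dimK 0, ← h.dim 0]
  exact Submodule.finrank_mono inf_le_left

theorem Sys.sym_Tp (h : Sys n k ω T V) : Sym (n - k) ω (Tp ω T V) := by
  refine ⟨h.alt, fun u hu e => h.toSys0.Sg_Tp ?_ hu, ?_⟩
  · rw [← h.toSym.orth_orth h.toSys0.Sg_le]
    exact ⟨hu.1, fun a ha => by rw [h.toSym.skew, e a ha, neg_zero]⟩
  · have e3 : finrank ℝ (Tp ω T V) + finrank ℝ (Sg V) = 2 * n := h.toSym.orth_dim h.toSys0.Sg_le
    have e4 := h.sym_Sg.dimT
    omega

theorem Lin_dec (h : Sys0 n ω T V) {x : H} (hx : x ∈ T) :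
    ∃ κ ∈ KK V 0, ∃ l ∈ KK V (π / 4), ∃ u ∈ Tp ω T V, x = κ + l + u := by
  rw [← h.Sg_sup] at hx
  obtain ⟨p, hp, u, hu, rfl⟩ := Submodule.mem_sup.1 hx
  obtain ⟨κ, hκ, l, hl, rfl⟩ := Submodule.mem_sup.1 hp
  exact ⟨κ, hκ, l, hl, u, hu, rfl⟩

/-- At the times `j π/2` the system splits. -/
theorem Sys.split0 (h : Sys n k ω T V) (j : ℤ) {x : H} (hx : x ∈ V (j * (π / 2))) :
    ∃ κ ∈ KK V 0, x - κ ∈ Tp ω T V := by
  obtain ⟨κ, hκ, l, hl, u, hu, rfl⟩ := Lin_dec h.toSys0 (h.le _ hx)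
  have e : l = 0 := h.toSys0.pair' hl fun κ' hκ' => by
    have := h.iso _ κ' (by simpa using h.toSys0.KK_le 0 j hκ') _ hx
    rwa [map_add, map_add, h.iso _ κ' hκ'.1 κ hκ.1, hu.2 κ' (Submodule.mem_sup_left hκ'), zero_add,
      add_zero] at this
  exact ⟨κ, hκ, by simpa [e] using hu⟩

/-- At the times `π/4 + j π/2` the system splits. -/
theorem Sys.split1 (h : Sys n k ω T V) (j : ℤ) {x : H} (hx : x ∈ V (π / 4 + j * (π / 2))) :
    ∃ l ∈ KK V (π / 4), x - l ∈ Tp ω T V := by
  obtain ⟨κ, hκ, l, hl, u, hu, rfl⟩ := Lin_dec h.toSys0 (h.le _ hx)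
  have e : κ = 0 := h.toSys0.pair hκ fun l' hl' => by
    have := h.iso _ l' (h.toSys0.KK_le _ j hl') _ hx
    rw [map_add, map_add, h.iso _ l' hl'.1 l hl.1, hu.2 l' (Submodule.mem_sup_right hl'), add_zero,
      add_zero] at this
    rw [h.toSym.skew, this, neg_zero]
  exact ⟨l, hl, by simpa [e] using hu⟩

end Pool.Agent.Work.MP_8c604c_gt.OS
end
end

-- merged part: Pool.Agent.Work.MP_8c604c_gt.OS.CS
section
/-!
Continuous families of subspaces.
Plan. `CS.of_cl`: apply `B.Neg_cont` to the complementary projectors `1 - Q`: `Q y ((1 - Q x) v) → 0` as `y → x`, because the vectors `Q y u` are bounded, every cluster point `c`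
lies in `A x` (closed graph), and `⟪c, c⟫ = lim ⟪Q y u, Q y u⟫ = lim ⟪u, Q y u⟫ = ⟪u, c⟫ = 0` for `u` orthogonal to `A x`.  (See also `rb_of_closed` in OG/GeoB or T/GeoB.)
`Cl.map`: sequences (`mem_closure_iff_seq_limit`); if `v_j = L y_j a_j` converges then `a_j` is bounded, otherwise `a_j / ‖a_j‖` has a cluster point of norm one in `A p` killed by `L p`.
`Cl.orth`: approximate `a ∈ A p` by `(A y).starProjection a`.  `CS.sup`: the range of `(A.starProjection).coprod (B.starProjection)` on `WithLp 2 (H × H)`, `B.continuousOn_range_proj`.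
`CS.proj`: `G y = Q_A + Q_B + (1 - Q_(A ⊔ B))` is positive definite, hence a unit, its inverse is continuous (`NormedRing.inverse_continuousAt`); `π = Q_A ∘ G⁻¹` is the projector:
for `a ∈ A` and `u = G⁻¹ a` one has `Q_A u - a + Q_B u + (u - Q u) = 0`, so each part vanishes.
-/

set_option maxSynthPendingDepth 3
set_option linter.unusedSectionVars false
set_option linter.unusedVariables false

open Set Filter Topology Real Module
open scoped RealInnerProductSpace

noncomputable section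
namespace Pool.Agent.Work.MP_8c604c_gt.OS

variable {H : Type} [NormedAddCommGroup H] [InnerProductSpace ℝ H] [FiniteDimensional ℝ H]
  {X : Type} [MetricSpace X] {s : Set X} {p : X}
  {F F' : Type} [NormedAddCommGroup F] [NormedSpace ℝ F] [FiniteDimensional ℝ F]
  [NormedAddCommGroup F'] [NormedSpace ℝ F'] [FiniteDimensional ℝ F']

theorem CS_flt {A : X → Submodule ℝ F} (h : Cl A s p) {ι : Type} {l : Filter ι} [l.NeBot]
    {y : ι → X} {v : ι → F} {v₀ : F} (hm : ∀ᶠ j in l, y j ∈ s ∧ v j ∈ A (y j))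
    (hy : Tendsto y l (𝓝 p)) (hv : Tendsto v l (𝓝 v₀)) : v₀ ∈ A p :=
  h _ (mem_closure_of_tendsto (hy.prodMk_nhds hv) hm)

theorem CS_within {y : ℕ → X} (hs : ∀ j, y j ∈ s) (hy : Tendsto y atTop (𝓝 p)) :
    Tendsto y atTop (𝓝[s] p) :=
  tendsto_nhdsWithin_iff.2 ⟨hy, .of_forall hs⟩

theorem CS_app {ι : Type} {l : Filter ι} {L : ι → F →L[ℝ] F'} {L₀ : F →L[ℝ] F'} {v : ι → F} {v₀ : F}
    (hL : Tendsto L l (𝓝 L₀)) (hv : Tendsto v l (𝓝 v₀)) :
    Tendsto (fun j => L j (v j)) l (𝓝 (L₀ v₀)) :=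
  ((isBoundedBilinearMap_apply (𝕜 := ℝ) (E := F) (F := F')).continuous.tendsto (L₀, v₀)).comp
    (hL.prodMk_nhds hv)

theorem cl_iff_seq {A : X → Submodule ℝ F} : Cl A s p ↔ ∀ (y : ℕ → X) (v : ℕ → F) (v₀ : F),
    (∀ j, y j ∈ s) → (∀ j, v j ∈ A (y j)) → Tendsto y atTop (𝓝 p) → Tendsto v atTop (𝓝 v₀) →
      v₀ ∈ A p := by
  refine ⟨fun h y v v₀ h1 h2 h3 h4 => CS_flt h (.of_forall fun j => ⟨h1 j, h2 j⟩) h3 h4,
    fun h v hv => ?_⟩
  obtain ⟨x, hx, ht⟩ := mem_closure_iff_seq_limit.1 hv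
  exact h (fun j => (x j).1) (fun j => (x j).2) v (fun j => (hx j).1) (fun j => (hx j).2)
    ((continuous_fst.tendsto _).comp ht) ((continuous_snd.tendsto _).comp ht)

theorem CS.cl {A : X → Submodule ℝ H} (h : CS A s) (hp : p ∈ s) : Cl A s p := by
  refine cl_iff_seq.2 fun y v v₀ h1 h2 h3 h4 => ?_
  have h5 := CS_app ((h p hp).tendsto.comp (CS_within h1 h3)) h4
  have h6 : (fun j => ((fun x => (A x).starProjection) ∘ y) j (v j)) = v :=
    funext fun j => Submodule.starProjection_eq_self_iff.2 (h2 j)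
  rw [h6] at h5
  exact Submodule.starProjection_eq_self_iff.1 (tendsto_nhds_unique h5 h4)

theorem CS.of_cl {A : X → Submodule ℝ H} {d : ℕ} (h : ∀ p ∈ s, Cl A s p)
    (hd : ∀ p ∈ s, finrank ℝ (A p) = d) : CS A s := by
  have key : ContinuousOn (fun x => (A x)ᗮ.starProjection) s := by
    refine B.Neg_cont (k := finrank ℝ H - d) (fun x _ => Submodule.inner_starProjection_left_eq_right _)
      (fun x _ v => Submodule.starProjection_eq_self_iff.2 (Submodule.starProjection_apply_mem _ v))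
      (fun x hx => ?_) fun x hx v => ?_
    · rw [Submodule.range_starProjection, ← hd x hx, ← Submodule.finrank_add_finrank_orthogonal (A x),
        Nat.add_sub_cancel_left]
    have hu : (A x)ᗮ.starProjection v ∈ (A x)ᗮ := Submodule.starProjection_apply_mem _ v
    generalize (A x)ᗮ.starProjection v = u at hu
    have h0 : Tendsto (fun y => (A y).starProjection u) (𝓝[s] x) (𝓝 0) := by
      refine tendsto_of_subseq_tendsto fun y hy => ?_
      obtain ⟨c, -, φ, hφ, hc⟩ := (isCompact_closedBall (0 : H) ‖u‖).tendsto_subseq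
        (x := fun j => (A (y j)).starProjection u)
        fun j => mem_closedBall_zero_iff.2 ((A (y j)).norm_starProjection_apply_le u)
      have hy' := tendsto_nhdsWithin_iff.1 (hy.comp hφ.tendsto_atTop)
      have hc1 : c ∈ A x := CS_flt (h x hx) (y := y ∘ φ)
        (hy'.2.mono fun j hj => ⟨hj, Submodule.starProjection_apply_mem _ u⟩) hy'.1 hc
      have e : ∀ j, ⟪(A (y (φ j))).starProjection u, (A (y (φ j))).starProjection u⟫ =
          ⟪(A (y (φ j))).starProjection u, u⟫ := fun j => by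
        rw [real_inner_comm u, Submodule.inner_starProjection_left_eq_right,
          Submodule.starProjection_eq_self_iff.2 (Submodule.starProjection_apply_mem _ u)]
      have t1 := hc.inner (𝕜 := ℝ) hc
      have t2 := hc.inner (𝕜 := ℝ) (tendsto_const_nhds (x := u))
      simp only [Function.comp_apply, e] at t1 t2
      have : c = 0 := inner_self_eq_zero.1 ((tendsto_nhds_unique t1 t2).trans (hu c hc1))
      exact ⟨φ, this ▸ hc⟩
    have h1 := (tendsto_const_nhds (x := u)).sub h0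
    rw [sub_zero] at h1
    refine h1.congr fun y => ?_
    rw [Submodule.starProjection_orthogonal']
    rfl
  refine (continuousOn_const (c := 1).sub key).congr fun x _ => ?_
  simp only [Submodule.starProjection_orthogonal', Pi.sub_apply, sub_sub_cancel]

theorem CS.comp {X' : Type} [TopologicalSpace X'] {s' : Set X'} {A : X → Submodule ℝ H} (h : CS A s)
    {g : X' → X} (hg : ContinuousOn g s') (hm : MapsTo g s' s) : CS (fun x => A (g x)) s' :=
  ContinuousOn.comp (g := fun x => (A x).starProjection) h hg hm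

theorem CS.congr {A B : X → Submodule ℝ H} (h : CS A s) (e : ∀ x ∈ s, B x = A x) : CS B s :=
  ContinuousOn.congr h fun x hx => by simp only [e x hx]

theorem Cl.comp {X' : Type} [MetricSpace X'] {s' : Set X'} {p' : X'} {A : X → Submodule ℝ F}
    {g : X' → X} (h : Cl A s (g p')) (hg : ContinuousWithinAt g s' p') (hm : MapsTo g s' s) :
    Cl (fun x => A (g x)) s' p' :=
  cl_iff_seq.2 fun y v v₀ h1 h2 h3 h4 => CS_flt h (y := g ∘ y) (.of_forall fun j => ⟨hm (h1 j), h2 j⟩)
    (hg.tendsto.comp (CS_within h1 h3)) h4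

/-- Only the values near `p` matter. -/
theorem Cl.congr {A B : X → Submodule ℝ F} (h : Cl A s p) (e : ∀ᶠ x in 𝓝[s] p, B x ≤ A x)
    (e' : A p ≤ B p) : Cl B s p :=
  cl_iff_seq.2 fun y v v₀ h1 h2 h3 h4 => e' (CS_flt h
    (((CS_within h1 h3).eventually e).mono fun j hj => ⟨h1 j, hj (h2 j)⟩) h3 h4)

theorem Cl.inf {A B : X → Submodule ℝ F} (hA : Cl A s p) (hB : Cl B s p) :
    Cl (fun x => A x ⊓ B x) s p :=
  cl_iff_seq.2 fun y v v₀ h1 h2 h3 h4 => ⟨cl_iff_seq.1 hA y v v₀ h1 (fun j => (h2 j).1) h3 h4,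
    cl_iff_seq.1 hB y v v₀ h1 (fun j => (h2 j).2) h3 h4⟩

theorem Cl.iInf {κ : Type} {A : κ → X → Submodule ℝ F} (h : ∀ i, Cl (A i) s p) :
    Cl (fun x => ⨅ i, A i x) s p :=
  cl_iff_seq.2 fun y v v₀ h1 h2 h3 h4 => Submodule.mem_iInf _ |>.2 fun i =>
    cl_iff_seq.1 (h i) y v v₀ h1 (fun j => (Submodule.mem_iInf _).1 (h2 j) i) h3 h4

theorem Cl.prod {A : X → Submodule ℝ F} {B : X → Submodule ℝ F'} (hA : Cl A s p) (hB : Cl B s p) :
    Cl (fun x => (A x).prod (B x)) s p :=
  cl_iff_seq.2 fun y v v₀ h1 h2 h3 h4 => Submodule.mem_prod.2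
    ⟨cl_iff_seq.1 hA y _ _ h1 (fun j => (Submodule.mem_prod.1 (h2 j)).1) h3
      ((continuous_fst.tendsto _).comp h4),
    cl_iff_seq.1 hB y _ _ h1 (fun j => (Submodule.mem_prod.1 (h2 j)).2) h3
      ((continuous_snd.tendsto _).comp h4)⟩

theorem Cl.comap {A : X → Submodule ℝ F'} (h : Cl A s p) {L : X → F →L[ℝ] F'}
    (hL : ContinuousWithinAt L s p) : Cl (fun x => (A x).comap (L x : F →ₗ[ℝ] F')) s p :=
  cl_iff_seq.2 fun y v v₀ h1 h2 h3 h4 => cl_iff_seq.1 h y (fun j => L (y j) (v j)) (L p v₀) h1 h2 h3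
    (CS_app (hL.tendsto.comp (CS_within h1 h3)) h4)

theorem Cl.map {A : X → Submodule ℝ F} (h : Cl A s p) {L : X → F →L[ℝ] F'}
    (hL : ContinuousWithinAt L s p) (hi : ∀ a ∈ A p, L p a = 0 → a = 0) :
    Cl (fun x => (A x).map (L x : F →ₗ[ℝ] F')) s p := by
  refine cl_iff_seq.2 fun y v v₀ h1 h2 h3 h4 => ?_
  choose a ha hav using h2
  have hp : ∀ j, 0 < 1 + ‖a j‖ := fun j => by positivity
  have e : ∀ j, ‖(1 + ‖a j‖)⁻¹ • a j‖ + (1 + ‖a j‖)⁻¹ = 1 := fun j => by
    rw [norm_smul, Real.norm_of_nonneg (inv_nonneg.2 (hp j).le)]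
    field_simp [(hp j).ne']
    ring
  obtain ⟨c, -, φ, hφ, hc⟩ := ((isCompact_closedBall (0 : F) 1).prod
    (isCompact_Icc (a := (0 : ℝ)) (b := 1))).tendsto_subseq
    (x := fun j => ((1 + ‖a j‖)⁻¹ • a j, (1 + ‖a j‖)⁻¹)) fun j => by
      have h5 := e j
      have h6 := inv_nonneg.2 (hp j).le
      have h7 := norm_nonneg ((1 + ‖a j‖)⁻¹ • a j)
      exact ⟨mem_closedBall_zero_iff.2 (by linarith), h6, by linarith⟩
  have c1 := (continuous_fst.tendsto _).comp hc
  have c2 := (continuous_snd.tendsto _).comp hc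
  have hy := h3.comp hφ.tendsto_atTop
  have m1 : c.1 ∈ A p := cl_iff_seq.1 h (y ∘ φ) _ _ (fun j => h1 _)
    (fun j => Submodule.smul_mem _ _ (ha (φ j))) hy c1
  have m2 : L p c.1 = c.2 • v₀ := by
    refine tendsto_nhds_unique (CS_app (hL.tendsto.comp (CS_within (fun j => h1 (φ j)) hy)) c1)
      ((c2.smul (h4.comp hφ.tendsto_atTop)).congr fun j => ?_)
    simp only [Function.comp_apply, map_smul, ← hav]
    rfl
  have m3 : ‖c.1‖ + c.2 = 1 := tendsto_nhds_unique (c1.norm.add c2)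
    (tendsto_const_nhds.congr fun j => (e (φ j)).symm)
  have m4 : c.2 ≠ 0 := fun h0 => by
    rw [h0, zero_smul] at m2
    rw [h0, hi _ m1 m2] at m3
    simp at m3
  refine ⟨c.2⁻¹ • c.1, Submodule.smul_mem _ _ m1, ?_⟩
  change L p _ = _
  rw [map_smul, m2, smul_smul, inv_mul_cancel₀ m4, one_smul]

theorem cl_const (A : Submodule ℝ F) : Cl (fun _ => A) s p :=
  cl_iff_seq.2 fun _ _ _ _ h2 _ h4 =>
    A.closed_of_finiteDimensional.mem_of_tendsto h4 (.of_forall h2)

theorem Cl.orth {A T : X → Submodule ℝ H} {ω : X → Bi H} (hA : CS A s) (hT : Cl T s p)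
    (hω : ContinuousOn ω s) (hp : p ∈ s) : Cl (fun x => orth (ω x) (T x) (A x)) s p := by
  refine cl_iff_seq.2 fun y v v₀ h1 h2 h3 h4 =>
    ⟨cl_iff_seq.1 hT y v v₀ h1 (fun j => (h2 j).1) h3 h4, fun a ha => ?_⟩
  have hy := CS_within h1 h3
  have t1 := CS_app (CS_app ((hω p hp).tendsto.comp hy)
    (CS_app ((hA p hp).tendsto.comp hy) (tendsto_const_nhds (x := a)))) h4
  rw [Submodule.starProjection_eq_self_iff.2 ha] at t1
  exact tendsto_nhds_unique t1 (tendsto_const_nhds.congr fun j =>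
    ((h2 j).2 _ (Submodule.starProjection_apply_mem _ a)).symm)

theorem CS.orthogonal {A : X → Submodule ℝ H} (h : CS A s) : CS (fun x => (A x)ᗮ) s :=
  (continuousOn_const (c := 1).sub h).congr fun x _ => Submodule.starProjection_orthogonal' _

theorem CS.sup {A B : X → Submodule ℝ H} (hA : CS A s) (hB : CS B s) {d : ℕ}
    (hd : ∀ p ∈ s, finrank ℝ (A p ⊔ B p : Submodule ℝ H) = d) : CS (fun x => A x ⊔ B x) s := by
  let T : X → WithLp 2 (H × H) →L[ℝ] H := fun x =>
    (A x).starProjection.comp (WithLp.fstL 2 ℝ H H) + (B x).starProjection.comp (WithLp.sndL 2 ℝ H H)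
  have hT : ContinuousOn T s :=
    (ContinuousOn.clm_comp hA continuousOn_const).add (ContinuousOn.clm_comp hB continuousOn_const)
  have e : ∀ x, LinearMap.range (T x : WithLp 2 (H × H) →ₗ[ℝ] H) = A x ⊔ B x := fun x => by
    refine le_antisymm ?_ fun u hu => ?_
    · rintro _ ⟨u, rfl⟩
      exact Submodule.add_mem_sup (Submodule.starProjection_apply_mem _ _)
        (Submodule.starProjection_apply_mem _ _)
    · obtain ⟨a, ha, b, hb, rfl⟩ := Submodule.mem_sup.1 hu
      refine ⟨WithLp.toLp 2 (a, b), ?_⟩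
      change (A x).starProjection a + (B x).starProjection b = a + b
      rw [Submodule.starProjection_eq_self_iff.2 ha, Submodule.starProjection_eq_self_iff.2 hb]
  have h := Pool.Agent.Work.MP_8c604c_gt.B.continuousOn_range_proj hT (k := d) fun x hx => by rw [e, hd x hx]
  simp only [e] at h
  exact h

theorem CS_nonneg (A : Submodule ℝ H) (u : H) :
    ⟪A.starProjection u, u⟫ = ‖A.starProjection u‖ ^ 2 := by
  rw [← real_inner_self_eq_norm_sq, real_inner_comm u, Submodule.inner_starProjection_left_eq_right,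
    Submodule.starProjection_eq_self_iff.2 (Submodule.starProjection_apply_mem _ u)]

theorem CS_unit (A B : Submodule ℝ H) :
    IsUnit (A.starProjection + B.starProjection + (A ⊔ B)ᗮ.starProjection) := by
  have := FiniteDimensional.complete ℝ H
  rw [ContinuousLinearMap.isUnit_iff_bijective]
  have hi : Function.Injective
      (A.starProjection + B.starProjection + (A ⊔ B)ᗮ.starProjection : H →L[ℝ] H) := by
    refine (injective_iff_map_eq_zero _).2 fun u hu => ?_
    have h1 : ⟪A.starProjection u + B.starProjection u + (A ⊔ B)ᗮ.starProjection u, u⟫ = 0 := by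
      rw [← inner_zero_left (𝕜 := ℝ) u, ← hu]; rfl
    rw [inner_add_left, inner_add_left, CS_nonneg, CS_nonneg, CS_nonneg] at h1
    have a1 := sq_nonneg ‖A.starProjection u‖
    have a2 := sq_nonneg ‖B.starProjection u‖
    have a3 := sq_nonneg ‖(A ⊔ B)ᗮ.starProjection u‖
    have b1 : A.starProjection u = 0 := norm_eq_zero.1 (pow_eq_zero_iff two_ne_zero |>.1 (by linarith))
    have b2 : B.starProjection u = 0 := norm_eq_zero.1 (pow_eq_zero_iff two_ne_zero |>.1 (by linarith))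
    have b3 : (A ⊔ B)ᗮ.starProjection u = 0 :=
      norm_eq_zero.1 (pow_eq_zero_iff two_ne_zero |>.1 (by linarith))
    rw [Submodule.starProjection_apply_eq_zero_iff] at b1 b2 b3
    have b4 : u ∈ (A ⊔ B)ᗮ := by rw [← Submodule.inf_orthogonal]; exact ⟨b1, b2⟩
    exact inner_self_eq_zero.1 (b3 u b4)
  exact ⟨hi, (LinearMap.injective_iff_surjective
    (f := ((A.starProjection + B.starProjection + (A ⊔ B)ᗮ.starProjection : H →L[ℝ] H) : H →ₗ[ℝ] H))).1 hi⟩

theorem CS_split (A B : Submodule ℝ H) {u c : H} (hc : c ∈ A ⊔ B)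
    (h : A.starProjection u + B.starProjection u + (A ⊔ B)ᗮ.starProjection u = c) :
    A.starProjection u + B.starProjection u = c := by
  have h1 : (A ⊔ B)ᗮ.starProjection u ∈ A ⊔ B := by
    rw [eq_sub_of_add_eq' h]
    exact sub_mem hc (Submodule.add_mem_sup (Submodule.starProjection_apply_mem _ _)
      (Submodule.starProjection_apply_mem _ _))
  have h2 : (A ⊔ B)ᗮ.starProjection u = 0 :=
    inner_self_eq_zero.1 (Submodule.starProjection_apply_mem (A ⊔ B)ᗮ u _ h1)
  rwa [h2, add_zero] at h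

/-- The projector onto `A` along `B`. -/
theorem CS.proj {A B : X → Submodule ℝ H} (hA : CS A s) (hB : CS B s)
    (hC : CS (fun x => A x ⊔ B x) s) (hd : ∀ x ∈ s, ∀ u ∈ A x, u ∈ B x → u = 0) :
    ∃ Q : X → H →L[ℝ] H, ContinuousOn Q s ∧
      ∀ x ∈ s, (∀ a ∈ A x, Q x a = a) ∧ ∀ b ∈ B x, Q x b = 0 := by
  have := FiniteDimensional.complete ℝ H
  let G : X → H →L[ℝ] H := fun x =>
    (A x).starProjection + (B x).starProjection + (A x ⊔ B x)ᗮ.starProjection
  have hG : ContinuousOn G s := (ContinuousOn.add hA hB).add hC.orthogonal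
  have hI : ContinuousOn (fun x => Ring.inverse (G x)) s := fun x hx => by
    obtain ⟨u, hu⟩ := CS_unit (A x) (B x)
    refine ContinuousAt.comp_continuousWithinAt (g := Ring.inverse) ?_ (hG x hx)
    change ContinuousAt _ ((A x).starProjection + (B x).starProjection + (A x ⊔ B x)ᗮ.starProjection)
    rw [← hu]
    exact NormedRing.inverse_continuousAt u
  have key : ∀ x, ∀ c ∈ A x ⊔ B x, (A x).starProjection (Ring.inverse (G x) c) +
      (B x).starProjection (Ring.inverse (G x) c) = c := fun x c hc =>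
    CS_split _ _ hc (congrArg (fun L : H →L[ℝ] H => L c) (Ring.mul_inverse_cancel _ (CS_unit (A x) (B x))))
  refine ⟨fun x => (A x).starProjection.comp (Ring.inverse (G x)), ContinuousOn.clm_comp hA hI,
    fun x hx => ⟨fun a ha => ?_, fun b hb => ?_⟩⟩
  · have h1 := key x a (Submodule.mem_sup_left ha)
    have h2 : (B x).starProjection (Ring.inverse (G x) a) = 0 := by
      refine hd x hx _ ?_ (Submodule.starProjection_apply_mem _ _)
      rw [eq_sub_of_add_eq' h1]
      exact sub_mem ha (Submodule.starProjection_apply_mem _ _)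
    rwa [h2, add_zero] at h1
  · have h1 := key x b (Submodule.mem_sup_right hb)
    refine hd x hx _ (Submodule.starProjection_apply_mem _ _) ?_
    change (A x).starProjection (Ring.inverse (G x) b) ∈ B x
    rw [eq_sub_of_add_eq h1]
    exact sub_mem hb (Submodule.starProjection_apply_mem _ _)

end Pool.Agent.Work.MP_8c604c_gt.OS
end
end

-- merged part: Pool.Agent.Work.MP_8c604c_gt.OS.Pol
section
/-!
The polygon inequality and the index lemma.
Plan. `pol_nonneg`: collect the forces with equal times: `g = ∑ a, Finsupp.single (t a) (f a)`; the form `∑ x, ∑ y, hsg (y - x) * ω (g x) (g y)` is bilinear in `g`.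
Induction on the number of times.  With at most two times the form is zero.  Otherwise take three consecutive times `x < y < u` (for example the three smallest).
If `u - x < π/2` write `-g y = a + c` with `a ∈ V x`, `c ∈ V u` (`sup_eq`); if `u - x = π/2` there is no other time and `a = g x`, `c = g u`.
Put `e = (a at x, g y at y, c at u)` and `g' = g - e`; the cross terms of `e` and `g'` vanish because `e` has sum zero and `V x`, `V u` are isotropic,
the form of `e` is `ω a (g y) ≥ 0` (`pos`), and `g'` has one time less.  (A direct induction on the card of the image of `t` on the support is also possible.)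
`win_nonneg`: the sum `F1` of the first half lies in `orth (KK V s) = V s ⊔ V (s + π/2)`, `F1 = -a - c`; close the first half with `a` at `s` and `c` at `s + π/2`,
the second half with `-c` at `s + π/2` and `d = -F - a` at `s + π` (index type `ι ⊕ Fin 2`, forces set to zero and times moved into the window on the other half); the form of `f` is the sum of the forms of the two polygons.
`idx_pos2`, `idx_pos1`: move every time into `[s, s + π)` by a multiple of `π` (`per_int`; in the antiperiodic case multiply the force by the sign, `sgp_add_pi`), then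
the kernel is `hsg` (`sgp_hsg`, `saw_hsg`; the linear part of `saw` dies because the sum of the forces is zero; equal times do not count by `iso`).
-/

set_option maxSynthPendingDepth 3
set_option linter.unusedSectionVars false

open Set Filter Topology Real Module
open scoped RealInnerProductSpace

noncomputable section
namespace Pool.Agent.Work.MP_8c604c_gt.OS

variable {H : Type} [NormedAddCommGroup H] [InnerProductSpace ℝ H] [FiniteDimensional ℝ H]
  {n k : ℕ} {ω : Bi H} {T : Submodule ℝ H} {V : ℝ → Submodule ℝ H} {ι : Type} [Fintype ι]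
  {t : ι → ℝ} {f f' : ι → H}

theorem Sys0.qf_symm (h : Sys0 n ω T V) {c : ℝ → ℝ} (hc : ∀ s, sin s ≠ 0 → c (-s) = -c s)
    (hf : ∀ a, f a ∈ V (t a)) (hf' : ∀ a, f' a ∈ V (t a)) : qf c ω t f f' = qf c ω t f' f := by
  unfold qf
  rw [Finset.sum_comm]
  refine Finset.sum_congr rfl fun a _ => Finset.sum_congr rfl fun b _ => ?_
  rw [h.skew (f b)]
  by_cases e : sin (t b - t a) = 0
  · rw [h.iso' e (hf' a) (hf b), neg_zero, mul_zero, mul_zero]
  · rw [← neg_sub (t b), hc _ e, neg_mul_neg]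

/-- The form of a part of a comb. -/
def Pol_Q (ω : Bi H) (t : ι → ℝ) (f : ι → H) (S : Finset ι) : ℝ :=
  ∑ a ∈ S, ∑ b ∈ S, hsg (t b - t a) * ω (f a) (f b)

theorem Pol_pt (h : Sys0 n ω T V) {x y : ℝ} {u w : H} (hu : u ∈ V x) (hw : w ∈ V y) (e : x ≤ y) :
    hsg (y - x) * ω u w = ω u w / 2 ∧ hsg (x - y) * ω w u = ω u w / 2 := by
  rw [h.skew w u]
  rcases e.eq_or_lt with rfl | e
  · simp [h.iso x u hu w hw]
  · rw [hsg, hsg, sign_pos (sub_pos.2 e), sign_neg (sub_neg.2 e)]
    constructor <;> simp <;> ring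

theorem Pol_split (h : Sys0 n ω T V) (hf : ∀ a, f a ∈ V (t a)) [DecidableEq ι] {S S' : Finset ι}
    (hd : Disjoint S S') (hle : ∀ a ∈ S, ∀ b ∈ S', t a ≤ t b) :
    Pol_Q ω t f (S ∪ S') =
      Pol_Q ω t f S + Pol_Q ω t f S' + ω (∑ a ∈ S, f a) (∑ b ∈ S', f b) := by
  have e : ω (∑ a ∈ S, f a) (∑ b ∈ S', f b) = ∑ a ∈ S, ∑ b ∈ S', ω (f a) (f b) := by
    simp only [map_sum ω, sum_apply, map_sum (ω _)]
  have e1 : ∑ a ∈ S, ∑ b ∈ S', hsg (t b - t a) * ω (f a) (f b) =
      (∑ a ∈ S, ∑ b ∈ S', ω (f a) (f b)) / 2 := by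
    simp only [Finset.sum_div]
    exact Finset.sum_congr rfl fun a ha => Finset.sum_congr rfl fun b hb =>
      (Pol_pt h (hf a) (hf b) (hle a ha b hb)).1
  have e2 : ∑ b ∈ S', ∑ a ∈ S, hsg (t a - t b) * ω (f b) (f a) =
      (∑ a ∈ S, ∑ b ∈ S', ω (f a) (f b)) / 2 := by
    simp only [Finset.sum_div]
    rw [Finset.sum_comm]
    exact Finset.sum_congr rfl fun a ha => Finset.sum_congr rfl fun b hb =>
      (Pol_pt h (hf a) (hf b) (hle a ha b hb)).2
  simp only [Pol_Q, Finset.sum_union hd, Finset.sum_add_distrib]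
  rw [e, e1, e2]
  ring

/-- The open polygon is compared with the triangle that closes it. -/
theorem Pol_key (h : Sys0 n ω T V) (hf : ∀ a, f a ∈ V (t a)) {s : ℝ} (S : Finset ι) :
    ∀ y, y ≤ s + π / 2 → (∀ a ∈ S, s ≤ t a ∧ t a ≤ y) → ∀ u ∈ V s, ∀ w ∈ V y,
      ∑ a ∈ S, f a = u + w → ω u w ≤ Pol_Q ω t f S := by
  classical
  induction S using Finset.induction_on_max_value t with
  | empty =>
    intro y _ _ u _ w _ e
    rw [Finset.sum_empty, eq_comm, add_eq_zero_iff_neg_eq] at e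
    simp [Pol_Q, ← e, h.alt]
  | insert b S hb hle ih =>
    intro y hy ht u hu w hw e
    have hb' := ht b (Finset.mem_insert_self _ _)
    have ht' : ∀ a ∈ S, s ≤ t a ∧ t a ≤ t b := fun a ha =>
      ⟨(ht a (Finset.mem_insert_of_mem ha)).1, hle a ha⟩
    have k : ∀ u ∈ V s, ∀ w ∈ V (t b), ∑ a ∈ insert b S, f a = u + w →
        ω u w ≤ Pol_Q ω t f (insert b S) := fun u hu w hw e => by
      have e' : ∑ a ∈ S, f a = u + (w - f b) := by
        rw [Finset.sum_insert hb] at e
        rw [← add_sub_assoc, ← e, add_sub_cancel_left]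
      have h1 := ih (t b) (hb'.2.trans hy) ht' u hu _ (sub_mem hw (hf b)) e'
      have h2 := h.iso _ _ (sub_mem hw (hf b)) _ (hf b)
      have h3 : Pol_Q ω t f {b} = 0 := by simp [Pol_Q, h.alt]
      rw [Finset.insert_eq, Finset.union_comm, Pol_split h hf (by simpa using hb)
        (fun a ha c hc => Finset.mem_singleton.1 hc ▸ hle a ha), h3, Finset.sum_singleton, e',
        map_add, add_apply, h2]
      rw [map_sub] at h1
      linarith
    rcases hb'.2.eq_or_lt with rfl | hlt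
    · exact k u hu w hw e
    rcases hb'.1.eq_or_lt with es | hs
    · have hS : ∑ a ∈ insert b S, f a ∈ V s := sum_mem fun a ha => by
        have : t a = s := le_antisymm (es ▸ by
          rcases Finset.mem_insert.1 ha with rfl | ha
          exacts [le_rfl, hle a ha]) (ht a ha).1
        exact this ▸ hf a
      have h1 := k _ hS 0 (zero_mem _) (add_zero _).symm
      rw [h.iso s u hu w (by simpa [e] using sub_mem hS hu)]
      simpa using h1
    · have hT : u + w ∈ V s ⊔ V (t b) := by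
        rw [h.sup_eq (sin_pos_of_pos_of_lt_pi (by linarith) (by linarith)).ne']
        exact add_mem (h.le _ hu) (h.le _ hw)
      obtain ⟨u', hu', w', hw', e'⟩ := Submodule.mem_sup.1 hT
      have ew : w = (u' - u) + w' := by rw [sub_add_eq_add_sub, e', add_sub_cancel_left]
      have h1 := h.pos s (t b) y hs hlt hy _ (sub_mem hu' hu) _ hw' (ew ▸ hw)
      have h2 := k u' hu' w' hw' (e.trans e'.symm)
      rw [ew, map_add, h.iso s u hu _ (sub_mem hu' hu)]
      rw [map_sub, sub_apply] at h1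
      linarith

theorem Sys0.pol_nonneg (h : Sys0 n ω T V) {s : ℝ} (ht : ∀ a, t a ∈ Icc s (s + π / 2))
    (hf : ∀ a, f a ∈ V (t a)) (h0 : ∑ a, f a = 0) : 0 ≤ qf hsg ω t f f := by
  have := Pol_key h hf Finset.univ _ le_rfl (fun a _ => ht a) 0 (zero_mem _) 0 (zero_mem _)
    (by rw [h0, add_zero])
  rwa [h.alt] at this

theorem Sys0.win_nonneg (h : Sys0 n ω T V) {s : ℝ} (ht : ∀ a, t a ∈ Icc s (s + π))
    (hf : ∀ a, f a ∈ V (t a)) (h0 : ∑ a, f a ∈ V s)
    (h1 : ∀ κ ∈ KK V s, ∑ a with t a < s + π / 2, ω κ (f a) = 0) : 0 ≤ qf hsg ω t f f := by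
  classical
  have hU : (Finset.univ.filter fun a => t a < s + π / 2) ∪
      (Finset.univ.filter fun a => ¬t a < s + π / 2) = Finset.univ :=
    Finset.filter_union_filter_not_eq _ _
  have hF := Finset.sum_filter_add_sum_filter_not Finset.univ (fun a => t a < s + π / 2) f
  have hm : ∑ a with t a < s + π / 2, f a ∈ V s ⊔ V (s + π / 2) := by
    rw [← h.orth_KK]
    exact ⟨sum_mem fun a _ => h.le _ (hf a), fun κ hκ => by rw [map_sum, h1 κ hκ]⟩
  obtain ⟨u, hu, w, hw, e⟩ := Submodule.mem_sup.1 hm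
  have e2 : ∑ a with ¬t a < s + π / 2, f a = -w + (∑ a, f a - u) := by
    rw [← hF, ← e]
    abel
  have hd := sub_mem h0 hu
  have k1 := Pol_key h hf (Finset.univ.filter fun a => t a < s + π / 2) _ le_rfl
    (fun a ha => ⟨(ht a).1, (Finset.mem_filter.1 ha).2.le⟩) u hu w hw e.symm
  have k2 := Pol_key h hf (s := s + π / 2) (Finset.univ.filter fun a => ¬t a < s + π / 2) (s + π)
    (by linarith) (fun a ha => ⟨not_lt.1 (Finset.mem_filter.1 ha).2, (ht a).2⟩) _ (neg_mem hw) _
    (h.per s ▸ hd) e2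
  change 0 ≤ Pol_Q ω t f Finset.univ
  rw [← hU, Pol_split h hf (Finset.disjoint_filter_filter_not _ _ _) fun a ha b hb =>
    (Finset.mem_filter.1 ha).2.le.trans (not_lt.1 (Finset.mem_filter.1 hb).2), e2, ← e]
  have k3 := h.iso s u hu _ hd
  simp only [map_add, map_neg, add_apply, neg_apply, h.alt] at k2 ⊢
  linarith

theorem Pol_half {p : ι → Prop} [DecidablePred p] {w c : ι → ℝ} {e : ℝ} (he : e ≠ 0)
    (hc : ∀ a, c a = if p a then e else -e) (h0 : ∑ a, w a = 0) (h1 : ∑ a, c a * w a = 0) :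
    ∑ a with p a, w a = 0 := by
  have : ∑ a with p a, w a = (∑ a, w a) / 2 + (∑ a, c a * w a) / (2 * e) := by
    rw [Finset.sum_filter, Finset.sum_div, Finset.sum_div, ← Finset.sum_add_distrib]
    refine Finset.sum_congr rfl fun a _ => ?_
    rw [hc]
    split_ifs <;> field_simp <;> ring
  rw [this, h0, h1, zero_div, zero_div, add_zero]

theorem Pol_red (s x : ℝ) : ∃ (r : ℝ) (j : ℤ), r ∈ Ico s (s + π) ∧ x = r + j * π :=
  ⟨toIcoMod pi_pos s x, toIcoDiv pi_pos s x, toIcoMod_mem_Ico _ _ _, by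
    rw [← zsmul_eq_mul, toIcoMod_add_toIcoDiv_zsmul]⟩

theorem Pol_sgn (j : ℤ) : ∃ ε : ℝ, (∀ x, sgp (x + j * π) = ε * sgp x) ∧
    ∀ x, sgp (x - j * π) = ε * sgp x := by
  obtain ⟨i, rfl | rfl⟩ := j.even_or_odd'
  · refine ⟨1, fun x => ?_, fun x => ?_⟩
    · rw [one_mul, ← sgp_int x i]
      congr 1
      push_cast
      ring
    · rw [one_mul, ← sgp_int x (-i)]
      congr 1
      push_cast
      ring
  · refine ⟨-1, fun x => ?_, fun x => ?_⟩
    · rw [neg_one_mul, ← sgp_add_pi, ← sgp_int (x + π) i]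
      congr 1
      push_cast
      ring
    · rw [neg_one_mul, ← sgp_add_pi, ← sgp_int (x + π) (-i - 1)]
      congr 1
      push_cast
      ring

theorem Pol_abs {s x y : ℝ} (hx : x ∈ Ico s (s + π)) (hy : y ∈ Ico s (s + π)) : |y - x| < π :=
  abs_lt.2 ⟨by linarith [hx.2, hy.1], by linarith [hx.1, hy.2]⟩

theorem Sys0.idx_pos2 (h : Sys0 n ω T V) (s : ℝ) (hf : ∀ a, f a ∈ V (t a))
    (h0 : ∀ v ∈ V s, ∑ a, sgp (t a - s) * ω v (f a) = 0)
    (h1 : ∀ κ ∈ KK V s, ∑ a, sgp (t a - (s + π / 2)) * ω κ (f a) = 0) : 0 ≤ qf sgp ω t f f := by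
  choose r j hr e using fun a => Pol_red s (t a)
  choose ε e1 e2 using fun a => Pol_sgn (j a)
  have hg : ∀ a, ε a • f a ∈ V (r a) := fun a =>
    Submodule.smul_mem _ _ (h.per_int (r a) (j a) ▸ e a ▸ hf a)
  have k : ∀ a x v, sgp (t a - x) * ω v (f a) = sgp (r a - x) * ω v (ε a • f a) := fun a x v => by
    rw [e a, add_sub_right_comm, e1, map_smul, smul_eq_mul]
    ring
  have k0 : ∀ v ∈ V s, ∑ a, ω v (ε a • f a) = 0 := fun v hv => by
    have := h0 v hv
    simp only [k, fun a => sgp_eq (s := r a - s) ⟨by linarith [(hr a).1], by linarith [(hr a).2]⟩,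
      ← Finset.mul_sum] at this
    linarith
  have k1 : qf sgp ω t f f = qf hsg ω r (fun a => ε a • f a) fun a => ε a • f a := by
    refine Finset.sum_congr rfl fun a _ => Finset.sum_congr rfl fun b _ => ?_
    have : sgp (t b - t a) * ω (f a) (f b) = sgp (r b - r a) * ω (ε a • f a) (ε b • f b) := by
      rw [k, e a, ← sub_sub, e2, map_smul ω, smul_apply, smul_eq_mul]
      ring
    rw [this]
    by_cases h2 : r b - r a = 0
    · rw [h.iso' (by rw [h2, sin_zero]) (hg a) (hg b), mul_zero, mul_zero]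
    · rw [sgp_hsg (Pol_abs (hr a) (hr b)) h2]
  rw [k1]
  refine h.win_nonneg (s := s) (fun a => Ico_subset_Icc_self (hr a)) hg ?_ fun κ hκ => ?_
  · rw [← h.orth_V s]
    exact ⟨sum_mem fun a _ => h.le _ (hg a), fun v hv => by rw [map_sum, k0 v hv]⟩
  · refine Pol_half (c := fun a => sgp (r a - (s + π / 2))) (e := -(1 / 2)) (by norm_num)
      (fun a => ?_) (k0 κ hκ.1) (by simpa only [k] using h1 κ hκ)
    have := (hr a).1
    have := (hr a).2
    have := pi_pos
    split_ifs with h2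
    · exact sgp_eq' ⟨by linarith, by linarith⟩
    · rw [neg_neg]
      exact sgp_eq ⟨by linarith, by linarith⟩

theorem Sys0.idx_pos1 (h : Sys0 n ω T V) (s : ℝ) (hf : ∀ a, f a ∈ V (t a)) (h0 : ∑ a, f a = 0)
    (h1 : ∀ κ ∈ KK V s, ∑ a, (saw (t a - s) - saw (t a - (s + π / 2))) * ω κ (f a) = 0) :
    0 ≤ qf saw ω t f f := by
  choose r j hr e using fun a => Pol_red s (t a)
  have hg : ∀ a, f a ∈ V (r a) := fun a => h.per_int (r a) (j a) ▸ e a ▸ hf a
  have k : ∀ a x, saw (t a - x) = saw (r a - x) := fun a x => by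
    rw [e a, add_sub_right_comm, saw_int]
  have k0 : ∀ v, ∑ a, ω v (f a) = 0 := fun v => by rw [← map_sum, h0, map_zero]
  have k0' : ∀ v, ∑ a, ω (f a) v = 0 := fun v => by
    simp only [fun a => h.skew (f a) v, Finset.sum_neg_distrib, k0, neg_zero]
  have k1 : qf saw ω t f f = qf hsg ω r f f - (∑ a, ∑ b, r b / π * ω (f a) (f b)) +
      ∑ a, ∑ b, r a / π * ω (f a) (f b) := by
    simp only [qf, ← Finset.sum_sub_distrib, ← Finset.sum_add_distrib]
    refine Finset.sum_congr rfl fun a _ => Finset.sum_congr rfl fun b _ => ?_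
    have : saw (t b - t a) = saw (r b - r a) := by
      rw [k, e a, ← saw_int _ (j a)]
      congr 1
      ring
    rw [this]
    by_cases h2 : r b - r a = 0
    · rw [h.iso' (by rw [h2, sin_zero]) (hg a) (hg b)]
      ring
    · rw [saw_hsg (Pol_abs (hr a) (hr b)) h2]
      ring
  rw [k1, Finset.sum_comm (f := fun a b => r b / π * ω (f a) (f b))]
  simp only [← Finset.mul_sum, k0, k0', mul_zero, Finset.sum_const_zero, sub_zero, add_zero]
  refine h.win_nonneg (s := s) (fun a => Ico_subset_Icc_self (hr a)) hg (h0 ▸ zero_mem _)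
    fun κ hκ => ?_
  refine Pol_half (c := fun a => saw (r a - s) - saw (r a - (s + π / 2))) (e := 1 / 2) (by norm_num)
    (fun a => ?_) (k0 κ) (by simpa only [k] using h1 κ hκ)
  have := (hr a).1
  have := (hr a).2
  have := pi_pos
  rw [saw_eq ⟨by linarith, by linarith⟩]
  split_ifs with h2
  · rw [← saw_add_pi, saw_eq ⟨by linarith, by linarith⟩]
    field_simp
    ring
  · rw [saw_eq ⟨by linarith, by linarith⟩]
    field_simp
    ring

end Pool.Agent.Work.MP_8c604c_gt.OS
end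
end
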