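import Pool.Agent.Work.MP_8c604c_gt.OS.Dfm
import Pool.Agent.Work.MP_8c604c_gt.OS.Pol
import Pool.Agent.Work.MP_8c604c_gt.OS.Saw

-- merged part: Pool.Agent.Work.MP_8c604c_gt.OS.PreK
section
-- merged part: Pool.Agent.Work.MP_8c604c_gt.OS.Std
section
/-!
Standard systems.
Plan. `Sec_eq`: for `(κ, l) ∈ Gr` apply `Std` at `t = 0` to `κ`; the first projection is injective on `Gr` (`Rot.inj` at `t = 0`).  `KK_eq`: one inclusion by `evt_half`, equality by dimension.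
`Sg_shift`: `KK_shift`, `KK_eq` and `sup_eq` for `sys_VS`.  `sys_VP`: `V t = VS t ⊕ VP t`.  `std_dfm`: `Sg (dfm ..) = Sg V` by `dfm_half`, `dfm_quart`; every `p ∈ Gr` is a section of the deformed system.
`dfm_of_std`: for `x = evt t p + u ∈ V t` take `κ = cos θ cos (2t) p.1`, `l = sin (2t) p.2` and `sin θ p`; equality by dimension.
-/

set_option maxSynthPendingDepth 3
set_option linter.unusedSectionVars false

open Set Filter Topology Real Module
open scoped RealInnerProductSpace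

noncomputable section
namespace Pool.Agent.Work.MP_8c604c_gt.OS

variable {H : Type} [NormedAddCommGroup H] [InnerProductSpace ℝ H] [FiniteDimensional ℝ H]
  {n k : ℕ} {ω : Bi H} {T : Submodule ℝ H} {V : ℝ → Submodule ℝ H}

theorem Std_evt0 (p : H × H) : evt 0 p = p.1 := by
  rw [evt_apply, mul_zero, cos_zero, sin_zero, one_smul, zero_smul, add_zero]

theorem Std_Sg {p : H × H} (hp : p ∈ Gr ω T V) (t : ℝ) : evt t p ∈ Sg V :=
  Submodule.add_mem_sup (Submodule.smul_mem _ _ hp.1) (Submodule.smul_mem _ _ hp.2.1)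

theorem Sys.Sec_eq (h : Sys n k ω T V) (hs : Std ω T V) : Sec V = Gr ω T V := by
  refine le_antisymm h.toSys0.Sec_le fun q hq => ?_
  obtain ⟨p, hp, e⟩ := hs 0 q.1 hq.1.1
  have hp' := h.toSys0.Sec_le hp
  have h1 : evt 0 (q - p) = 0 := by
    refine h.toSys0.Sg_Tp (Std_Sg (sub_mem hq hp') 0) ?_
    rwa [map_sub, Std_evt0 q]
  rw [sub_eq_zero.1 (h.rot_Gr.inj (sub_mem hq hp') h1)]
  exact hp

theorem Sys.rot_Sec (h : Sys n k ω T V) (hs : Std ω T V) : Rot k ω (Sec V) := by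
  rw [h.Sec_eq hs]
  exact h.rot_Gr

theorem Sys.KK_eq (h : Sys n k ω T V) (hs : Std ω T V) (t : ℝ) : KK V t = VS ω T V t := by
  symm
  refine Submodule.eq_of_le_of_finrank_eq ?_ ((h.sys_VS.dim t).trans (h.dimK t).symm)
  rintro _ ⟨p, hp, rfl⟩
  have hp' : p ∈ Sec V := by
    rw [h.Sec_eq hs]
    exact hp
  have h1 := neg_mem (mem_Sec.1 hp' (t + π / 2))
  rw [evt_half, neg_neg] at h1
  exact ⟨mem_Sec.1 hp' t, h1⟩

theorem Sys.Sg_shift (h : Sys n k ω T V) (hs : Std ω T V) (r : ℝ) :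
    Sg (fun t => V (t + r)) = Sg V := by
  rw [Sg, KK_shift, KK_shift, h.KK_eq hs, h.KK_eq hs]
  refine h.sys_VS.toSys0.sup_eq ?_
  rw [show 2 * (π / 4 + r - (0 + r)) = π / 2 by ring, sin_pi_div_two]
  exact one_ne_zero

theorem Sys.std_shift (h : Sys n k ω T V) (hs : Std ω T V) (r : ℝ) :
    Std ω T fun t => V (t + r) := by
  intro t x hx
  obtain ⟨p, hp, e⟩ := hs (t + r) x hx
  refine ⟨_, (mem_Sec_shift r p).2 hp, ?_⟩
  rw [evt_cm, Tp, h.Sg_shift hs]
  exact e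

theorem Sys.evt_mem_Sg (h : Sys n k ω T V) {p : H × H} (hp : p ∈ Sec V) (t : ℝ) :
    evt t p ∈ Sg V := Std_Sg (h.toSys0.Sec_le hp) t

theorem Sys.sys_VP (h : Sys n k ω T V) (hs : Std ω T V) :
    Sys (n - k) 0 ω (Tp ω T V) (VP ω T V) := by
  have h0 : ∀ t, ∀ u ∈ KK V t, u ∈ Tp ω T V → u = 0 := fun t u hu hu' => by
    rw [h.KK_eq hs] at hu
    exact h.toSys0.Sg_Tp (h.sys_VS.le t hu) hu'
  refine ⟨⟨h.sym_Tp, fun _ => inf_le_right, fun t => ?_,
    fun t u hu w hw => h.iso t u hu.1 w hw.1, fun t => by rw [VP, VP, h.per],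
    fun s t h1 h2 u hu hu' => h.tr s t h1 h2 u hu.1 hu'.1,
    fun s x y h1 h2 h3 a ha b hb hc => h.pos s x y h1 h2 h3 a ha.1 b hb.1 hc.1⟩, fun t => ?_⟩
  · have e1 := Submodule.finrank_sup_add_finrank_inf_eq (KK V t) (VP ω T V t)
    have e2 : KK V t ⊓ VP ω T V t = ⊥ := eq_bot_iff.2 fun u hu => h0 t u hu.1 hu.2.2
    have e3 : KK V t ⊔ VP ω T V t = V t := by
      refine le_antisymm (sup_le inf_le_left inf_le_left) fun x hx => ?_
      obtain ⟨p, hp, e⟩ := hs t x hx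
      have h1 : evt t p ∈ KK V t := by
        rw [h.KK_eq hs]
        exact ⟨p, h.toSys0.Sec_le hp, rfl⟩
      have h2 := Submodule.add_mem_sup (T := VP ω T V t) h1 ⟨sub_mem hx h1.1, e⟩
      rwa [add_sub_cancel] at h2
    rw [e2, e3, finrank_bot, h.dim, h.dimK] at e1
    omega
  · have e : KK (VP ω T V) t = ⊥ := eq_bot_iff.2 fun u hu => h0 t u ⟨hu.1.1, hu.2.1⟩ hu.1.2
    rw [e, finrank_bot]

theorem Std_dfm_Sg (h : Sys n k ω T V) (θ : ℝ) : Sg (dfm ω T V θ) = Sg V := by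
  have e1 : sin (2 * (0 : ℝ)) = 0 := by rw [mul_zero, sin_zero]
  have e2 : sin (2 * (0 + π / 2)) = 0 := by rw [show 2 * (0 + π / 2) = π by ring, sin_pi]
  have e3 : cos (2 * (π / 4)) = 0 := by rw [show 2 * (π / 4) = π / 2 by ring, cos_pi_div_two]
  have e4 : cos (2 * (π / 4 + π / 2)) = 0 := by
    rw [show 2 * (π / 4 + π / 2) = π / 2 + π by ring, cos_add_pi, cos_pi_div_two, neg_zero]
  rw [Sg, Sg, KK, KK, KK, KK, h.dfm_half θ e1, h.dfm_half θ e2, h.dfm_quart θ e3,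
    h.dfm_quart θ e4]

theorem Sys.std_dfm (h : Sys n k ω T V) : Std ω T (dfm ω T V (π / 2)) := by
  rintro t _ ⟨κ, -, l, -, u, hu, p, hp, -, e, rfl⟩
  rw [sin_pi_div_two, one_smul] at e
  refine ⟨p, mem_Sec.2 fun s => ⟨0, zero_mem _, sin (2 * s) • p.2, Submodule.smul_mem _ _ hp.2.1,
    0, zero_mem _, p, hp, ?_, ?_, ?_⟩, ?_⟩
  · rw [cos_pi_div_two, zero_smul, add_zero, add_zero]
    exact zero_mem _
  · rw [sin_pi_div_two, one_smul]
  · rw [evt_apply, sin_pi_div_two, one_mul, smul_zero, zero_add, add_zero]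
  · rw [Tp, Std_dfm_Sg h, evt_apply, e, cos_pi_div_two, sin_pi_div_two, zero_smul, zero_add,
      one_mul, add_sub_cancel_left]
    exact hu

theorem Sys.dfm_of_std (h : Sys n k ω T V) (hs : Std ω T V) (θ t : ℝ) :
    dfm ω T V θ t = V t := by
  symm
  refine Submodule.eq_of_le_of_finrank_eq (fun x hx => ?_) ((h.dim t).trans (h.dfm_dim θ t).symm)
  obtain ⟨p, hp, e⟩ := hs t x hx
  have hp' := h.toSys0.Sec_le hp
  have h1 := mem_Sec.1 hp t
  refine ⟨(cos θ * cos (2 * t)) • p.1, Submodule.smul_mem _ _ hp'.1, sin (2 * t) • p.2,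
    Submodule.smul_mem _ _ hp'.2.1, x - evt t p, e, sin θ • p, Submodule.smul_mem _ _ hp',
    ?_, ?_, ?_⟩
  · rw [mul_smul, ← smul_add, ← evt_apply]
    exact add_mem (Submodule.smul_mem _ _ h1) (sub_mem hx h1)
  · rw [Prod.smul_snd, smul_comm]
  · rw [Prod.smul_fst, smul_smul, smul_smul, ← add_smul,
      show cos θ * (cos θ * cos (2 * t)) + sin θ * cos (2 * t) * sin θ = cos (2 * t) by
        linear_combination cos (2 * t) * cos_sq_add_sin_sq θ, ← evt_apply, add_sub_cancel]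

end Pool.Agent.Work.MP_8c604c_gt.OS
end
end

-- merged part: Pool.Agent.Work.MP_8c604c_gt.OS.GrC
section
/-!
Continuity of the subspaces attached to a family of systems.
Plan. Closed graph and constant dimension (`CS.of_cl`, `Cl.inf`, `Cl.orth`, `Cl.map`, `Cl.comap`, `CS.sup`).  `Gr` is the image of the space of all `(p, c)` under the projection, which is injective
(if `p = 0` then `c ∈ V (π/8) ⊓ V (π/4)`).
`est`: the sign follows from `pos` for the times `t₀ < t < t₀ + π/4` or `t < t₀ < t₀ + π/4`.  The form `D (a + c, a' + c') = ω a c'` on `V t` is symmetric and semidefinite, so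
`D (v, v') ^ 2 ≤ D (v, v) * D (v', v')`.  If the estimate fails there are `q_j → (y₀, t₀)` and `a_j, c_j` with `‖c_j‖ = 1` and `|ω a_j c_j| < 1 / ε`; a subsequence of `c_j` tends to a unit vector
`c ∈ V y₀ (t₀ + π/4)`; take `a' ∈ V y₀ t₀` with `ω a' c ≠ 0` (`orth_V`, `tr'`) and `v'_j = (V q_j.1 q_j.2).starProjection a' = a'_j + c'_j` (`CS.proj`, `sup_eq`), `a'_j → a'`, `c'_j → 0`.
-/

set_option maxSynthPendingDepth 3
set_option linter.unusedSectionVars false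

open Set Filter Topology Real Module
open scoped RealInnerProductSpace

noncomputable section
namespace Pool.Agent.Work.MP_8c604c_gt.OS

variable {H : Type} [NormedAddCommGroup H] [InnerProductSpace ℝ H] [FiniteDimensional ℝ H]
  {Y : Type} [MetricSpace Y] {s : Set Y} {n k : ℕ} {ω : Y → Bi H} {T : Y → Submodule ℝ H}
  {V : Y → ℝ → Submodule ℝ H}

theorem Fam0.comp (F : Fam0 n k s ω T V) {Y' : Type} [MetricSpace Y'] {s' : Set Y'} {g : Y' → Y}
    (hg : ContinuousOn g s') (hm : MapsTo g s' s) :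
    Fam0 n k s' (fun y => ω (g y)) (fun y => T (g y)) fun y => V (g y) :=
  ⟨fun _ hy => F.sys _ (hm hy), F.cω.comp hg hm, F.cT.comp hg hm,
    F.cV.comp (g := fun p : Y' × ℝ => (g p.1, p.2))
      ((hg.comp continuousOn_fst fun _ hp => hp.1).prodMk continuousOn_snd)
      fun _ hp => ⟨hm hp.1, mem_univ _⟩⟩

theorem Fam0.cs_V (F : Fam0 n k s ω T V) {τ : Y → ℝ} (hτ : ContinuousOn τ s) :
    CS (fun y => V y (τ y)) s :=
  F.cV.comp (g := fun y => (y, τ y)) (continuousOn_id.prodMk hτ) fun _ hy => ⟨hy, mem_univ _⟩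

theorem Fam0.shift (F : Fam0 n k s ω T V) {τ : Y → ℝ} (hτ : ContinuousOn τ s) :
    Fam0 n k s ω T fun y t => V y (t + τ y) :=
  ⟨fun y hy => (F.sys y hy).shift (τ y), F.cω, F.cT,
    F.cV.comp (g := fun p : Y × ℝ => (p.1, p.2 + τ p.1))
      (continuousOn_fst.prodMk (continuousOn_snd.add (hτ.comp continuousOn_fst fun _ hp => hp.1)))
      fun _ hp => ⟨hp.1, mem_univ _⟩⟩

theorem GrC_cl (F : Fam0 n k s ω T V) (t : ℝ) {y : Y} (hy : y ∈ s) : Cl (fun y => V y t) s y :=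
  (F.cs_V (τ := fun _ => t) continuousOn_const).cl hy

theorem Fam0.cs_KK (F : Fam0 n k s ω T V) (t : ℝ) : CS (fun y => KK (V y) t) s :=
  CS.of_cl (fun _ hp => (GrC_cl F t hp).inf (GrC_cl F (t + π / 2) hp)) fun p hp => (F.sys p hp).dimK t

theorem Fam0.cs_Sg (F : Fam0 n k s ω T V) : CS (fun y => Sg (V y)) s :=
  CS.sup (F.cs_KK 0) (F.cs_KK (π / 4)) fun p hp => (F.sys p hp).sym_Sg.dimT

theorem Fam0.cs_Tp (F : Fam0 n k s ω T V) : CS (fun y => Tp (ω y) (T y) (V y)) s :=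
  CS.of_cl (fun _ hp => Cl.orth F.cs_Sg (F.cT.cl hp) F.cω hp) fun p hp => (F.sys p hp).sym_Tp.dimT

theorem Fam0.cl_Gr (F : Fam0 n k s ω T V) {y : Y} (hy : y ∈ s) :
    Cl (fun y => Gr (ω y) (T y) (V y)) s y := by
  let L1 : (H × H) × H →L[ℝ] H := (ContinuousLinearMap.fst ℝ H H).comp (ContinuousLinearMap.fst ℝ _ _)
  let L2 : (H × H) × H →L[ℝ] H := (ContinuousLinearMap.snd ℝ H H).comp (ContinuousLinearMap.fst ℝ _ _)
  let L3 : (H × H) × H →L[ℝ] H := ContinuousLinearMap.snd ℝ _ _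
  have h1 := ((F.cs_KK 0).cl hy).comap (L := fun _ => L1) continuousWithinAt_const
  have h2 := ((F.cs_KK (π / 4)).cl hy).comap (L := fun _ => L2) continuousWithinAt_const
  have h3 := (GrC_cl F (π / 4) hy).comap (L := fun _ => L3) continuousWithinAt_const
  have h4 := (GrC_cl F (π / 8) hy).comap (L := fun _ => L1 + L3) continuousWithinAt_const
  have h5 := (F.cs_Tp.cl hy).comap (L := fun _ => L3 - L2) continuousWithinAt_const
  have h6 := (h1.inf (h2.inf (h3.inf (h4.inf h5)))).map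
    (L := fun _ => ContinuousLinearMap.fst ℝ (H × H) H) continuousWithinAt_const (by
      rintro ⟨p, c⟩ ⟨-, -, a3, a4, -⟩ (rfl : p = 0)
      have a5 : (0 : H) + c ∈ V y (π / 8) := a4
      rw [zero_add] at a5
      have := (F.sys y hy).tr (π / 8) (π / 4) (by linarith [pi_pos]) (by linarith [pi_pos]) c a5 a3
      rw [this]
      rfl)
  refine h6.congr (Eventually.of_forall fun x => ?_) ?_
  · rintro p ⟨a1, a2, c, a3, a4, a5⟩
    exact ⟨(p, c), ⟨a1, a2, a3, a4, a5⟩, rfl⟩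
  · rintro _ ⟨⟨p, c⟩, ⟨a1, a2, a3, a4, a5⟩, rfl⟩
    exact ⟨a1, a2, c, a3, a4, a5⟩

theorem Fam0.cl_Sec (F : Fam0 n k s ω T V) {y : Y} (hy : y ∈ s) : Cl (fun y => Sec (V y)) s y :=
  Cl.iInf fun t => (GrC_cl F t hy).comap (L := fun _ => evt t) continuousWithinAt_const

theorem Fam0.fam_VS (F : Fam0 n k s ω T V) :
    Fam0 k k s ω (fun y => Sg (V y)) fun y => VS (ω y) (T y) (V y) :=
  ⟨fun y hy => (F.sys y hy).sys_VS, F.cω, F.cs_Sg, CS.of_cl
    (fun p hp => ((F.cl_Gr hp.1).comp (g := Prod.fst) continuousWithinAt_fst fun _ h => h.1).map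
      (L := fun q : Y × ℝ => evt q.2) (continuous_evt.comp continuous_snd).continuousWithinAt
      fun _ ha e => (F.sys p.1 hp.1).rot_Gr.inj ha e)
    fun p hp => (F.sys p.1 hp.1).sys_VS.dim p.2⟩

theorem Fam0.fam_VP (F : Fam0 n k s ω T V) (hs : ∀ y ∈ s, Std (ω y) (T y) (V y)) :
    Fam0 (n - k) 0 s ω (fun y => Tp (ω y) (T y) (V y)) fun y => VP (ω y) (T y) (V y) :=
  ⟨fun y hy => (F.sys y hy).sys_VP (hs y hy), F.cω, F.cs_Tp, CS.of_cl
    (fun _ hp => (F.cV.cl hp).inf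
      ((F.cs_Tp.cl hp.1).comp (g := Prod.fst) continuousWithinAt_fst fun _ h => h.1))
    fun p hp => ((F.sys p.1 hp.1).sys_VP (hs p.1 hp.1)).dim p.2⟩

theorem Fam.fam_VP {φ : ℝ → Y → Y} (F : Fam n k s φ ω T V) (hs : ∀ y ∈ s, Std (ω y) (T y) (V y)) :
    Fam (n - k) 0 s φ ω (fun y => Tp (ω y) (T y) (V y)) fun y => VP (ω y) (T y) (V y) := by
  have e : ∀ r, ∀ y ∈ s, Tp (ω (φ r y)) (T (φ r y)) (V (φ r y)) = Tp (ω y) (T y) (V y) := by
    intro r y hy
    have e1 : V (φ r y) = fun t => V y (t + r) := funext (F.iV r y hy)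
    rw [Tp, Tp, F.iω r y hy, F.iT r y hy, e1, (F.sys y hy).Sg_shift (hs y hy) r]
  refine ⟨F.toFam0.fam_VP hs, F.iω, e, fun r y hy t => ?_⟩
  rw [VP, VP, e r y hy, F.iV r y hy]

theorem GrC_sign {ω : Bi H} {T : Submodule ℝ H} {V : ℝ → Submodule ℝ H} (h : Sys0 n ω T V) {t₀ t : ℝ}
    (h1 : t₀ - π / 4 < t) (h2 : t < t₀ + π / 4) {a c : H} (ha : a ∈ V t₀) (hc : c ∈ V (t₀ + π / 4))
    (hv : a + c ∈ V t) : (t - t₀) * ω a c ≤ 0 := by
  rcases lt_trichotomy t t₀ with l | l | l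
  · have := h.pos t t₀ (t₀ + π / 4) l (by linarith [pi_pos]) (by linarith) (a + c) hv (-a) (neg_mem ha)
      (by rwa [add_neg_cancel_comm])
    rw [map_neg, map_add, add_apply, h.alt, h.toSym.skew c a] at this
    exact mul_nonpos_of_nonpos_of_nonneg (by linarith) (by linarith)
  · rw [l, sub_self, zero_mul]
  · have := h.pos t₀ t (t₀ + π / 4) l h2 (by linarith [pi_pos]) a ha (-(a + c)) (neg_mem hv)
      (by rw [neg_add, add_neg_cancel_left]; exact neg_mem hc)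
    rw [map_neg, map_add, h.alt] at this
    exact mul_nonpos_of_nonneg_of_nonpos (by linarith) (by linarith)

theorem GrC_cs {ω : Bi H} {T : Submodule ℝ H} {V : ℝ → Submodule ℝ H} (h : Sys0 n ω T V) {t₀ t : ℝ}
    (h1 : t₀ - π / 4 < t) (h2 : t < t₀ + π / 4) {a c a' c' : H} (ha : a ∈ V t₀)
    (hc : c ∈ V (t₀ + π / 4)) (hv : a + c ∈ V t) (ha' : a' ∈ V t₀) (hc' : c' ∈ V (t₀ + π / 4))
    (hv' : a' + c' ∈ V t) : ω a' c ^ 2 ≤ |ω a c| * |ω a' c'| := by
  by_cases e : t = t₀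
  · have h3 : c ∈ V t₀ := by
      rw [e] at hv
      simpa only [add_sub_cancel_left] using sub_mem hv ha
    rw [h.tr t₀ (t₀ + π / 4) (by linarith [pi_pos]) (by linarith [pi_pos]) c h3 hc]
    simp
  have sy : ω a c' = ω a' c := by
    have := h.iso t _ hv _ hv'
    simp only [map_add, add_apply, h.iso _ _ ha _ ha', h.iso _ _ hc _ hc', h.toSym.skew c a'] at this
    linarith
  have q := discrim_le_zero (a := -((t - t₀) * ω a' c')) (b := -(2 * ((t - t₀) * ω a' c)))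
    (c := -((t - t₀) * ω a c)) fun x => by
      have := GrC_sign h h1 h2 (add_mem ha (Submodule.smul_mem _ x ha'))
        (add_mem hc (Submodule.smul_mem _ x hc')) (by
          rw [add_add_add_comm, ← smul_add]
          exact add_mem hv (Submodule.smul_mem _ x hv'))
      simp only [map_add, map_smul, add_apply, smul_apply, smul_eq_mul, sy] at this
      linarith
  rw [discrim] at q
  have h4 : 0 < (t - t₀) ^ 2 := by have := sub_ne_zero.2 e; positivity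
  have h5 : ω a' c ^ 2 ≤ ω a c * ω a' c' := by
    by_contra hn
    nlinarith [mul_pos h4 (sub_pos.2 (not_le.1 hn))]
  rw [← abs_mul]
  exact h5.trans (le_abs_self _)

theorem Fam0.est (F : Fam0 n k s ω T V) {y₀ : Y} (hy : y₀ ∈ s) (t₀ : ℝ) {ε : ℝ} (hε : 0 < ε) :
    ∀ᶠ q in 𝓝[s ×ˢ univ] (y₀, t₀), ∀ a ∈ V q.1 t₀, ∀ c ∈ V q.1 (t₀ + π / 4), a + c ∈ V q.1 q.2 →
      ‖c‖ ^ 2 ≤ ε * |ω q.1 a c| ∧ (q.2 - t₀) * ω q.1 a c ≤ 0 := by
  have hπ := pi_pos
  have hw : ∀ᶠ q in 𝓝[s ×ˢ univ] (y₀, t₀), q.1 ∈ s ∧ t₀ - π / 4 < q.2 ∧ q.2 < t₀ + π / 4 := by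
    have h1 : ∀ᶠ q : Y × ℝ in 𝓝 (y₀, t₀), q.2 ∈ Ioo (t₀ - π / 4) (t₀ + π / 4) :=
      continuous_snd.continuousAt.eventually (Ioo_mem_nhds (by linarith) (by linarith))
    filter_upwards [self_mem_nhdsWithin, nhdsWithin_le_nhds h1] with q a b using ⟨a.1, b⟩
  have he : ∀ᶠ q in 𝓝[s ×ˢ univ] (y₀, t₀), ∀ a ∈ V q.1 t₀, ∀ c ∈ V q.1 (t₀ + π / 4),
      a + c ∈ V q.1 q.2 → ‖c‖ = 1 → 1 ≤ ε * |ω q.1 a c| := by
    by_contra hn
    obtain ⟨q, hq, hb⟩ := exists_seq_forall_of_frequently ((not_eventually.1 hn).and_eventually hw)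
    simp only [not_forall, not_le] at hb
    choose hb hs h1 h2 using hb
    choose a ha c hc hv hn hlt using hb
    obtain ⟨c₀, hc₀, ψ, hψ, hl⟩ := (isCompact_sphere (0 : H) 1).tendsto_subseq (x := c)
      fun j => mem_sphere_zero_iff_norm.2 (hn j)
    have hq' := hq.comp hψ.tendsto_atTop
    have hy1 : Tendsto (fun j => (q (ψ j)).1) atTop (𝓝 y₀) :=
      (continuous_fst.tendsto _).comp (hq'.mono_right nhdsWithin_le_nhds)
    have hy2 := CS_within (fun j => hs (ψ j)) hy1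
    have S := F.sys y₀ hy
    have m1 : c₀ ∈ V y₀ (t₀ + π / 4) :=
      CS_flt (GrC_cl F _ hy) (Eventually.of_forall fun j => ⟨hs (ψ j), hc (ψ j)⟩) hy1 hl
    obtain ⟨a', ha', hne⟩ : ∃ a' ∈ V y₀ t₀, ω y₀ a' c₀ ≠ 0 := by
      by_contra hz
      push Not at hz
      have m2 : c₀ ∈ V y₀ t₀ := S.orth_V t₀ ▸ mem_orth.2 ⟨S.le _ m1, hz⟩
      have := S.tr t₀ (t₀ + π / 4) (by linarith) (by linarith) c₀ m2 m1
      simp [this] at hc₀
    have hsin : sin (2 * (t₀ + π / 4 - t₀)) ≠ 0 := by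
      rw [show 2 * (t₀ + π / 4 - t₀) = π / 2 by ring, sin_pi_div_two]
      exact one_ne_zero
    obtain ⟨Q, cQ, hQ⟩ := CS.proj (F.cs_V (τ := fun _ => t₀) continuousOn_const)
      (F.cs_V (τ := fun _ => t₀ + π / 4) continuousOn_const)
      (F.cT.congr fun x hx => (F.sys x hx).sup_eq hsin)
      fun x hx u u1 u2 => (F.sys x hx).tr' hsin u1 u2
    let v : ℕ → H := fun j => (V (q (ψ j)).1 (q (ψ j)).2).starProjection a'
    have l1 : Tendsto v atTop (𝓝 a') := by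
      have := CS_app ((F.cV (y₀, t₀) ⟨hy, mem_univ _⟩).tendsto.comp hq') (tendsto_const_nhds (x := a'))
      rwa [Submodule.starProjection_eq_self_iff.2 ha'] at this
    have l2 : Tendsto (fun j => Q (q (ψ j)).1 (v j)) atTop (𝓝 a') := by
      have := CS_app ((cQ y₀ hy).tendsto.comp hy2) l1
      rwa [(hQ y₀ hy).1 a' ha'] at this
    have l3 := CS_app ((F.cω y₀ hy).tendsto.comp hy2) l2
    have l4 := (CS_app l3 hl).pow 2
    have l5 := (CS_app l3 (l1.sub l2)).abs.const_mul ε⁻¹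
    rw [sub_self, map_zero, abs_zero, mul_zero] at l5
    refine absurd (le_of_tendsto_of_tendsto' l4 l5 fun j => ?_) (not_le.2 (by positivity))
    have S' := F.sys _ (hs (ψ j))
    have m3 : v j ∈ V (q (ψ j)).1 (q (ψ j)).2 := Submodule.starProjection_apply_mem _ _
    obtain ⟨α, hα, γ, hγ, e⟩ := Submodule.mem_sup.1 (S'.sup_eq hsin ▸ S'.le _ m3)
    have e1 : Q (q (ψ j)).1 (v j) = α := by
      rw [← e, map_add, (hQ _ (hs (ψ j))).1 α hα, (hQ _ (hs (ψ j))).2 γ hγ, add_zero]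
    have e2 : v j - α = γ := by rw [← e, add_sub_cancel_left]
    have := GrC_cs S'.toSys0 (h1 _) (h2 _) (ha _) (hc _) (hv _) hα hγ (e ▸ m3)
    simp only [Function.comp, e1, e2]
    refine this.trans (mul_le_mul_of_nonneg_right ?_ (abs_nonneg _))
    rw [← one_div, le_div_iff₀' hε]
    exact (hlt _).le
  filter_upwards [hw, he] with q ⟨w1, w2, w3⟩ w4 a ha c hc hv
  refine ⟨?_, GrC_sign (F.sys _ w1).toSys0 w2 w3 ha hc hv⟩
  by_cases h0 : c = 0
  · simp [h0]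
  have hp : 0 < ‖c‖ := norm_pos_iff.2 h0
  have := w4 _ (Submodule.smul_mem _ ‖c‖⁻¹ ha) _ (Submodule.smul_mem _ ‖c‖⁻¹ hc)
    (by rw [← smul_add]; exact Submodule.smul_mem _ _ hv)
    (by rw [norm_smul, norm_inv, norm_norm, inv_mul_cancel₀ hp.ne'])
  simp only [map_smul, smul_apply, smul_eq_mul, abs_mul, abs_inv, abs_norm] at this
  have h3 := mul_le_mul_of_nonneg_left this (sq_nonneg ‖c‖)
  rw [mul_one] at h3
  refine h3.trans (le_of_eq ?_)
  field_simp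

end Pool.Agent.Work.MP_8c604c_gt.OS
end
end

-- merged part: Pool.Agent.Work.MP_8c604c_gt.OS.NegF
section
/-!
The forms of the combs and their negative projectors in families.
Plan. `cont_frc`: componentwise (`continuousOn_pi`, `ContinuousLinearMap.pi` is continuous and linear in the family, or `continuousOn_clm_apply`); at a point with `w y a = 0` use `‖starProjection‖ ≤ 1`, otherwise the branch of the time and `per_int`.
`cont_frc0`: `B.continuousOn_ker_proj` and `ker0_dim`.  `cont_opq`: each term by `cont_coef` with `u = t b - t a`; the bilinear form vanishes if a weight vanishes or if `sin (t b - t a) = 0` (`iso'`).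
The projectors: `ngP_cont`, `ngP_spec`, `idx1`, `idx2'`, `wt_tm1`, `wt_tm2` (`Fam0.comp` with the first projection on `S2`); invariance from the equality of the operators (`tm1_flow`, `tm2_flow`, `wt_flow`).
-/

set_option maxSynthPendingDepth 3
set_option linter.unusedSectionVars false

open Set Filter Topology Real Module
open scoped RealInnerProductSpace

noncomputable section
namespace Pool.Agent.Work.MP_8c604c_gt.OS

variable {H : Type} [NormedAddCommGroup H] [InnerProductSpace ℝ H] [FiniteDimensional ℝ H]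
  {ι : Type} [Fintype ι]

/-- The times `t'` are the times `t` seen from the time `r`, modulo `p`. -/
def Sh (p r : ℝ) (w t t' : ι → ℝ) : Prop := ∀ a, w a ≠ 0 → ∃ j : ℤ, t' a + r = t a + j * p

section
variable {V : ℝ → Submodule ℝ H} {p r : ℝ} {w t t' : ι → ℝ}

theorem Sh.frc (h : Sh p r w t t') (hV : ∀ x (j : ℤ), V (x + j * p) = V x) :
    frc (fun x => V (x + r)) w t' = frc V w t := by
  refine ContinuousLinearMap.ext fun u => funext fun a => ?_
  rw [frc_apply, frc_apply]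
  by_cases k : w a = 0
  · rw [k, zero_smul, zero_smul]
  · obtain ⟨j, hj⟩ := h a k
    exact congrArg (fun U : Submodule ℝ H => w a • U.starProjection (u a))
      ((congrArg V hj).trans (hV _ j))

theorem Sh.frc0 (h : Sh p r w t t') (hV : ∀ x (j : ℤ), V (x + j * p) = V x) :
    frc0 (fun x => V (x + r)) w t' = frc0 V w t :=
  congrArg (fun F : WW ι H →L[ℝ] ι → H => F.comp
    (LinearMap.ker ((tot ι H).comp F : WW ι H →ₗ[ℝ] H)).starProjection) (h.frc hV)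

theorem Sh.qf (h : Sh p r w t t') {c : ℝ → ℝ} (hc : ∀ x (j : ℤ), c (x + j * p) = c x) (ω : Bi H)
    {f f' : ι → H} (hf : ∀ a, w a = 0 → f a = 0) (hf' : ∀ a, w a = 0 → f' a = 0) :
    qf c ω t' f f' = qf c ω t f f' := by
  refine Finset.sum_congr rfl fun a _ => Finset.sum_congr rfl fun b _ => ?_
  by_cases k : w a = 0
  · simp [hf a k]
  by_cases k' : w b = 0
  · simp [hf' b k']
  obtain ⟨j, hj⟩ := h a k
  obtain ⟨j', hj'⟩ := h b k'
  rw [show t' b - t' a = t b - t a + (j' - j : ℤ) * p by push_cast; linarith, hc]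

theorem Sh.opq (h : Sh p r w t t') {c : ℝ → ℝ} (hc : ∀ x (j : ℤ), c (x + j * p) = c x) (ω : Bi H)
    {W : Type} [NormedAddCommGroup W] [InnerProductSpace ℝ W] [FiniteDimensional ℝ W]
    {F : W →L[ℝ] ι → H} (hF : ∀ h a, w a = 0 → F h a = 0) : opq c ω t' F = opq c ω t F :=
  ContinuousLinearMap.ext fun u => ext_inner_right ℝ fun v => by
    rw [inner_opq, inner_opq, h.qf hc ω (hF u) (hF v)]

end

variable {Y : Type} [MetricSpace Y] {s : Set Y} {n k m : ℕ} {ω : Y → Bi H} {T : Y → Submodule ℝ H}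
  {V : Y → ℝ → Submodule ℝ H} {φ : ℝ → Y → Y}

section
variable {p : ℝ} {w t : Y → ι → ℝ}

theorem Wt.cont_frc (h : Wt s p w t) (hp : ∃ j : ℤ, p = j * π) (F : Fam0 n k s ω T V) :
    ContinuousOn (fun y => frc (V y) (w y) (t y)) s := by
  obtain ⟨j₀, rfl⟩ := hp
  refine continuousOn_clm_apply.2 fun u => continuousOn_pi.2 fun a y hy => ?_
  have hw : ContinuousWithinAt (fun y => w y a) s y := continuousOn_pi.1 h.cw a y hy
  simp only [frc_apply]
  by_cases k : w y a = 0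
  · rw [ContinuousWithinAt, k, zero_smul]
    exact Tendsto.zero_smul_isBoundedUnder_le (k ▸ hw.tendsto)
      (isBoundedUnder_of ⟨‖u a‖, fun y' => Submodule.norm_starProjection_apply_le _ _⟩)
  · obtain ⟨τ, h1, h2⟩ := h.br y hy a k
    have h3 : ContinuousWithinAt (fun y' => (V y' (τ y')).starProjection) s y :=
      ContinuousWithinAt.comp (f := fun y' => (y', τ y')) (F.cV (y, τ y) ⟨hy, trivial⟩)
        (continuousWithinAt_id.prodMk h1) fun _ k => ⟨k, trivial⟩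
    have h4 : ∀ᶠ y' in 𝓝[s] y, (V y' (t y' a)).starProjection (u a) =
        (V y' (τ y')).starProjection (u a) := by
      filter_upwards [h2, self_mem_nhdsWithin] with y' ⟨j, hj⟩ hy'
      refine congrArg (fun U : Submodule ℝ H => U.starProjection (u a)) ?_
      rw [hj, ← mul_assoc, ← Int.cast_mul, (F.sys y' hy').per_int]
    exact hw.smul ((h3.clm_apply continuousWithinAt_const).congr_of_eventuallyEq h4
      (h4.self_of_nhdsWithin hy))

theorem Wt.cont_frc0 (h : Wt s p w t) (hp : ∃ j : ℤ, p = j * π) (F : Fam0 n k s ω T V) :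
    ContinuousOn (fun y => frc0 (V y) (w y) (t y)) s :=
  (h.cont_frc hp F).clm_comp (B.continuousOn_ker_proj (k := finrank ℝ (WW ι H) - 2 * n)
    (continuousOn_const.clm_comp (h.cont_frc hp F)) fun y hy =>
      Nat.eq_sub_of_add_eq ((F.sys y hy).ker0_dim (h.full y hy)))

theorem Wt.cont_opq (h : Wt s p w t) (F : Fam0 n k s ω T V) {c : ℝ → ℝ} (c1 : ∀ x, |c x| ≤ 1)
    (c2 : ∀ x, sin x ≠ 0 → ContinuousAt c x) (c3 : ∀ x (j : ℤ), c (x + j * p) = c x)
    {W : Type} [NormedAddCommGroup W] [InnerProductSpace ℝ W] [FiniteDimensional ℝ W]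
    {Fq : Y → W →L[ℝ] ι → H} (hF : ContinuousOn Fq s) (h1 : ∀ y ∈ s, ∀ h a, Fq y h a ∈ V y (t y a))
    (h2 : ∀ y ∈ s, ∀ h a, w y a = 0 → Fq y h a = 0) :
    ContinuousOn (fun y => opq c (ω y) (t y) (Fq y)) s := by
  have e : ∀ u a, ContinuousOn (fun y => Fq y u a) s := fun u =>
    continuousOn_pi.1 (hF.clm_apply continuousOn_const)
  refine continuousOn_const.clm_comp (continuousOn_finsetSum _ fun a _ =>
    continuousOn_finsetSum _ fun b _ => cont_coef (u := fun y => t y b - t y a) c1 c2 c3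
      (continuousOn_clm_apply.2 fun u => continuousOn_clm_apply.2 fun v =>
        (F.cω.clm_apply (e u a)).clm_apply (e v b)) fun y hy => ?_)
  by_cases k : w y a = 0 ∨ w y b = 0 ∨ sin (t y b - t y a) = 0
  · refine Or.inl (ContinuousLinearMap.ext fun u => ContinuousLinearMap.ext fun v => ?_)
    change ω y (Fq y u a) (Fq y v b) = 0
    rcases k with k | k | k
    · simp [h2 y hy u a k]
    · simp [h2 y hy v b k]
    · exact (F.sys y hy).iso' k (h1 y hy u a) (h1 y hy v b)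
  · rw [not_or, not_or] at k
    obtain ⟨τ, a1, a2⟩ := h.br y hy a k.1
    obtain ⟨τ', b1, b2⟩ := h.br y hy b k.2.1
    refine Or.inr ⟨k.2.2, fun y => τ' y - τ y, b1.sub a1, ?_⟩
    filter_upwards [a2, b2] with y' ⟨j, hj⟩ ⟨j', hj'⟩
    exact ⟨j' - j, by push_cast; linarith⟩

end

/-- The forces of the first level. -/
def fr1 (V : ℝ → Submodule ℝ H) (z : Fin (m + 1) → ℂ) : WW (Te m) H →L[ℝ] Te m → H :=
  frc0 V (wt z) (tm1 z)

/-- The operator of the first level. -/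
def op1 (ω : Bi H) (V : ℝ → Submodule ℝ H) (z : Fin (m + 1) → ℂ) : WW (Te m) H →L[ℝ] WW (Te m) H :=
  opq saw ω (tm1 z) (fr1 V z)

/-- The operator of the second level with weights `w`. -/
def op2 (ω : Bi H) (V : ℝ → Submodule ℝ H) (w : Te m → ℝ) (ζ : Fin (m + 1) → ℂ) :
    WW (Te m) H →L[ℝ] WW (Te m) H := opq sgp ω (tm2 ζ) (frc V w (tm2 ζ))

variable {z : Y → Fin (m + 1) → ℂ}

theorem Flw.wt1 (L : Flw s φ z) : Wt s π (fun y => wt (z y)) fun y => tm1 (z y) :=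
  wt_tm1 L.cz L.ne (continuousOn_pi.2 fun a => (continuousOn_pi.1 L.cz a.1).norm)
    fun _ _ _ => norm_eq_zero

theorem Flw.mem2 (L : Flw s φ z) (r : ℝ) : MapsTo (φ2 φ r) (S2 s z) (S2 s z) := fun p hp =>
  ⟨L.mem r hp.1, by
    change ((Circle.exp r : ℂ) • p.2) * ((Circle.exp r : ℂ) • p.2) = z (φ r p.1)
    rw [smul_mul_smul_comm, hp.2, L.eqv r _ hp.1, two_mul, Circle.exp_add, Circle.coe_mul]⟩

/-- Admissible weights. -/
structure Adm (s : Set Y) (φ : ℝ → Y → Y) (z : Y → Fin (m + 1) → ℂ) (w : Y → Te m → ℝ) : Prop where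
  cw : ContinuousOn w s
  iw : ∀ r, ∀ y ∈ s, w (φ r y) = w y
  zw : ∀ y ∈ s, ∀ a, w y a = 0 ↔ z y a.1 = 0

theorem Flw.adm (L : Flw s φ z) : Adm s φ z fun y => wt (z y) :=
  ⟨L.wt1.cw, fun r y hy => by rw [L.eqv r y hy, wt_flow], fun _ _ _ => norm_eq_zero⟩

theorem Flw.adm_sq (L : Flw s φ z) : Adm s φ z fun y a => wt (z y) a * wt (z y) a :=
  ⟨L.adm.cw.mul L.adm.cw, fun r y hy => by rw [L.eqv r y hy, wt_flow],
    fun _ _ _ => mul_self_eq_zero.trans norm_eq_zero⟩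

theorem Flw.wt2 (L : Flw s φ z) {w : Y → Te m → ℝ} (hw : Adm s φ z w) :
    Wt (S2 s z) (2 * π) (fun p => w p.1) fun p => tm2 p.2 :=
  wt_tm2 continuousOn_snd (fun p hp h0 => L.ne p.1 hp.1 (by rw [← hp.2, h0, mul_zero]))
    (hw.cw.comp continuousOn_fst fun _ hp => hp.1) fun p hp a =>
      (hw.zw p.1 hp.1 a).trans (by rw [← hp.2, Pi.mul_apply, mul_self_eq_zero])

theorem Fam.level1 (F : Fam n k s φ ω T V) (L : Flw s φ z) :
    ContinuousOn (fun y => fr1 (V y) (z y)) s ∧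
    (∀ r, ∀ y ∈ s, fr1 (V (φ r y)) (z (φ r y)) = fr1 (V y) (z y)) ∧
    ContinuousOn (fun y => ngP _ (op1 (ω y) (V y) (z y))) s ∧
    (∀ r, ∀ y ∈ s, op1 (ω (φ r y)) (V (φ r y)) (z (φ r y)) = op1 (ω y) (V y) (z y)) ∧
    ∀ y ∈ s, B.IsNegP k (op1 (ω y) (V y) (z y)) (ngP _ (op1 (ω y) (V y) (z y))) := by
  have z0 : ∀ (y : Y) h a, wt (z y) a = 0 → fr1 (V y) (z y) h a = 0 := fun y h a k => by
    change frc _ _ _ _ a = 0
    rw [frc_apply, k, zero_smul]
  have sh : ∀ r, ∀ y ∈ s, Sh π r (wt (z y)) (tm1 (z y)) (tm1 (z (φ r y))) := fun r y hy a k => by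
    rw [L.eqv r y hy]
    exact tm1_flow _ r fun h0 => k (norm_eq_zero.2 h0)
  have c1 : ContinuousOn (fun y => fr1 (V y) (z y)) s :=
    L.wt1.cont_frc0 ⟨1, by simp⟩ F.toFam0
  have e1 : ∀ r, ∀ y ∈ s, fr1 (V (φ r y)) (z (φ r y)) = fr1 (V y) (z y) := fun r y hy => by
    rw [fr1, funext (F.iV r y hy), L.adm.iw r y hy]
    exact (sh r y hy).frc0 (F.sys y hy).per_int
  have ix : ∀ y ∈ s, B.Idx k (op1 (ω y) (V y) (z y)) := fun y hy =>
    (F.sys y hy).idx1 (L.wt1.full y hy)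
  refine ⟨c1, e1, (ngP_cont k).comp (L.wt1.cont_opq F.toFam0
    (fun x => (abs_saw_le x).trans (by norm_num)) (fun _ => continuousAt_saw) saw_int c1
    (fun y _ h a => frc0_mem _ _ _ h a) fun y _ => z0 y) ix, fun r y hy => ?_,
    fun y hy => ngP_spec (ix y hy)⟩
  rw [op1, e1 r y hy, F.iω r y hy]
  exact (sh r y hy).opq saw_int _ (z0 y)

theorem Fam.level2 (F : Fam n k s φ ω T V) (L : Flw s φ z) {w : Y → Te m → ℝ} (hw : Adm s φ z w) :
    ContinuousOn (fun p : Y × (Fin (m + 1) → ℂ) => frc (V p.1) (w p.1) (tm2 p.2)) (S2 s z) ∧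
    (∀ r, ∀ p ∈ S2 s z, frc (V (φ2 φ r p).1) (w (φ2 φ r p).1) (tm2 (φ2 φ r p).2) =
      frc (V p.1) (w p.1) (tm2 p.2)) ∧
    ContinuousOn (fun p : Y × (Fin (m + 1) → ℂ) => ngP _ (op2 (ω p.1) (V p.1) (w p.1) p.2)) (S2 s z) ∧
    (∀ r, ∀ p ∈ S2 s z, op2 (ω (φ2 φ r p).1) (V (φ2 φ r p).1) (w (φ2 φ r p).1) (φ2 φ r p).2 =
      op2 (ω p.1) (V p.1) (w p.1) p.2) ∧
    ∀ p ∈ S2 s z, B.IsNegP (n + k) (op2 (ω p.1) (V p.1) (w p.1) p.2)
      (ngP _ (op2 (ω p.1) (V p.1) (w p.1) p.2)) := by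
  have F' := F.toFam0.comp (s' := S2 s z) continuousOn_fst fun _ hp => hp.1
  have z0 : ∀ (p : Y × (Fin (m + 1) → ℂ)) h a, w p.1 a = 0 →
      frc (V p.1) (w p.1) (tm2 p.2) h a = 0 := fun p h a k => by rw [frc_apply, k, zero_smul]
  have sh : ∀ r, ∀ p ∈ S2 s z, Sh (2 * π) r (w p.1) (tm2 p.2) (tm2 (φ2 φ r p).2) :=
    fun r p hp a k => tm2_flow _ r fun h0 => k ((hw.zw p.1 hp.1 a).2 (by
      rw [← hp.2, Pi.mul_apply, h0, mul_zero]))
  have c1 := (L.wt2 hw).cont_frc ⟨2, by simp⟩ F'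
  have e1 : ∀ r, ∀ p ∈ S2 s z, frc (V (φ2 φ r p).1) (w (φ2 φ r p).1) (tm2 (φ2 φ r p).2) =
      frc (V p.1) (w p.1) (tm2 p.2) := fun r p hp => by
    change frc (V (φ r p.1)) (w (φ r p.1)) _ = _
    rw [funext (F.iV r p.1 hp.1), hw.iw r p.1 hp.1]
    refine (sh r p hp).frc fun x j => ?_
    rw [← (F.sys p.1 hp.1).per_int x (j * 2)]
    push_cast
    rw [mul_assoc]
  have ix : ∀ p ∈ S2 s z, B.Idx (n + k) (op2 (ω p.1) (V p.1) (w p.1) p.2) := fun p hp =>
    (F.sys p.1 hp.1).idx2' ((L.wt2 hw).full p hp)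
  refine ⟨c1, e1, (ngP_cont (n + k)).comp ((L.wt2 hw).cont_opq F'
    (fun x => (abs_sgp_le x).trans (by norm_num)) (fun _ => continuousAt_sgp) sgp_int c1
    (fun p _ h a => frc_mem _ _ _ h a) fun p _ => z0 p) ix, fun r p hp => ?_,
    fun p hp => ngP_spec (ix p hp)⟩
  rw [op2, e1 r p hp, show ω (φ2 φ r p).1 = ω p.1 from F.iω r p.1 hp.1]
  exact (sh r p hp).opq sgp_int _ (z0 p)

end Pool.Agent.Work.MP_8c604c_gt.OS
end
end

-- merged part: Pool.Agent.Work.MP_8c604c_gt.OS.PreK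
section
/-!
The two pieces of the data for a standard family.
Plan. `exists_KD`: take `N` and `e : EuclideanSpace ℝ (Fin N) ≃L[ℝ] (Fin (m + 1) → H × H)` (`ContinuousLinearEquiv.ofFinrankEq`).  `K y` is the orthogonal projector onto the image of `Sec (V y)` under the
injective map `p ↦ e.symm (fun i => cm (conj (z y i)) p)` (`cl_Sec`, `Cl.map`, `CS.of_cl`, `rot_Sec`); invariance by `mem_Sec_shift` and `cm_mul`.  `R y a = (∑ i, cm (z y i) (e a i)).1`, which is `(∑ ‖z y i‖ ^ 2) p.1`.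
`L a b = (cm (I ^ b.2) (e a b.1)).1`; use `exp_tm1`, `cm_fst`, `cm_real`.
`exists_PD`: `P = ngP (op2 ω V (wt * wt) ζ)` (`level2` with `adm_sq`), `G p a = toLp (frc V wt (tm2 ζ) a)` (`level2` with `adm`), so that `wt • G p a` is `frc V (wt * wt) (tm2 ζ) a`.
`R' p a = ∑ b, sgp (tm2 ζ b) • (V 0).starProjection (shp (ω.flip (f b)))` with `f = frc V (wt * wt) (tm2 ζ) a`; each term is continuous by `cont_coef` (it vanishes if the weight vanishes or if `sin (tm2 ζ b) = 0`, `iso'`);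
if it is zero then `idx_pos2` at `s = 0` (here `KK V 0 = ⊥`) contradicts the negativity.
-/

set_option maxSynthPendingDepth 3
set_option linter.unusedSectionVars false

open Set Filter Topology Real Module
open scoped RealInnerProductSpace

noncomputable section
namespace Pool.Agent.Work.MP_8c604c_gt.OS

variable {H : Type} [NormedAddCommGroup H] [InnerProductSpace ℝ H] [FiniteDimensional ℝ H]
  {Y : Type} [MetricSpace Y] {s : Set Y} {n k : ℕ} {ω : Y → Bi H} {T : Y → Submodule ℝ H}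
  {V : Y → ℝ → Submodule ℝ H}
  {m : ℕ} {φ : ℝ → Y → Y} {z : Y → Fin (m + 1) → ℂ}

/-- The copies of a section, rotated by the phases. -/
def PreK_J (ζ : Fin (m + 1) → ℂ) : H × H →L[ℝ] Fin (m + 1) → H × H :=
  ContinuousLinearMap.pi fun i => cm ((starRingEnd ℂ) (ζ i))

/-- The way back. -/
def PreK_R (ζ : Fin (m + 1) → ℂ) : (Fin (m + 1) → H × H) →L[ℝ] H :=
  (ContinuousLinearMap.fst ℝ H H).comp (∑ i, (cm (ζ i)).comp (ContinuousLinearMap.proj i))

/-- The values at the teeth. -/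
def PreK_L : (Fin (m + 1) → H × H) →L[ℝ] Te m → H :=
  ContinuousLinearMap.pi fun b => (ContinuousLinearMap.fst ℝ H H).comp
    ((cm (Complex.I ^ (b.2 : ℕ))).comp (ContinuousLinearMap.proj b.1))

theorem PreK_cm (u : ℂ) (p : H × H) : cm u (cm ((starRingEnd ℂ) u) p) = ‖u‖ ^ 2 • p := by
  rw [← cm_mul, Complex.mul_conj', ← Complex.ofReal_pow, cm_real]

theorem PreK_RJ (ζ : Fin (m + 1) → ℂ) (p : H × H) :
    PreK_R ζ (PreK_J ζ p) = (∑ i, ‖ζ i‖ ^ 2) • p.1 := by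
  simp only [PreK_R, PreK_J, ContinuousLinearMap.comp_apply, sum_apply,
    ContinuousLinearMap.proj_apply, ContinuousLinearMap.pi_apply, PreK_cm, ← Finset.sum_smul]
  rfl

theorem PreK_LJ (ζ : Fin (m + 1) → ℂ) (p : H × H) (b : Te m) :
    PreK_L (PreK_J ζ p) b = wt ζ b • evt (tm1 ζ b) p := by
  have h : PreK_L (PreK_J ζ p) b =
      (cm (Complex.I ^ (b.2 : ℕ)) (cm ((starRingEnd ℂ) (ζ b.1)) p)).1 := rfl
  rw [h, ← cm_mul, ← exp_tm1, cm_mul, cm_real, Prod.smul_fst, cm_fst, wt]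

theorem PreK_pos {ζ : Fin (m + 1) → ℂ} (h : ζ ≠ 0) : 0 < ∑ i, ‖ζ i‖ ^ 2 := by
  obtain ⟨i, hi⟩ := Function.ne_iff.1 h
  exact Finset.sum_pos' (fun _ _ => sq_nonneg _)
    ⟨i, Finset.mem_univ _, pow_pos (norm_pos_iff.2 hi) 2⟩

theorem PreK_inj {ζ : Fin (m + 1) → ℂ} (h : ζ ≠ 0) {p : H × H} (h0 : PreK_J ζ p = 0) : p = 0 := by
  obtain ⟨i, hi⟩ := Function.ne_iff.1 h
  have h1 : cm ((starRingEnd ℂ) (ζ i)) p = 0 := congrFun h0 i
  have h2 := PreK_cm (ζ i) p
  rw [h1, map_zero] at h2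
  exact (smul_eq_zero.1 h2.symm).resolve_left (pow_pos (norm_pos_iff.2 hi) 2).ne'

theorem PreK_cJ : Continuous (PreK_J : (Fin (m + 1) → ℂ) → H × H →L[ℝ] Fin (m + 1) → H × H) :=
  continuous_clm_apply.2 fun p => by
    have h : ∀ i, Continuous fun ζ : Fin (m + 1) → ℂ => cm ((starRingEnd ℂ) (ζ i)) p := fun i =>
      (continuous_cm.comp (Complex.continuous_conj.comp (continuous_apply i))).clm_apply
        continuous_const
    exact continuous_pi h

theorem PreK_cR : Continuous (PreK_R : (Fin (m + 1) → ℂ) → (Fin (m + 1) → H × H) →L[ℝ] H) :=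
  continuous_const.clm_comp (continuous_finsetSum _ fun i _ =>
    (continuous_cm.comp (continuous_apply i)).clm_comp continuous_const)

theorem PreK_inv (W : ℝ → Submodule ℝ H) (ζ : Fin (m + 1) → ℂ) (r : ℝ) :
    (Sec fun t => W (t + r)).map (PreK_J ((Circle.exp (2 * r) : ℂ) • ζ)).toLinearMap =
      (Sec W).map (PreK_J ζ).toLinearMap := by
  have e : (Circle.exp (2 * r) : ℂ) = Complex.exp (2 * r * Complex.I) := by
    rw [Circle.coe_exp]
    push_cast
    rfl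
  have h1 : Complex.exp (2 * r * Complex.I) *
      (starRingEnd ℂ) (Complex.exp (2 * r * Complex.I)) = 1 := by
    rw [Complex.mul_conj', ← e, Circle.norm_coe]
    simp
  have hs := mem_Sec_shift (V := W) r
  rw [e]
  generalize Complex.exp (2 * r * Complex.I) = c at h1 hs
  have h2 : ∀ p : H × H, PreK_J (c • ζ) (cm c p) = PreK_J ζ p := fun p => funext fun i => by
    have h3 : (starRingEnd ℂ) (c * ζ i) * c = (starRingEnd ℂ) (ζ i) := by
      rw [map_mul]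
      linear_combination (starRingEnd ℂ) (ζ i) * h1
    exact (cm_mul _ _ p).symm.trans (congrArg (cm · p) h3)
  refine le_antisymm ?_ ?_
  · rintro _ ⟨p, hp, rfl⟩
    have h3 : cm c (cm ((starRingEnd ℂ) c) p) = p := by
      rw [← cm_mul, h1, ← Complex.ofReal_one, cm_real, one_smul]
    refine ⟨cm ((starRingEnd ℂ) c) p, (hs _).1 (h3.symm ▸ hp), ?_⟩
    exact (h2 _).symm.trans (congrArg (PreK_J (c • ζ)) h3)
  · rintro _ ⟨p, hp, rfl⟩
    exact ⟨cm c p, (hs p).2 hp, h2 p⟩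

theorem Fam.exists_KD (F : Fam n k s φ ω T V) (L : Flw s φ z)
    (hs : ∀ y ∈ s, Std (ω y) (T y) (V y)) :
    ∃ (N : ℕ) (K : Y → EuclideanSpace ℝ (Fin N) →L[ℝ] EuclideanSpace ℝ (Fin N))
      (R : Y → EuclideanSpace ℝ (Fin N) →L[ℝ] H) (Λ : EuclideanSpace ℝ (Fin N) →L[ℝ] Te m → H),
      ContinuousOn K s ∧ (∀ y ∈ s, ∀ a, K y (K y a) = K y a) ∧
      (∀ y ∈ s, ∀ a b, ⟪K y a, b⟫ = ⟪a, K y b⟫) ∧
      (∀ y ∈ s, finrank ℝ (LinearMap.range (K y).toLinearMap) = k) ∧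
      (∀ r, ∀ y ∈ s, K (φ r y) = K y) ∧ ContinuousOn R s ∧
      (∀ y ∈ s, ∀ a, K y a = a → R y a ∈ KK (V y) 0) ∧
      (∀ y ∈ s, ∀ a, K y a = a → R y a = 0 → a = 0) ∧
      ∀ y ∈ s, ∀ a, K y a = a → ∃ p ∈ Sec (V y), (p = 0 → a = 0) ∧
        ∀ b, Λ a b = wt (z y) b • evt (tm1 (z y) b) p := by
  let e : EuclideanSpace ℝ (Fin (finrank ℝ (Fin (m + 1) → H × H))) ≃L[ℝ] (Fin (m + 1) → H × H) :=
    ContinuousLinearEquiv.ofFinrankEq finrank_euclideanSpace_fin
  let J : Y → H × H →L[ℝ] EuclideanSpace ℝ (Fin (finrank ℝ (Fin (m + 1) → H × H))) := fun y =>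
    (e.symm : (Fin (m + 1) → H × H) →L[ℝ] _).comp (PreK_J (z y))
  let A : Y → Submodule ℝ (EuclideanSpace ℝ (Fin (finrank ℝ (Fin (m + 1) → H × H)))) := fun y =>
    (Sec (V y)).map (J y).toLinearMap
  have hJ : ContinuousOn J s := continuousOn_const.clm_comp (PreK_cJ.comp_continuousOn L.cz)
  have hi : ∀ y ∈ s, ∀ p, J y p = 0 → p = 0 := fun y hy p h =>
    PreK_inj (L.ne y hy) (e.symm.map_eq_zero_iff.1 h)
  have hd : ∀ y ∈ s, finrank ℝ (A y) = k := fun y hy =>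
    (Submodule.equivMapOfInjective (J y).toLinearMap
      ((injective_iff_map_eq_zero _).2 (hi y hy)) (Sec (V y))).finrank_eq.symm.trans
      ((F.sys y hy).rot_Sec (hs y hy)).dim
  have hm : ∀ y a, (A y).starProjection a = a → ∃ p ∈ Sec (V y), a = e.symm (PreK_J (z y) p) := by
    intro y a ha
    obtain ⟨p, hp, rfl⟩ := Submodule.starProjection_eq_self_iff.1 ha
    exact ⟨p, hp, rfl⟩
  have hR : ContinuousOn (fun y => (PreK_R (z y)).comp e.toContinuousLinearMap) s :=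
    (PreK_cR.comp_continuousOn L.cz).clm_comp continuousOn_const
  refine ⟨_, fun y => (A y).starProjection,
    fun y => (PreK_R (z y)).comp e.toContinuousLinearMap, PreK_L.comp e.toContinuousLinearMap,
    CS.of_cl (fun y hy => (F.cl_Sec hy).map (hJ y hy) fun p _ => hi y hy p) hd,
    fun y _ a => Submodule.starProjection_eq_self_iff.2 (Submodule.starProjection_apply_mem _ a),
    fun y _ a b => Submodule.inner_starProjection_left_eq_right _ a b, fun y hy => ?_,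
    fun r y hy => ?_, hR, fun y hy a ha => ?_, fun y hy a ha h0 => ?_,
    fun y hy a ha => ?_⟩
  · rw [Submodule.range_starProjection]
    exact hd y hy
  · have h1 : A (φ r y) = A y := by
      have h2 : V (φ r y) = fun t => V y (t + r) := funext (F.iV r y hy)
      simp only [A, J, ContinuousLinearMap.toLinearMap_comp, Submodule.map_comp]
      rw [h2, L.eqv r y hy, PreK_inv]
    simp only [h1]
  · obtain ⟨p, hp, rfl⟩ := hm y a ha
    have h1 : PreK_R (z y) (e (e.symm (PreK_J (z y) p))) ∈ KK (V y) 0 := by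
      rw [e.apply_symm_apply, PreK_RJ]
      exact Submodule.smul_mem _ _ ((F.sys y hy).Sec_le hp).1
    exact h1
  · obtain ⟨p, hp, rfl⟩ := hm y a ha
    have h1 : PreK_R (z y) (e (e.symm (PreK_J (z y) p))) = 0 := h0
    rw [e.apply_symm_apply, PreK_RJ, smul_eq_zero] at h1
    have h2 := ((F.sys y hy).rot_Sec (hs y hy)).inj hp (t := 0) (by
      rw [evt_apply, h1.resolve_left (PreK_pos (L.ne y hy)).ne']
      simp)
    rw [h2, map_zero, map_zero]
  · obtain ⟨p, hp, rfl⟩ := hm y a ha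
    refine ⟨p, hp, fun h0 => by rw [h0, map_zero, map_zero], fun b => ?_⟩
    have h1 : PreK_L (e (e.symm (PreK_J (z y) p))) b = wt (z y) b • evt (tm1 (z y) b) p := by
      rw [e.apply_symm_apply, PreK_LJ]
    exact h1

/-- The part of the pairing with a force that is seen by a subspace. -/
def PreK_B (η : Bi H) (U : Submodule ℝ H) (f : WW (Te m) H →L[ℝ] Te m → H) (b : Te m) :
    WW (Te m) H →L[ℝ] H :=
  U.starProjection.comp ((shp H).comp (ContinuousLinearMap.comp η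
    ((ContinuousLinearMap.proj b).comp f)))

theorem PreK_B_apply (η : Bi H) (U : Submodule ℝ H) (f : WW (Te m) H →L[ℝ] Te m → H) (b : Te m)
    (a : WW (Te m) H) : PreK_B η U f b a = U.starProjection (shp H (η (f a b))) := rfl

theorem Fam.exists_PD (F : Fam n 0 s φ ω T V) (L : Flw s φ z) :
    ∃ (P G : Y × (Fin (m + 1) → ℂ) → WW (Te m) H →L[ℝ] WW (Te m) H)
      (R' : Y × (Fin (m + 1) → ℂ) → WW (Te m) H →L[ℝ] H),
      ContinuousOn P (S2 s z) ∧ (∀ p ∈ S2 s z, ∀ a, P p (P p a) = P p a) ∧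
      (∀ p ∈ S2 s z, finrank ℝ (LinearMap.range (P p).toLinearMap) = n) ∧
      (∀ r, ∀ p ∈ S2 s z, P (φ2 φ r p) = P p) ∧ ContinuousOn R' (S2 s z) ∧
      (∀ p ∈ S2 s z, ∀ a, R' p a ∈ V p.1 0) ∧
      (∀ p ∈ S2 s z, ∀ a, P p a = a → R' p a = 0 → a = 0) ∧ ContinuousOn G (S2 s z) ∧
      (∀ r, ∀ p ∈ S2 s z, G (φ2 φ r p) = G p) ∧
      (∀ p ∈ S2 s z, ∀ a b, G p a b ∈ V p.1 (tm2 p.2 b)) ∧
      ∀ p ∈ S2 s z, ∀ a, P p a = a → a ≠ 0 → qf sgp (ω p.1) (tm2 p.2)
        (fun b => wt (z p.1) b • G p a b) (fun b => wt (z p.1) b • G p a b) < 0 := by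
  obtain ⟨a1, a2, -⟩ := F.level2 L L.adm
  obtain ⟨b1, -, b3, b4, b5⟩ := F.level2 L L.adm_sq
  have hW := L.wt2 L.adm_sq
  have c0 : ContinuousOn (fun p : Y × (Fin (m + 1) → ℂ) => (V p.1 0).starProjection) (S2 s z) :=
    (F.cs_V (τ := fun _ => 0) continuousOn_const).comp continuousOn_fst fun _ hp => hp.1
  have cω : ContinuousOn (fun p : Y × (Fin (m + 1) → ℂ) => ω p.1) (S2 s z) :=
    F.cω.comp continuousOn_fst fun _ hp => hp.1
  have hf : ∀ (W : ℝ → Submodule ℝ H) (w t : Te m → ℝ) a b, frc W w t a b ∈ W (t b) :=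
    fun W w t a b => Submodule.smul_mem _ _ (Submodule.starProjection_apply_mem _ _)
  have hneg : ∀ p ∈ S2 s z, ∀ a, ngP _ (op2 (ω p.1) (V p.1)
      (fun a => wt (z p.1) a * wt (z p.1) a) p.2) a = a → a ≠ 0 → qf sgp (ω p.1) (tm2 p.2)
        (frc (V p.1) (fun a => wt (z p.1) a * wt (z p.1) a) (tm2 p.2) a)
        (frc (V p.1) (fun a => wt (z p.1) a * wt (z p.1) a) (tm2 p.2) a) < 0 := by
    intro p hp a ha h0
    have h1 := (b5 p hp).neg a h0 ha
    rwa [op2, inner_opq] at h1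
  refine ⟨fun p => ngP _ (op2 (ω p.1) (V p.1) (fun a => wt (z p.1) a * wt (z p.1) a) p.2),
    fun p => ((PiLp.continuousLinearEquiv 2 ℝ fun _ : Te m => H).symm : (Te m → H) →L[ℝ] _).comp
      (frc (V p.1) (wt (z p.1)) (tm2 p.2)),
    fun p => ∑ b, sgp (tm2 p.2 b) • PreK_B (ω p.1) (V p.1 0)
      (frc (V p.1) (fun a => wt (z p.1) a * wt (z p.1) a) (tm2 p.2)) b,
    b3, fun p hp => (b5 p hp).idem, fun p hp => (b5 p hp).rank,
    fun r p hp => congrArg _ (b4 r p hp), continuousOn_finsetSum _ fun b _ => ?_,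
    fun p _ a => ?_, fun p hp a ha h0 => ?_, continuousOn_const.clm_comp a1,
    fun r p hp => congrArg _ (a2 r p hp), fun p _ a b => hf _ _ _ a b, fun p hp a ha h0 => ?_⟩
  · refine cont_coef (p := 2 * π) (fun x => (abs_sgp_le x).trans (by norm_num))
      (fun _ => continuousAt_sgp) sgp_int (c0.clm_comp (continuousOn_const.clm_comp
        (cω.clm_comp (continuousOn_const.clm_comp b1)))) fun p hp => ?_
    by_cases h1 : wt (z p.1) b * wt (z p.1) b = 0
    · refine Or.inl (ContinuousLinearMap.ext fun a => ?_)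
      rw [PreK_B_apply, frc_apply, h1, zero_smul, map_zero, map_zero, map_zero]
      rfl
    by_cases h2 : sin (tm2 p.2 b) = 0
    · refine Or.inl (ContinuousLinearMap.ext fun a => ?_)
      rw [PreK_B_apply]
      refine (Submodule.starProjection_apply_eq_zero_iff _).2
        ((Submodule.mem_orthogonal' _ _).2 fun v hv => ?_)
      rw [inner_shp]
      exact (F.sys _ hp.1).iso' (by rw [zero_sub, sin_neg, h2, neg_zero]) (hf _ _ _ a b) hv
    · exact Or.inr ⟨h2, hW.br p hp b h1⟩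
  · rw [sum_apply]
    exact Submodule.sum_mem _ fun b _ =>
      Submodule.smul_mem _ _ (Submodule.starProjection_apply_mem _ _)
  · by_contra h1
    refine (hneg p hp a ha h1).not_ge ((F.sys _ hp.1).idx_pos2 0 (hf _ _ _ a) (fun v hv => ?_)
      fun κ hκ => ?_)
    · have h2 := congrArg (fun u => ⟪u, v⟫) h0
      simp only [sum_apply, smul_apply, sum_inner, real_inner_smul_left, PreK_B_apply,
        Submodule.inner_starProjection_left_eq_right,
        Submodule.starProjection_eq_self_iff.2 hv, inner_shp, inner_zero_left] at h2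
      rw [← neg_eq_zero, ← Finset.sum_neg_distrib]
      refine (Finset.sum_congr rfl fun b _ => ?_).trans h2
      rw [sub_zero, (F.sys _ hp.1).skew v, mul_neg, neg_neg]
    · rw [Submodule.finrank_eq_zero.1 ((F.sys _ hp.1).dimK 0), Submodule.mem_bot] at hκ
      simp [hκ]
  · have e : (fun b => wt (z p.1) b • frc (V p.1) (wt (z p.1)) (tm2 p.2) a b) =
        frc (V p.1) (fun a => wt (z p.1) a * wt (z p.1) a) (tm2 p.2) a :=
      funext fun b => (mul_smul _ _ _).symm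
    exact e ▸ hneg p hp a ha h0

end Pool.Agent.Work.MP_8c604c_gt.OS
end
end

-- merged part: Pool.Agent.Work.MP_8c604c_gt.OS.DfmC
section
/-!
The deformation of a continuous family is continuous.
Plan. Closed graph and constant dimension (`CS.of_cl`, `dfm_dim`).
`cl_gen`: `dfm` is the image of the family of witnesses `(κ, l, u, p)` (closed graph by `Cl.prod`, `Cl.comap`, `Cl.inf`, `cl_const ⊥`) under a map that is injective if `sin (2 t₀) ≠ 0` (`three`, `tr'`, `Rot.inj`); use `Cl.map`.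
`cl_half`: `t₀ = j π/2`, `dfm θ t₀ = V t₀`.  Let `q_i → (y₀, t₀)`, `x_i → x` with witnesses `κ, l, u, p`.  Split `u = u₀ + u₁` with `u₀ ∈ V t₀ ⊓ Tp`, `u₁ ∈ V (t₀ + π/4) ⊓ Tp` (`sup_eq`, `split0`, `split1`, `three`).
Then `x = x₀ + x₁` with `x₀ = cos θ κ + sin θ cos (2t) p.1 + u₀ ∈ V t₀`, `x₁ = l + u₁ ∈ V (t₀ + π/4)`, both bounded and convergent (`CS.proj`), and
`ω x₀ x₁ = ω (κ + u₀) (cos θ l + u₁) + ω (cos (2t) p.1) (sin θ l)`, two terms of the same sign (`est` for `V` and for `VS`, where `VS t₀ = KK V 0` and `VS (t₀ + π/4) = KK V (π/4)`).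
So `‖cos θ l + u₁‖ ^ 2 + ‖sin θ l‖ ^ 2 ≤ ε |ω x₀ x₁|`, hence `x₁ → 0` (write `x₁ = (cos θ l + u₁) + (1 - cos θ) l`; `l` and `u₁` are separated by a continuous projector, or use `l = cos θ (cos θ l) + sin θ (sin θ l)`), and `x = lim x₀ ∈ V y₀ t₀`.
-/

set_option maxSynthPendingDepth 3
set_option linter.unusedSectionVars false

open Set Filter Topology Real Module
open scoped RealInnerProductSpace

noncomputable section
namespace Pool.Agent.Work.MP_8c604c_gt.OS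

variable {H : Type} [NormedAddCommGroup H] [InnerProductSpace ℝ H] [FiniteDimensional ℝ H]
  {Y : Type} [MetricSpace Y] {s : Set Y} {n k : ℕ} {ω : Y → Bi H} {T : Y → Submodule ℝ H}
  {V : Y → ℝ → Submodule ℝ H}
  {θ : Y → ℝ}

/-- Linear combinations of the five witnesses. -/
def DfmC_L (H : Type) [NormedAddCommGroup H] [InnerProductSpace ℝ H] (a b c d e : ℝ) :
    H × H × H × H × H →L[ℝ] H :=
  a • ContinuousLinearMap.fst ℝ H _ +
  b • (ContinuousLinearMap.fst ℝ H _).comp (ContinuousLinearMap.snd ℝ H _) +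
  c • (ContinuousLinearMap.fst ℝ H _).comp
    ((ContinuousLinearMap.snd ℝ H _).comp (ContinuousLinearMap.snd ℝ H _)) +
  d • (ContinuousLinearMap.fst ℝ H _).comp ((ContinuousLinearMap.snd ℝ H _).comp
    ((ContinuousLinearMap.snd ℝ H _).comp (ContinuousLinearMap.snd ℝ H _))) +
  e • (ContinuousLinearMap.snd ℝ H _).comp ((ContinuousLinearMap.snd ℝ H _).comp
    ((ContinuousLinearMap.snd ℝ H _).comp (ContinuousLinearMap.snd ℝ H _)))

theorem DfmC_apply (a b c d e : ℝ) (w : H × H × H × H × H) : DfmC_L H a b c d e w =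
    a • w.1 + b • w.2.1 + c • w.2.2.1 + d • w.2.2.2.1 + e • w.2.2.2.2 := rfl

theorem DfmC_cont {X : Type} [TopologicalSpace X] {r : Set X} {p : X} {a b c d e : X → ℝ}
    (ha : ContinuousWithinAt a r p) (hb : ContinuousWithinAt b r p) (hc : ContinuousWithinAt c r p)
    (hd : ContinuousWithinAt d r p) (he : ContinuousWithinAt e r p) :
    ContinuousWithinAt (fun x => DfmC_L H (a x) (b x) (c x) (d x) (e x)) r p :=
  ((((ha.smul continuousWithinAt_const).add (hb.smul continuousWithinAt_const)).add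
    (hc.smul continuousWithinAt_const)).add (hd.smul continuousWithinAt_const)).add
    (he.smul continuousWithinAt_const)

/-- The space of the witnesses. -/
def DfmC_W (ω : Bi H) (T : Submodule ℝ H) (V : ℝ → Submodule ℝ H) (θ t : ℝ) :
    Submodule ℝ (H × H × H × H × H) :=
  ((KK V 0).prod ((KK V (π / 4)).prod ((Tp ω T V).prod (Gr ω T V))) ⊓
    (V t).comap (DfmC_L H 1 (cos θ) 1 0 0 : H × H × H × H × H →ₗ[ℝ] H)) ⊓
    (⊥ : Submodule ℝ H).comap (DfmC_L H 0 (-sin θ) 0 0 (sin (2 * t)) : H × H × H × H × H →ₗ[ℝ] H)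

theorem DfmC_mem {ω : Bi H} {T : Submodule ℝ H} {V : ℝ → Submodule ℝ H} {θ t : ℝ}
    {w : H × H × H × H × H} : w ∈ DfmC_W ω T V θ t ↔ w.1 ∈ KK V 0 ∧ w.2.1 ∈ KK V (π / 4) ∧
      w.2.2.1 ∈ Tp ω T V ∧ w.2.2.2 ∈ Gr ω T V ∧ w.1 + cos θ • w.2.1 + w.2.2.1 ∈ V t ∧
      sin (2 * t) • w.2.2.2.2 = sin θ • w.2.1 := by
  simp only [DfmC_W, Submodule.mem_inf, Submodule.mem_prod, Submodule.mem_comap,
    ContinuousLinearMap.coe_coe, DfmC_apply, one_smul, zero_smul, add_zero, zero_add,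
    Submodule.mem_bot, neg_smul, neg_add_eq_zero, and_assoc, eq_comm (a := sin θ • w.2.1)]

theorem DfmC_map (ω : Bi H) (T : Submodule ℝ H) (V : ℝ → Submodule ℝ H) (θ t : ℝ) :
    dfm ω T V θ t = (DfmC_W ω T V θ t).map
      (DfmC_L H (cos θ) 1 1 (sin θ * cos (2 * t)) 0 : H × H × H × H × H →ₗ[ℝ] H) := by
  ext x
  constructor
  · rintro ⟨κ, hκ, l, hl, u, hu, p, hp, h1, h2, rfl⟩
    refine ⟨(κ, l, u, p), DfmC_mem.2 ⟨hκ, hl, hu, hp, h1, h2⟩, ?_⟩
    simp only [ContinuousLinearMap.coe_coe, DfmC_apply, one_smul, zero_smul, add_zero]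
    abel
  · rintro ⟨w, hw, rfl⟩
    obtain ⟨hκ, hl, hu, hp, h1, h2⟩ := DfmC_mem.1 hw
    refine ⟨_, hκ, _, hl, _, hu, _, hp, h1, h2, ?_⟩
    simp only [ContinuousLinearMap.coe_coe, DfmC_apply, one_smul, zero_smul, add_zero]
    abel

theorem DfmC_inj {ω : Bi H} {T : Submodule ℝ H} {V : ℝ → Submodule ℝ H} (h : Sys n k ω T V)
    {θ t : ℝ} (e : sin (2 * t) ≠ 0) {w : H × H × H × H × H} (hw : w ∈ DfmC_W ω T V θ t)
    (h0 : DfmC_L H (cos θ) 1 1 (sin θ * cos (2 * t)) 0 w = 0) : w = 0 := by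
  obtain ⟨κ, l, u, p⟩ := w
  obtain ⟨hκ, hl, hu, hp, h1, h2⟩ := DfmC_mem.1 hw
  simp only [DfmC_apply, one_smul, zero_smul, add_zero] at h0 hκ hl hu hp h1 h2
  obtain ⟨-, rfl, rfl⟩ := h.toSys0.three
    (add_mem (Submodule.smul_mem _ (cos θ) hκ) (Submodule.smul_mem _ (sin θ * cos (2 * t)) hp.1))
    hl hu (by rw [← h0]; abel)
  rw [smul_zero, smul_eq_zero, or_iff_right e] at h2
  rw [smul_zero, add_zero, add_zero] at h1
  obtain rfl : κ = 0 := h.toSys0.tr' (s := 0) (by rwa [sub_zero]) hκ.1 h1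
  obtain rfl : p = 0 := by_contra fun hn => by
    have := h.rot_Gr.neg p hp hn
    rw [h2, map_zero] at this
    exact lt_irrefl _ this
  rfl

theorem DfmC_pt {ω : Bi H} {T : Submodule ℝ H} {V : ℝ → Submodule ℝ H} (h : Sys n k ω T V)
    {θ t t₀ ε : ℝ} (e : sin (2 * t₀) = 0) (hε : 0 < ε) {x : H} (hx : x ∈ dfm ω T V θ t)
    {Q R : H →L[ℝ] H} (hQ : (∀ a ∈ V t₀, Q a = a) ∧ ∀ b ∈ V (t₀ + π / 4), Q b = 0)
    (hR : (∀ a ∈ Sg V, R a = a) ∧ ∀ b ∈ Tp ω T V, R b = 0)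
    (e1 : ∀ a ∈ V t₀, ∀ c ∈ V (t₀ + π / 4), a + c ∈ V t →
      ‖c‖ ^ 2 ≤ ε * |ω a c| ∧ (t - t₀) * ω a c ≤ 0)
    (e2 : ∀ a ∈ VS ω T V t₀, ∀ c ∈ VS ω T V (t₀ + π / 4), a + c ∈ VS ω T V t →
      ‖c‖ ^ 2 ≤ ε * |ω a c| ∧ (t - t₀) * ω a c ≤ 0) :
    Q x ∈ V t₀ ∧ ‖x - Q x‖ ^ 2 ≤ ((1 + 2 * ‖R‖) ^ 2 + 4) * (ε * |ω (Q x) (x - Q x)|) := by
  obtain ⟨κ, hκ, l, hl, u, hu, p, hp, h1, h2, rfl⟩ := hx
  obtain ⟨j, hj⟩ := sin_eq_zero_iff.1 e
  have t1 : t₀ = j * (π / 2) := by linarith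
  have t2 : t₀ + π / 4 = π / 4 + j * (π / 2) := by linarith
  have t3 : sin (2 * (t₀ + π / 4 - t₀)) ≠ 0 := by
    rw [show 2 * (t₀ + π / 4 - t₀) = π / 2 by ring, sin_pi_div_two]
    exact one_ne_zero
  have t4 : cos (2 * t₀) * cos (2 * t₀) = 1 := by
    have := sin_sq_add_cos_sq (2 * t₀)
    rw [e] at this
    linarith
  have k0 : KK V 0 ≤ V t₀ := by
    have := h.toSys0.KK_le 0 j
    rwa [zero_add, ← t1] at this
  have k1 : KK V (π / 4) ≤ V (t₀ + π / 4) := t2 ▸ h.toSys0.KK_le (π / 4) j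
  obtain ⟨u₀, a0, u₁, a1, rfl⟩ := Submodule.mem_sup.1 ((h.toSys0.sup_eq t3).ge hu.1)
  obtain ⟨κ', b0, b1⟩ := h.split0 j (t1 ▸ a0)
  obtain ⟨l', b2, b3⟩ := h.split1 j (t2 ▸ a1)
  obtain ⟨rfl, rfl, -⟩ := h.toSys0.three b0 b2 (sub_mem (add_mem b1 b3) hu) (by abel)
  rw [sub_zero] at b1 b3
  have c0 : cos θ • κ + (sin θ * cos (2 * t)) • p.1 + u₀ ∈ V t₀ :=
    add_mem (add_mem (Submodule.smul_mem _ _ (k0 hκ)) (Submodule.smul_mem _ _ (k0 hp.1))) a0
  have c1 : l + u₁ ∈ V (t₀ + π / 4) := add_mem (k1 hl) a1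
  have c2 : cos θ • κ + (sin θ * cos (2 * t)) • p.1 + l + (u₀ + u₁) =
      cos θ • κ + (sin θ * cos (2 * t)) • p.1 + u₀ + (l + u₁) := by abel
  rw [c2, map_add, hQ.1 _ c0, hQ.2 _ c1, add_zero, add_sub_cancel_left]
  refine ⟨c0, ?_⟩
  have d0 : cos θ • l + u₁ ∈ V (t₀ + π / 4) := add_mem (Submodule.smul_mem _ _ (k1 hl)) a1
  have d1 : κ + u₀ + (cos θ • l + u₁) ∈ V t := by
    rwa [show κ + u₀ + (cos θ • l + u₁) = κ + cos θ • l + (u₀ + u₁) by abel]
  obtain ⟨f1, f2⟩ := e1 _ (add_mem (k0 hκ) a0) _ d0 d1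
  obtain ⟨f3, f4⟩ := e2 (cos (2 * t) • p.1)
    ⟨(cos (2 * t₀) * cos (2 * t)) • p, Submodule.smul_mem _ _ hp, by
      change evt t₀ _ = _
      rw [evt_apply, e, zero_smul, add_zero, Prod.smul_fst, smul_smul, ← mul_assoc, t4, one_mul]⟩
    (sin θ • l) ⟨(cos (2 * t₀) * sin (2 * t)) • p, Submodule.smul_mem _ _ hp, by
      change evt (t₀ + π / 4) _ = _
      rw [evt_apply, show 2 * (t₀ + π / 4) = 2 * t₀ + π / 2 by ring, cos_add_pi_div_two,
        sin_add_pi_div_two, e, neg_zero, zero_smul, zero_add, Prod.smul_snd, smul_smul, ← mul_assoc,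
        t4, one_mul, h2]⟩ ⟨p, hp, by
      change evt t _ = _
      rw [evt_apply, h2]⟩
  have g1 : ω (cos θ • κ + (sin θ * cos (2 * t)) • p.1 + u₀) (l + u₁) =
      ω (κ + u₀) (cos θ • l + u₁) + ω (cos (2 * t) • p.1) (sin θ • l) := by
    have z1 := b3.2 κ (Submodule.mem_sup_left hκ)
    have z2 := b3.2 p.1 (Submodule.mem_sup_left hp.1)
    have z3 : ω u₀ l = 0 := by rw [h.toSym.skew, b1.2 l (Submodule.mem_sup_right hl), neg_zero]
    simp only [map_add, map_smul, add_apply, smul_apply, smul_eq_mul, z1, z2, z3]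
    ring
  have g2 : ‖cos θ • l + u₁‖ ^ 2 + ‖sin θ • l‖ ^ 2 ≤
      ε * |ω (cos θ • κ + (sin θ * cos (2 * t)) • p.1 + u₀) (l + u₁)| := by
    rcases lt_trichotomy t t₀ with g | rfl | g
    · have z1 := nonneg_of_mul_nonpos_right f2 (sub_neg.2 g)
      have z2 := nonneg_of_mul_nonpos_right f4 (sub_neg.2 g)
      rw [abs_of_nonneg z1] at f1
      rw [abs_of_nonneg z2] at f3
      rw [g1, abs_of_nonneg (add_nonneg z1 z2)]
      linarith
    · have z1 : cos θ • l + u₁ = 0 := h.toSys0.tr' t3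
        (by simpa using sub_mem d1 (add_mem (k0 hκ) a0)) d0
      rw [z1, ← h2, e, zero_smul, norm_zero]
      have := mul_nonneg hε.le
        (abs_nonneg (ω (cos θ • κ + (sin θ * cos (2 * t)) • p.1 + u₀) (l + u₁)))
      linarith
    · have z1 := nonpos_of_mul_nonpos_right f2 (sub_pos.2 g)
      have z2 := nonpos_of_mul_nonpos_right f4 (sub_pos.2 g)
      rw [abs_of_nonpos z1] at f1
      rw [abs_of_nonpos z2] at f3
      rw [g1, abs_of_nonpos (add_nonpos z1 z2)]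
      linarith
  have g3 : ‖l‖ ≤ ‖R‖ * ‖cos θ • l + u₁‖ + ‖sin θ • l‖ := by
    have z1 : l = cos θ • R (cos θ • l + u₁) + sin θ • sin θ • l := by
      rw [map_add, map_smul, hR.1 l (Submodule.mem_sup_right hl), hR.2 _ b3, add_zero, smul_smul,
        smul_smul, ← add_smul, ← sq, ← sq, cos_sq_add_sin_sq, one_smul]
    refine (congrArg norm z1).trans_le ((norm_add_le _ _).trans (add_le_add ?_ ?_))
    · rw [norm_smul]
      exact (mul_le_of_le_one_left (norm_nonneg _) (abs_cos_le_one θ)).trans (R.le_opNorm _)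
    · rw [norm_smul]
      exact mul_le_of_le_one_left (norm_nonneg _) (abs_sin_le_one θ)
  have g4 : ‖l + u₁‖ ≤ ‖cos θ • l + u₁‖ + 2 * ‖l‖ := by
    rw [show l + u₁ = cos θ • l + u₁ + (1 - cos θ) • l by rw [sub_smul, one_smul]; abel]
    refine (norm_add_le _ _).trans (add_le_add le_rfl ?_)
    rw [norm_smul]
    refine mul_le_mul_of_nonneg_right (abs_le.2 ⟨?_, ?_⟩) (norm_nonneg _)
    · linarith [cos_le_one θ]
    · linarith [neg_one_le_cos θ]
  have g5 : ‖l + u₁‖ ≤ (1 + 2 * ‖R‖) * ‖cos θ • l + u₁‖ + 2 * ‖sin θ • l‖ := by linarith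
  refine (pow_le_pow_left₀ (norm_nonneg _) g5 2).trans
    (le_trans ?_ (mul_le_mul_of_nonneg_left g2 (by positivity)))
  nlinarith [sq_nonneg (2 * ‖cos θ • l + u₁‖ - (1 + 2 * ‖R‖) * ‖sin θ • l‖)]

theorem Fam0.cl_gen (F : Fam0 n k s ω T V) (hθ : ContinuousOn θ s) {y₀ : Y} (hy : y₀ ∈ s) {t₀ : ℝ}
    (e : sin (2 * t₀) ≠ 0) :
    Cl (fun q : Y × ℝ => dfm (ω q.1) (T q.1) (V q.1) (θ q.1) q.2) (s ×ˢ univ) (y₀, t₀) := by
  have m : MapsTo Prod.fst (s ×ˢ (univ : Set ℝ)) s := fun _ h => h.1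
  have c0 : ContinuousWithinAt Prod.fst (s ×ˢ (univ : Set ℝ)) (y₀, t₀) := continuousWithinAt_fst
  have c1 : ContinuousWithinAt (fun q : Y × ℝ => θ q.1) (s ×ˢ univ) (y₀, t₀) :=
    ContinuousWithinAt.comp (g := θ) (hθ y₀ hy) c0 m
  have c2 : ContinuousWithinAt (fun q : Y × ℝ => 2 * q.2) (s ×ˢ univ) (y₀, t₀) :=
    continuousWithinAt_const.mul continuousWithinAt_snd
  have c3 : ∀ r : ℝ, ContinuousWithinAt (fun _ : Y × ℝ => r) (s ×ˢ univ) (y₀, t₀) := fun _ =>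
    continuousWithinAt_const
  have d1 := continuous_cos.continuousAt.comp_continuousWithinAt c1
  have d2 := continuous_sin.continuousAt.comp_continuousWithinAt c1
  have d3 := continuous_cos.continuousAt.comp_continuousWithinAt c2
  have d4 := continuous_sin.continuousAt.comp_continuousWithinAt c2
  have h1 : Cl (fun q : Y × ℝ => DfmC_W (ω q.1) (T q.1) (V q.1) (θ q.1) q.2) (s ×ˢ univ) (y₀, t₀) :=
    (((Cl.comp (g := Prod.fst) ((F.cs_KK 0).cl hy) c0 m).prod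
      ((Cl.comp (g := Prod.fst) ((F.cs_KK (π / 4)).cl hy) c0 m).prod
        ((Cl.comp (g := Prod.fst) (F.cs_Tp.cl hy) c0 m).prod
          (Cl.comp (g := Prod.fst) (F.cl_Gr hy) c0 m)))).inf
      ((F.cV.cl ⟨hy, trivial⟩).comap (DfmC_cont (c3 1) d1 (c3 1) (c3 0) (c3 0)))).inf
      ((cl_const ⊥).comap (DfmC_cont (c3 0) d2.neg (c3 0) (c3 0) d4))
  simp only [DfmC_map]
  exact h1.map (DfmC_cont d1 (c3 1) (c3 1) (d2.mul d3) (c3 0)) fun w hw =>
    DfmC_inj (F.sys y₀ hy) e hw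

theorem Fam0.cl_half (F : Fam0 n k s ω T V) {y₀ : Y} (hy : y₀ ∈ s) {t₀ : ℝ}
    (e : sin (2 * t₀) = 0) :
    Cl (fun q : Y × ℝ => dfm (ω q.1) (T q.1) (V q.1) (θ q.1) q.2) (s ×ˢ univ) (y₀, t₀) := by
  have t3 : sin (2 * (t₀ + π / 4 - t₀)) ≠ 0 := by
    rw [show 2 * (t₀ + π / 4 - t₀) = π / 2 by ring, sin_pi_div_two]
    exact one_ne_zero
  have v0 : CS (fun y => V y t₀) s := F.cs_V (τ := fun _ => t₀) continuousOn_const
  obtain ⟨Q, cQ, hQ⟩ := CS.proj v0 (F.cs_V (τ := fun _ => t₀ + π / 4) continuousOn_const)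
    (F.cT.congr fun y hy => (F.sys y hy).toSys0.sup_eq t3)
    fun y hy u h1 h2 => (F.sys y hy).toSys0.tr' t3 h1 h2
  obtain ⟨R, cR, hR⟩ := CS.proj F.cs_Sg F.cs_Tp
    (F.cT.congr fun y hy => (F.sys y hy).toSys0.Sg_sup)
    fun y hy u h1 h2 => (F.sys y hy).toSys0.Sg_Tp h1 h2
  refine cl_iff_seq.2 fun q x x₀ h1 h2 h3 h4 => ?_
  change x₀ ∈ dfm (ω y₀) (T y₀) (V y₀) (θ y₀) t₀
  rw [(F.sys y₀ hy).dfm_half _ e]
  have l1 := CS_within h1 h3
  have l2 : Tendsto (fun i => (q i).1) atTop (𝓝 y₀) := (continuous_fst.tendsto _).comp h3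
  have l3 := CS_within (fun i => (h1 i).1) l2
  have l4 := CS_app ((cQ y₀ hy).tendsto.comp l3) h4
  have key : ∀ ε : ℝ, 0 < ε → ∀ᶠ i in atTop, Q (q i).1 (x i) ∈ V (q i).1 t₀ ∧
      ‖x i - Q (q i).1 (x i)‖ ^ 2 ≤ ((1 + 2 * ‖R (q i).1‖) ^ 2 + 4) *
        (ε * |ω (q i).1 (Q (q i).1 (x i)) (x i - Q (q i).1 (x i))|) := fun ε hε =>
    (l1.eventually ((F.est hy t₀ hε).and (F.fam_VS.est hy t₀ hε))).mono fun i hi =>
      DfmC_pt (F.sys _ (h1 i).1) e hε (h2 i) (hQ _ (h1 i).1) (hR _ (h1 i).1) hi.1 hi.2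
  have k1 : Q y₀ x₀ ∈ V y₀ t₀ :=
    CS_flt (v0.cl hy) ((key 1 one_pos).mono fun i hi => ⟨(h1 i).1, hi.1⟩) l2 l4
  have k2 : ∀ ε : ℝ, 0 < ε → ‖x₀ - Q y₀ x₀‖ ^ 2 ≤ ((1 + 2 * ‖R y₀‖) ^ 2 + 4) *
      (ε * |ω y₀ (Q y₀ x₀) (x₀ - Q y₀ x₀)|) := fun ε hε =>
    le_of_tendsto_of_tendsto ((h4.sub l4).norm.pow 2)
      (((((((cR y₀ hy).tendsto.comp l3).norm.const_mul 2).const_add 1).pow 2).add_const 4).mul
        ((CS_app (CS_app ((F.cω y₀ hy).tendsto.comp l3) l4) (h4.sub l4)).abs.const_mul ε))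
      ((key ε hε).mono fun i hi => hi.2)
  have k3 : ‖x₀ - Q y₀ x₀‖ ^ 2 ≤ 0 := by
    have z : Tendsto (fun ε : ℝ => ((1 + 2 * ‖R y₀‖) ^ 2 + 4) *
        (ε * |ω y₀ (Q y₀ x₀) (x₀ - Q y₀ x₀)|)) (𝓝[>] 0) (𝓝 0) :=
      tendsto_nhdsWithin_of_tendsto_nhds (Continuous.tendsto' (by fun_prop) _ _ (by simp))
    exact ge_of_tendsto z (eventually_mem_nhdsWithin.mono k2)
  rwa [← sub_eq_zero.1 (norm_eq_zero.1 (pow_eq_zero_iff two_ne_zero |>.1
    (le_antisymm k3 (sq_nonneg _))))] at k1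

theorem Fam0.dfm (F : Fam0 n k s ω T V) (hθ : ContinuousOn θ s) :
    Fam0 n k s ω T fun y => dfm (ω y) (T y) (V y) (θ y) :=
  ⟨fun y hy => (F.sys y hy).sys_dfm _, F.cω, F.cT, CS.of_cl (d := n)
    (fun q hq => (em (sin (2 * q.2) = 0)).elim (F.cl_half hq.1) (F.cl_gen hθ hq.1))
    fun q hq => (F.sys q.1 hq.1).dfm_dim _ _⟩

end Pool.Agent.Work.MP_8c604c_gt.OS
end
end

-- merged part: Pool.Agent.Work.MP_8c604c_gt.OS.Patch
section
/-!
Patching of the deformations along the phases.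
Plan. `stp_eq`: changing `τ` by a multiple of `π` does not change anything (`per_int`, `dfm_int`).  `Fam.step`: continuity is local (`ContinuousOn` at `(y, t)`): if `u y = 0` the new family equals the old one near `y`;
otherwise take a branch of the argument that is continuous on a neighbourhood `s ∩ O` of `y` in `s` (`arg u` on the preimage of the slit plane, `arg (-u) + π` otherwise), restrict the family (`Fam0.comp` with the identity),
shift it (`Fam0.shift`), deform it (`Fam0.dfm`) and shift back.  Invariance: the argument of `u (φ r y)` is `arg (u y) + 2 r` modulo `2 π`.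
`homotopy`: by compactness there is `c > 0` with `∀ y ∈ s, ∃ i, 2 c ≤ ‖z y i‖`.  Put `θ i (τ, y) = τ * (π/2) * χ ‖z y i‖` with `χ x = max 0 (min 1 (x / c - 1))`.  Induction on `j ≤ m + 1`: there is a family on
`Icc 0 1 ×ˢ s` that equals `V` at `τ = 0` and is standard at `(1, y)` if `2 c ≤ ‖z y i‖` for some `i < j`.
-/

set_option maxSynthPendingDepth 3
set_option linter.unusedSectionVars false

open Set Filter Topology Real Module
open scoped RealInnerProductSpace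

noncomputable section
namespace Pool.Agent.Work.MP_8c604c_gt.OS

variable {H : Type} [NormedAddCommGroup H] [InnerProductSpace ℝ H] [FiniteDimensional ℝ H]

/-- The deformation at the phase `u`. -/
def stp (ω : Bi H) (T : Submodule ℝ H) (V : ℝ → Submodule ℝ H) (u : ℂ) (θ t : ℝ) : Submodule ℝ H :=
  dfm ω T (fun x => V (x + -(u.arg / 2))) θ (t + u.arg / 2)

section
variable {n k : ℕ} {ω : Bi H} {T : Submodule ℝ H} {V : ℝ → Submodule ℝ H}

theorem Sys.stp_eq (h : Sys n k ω T V) {u : ℂ} {τ : ℝ} {j : ℤ} (e : u.arg = τ + j * (2 * π)) (θ t : ℝ) :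
    stp ω T V u θ t = dfm ω T (fun x => V (x + -(τ / 2))) θ (t + τ / 2) := by
  have e1 : (fun x => V (x + -(u.arg / 2))) = fun x => V (x + -(τ / 2)) := funext fun x => by
    rw [← h.per_int (x + -(u.arg / 2)) j, e]
    congr 1
    ring
  have e2 : t + u.arg / 2 = t + τ / 2 + j * π := by
    rw [e]
    ring
  rw [stp, e1, e2, (h.shift _).dfm_int]

theorem Sys.sys_stp (h : Sys n k ω T V) (u : ℂ) (θ : ℝ) : Sys n k ω T (stp ω T V u θ) :=
  ((h.shift (-(u.arg / 2))).sys_dfm θ).shift (u.arg / 2)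

theorem Sys.stp_zero (h : Sys n k ω T V) (u : ℂ) : stp ω T V u 0 = V := funext fun t => by
  rw [stp, (h.shift _).dfm_zero, add_neg_cancel_right]

theorem Sys.stp_of_std (h : Sys n k ω T V) (hs : Std ω T V) (u : ℂ) (θ : ℝ) :
    stp ω T V u θ = V := funext fun t => by
  rw [stp, (h.shift _).dfm_of_std (h.std_shift hs _), add_neg_cancel_right]

theorem Sys.std_stp (h : Sys n k ω T V) (u : ℂ) : Std ω T (stp ω T V u (π / 2)) :=
  ((h.shift (-(u.arg / 2))).sys_dfm (π / 2)).std_shift (h.shift _).std_dfm (u.arg / 2)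

end

variable {Y : Type} [MetricSpace Y] {s : Set Y} {n k m : ℕ} {ω : Y → Bi H} {T : Y → Submodule ℝ H}
  {V : Y → ℝ → Submodule ℝ H} {φ : ℝ → Y → Y}

theorem Patch_cV (F : Fam0 n k s ω T V) {u : Y → ℂ} {θ : Y → ℝ} (hu : ContinuousOn u s)
    (hθ : ContinuousOn θ s) (h0 : ∀ y ∈ s, u y = 0 → ∀ᶠ y' in 𝓝[s] y, θ y' = 0) :
    CS (fun p : Y × ℝ => stp (ω p.1) (T p.1) (V p.1) (u p.1) (θ p.1) p.2) (s ×ˢ univ) := by
  rintro ⟨y, t⟩ hp
  have hy : y ∈ s := hp.1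
  have hf : Tendsto (Prod.fst : Y × ℝ → Y) (𝓝[s ×ˢ univ] (y, t)) (𝓝[s] y) :=
    continuous_fst.continuousWithinAt.tendsto_nhdsWithin fun p hp => hp.1
  by_cases e : u y = 0
  · refine (F.cV _ hp).congr_of_eventuallyEq_of_mem ?_ hp
    filter_upwards [hf.eventually (h0 y hy e), self_mem_nhdsWithin] with q h1 h2
    refine congrArg (fun A : Submodule ℝ H => A.starProjection) ?_
    rw [h1, (F.sys _ h2.1).stp_zero]
  · let s' : Set Y := {y' | y' ∈ s ∧ u y' / u y ∈ Complex.slitPlane}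
    have hs : s' ⊆ s := fun _ h => h.1
    have hn : s' ∈ 𝓝[s] y := by
      have h1 : Tendsto (fun y' => u y' / u y) (𝓝[s] y) (𝓝 (u y / u y)) := (hu y hy).div_const _
      rw [div_self e] at h1
      filter_upwards [self_mem_nhdsWithin,
        h1.eventually (Complex.isOpen_slitPlane.mem_nhds Complex.one_mem_slitPlane)] with y' a b
      exact ⟨a, b⟩
    have hτ : ContinuousOn (fun y' => (u y' / u y).arg + (u y).arg) s' := fun y' h =>
      ((Complex.continuousAt_arg h.2).comp_continuousWithinAt (f := fun y' => u y' / u y)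
        (((hu y' h.1).mono hs).div_const _)).add continuousWithinAt_const
    have F1 := (((F.comp continuousOn_id hs).shift (hτ.div_const 2).neg).dfm (hθ.mono hs)).shift
      (hτ.div_const 2)
    have hm : s' ×ˢ (univ : Set ℝ) ∈ 𝓝[s ×ˢ univ] (y, t) := by
      filter_upwards [hf hn] with q hq using ⟨hq, trivial⟩
    refine ((F1.cV (y, t) (mem_of_mem_nhdsWithin hp hm)).mono_of_mem_nhdsWithin hm).congr_of_eventuallyEq_of_mem
      ?_ hp
    filter_upwards [hm] with q hq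
    obtain ⟨j, hj⟩ := Saw_mul (Complex.slitPlane_ne_zero hq.1.2) e
    rw [div_mul_cancel₀ _ e] at hj
    exact congrArg (fun A : Submodule ℝ H => A.starProjection) ((F.sys _ hq.1.1).stp_eq hj _ _)

theorem Fam.step (F : Fam n k s φ ω T V) (hm : ∀ r, MapsTo (φ r) s s) {u : Y → ℂ} {θ : Y → ℝ}
    (hu : ContinuousOn u s) (eu : ∀ r, ∀ y ∈ s, u (φ r y) = (Circle.exp (2 * r) : ℂ) * u y)
    (hθ : ContinuousOn θ s) (eθ : ∀ r, ∀ y ∈ s, θ (φ r y) = θ y)
    (h0 : ∀ y ∈ s, u y = 0 → ∀ᶠ y' in 𝓝[s] y, θ y' = 0) :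
    Fam n k s φ ω T fun y => stp (ω y) (T y) (V y) (u y) (θ y) := by
  refine ⟨⟨fun y hy => (F.sys y hy).sys_stp _ _, F.cω, F.cT, Patch_cV F.toFam0 hu hθ h0⟩, F.iω, F.iT,
    fun r y hy t => ?_⟩
  have h1 := F.sys _ (hm r hy)
  by_cases e : u y = 0
  · rw [eθ r y hy, (h0 y hy e).self_of_nhdsWithin hy, h1.stp_zero, (F.sys y hy).stp_zero, F.iV r y hy]
  · obtain ⟨j, hj⟩ := Saw_rot (2 * r) e
    have e1 : (fun x => V (φ r y) (x + -(((u y).arg + 2 * r) / 2))) = fun x => V y (x + -((u y).arg / 2)) :=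
      funext fun x => by
        rw [F.iV r y hy]
        congr 1
        ring
    have e2 : t + ((u y).arg + 2 * r) / 2 = t + r + (u y).arg / 2 := by ring
    have hj' : (u (φ r y)).arg = (u y).arg + 2 * r + j * (2 * π) := by
      rw [eu r y hy]
      exact hj
    rw [h1.stp_eq hj', e1, e2, F.iω r y hy, F.iT r y hy, eθ r y hy, stp]

theorem Flw.prod {z : Y → Fin (m + 1) → ℂ} (L : Flw s φ z) :
    Flw (Icc (0 : ℝ) 1 ×ˢ s) (fun r p => (p.1, φ r p.2)) fun p => z p.2 :=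
  ⟨isCompact_Icc.prod L.cpt, fun r _ hp => ⟨hp.1, L.mem r hp.2⟩,
    L.cz.comp continuous_snd.continuousOn fun _ hp => hp.2, fun p hp => L.ne p.2 hp.2,
    fun r p hp => L.eqv r p.2 hp.2⟩

theorem Patch_ind {z : Y → Fin (m + 1) → ℂ} (L : Flw s φ z) (F : Fam n k s φ ω T V) {c : ℝ} (hc : 0 < c)
    (I : Finset (Fin (m + 1))) : ∃ V' : ℝ × Y → ℝ → Submodule ℝ H,
      Fam n k (Icc (0 : ℝ) 1 ×ˢ s) (fun r p => (p.1, φ r p.2)) (fun p => ω p.2) (fun p => T p.2) V' ∧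
      (∀ y ∈ s, V' (0, y) = V y) ∧
      ∀ y ∈ s, (∃ i ∈ I, 2 * c ≤ ‖z y i‖) → Std (ω y) (T y) (V' (1, y)) := by
  induction I using Finset.induction_on with
  | empty =>
    exact ⟨fun p => V p.2, ⟨F.toFam0.comp continuous_snd.continuousOn fun _ hp => hp.2,
      fun r p hp => F.iω r p.2 hp.2, fun r p hp => F.iT r p.2 hp.2, fun r p hp => F.iV r p.2 hp.2⟩,
      fun _ _ => rfl, fun _ _ ⟨_, h, _⟩ => absurd h (Finset.notMem_empty _)⟩
  | insert i I _ ih =>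
    obtain ⟨V', F', h0, h1⟩ := ih
    have L' := L.prod
    have hu : ContinuousOn (fun p : ℝ × Y => z p.2 i) (Icc (0 : ℝ) 1 ×ˢ s) := continuousOn_pi.1 L'.cz i
    have eu : ∀ r, ∀ p ∈ Icc (0 : ℝ) 1 ×ˢ s, z (φ r p.2) i = (Circle.exp (2 * r) : ℂ) * z p.2 i :=
      fun r p hp => congrFun (L.eqv r p.2 hp.2) i
    refine ⟨_, F'.step L'.mem (u := fun p => z p.2 i)
      (θ := fun p => p.1 * (π / 2) * max 0 (min 1 (‖z p.2 i‖ / c - 1))) hu eu ?_ ?_ ?_, ?_, ?_⟩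
    · exact (continuous_fst.continuousOn.mul continuousOn_const).mul (continuousOn_const.sup
        (continuousOn_const.inf ((hu.norm.div_const c).sub continuousOn_const)))
    · intro r p hp
      simp only [eu r p hp, norm_mul, Circle.norm_coe, one_mul]
    · intro p hp e
      have h2 : Tendsto (fun q : ℝ × Y => ‖z q.2 i‖) (𝓝[Icc (0 : ℝ) 1 ×ˢ s] p) (𝓝 ‖z p.2 i‖) :=
        (hu p hp).norm
      rw [e, norm_zero] at h2
      filter_upwards [h2.eventually (gt_mem_nhds hc)] with q hq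
      have : ‖z q.2 i‖ / c - 1 ≤ 0 := sub_nonpos.2 ((div_le_one hc).2 hq.le)
      rw [max_eq_left ((min_le_right _ _).trans this), mul_zero]
    · intro y hy
      simp only [zero_mul]
      rw [(F'.sys (0, y) ⟨left_mem_Icc.2 zero_le_one, hy⟩).stp_zero, h0 y hy]
    · rintro y hy ⟨i', hi', h2⟩
      have h3 := F'.sys (1, y) ⟨right_mem_Icc.2 zero_le_one, hy⟩
      rcases Finset.mem_insert.1 hi' with rfl | hi'
      · have : 1 ≤ ‖z y i'‖ / c - 1 := le_sub_iff_add_le.2 ((le_div_iff₀ hc).2 (by linarith))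
        simp only [min_eq_left this, max_eq_right zero_le_one, one_mul, mul_one]
        exact h3.std_stp _
      · have h4 := h1 y hy ⟨i', hi', h2⟩
        exact (h3.stp_of_std h4 _ _).symm ▸ h4

theorem Fam.homotopy {z : Y → Fin (m + 1) → ℂ} (L : Flw s φ z) (F : Fam n k s φ ω T V) :
    ∃ V' : ℝ × Y → ℝ → Submodule ℝ H,
      Fam n k (Icc (0 : ℝ) 1 ×ˢ s) (fun r p => (p.1, φ r p.2)) (fun p => ω p.2) (fun p => T p.2) V' ∧
      (∀ y ∈ s, V' (0, y) = V y) ∧ ∀ y ∈ s, Std (ω y) (T y) (V' (1, y)) := by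
  obtain ⟨c, hc, h⟩ := L.cpt.exists_forall_le' (f := fun y => ‖z y‖) (a := 0) L.cz.norm
    fun y hy => norm_pos_iff.2 (L.ne y hy)
  obtain ⟨V', F', h0, h1⟩ := Patch_ind L F (half_pos hc) Finset.univ
  refine ⟨V', F', h0, fun y hy => h1 y hy ?_⟩
  by_contra! h2
  refine ((pi_norm_lt_iff hc).2 fun i => ?_).not_ge (h y hy)
  linarith [h2 i (Finset.mem_univ i)]

end Pool.Agent.Work.MP_8c604c_gt.OS
end
end
end

-- merged part: Pool.Agent.Work.MP_8c604c_gt.OS.PreS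
section
/-!
The data for a standard family.
Plan. Take `K, R, Λ` from `exists_KD` and `P, G, R'` from `exists_PD` for the family `fam_VP`; conjugate `P` by `e' : EuclideanSpace ℝ (Fin N') ≃L[ℝ] WW (Te m) H`.
`h1 y a = toLp (Λ a)`: its forces are `‖z i‖ ^ 2 • evt (tm1 z b) p`, with sum zero (`evt_half`: the teeth `k` and `k + 2` cancel), so `frc0_eq` and `Rot.neg1` apply.
`h2 (y, ζ) ((a₁, a₂), v) = toLp (fun b => (c b).re • Λ a₁ b - (c b).im • Λ a₂ b) + G (e' v)` with `c b = exp (b.2 π/4 I) * conj (ζ b.1) = ‖ζ b.1‖ exp (tm2 ζ b I)` (`exp_tm2`, `tm1_sq`, `evt_int`).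
The forces are `f + f'` with `f b ∈ Sg V`, `f' b ∈ Tp`, so the cross terms of `qf` vanish; `Rot.neg2` and the last property of `exists_PD`.
-/

set_option maxSynthPendingDepth 3
set_option linter.unusedSectionVars false

open Set Filter Topology Real Module
open scoped RealInnerProductSpace

noncomputable section
namespace Pool.Agent.Work.MP_8c604c_gt.OS

variable {H : Type} [NormedAddCommGroup H] [InnerProductSpace ℝ H] [FiniteDimensional ℝ H]
  {Y : Type} [MetricSpace Y] {s : Set Y} {n k : ℕ} {ω : Y → Bi H} {T : Y → Submodule ℝ H}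
  {V : Y → ℝ → Submodule ℝ H}
  {m : ℕ} {φ : ℝ → Y → Y} {z : Y → Fin (m + 1) → ℂ}

/-- The phase of a tooth of the second level. -/
def PreS_c (ζ : Fin (m + 1) → ℂ) (b : Te m) : ℂ :=
  Complex.exp (((b.2 : ℕ) * (π / 4) : ℝ) * Complex.I) * (starRingEnd ℂ) (ζ b.1)

theorem PreS_re (ζ : Fin (m + 1) → ℂ) (b : Te m) : (PreS_c ζ b).re = ‖ζ b.1‖ * cos (tm2 ζ b) := by
  rw [PreS_c, ← exp_tm2, Complex.re_ofReal_mul, Complex.exp_ofReal_mul_I_re]

theorem PreS_im (ζ : Fin (m + 1) → ℂ) (b : Te m) : (PreS_c ζ b).im = ‖ζ b.1‖ * sin (tm2 ζ b) := by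
  rw [PreS_c, ← exp_tm2, Complex.im_ofReal_mul, Complex.exp_ofReal_mul_I_im]

theorem PreS_flow (ζ : Fin (m + 1) → ℂ) (r : ℝ) (b : Te m) :
    PreS_c ((Circle.exp r : ℂ) • ζ) b = PreS_c ζ b * (starRingEnd ℂ) (Circle.exp r : ℂ) := by
  rw [PreS_c, PreS_c, Pi.smul_apply, smul_eq_mul, map_mul]
  ring

theorem PreS_cc (b : Te m) : Continuous fun ζ : Fin (m + 1) → ℂ => PreS_c ζ b :=
  continuous_const.mul (Complex.continuous_conj.comp (continuous_apply b.1))

theorem PreS_sum {W τ : Fin (m + 1) → ℝ} {t : Te m → ℝ}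
    (ht : ∀ a, t a = τ a.1 + (a.2 : ℕ) * (π / 4)) (p : H × H) :
    ∑ b : Te m, W b.1 • evt (t b) p = 0 := by
  rw [Fintype.sum_prod_type]
  refine Finset.sum_eq_zero fun i _ => ?_
  have e2 : t (i, 2) = t (i, 0) + π / 2 := by
    rw [ht, ht, show (((i, 2) : Te m).2 : ℕ) = 2 from rfl, show (((i, 0) : Te m).2 : ℕ) = 0 from rfl]
    push_cast
    ring
  have e3 : t (i, 3) = t (i, 1) + π / 2 := by
    rw [ht, ht, show (((i, 3) : Te m).2 : ℕ) = 3 from rfl, show (((i, 1) : Te m).2 : ℕ) = 1 from rfl]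
    push_cast
    ring
  rw [Fin.sum_univ_four, e2, e3, evt_half, evt_half, smul_neg, smul_neg]
  abel

theorem PreS_qf {ι : Type} [Fintype ι] {ω : Bi H} (c : ℝ → ℝ) (t : ι → ℝ) {f f' : ι → H}
    (h : ∀ a b, ω (f a) (f' b) = 0) (h' : ∀ a b, ω (f' a) (f b) = 0) :
    qf c ω t (f + f') (f + f') = qf c ω t f f + qf c ω t f' f' := by
  simp only [qf, Pi.add_apply, map_add, add_apply, h, h', add_zero, zero_add, mul_add,
    Finset.sum_add_distrib]

theorem PreS_qf0 {ι : Type} [Fintype ι] {ω : Bi H} (c : ℝ → ℝ) (t : ι → ℝ) {f : ι → H}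
    (h : ∀ a, f a = 0) : qf c ω t f f = 0 := by
  simp only [qf, h, map_zero, mul_zero, Finset.sum_const_zero]

section
variable {A A' : Type} [NormedAddCommGroup A] [NormedSpace ℝ A] [NormedAddCommGroup A']
  [NormedSpace ℝ A']

/-- The coefficients of the first level. -/
def PreS_h1 (Λ : A →L[ℝ] Te m → H) : A →L[ℝ] WW (Te m) H :=
  (PiLp.continuousLinearEquiv 2 ℝ fun _ : Te m => H).symm.toContinuousLinearMap.comp Λ

theorem PreS_h1_apply (Λ : A →L[ℝ] Te m → H) (a : A) (b : Te m) : PreS_h1 Λ a b = Λ a b := rfl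

/-- The coefficients of the second level. -/
def PreS_h2 (Λ : A →L[ℝ] Te m → H) (ζ : Fin (m + 1) → ℂ) (G : A' →L[ℝ] WW (Te m) H) :
    (A × A) × A' →L[ℝ] WW (Te m) H :=
  PreS_h1 (ContinuousLinearMap.pi fun b =>
    (PreS_c ζ b).re • ((ContinuousLinearMap.proj b).comp (Λ.comp
      ((ContinuousLinearMap.fst ℝ A A).comp (ContinuousLinearMap.fst ℝ (A × A) A')))) -
    (PreS_c ζ b).im • ((ContinuousLinearMap.proj b).comp (Λ.comp
      ((ContinuousLinearMap.snd ℝ A A).comp (ContinuousLinearMap.fst ℝ (A × A) A'))))) +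
  G.comp (ContinuousLinearMap.snd ℝ (A × A) A')

theorem PreS_h2_apply (Λ : A →L[ℝ] Te m → H) (ζ : Fin (m + 1) → ℂ) (G : A' →L[ℝ] WW (Te m) H)
    (v : (A × A) × A') (b : Te m) :
    PreS_h2 Λ ζ G v b = (PreS_c ζ b).re • Λ v.1.1 b - (PreS_c ζ b).im • Λ v.1.2 b + G v.2 b := rfl

theorem PreS_h2_cont [FiniteDimensional ℝ A] [FiniteDimensional ℝ A'] (Λ : A →L[ℝ] Te m → H)
    {X : Type} [TopologicalSpace X] {S : Set X} {ζ : X → Fin (m + 1) → ℂ} (hζ : ContinuousOn ζ S)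
    {G : X → A' →L[ℝ] WW (Te m) H} (hG : ContinuousOn G S) :
    ContinuousOn (fun x => PreS_h2 Λ (ζ x) (G x)) S := by
  refine continuousOn_clm_apply.2 fun v => ?_
  let E := PiLp.continuousLinearEquiv 2 ℝ fun _ : Te m => H
  refine (E.comp_continuousOn_iff (f := fun x => PreS_h2 Λ (ζ x) (G x) v)).1
    (continuousOn_pi.2 fun b => ?_)
  have h1 : ContinuousOn (fun x => PreS_c (ζ x) b) S := (PreS_cc b).comp_continuousOn hζ
  have h2 : ContinuousOn (fun x => G x v.2 b) S :=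
    continuousOn_pi.1 (E.continuous.comp_continuousOn (continuousOn_clm_apply.1 hG v.2)) b
  exact (((Complex.continuous_re.comp_continuousOn h1).smul continuousOn_const).sub
    ((Complex.continuous_im.comp_continuousOn h1).smul continuousOn_const)).add h2

theorem PreS_h2_flow (Λ : A →L[ℝ] Te m → H) (ζ : Fin (m + 1) → ℂ) (G : A' →L[ℝ] WW (Te m) H)
    (r : ℝ) (v : A × A) (a : A') :
    PreS_h2 Λ ((Circle.exp r : ℂ) • ζ) G (rt r v, a) = PreS_h2 Λ ζ G (v, a) := by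
  ext b
  rw [PreS_h2_apply, PreS_h2_apply, PreS_flow]
  have e := sin_sq_add_cos_sq r
  simp only [rt, map_sub, map_add, map_smul, Pi.sub_apply, Pi.add_apply, Pi.smul_apply,
    Complex.mul_re, Complex.mul_im, Complex.conj_re, Complex.conj_im, Circle.coe_exp,
    Complex.exp_ofReal_mul_I_re, Complex.exp_ofReal_mul_I_im]
  match_scalars
  · linear_combination (PreS_c ζ b).re * e
  · linear_combination -(PreS_c ζ b).im * e
  · rfl

end

theorem PreS_rank {A W : Type} [NormedAddCommGroup A] [NormedSpace ℝ A] [NormedAddCommGroup W]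
    [NormedSpace ℝ W] (e : A ≃L[ℝ] W) (P : W →L[ℝ] W) :
    finrank ℝ (LinearMap.range ((e.symm.toContinuousLinearMap.comp
      (P.comp e.toContinuousLinearMap) : A →L[ℝ] A) : A →ₗ[ℝ] A)) =
      finrank ℝ (LinearMap.range P.toLinearMap) := by
  rw [← e.symm.toLinearEquiv.finrank_map_eq]
  refine congrArg (fun U : Submodule ℝ A => finrank ℝ U) (Submodule.ext fun x => ⟨?_, ?_⟩)
  · rintro ⟨a, rfl⟩
    exact ⟨_, ⟨e a, rfl⟩, rfl⟩
  · rintro ⟨_, ⟨w, rfl⟩, rfl⟩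
    refine ⟨e.symm w, ?_⟩
    change e.symm (P (e (e.symm w))) = e.symm (P w)
    rw [e.apply_symm_apply]

theorem PreS_neg1 {ω : Bi H} {T : Submodule ℝ H} {V : ℝ → Submodule ℝ H} (h : Sys n k ω T V)
    (hs : Std ω T V) {z : Fin (m + 1) → ℂ} (hz : z ≠ 0) {p : H × H} (hp : p ∈ Sec V) (hn : p ≠ 0)
    {x : WW (Te m) H} (hx : ∀ b, x b = wt z b • evt (tm1 z b) p) :
    qf saw ω (tm1 z) (frc0 V (wt z) (tm1 z) x) (frc0 V (wt z) (tm1 z) x) < 0 := by
  have hf : ∀ b, frc V (wt z) (tm1 z) x b = (‖z b.1‖ * ‖z b.1‖) • evt (tm1 z b) p := fun b => by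
    rw [frc_apply, hx, Submodule.starProjection_eq_self_iff.2
      (Submodule.smul_mem _ _ (mem_Sec.1 hp _)), smul_smul]
    rfl
  have ht : ∀ a : Te m, tm1 z a = (fun i => -(z i).arg / 2) a.1 + (a.2 : ℕ) * (π / 4) :=
    fun _ => rfl
  have h0 : ∑ b, frc V (wt z) (tm1 z) x b = 0 := by
    simp only [hf]
    exact PreS_sum (W := fun i => ‖z i‖ * ‖z i‖) (τ := fun i => -(z i).arg / 2) ht p
  rw [frc0_eq h0]
  obtain ⟨i, hi⟩ := Function.ne_iff.1 hz
  have hi' : ‖z i‖ ≠ 0 := norm_ne_zero_iff.2 hi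
  exact (h.rot_Sec hs).neg1 (W := fun i => ‖z i‖ * ‖z i‖) (s := fun i => -(z i).arg / 2)
    (fun _ => by positivity) (Function.ne_iff.2 ⟨i, mul_ne_zero hi' hi'⟩) ht hp hn hf

theorem PreS_neg2 {ω : Bi H} {T : Submodule ℝ H} {V : ℝ → Submodule ℝ H} (h : Sys n k ω T V)
    (hs : Std ω T V) {ζ : Fin (m + 1) → ℂ} (hz : ζ * ζ ≠ 0) {p q : H × H} (hp : p ∈ Sec V)
    (hq : q ∈ Sec V) {g : Te m → H} (hg : ∀ b, g b ∈ VP ω T V (tm2 ζ b))
    (hn : ((p ≠ 0 ∨ q ≠ 0) ∧ ∀ b, g b = 0) ∨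
      qf sgp ω (tm2 ζ) (fun b => wt (ζ * ζ) b • g b) (fun b => wt (ζ * ζ) b • g b) < 0)
    {x : WW (Te m) H} (hx : ∀ b, x b = (PreS_c ζ b).re • wt (ζ * ζ) b • evt (tm1 (ζ * ζ) b) p -
      (PreS_c ζ b).im • wt (ζ * ζ) b • evt (tm1 (ζ * ζ) b) q + g b) :
    qf sgp ω (tm2 ζ) (frc V (wt (ζ * ζ)) (tm2 ζ) x) (frc V (wt (ζ * ζ)) (tm2 ζ) x) < 0 := by
  let W : Fin (m + 1) → ℝ := fun i => ‖(ζ * ζ) i‖ * (‖ζ i‖ * ‖(ζ * ζ) i‖)
  let f : Te m → H := fun b =>
    W b.1 • (cos (tm2 ζ b) • evt (tm2 ζ b) p - sin (tm2 ζ b) • evt (tm2 ζ b) q)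
  let f' : Te m → H := fun b => wt (ζ * ζ) b • g b
  have he : ∀ b (u : H × H), evt (tm1 (ζ * ζ) b) u = evt (tm2 ζ b) u := fun b u => by
    obtain ⟨j, hj⟩ := tm1_sq ζ b
    rw [hj, evt_int]
  have hf : frc V (wt (ζ * ζ)) (tm2 ζ) x = f + f' := by
    funext b
    have hm : x b ∈ V (tm2 ζ b) := by
      rw [hx, he, he]
      exact add_mem (sub_mem
        (Submodule.smul_mem _ _ (Submodule.smul_mem _ _ (mem_Sec.1 hp _)))
        (Submodule.smul_mem _ _ (Submodule.smul_mem _ _ (mem_Sec.1 hq _)))) (hg b).1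
    rw [frc_apply, Submodule.starProjection_eq_self_iff.2 hm, hx, he, he, PreS_re, PreS_im]
    simp only [Pi.add_apply, f, f', W, wt]
    module
  have m1 : ∀ b, f b ∈ Sg V := fun b => Submodule.smul_mem _ _ (sub_mem
    (Submodule.smul_mem _ _ (h.evt_mem_Sg hp _)) (Submodule.smul_mem _ _ (h.evt_mem_Sg hq _)))
  have m2 : ∀ b, f' b ∈ Tp ω T V := fun b => Submodule.smul_mem _ _ (hg b).2
  have c1 : ∀ a b, ω (f a) (f' b) = 0 := fun a b => (m2 b).2 _ (m1 a)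
  have c2 : ∀ a b, ω (f' a) (f b) = 0 := fun a b => by rw [h.toSym.skew, c1, neg_zero]
  rw [hf, PreS_qf _ _ c1 c2]
  have k1 : p ≠ 0 ∨ q ≠ 0 → qf sgp ω (tm2 ζ) f f < 0 := fun hn => by
    obtain ⟨i, hi⟩ := Function.ne_iff.1 hz
    have hi' : ‖(ζ * ζ) i‖ ≠ 0 := norm_ne_zero_iff.2 hi
    have hi'' : ‖ζ i‖ ≠ 0 := norm_ne_zero_iff.2 (left_ne_zero_of_mul hi)
    exact (h.rot_Sec hs).neg2 (W := W) (s := fun i => -(ζ i).arg) (fun _ => by positivity)
      (Function.ne_iff.2 ⟨i, mul_ne_zero hi' (mul_ne_zero hi'' hi')⟩) (fun _ => rfl) hp hq hn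
      fun _ => rfl
  rcases hn with ⟨h1, h2⟩ | hn
  · rw [PreS_qf0 (f := f') _ _ fun b => by simp only [f', h2, smul_zero], add_zero]
    exact k1 h1
  · refine add_neg_of_nonpos_of_neg ?_ hn
    by_cases h1 : p ≠ 0 ∨ q ≠ 0
    · exact (k1 h1).le
    · obtain ⟨rfl, rfl⟩ : p = 0 ∧ q = 0 := by simpa only [not_or, not_not] using h1
      exact (PreS_qf0 _ _ fun b => by simp only [f, map_zero, smul_zero, sub_zero]).le

theorem Fam.pre_std (F : Fam n k s φ ω T V) (L : Flw s φ z) (hs : ∀ y ∈ s, Std (ω y) (T y) (V y)) :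
    ∃ N N' : ℕ, Nonempty (Pre n k s φ z ω V (EuclideanSpace ℝ (Fin N)) (EuclideanSpace ℝ (Fin N'))) := by
  obtain ⟨N, K, R, Λ, cK, idK, syK, rkK, invK, cR, memR, injR, hΛ⟩ := F.exists_KD L hs
  obtain ⟨P, G, R', cP, idP, rkP, invP, cR', memR', injR', cG, invG, memG, negG⟩ :=
    (F.fam_VP hs).exists_PD L
  let N' := finrank ℝ (WW (Te m) H)
  let e : EuclideanSpace ℝ (Fin N') ≃L[ℝ] WW (Te m) H :=
    ContinuousLinearEquiv.ofFinrankEq finrank_euclideanSpace_fin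
  have hP : ∀ p a, e.symm.toContinuousLinearMap.comp ((P p).comp e.toContinuousLinearMap) a = a →
      P p (e a) = e a := fun p a ha => by
    rw [← e.apply_symm_apply (P p (e a))]
    exact congrArg e ha
  refine ⟨N, N', ⟨{
    K := K
    cK := cK
    idK := idK
    syK := syK
    rkK := rkK
    invK := invK
    R := R
    cR := cR
    memR := memR
    injR := injR
    h1 := fun _ => PreS_h1 Λ
    ch1 := continuousOn_const
    invh1 := fun _ _ _ => rfl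
    neg1 := fun y hy a ha h0 => ?_
    P := fun p => e.symm.toContinuousLinearMap.comp ((P p).comp e.toContinuousLinearMap)
    cP := continuousOn_const.clm_comp (cP.clm_comp continuousOn_const)
    idP := fun p hp a => ?_
    rkP := fun p hp => ?_
    invP := fun r p hp => by simp only [invP r p hp]
    R' := fun p => (R' p).comp e.toContinuousLinearMap
    cR' := cR'.clm_comp continuousOn_const
    memR' := fun p hp a _ => (memR' p hp (e a)).1
    injR' := fun p hp a ha h => ?_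
    h2 := fun p => PreS_h2 Λ p.2 ((G p).comp e.toContinuousLinearMap)
    ch2 := PreS_h2_cont Λ continuousOn_snd (cG.clm_comp continuousOn_const)
    invh2 := fun r p hp v a => ?_
    neg2 := fun p hp v h1 h2 h3 h0 => ?_ }⟩⟩
  · obtain ⟨p, hp, hn, hx⟩ := hΛ y hy a ha
    exact PreS_neg1 (F.sys y hy) (hs y hy) (L.ne y hy) hp (mt hn h0) hx
  · change e.symm (P p (e (e.symm (P p (e a))))) = e.symm (P p (e a))
    rw [e.apply_symm_apply, idP p hp]
  · rw [PreS_rank, rkP p hp, Nat.sub_add_cancel (F.sys _ hp.1).le_n]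
  · exact e.map_eq_zero_iff.1 (injR' p hp _ (hP p a ha)
      ((F.sys _ hp.1).toSys0.Sg_Tp (Submodule.mem_sup_left h) (memR' p hp (e a)).2))
  · simp only [invG r p hp]
    exact PreS_h2_flow Λ p.2 _ r v a
  · obtain ⟨p1, hp1, hn1, hx1⟩ := hΛ _ hp.1 _ h1
    obtain ⟨p2, hp2, hn2, hx2⟩ := hΛ _ hp.1 _ h2
    have hz := L.ne _ hp.1
    have hg := negG p hp _ (hP p _ h3)
    rw [← hp.2] at hx1 hx2 hz hg ⊢
    refine PreS_neg2 (F.sys _ hp.1) (hs _ hp.1) hz hp1 hp2 (memG p hp (e v.2)) ?_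
      fun b => by rw [PreS_h2_apply, hx1, hx2]; rfl
    by_cases h4 : v.2 = 0
    · refine Or.inl ⟨by_contra fun h5 => h0 ?_, fun b => by rw [h4, map_zero, map_zero]; rfl⟩
      rw [not_or, not_not, not_not] at h5
      exact Prod.ext (Prod.ext (hn1 h5.1) (hn2 h5.2)) h4
    · exact Or.inr (hg (mt e.map_eq_zero_iff.1 h4))

end Pool.Agent.Work.MP_8c604c_gt.OS
end
end
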