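import Pool.Agent.Work.MP_8c604c_gt.O.KS
import Pool.Agent.Work.MP_8c604c_gt.OB.Lp
import Pool.Agent.Work.MP_8c604c_gt.OS.Pol
import Pool.Agent.Work.MP_8c604c_gt.OS.Ev
import Pool.Agent.Work.MP_8c604c_gt.OS.Saw
import Pool.Agent.Work.MP_8c604c_gt.OS.PreS

-- merged part: Pool.Agent.Work.MP_8c604c_gt.OS.Brk
section
/-!
Broken Jacobi fields along the double cover of a closed geodesic.
Plan. `var_right`: `s ↦ PP s x δ` is differentiable (`contDiffOn_PP`); product rule within `Ici t`; identify the value with `var` for the affine field `η t + (s - t) • η'`.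
`brk_cont`: `cont_coef` with `s = univ` (the field `JJ s x δ` vanishes at `t a + j π`, `JJ_add_pi`).  `brk_deriv`: `saw_deriv`, `sgp_deriv`, `hasDerivAt_JJ`; the slopes add up to `-(1/π) • JJ s x (∑ δ₁) = 0`.
`brk_int`: `D2` is bilinear; for one tooth put `p s = PP s x δ (ξ s)`, continuous, of period `2 π`, with bounded measurable right derivative `p'`.  Move the interval to `[t a, t a + 2π]` (`Function.Periodic.intervalIntegral_add_eq`), cut it at
`t a + π`, and use `intervalIntegral.integral_eq_sub_of_hasDeriv_right` for `(1/2 - (s - t a)/π) * p s`:  `∫ saw (s - t a) p' = -p (t a) - p (t a + π) + (1/π) ∫ p` and `∫ sgp (s - t a) p' = p (t a + π) - p (t a)`.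
The terms `∫ p` add up to zero.  At these times `p = om x δ η` with `η = ∑ (saw • δ₁ + sgp • δ₂)` (`om_inv`); use `saw_add_pi`, `sgp_add_pi`, and `saw_neg`, `sgp_neg` (if `sin (t b - t a) = 0` the form `om` vanishes, `idx_lag`).
`tr1`, `tr2`: `idx_pos1`, `idx_pos2` at `s = 0`, `saw_neg`, `sgp_neg`, `iso'`.
-/

set_option maxSynthPendingDepth 3
set_option linter.unusedSectionVars false

open Set Filter Topology MeasureTheory
open scoped ContDiff

noncomputable section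
namespace Pool.Agent.Work.MP_8c604c_gt.O

open OT OS Real
open T (RN cs)

variable {E : Type} [NormedAddCommGroup E] [InnerProductSpace ℝ E] [FiniteDimensional ℝ E] {d : ℕ}
  {μ : Model E d} {g : Met E} {G : Geo μ g} {m : ℕ}

theorem Brk_sub {c : ℝ → ℝ} {c' s τ : ℝ} (h : HasDerivWithinAt c c' (Ici (s - τ)) (s - τ)) :
    HasDerivWithinAt (fun y => c (y - τ)) c' (Ici s) s :=
  (h.comp s (h := fun y => y - τ) ((hasDerivAt_id s).sub_const τ).hasDerivWithinAt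
    fun _ hy => sub_le_sub_right hy τ).congr_deriv (mul_one _)

theorem Brk_ii {c f : ℝ → ℝ} (hm : Measurable c) (hb : ∀ s, |c s| ≤ 1 / 2) (τ : ℝ) {a b : ℝ}
    (hf : IntervalIntegrable f volume a b) : IntervalIntegrable (fun s => c (s - τ) * f s) volume a b :=
  ⟨hf.1.bdd_mul (hm.comp (measurable_id.sub_const τ)).aestronglyMeasurable
    (Eventually.of_forall fun _ => hb _), hf.2.bdd_mul
    (hm.comp (measurable_id.sub_const τ)).aestronglyMeasurable (Eventually.of_forall fun _ => hb _)⟩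

theorem Brk_sh (s τ : ℝ) : saw2 (s - τ + π) = saw2 (s - (τ + π)) := by
  rw [← Saw_two (s - (τ + π))]
  congr 1
  ring

section one
variable {p p' : ℝ → ℝ} (hc : Continuous p) (hp : Function.Periodic p (2 * π))
  (hd : ∀ s, HasDerivWithinAt p (p' s) (Ici s) s) (hi : ∀ a b, IntervalIntegrable p' volume a b)
include hc hp hd hi

theorem Brk_one (τ : ℝ) : IntervalIntegrable (fun s => saw2 (s - τ) * p' s) volume 0 (2 * π) ∧
    ∫ s in (0 : ℝ)..2 * π, saw2 (s - τ) * p' s = (∫ s in (0 : ℝ)..2 * π, p s) / (2 * π) - p τ := by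
  have k0 : ∀ a b, IntervalIntegrable (fun s => saw2 (s - τ) * p' s) volume a b := fun a b =>
    Brk_ii (c := saw2) (measurable_saw.comp (measurable_id.div_const 2)) (fun _ => abs_saw_le _) τ (hi a b)
  have k1 : Function.Periodic p' (2 * π) := fun s => by
    have h1 := Brk_sub (τ := -(2 * π)) (s := s) (hd _)
    simp only [sub_neg_eq_add, hp _] at h1
    exact (uniqueDiffWithinAt_Ici s).eq_deriv _ h1 (hd s)
  have k2 : Function.Periodic (fun s => saw2 (s - τ) * p' s) (2 * π) := fun s => by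
    have h1 := saw2_int (s - τ) 1
    rw [Int.cast_one, one_mul] at h1
    simp only [k1 s, add_sub_right_comm, h1]
  have k3 := k2.intervalIntegral_add_eq 0 τ
  have k4 := hp.intervalIntegral_add_eq 0 τ
  rw [zero_add] at k3 k4
  have k5 := intervalIntegral.integral_eq_sub_of_hasDeriv_right_of_le (a := τ) (b := τ + 2 * π)
    (f := fun s => (1 / 2 - (s - τ) / (2 * π)) * p s)
    (f' := fun s => saw2 (s - τ) * p' s - p s / (2 * π)) (by linarith [pi_pos]) (by fun_prop)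
    (fun s hs => ?_) ((k0 _ _).sub ((hc.div_const _).intervalIntegrable _ _))
  · rw [intervalIntegral.integral_sub (k0 _ _) ((hc.div_const _).intervalIntegrable _ _),
      intervalIntegral.integral_div, ← k3, ← k4, hp τ, add_sub_cancel_left, div_self two_pi_pos.ne',
      sub_self, zero_div] at k5
    exact ⟨k0 _ _, by linarith⟩
  · refine (((((hasDerivAt_id s).sub_const τ).div_const (2 * π)).const_sub
      (1 / 2)).hasDerivWithinAt.mul ((hd s).mono Ioi_subset_Ici_self)).congr_deriv ?_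
    rw [saw2_eq ⟨by linarith [hs.1], by linarith [hs.2]⟩, id]
    ring

theorem Brk_two (τ : ℝ) :
    ∫ s in (0 : ℝ)..2 * π, saw (s - τ) * p' s = (∫ s in (0 : ℝ)..2 * π, p s) / π - (p τ + p (τ + π)) ∧
    ∫ s in (0 : ℝ)..2 * π, sgp (s - τ) * p' s = p (τ + π) - p τ := by
  obtain ⟨a1, a2⟩ := Brk_one hc hp hd hi τ
  obtain ⟨b1, b2⟩ := Brk_one hc hp hd hi (τ + π)
  simp only [← saw2_add, sgp, Brk_sh, add_mul, sub_mul]
  rw [intervalIntegral.integral_add a1 b1, intervalIntegral.integral_sub a1 b1, a2, b2]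
  constructor <;> ring

end one

theorem Geo.var_right (G : Geo μ g) (h : IsMetric μ g) (t : ℝ) {x : E × E} (hx : x ∈ μ.OO) (δ : E × E)
    {η : ℝ → E} {η' : E} (hη : HasDerivWithinAt η η' (Ici t) t) :
    HasDerivWithinAt (fun s => G.PP s x δ (η s))
      (D2 g (G.Z t x, vel g (G.psi t x)) (G.JJ t x δ, G.JD t x δ) (η t, η')) (Ici t) t := by
  obtain ⟨P', hP⟩ : ∃ P', HasDerivAt (fun s => G.PP s x δ) P' t :=
    ⟨_, (jac_fst ((jac_at Model.isOpen_OO (G.contDiffOn_PP h) t hx).differentiableAt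
      (by simp))).clm_apply (hasDerivAt_const t δ)⟩
  have h1 : HasDerivAt (fun s => η t + (s - t) • η') η' t := by
    simpa using (((hasDerivAt_id t).sub_const t).smul_const η').const_add (η t)
  have h2 := (hP.clm_apply h1).unique (G.var h t hx δ h1)
  rw [sub_self, zero_smul, add_zero] at h2
  exact h2 ▸ hP.hasDerivWithinAt.clm_apply hη

variable {ι : Type} [Fintype ι]

/-- A broken field with a periodic and an antiperiodic part. -/
def brk (L : ℝ → E × E →L[ℝ] E) (t : ι → ℝ) (δ₁ δ₂ : ι → E × E) (s : ℝ) : E :=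
  ∑ a, (saw (s - t a) • L s (δ₁ a) + sgp (s - t a) • L s (δ₂ a))

theorem Brk_pair (L L' : ℝ → E × E →L[ℝ] E) (t : ι → ℝ) (δ₁ δ₂ : ι → E × E) (s : ℝ) :
    (brk L t δ₁ δ₂ s, brk L' t δ₁ δ₂ s) = ∑ a, (saw (s - t a) • (L s (δ₁ a), L' s (δ₁ a)) +
      sgp (s - t a) • (L s (δ₂ a), L' s (δ₂ a))) :=
  Prod.ext (by rw [Prod.fst_sum]; rfl) (by rw [Prod.snd_sum]; rfl)

theorem Brk_JJ (B : Bl g G) {x : E × E} (hx : x ∈ μ.OO) {s τ : ℝ} (e : sin (s - τ) = 0) :
    G.JJ s x = G.JJ τ x := by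
  obtain ⟨j, hj⟩ := sin_eq_zero_iff.1 e
  have := Function.Periodic.int_mul (f := fun s => G.JJ s x) (fun s => B.JJ_add_pi s hx) j τ
  rwa [hj, add_sub_cancel] at this

theorem Brk_om (B : Bl g G) {x : E × E} (hx : x ∈ μ.OO) {τ : ℝ} {δ : E × E} (e : G.JJ τ x δ = 0)
    (δ' : E × E) : G.PP τ x δ (G.JJ τ x δ') = om g x δ δ' := by
  rw [← G.om_inv B.met τ hx, e, map_zero, sub_zero]

theorem Brk_neg (B : Bl g G) {x : E × E} (hx : x ∈ μ.OO) {c : ℝ → ℝ}
    (hc : ∀ {s}, sin s ≠ 0 → c (-s) = -c s) {s τ : ℝ} {δ δ' : E × E} (e : G.JJ s x δ = 0)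
    (e' : G.JJ τ x δ' = 0) : c (s - τ) * om g x δ δ' = -(c (τ - s) * om g x δ δ') := by
  by_cases k : sin (τ - s) = 0
  · rw [← Brk_om B hx e, ← Brk_JJ B hx k, e', map_zero, mul_zero, mul_zero, neg_zero]
  · rw [← neg_sub τ s, hc k, neg_mul]

theorem Brk_cJ (B : Bl g G) {x : E × E} (hx : x ∈ μ.OO) (δ : E × E) : Continuous fun s => G.JJ s x δ :=
  continuous_iff_continuousAt.2 fun s => (G.hasDerivAt_JJ B.met s hx δ).continuousAt

theorem Brk_tooth (B : Bl g G) {x : E × E} (hx : x ∈ μ.OO) {c : ℝ → ℝ} {p : ℝ} (c1 : ∀ s, |c s| ≤ 1 / 2)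
    (c2 : ∀ {s}, sin s ≠ 0 → ContinuousAt c s) (c3 : ∀ s (j : ℤ), c (s + j * p) = c s) {τ : ℝ}
    {δ : E × E} (e : G.JJ τ x δ = 0) : Continuous fun s => c (s - τ) • G.JJ s x δ := by
  refine continuousOn_univ.1 (cont_coef (u := fun s => s - τ) (fun s => (c1 s).trans (by norm_num))
    (fun _ => c2) c3 (Brk_cJ B hx δ).continuousOn fun y _ => ?_)
  by_cases k : sin (y - τ) = 0
  · exact Or.inl (by rw [Brk_JJ B hx k, e])
  · exact Or.inr ⟨k, fun s => s - τ, by fun_prop, Eventually.of_forall fun _ => ⟨0, by simp⟩⟩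

section
variable (B : Bl g G) {x : E × E} (hx : x ∈ μ.OO) {t : ι → ℝ} {δ₁ δ₂ : ι → E × E}
  (h1 : ∀ a, G.JJ (t a) x (δ₁ a) = 0) (h2 : ∀ a, G.JJ (t a) x (δ₂ a) = 0) (h0 : ∑ a, δ₁ a = 0)

include B hx h1 h2 in
theorem brk_cont : Continuous (brk (fun s => G.JJ s x) t δ₁ δ₂) :=
  continuous_finsetSum _ fun a _ => (Brk_tooth B hx abs_saw_le continuousAt_saw saw_int (h1 a)).add
    (Brk_tooth B hx abs_sgp_le continuousAt_sgp sgp_int (h2 a))

include B hx h0 in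
theorem brk_deriv (s : ℝ) : HasDerivWithinAt (brk (fun s => G.JJ s x) t δ₁ δ₂)
    (brk (fun s => G.JD s x) t δ₁ δ₂ s) (Ici s) s := by
  refine (HasDerivWithinAt.fun_sum fun a (_ : a ∈ Finset.univ) =>
    ((Brk_sub (saw_deriv (s - t a))).smul (G.hasDerivAt_JJ B.met s hx (δ₁ a)).hasDerivWithinAt).add
    ((Brk_sub (sgp_deriv (s - t a))).smul
      (G.hasDerivAt_JJ B.met s hx (δ₂ a)).hasDerivWithinAt)).congr_deriv ?_
  simp only [brk, zero_smul, add_zero, Finset.sum_add_distrib, ← Finset.smul_sum, ← map_sum, h0,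
    map_zero, smul_zero]

include B hx in
theorem brk_rc (s : ℝ) : ContinuousWithinAt (brk (fun s => G.JD s x) t δ₁ δ₂) (Ici s) s :=
  tendsto_finsetSum _ fun a _ => ((Brk_sub (saw_deriv (s - t a))).continuousWithinAt.smul
    (G.nc_cont_JD B.met hx (δ₁ a)).continuousWithinAt).add
    ((Brk_sub (sgp_deriv (s - t a))).continuousWithinAt.smul
      (G.nc_cont_JD B.met hx (δ₂ a)).continuousWithinAt)

include B hx h1 h2 h0 in
theorem brk_int :
    (∫ s in (0 : ℝ)..2 * π, D2 g (G.Z s x, vel g (G.psi s x))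
      (brk (fun s => G.JJ s x) t δ₁ δ₂ s, brk (fun s => G.JD s x) t δ₁ δ₂ s)
      (brk (fun s => G.JJ s x) t δ₁ δ₂ s, brk (fun s => G.JD s x) t δ₁ δ₂ s)) =
    2 * (∑ a, ∑ b, saw (t b - t a) * om g x (δ₁ a) (δ₁ b)) +
      2 * ∑ a, ∑ b, sgp (t b - t a) * om g x (δ₂ a) (δ₂ b) := by
  set p : E × E → ℝ → ℝ := fun δ s => G.PP s x δ (brk (fun s => G.JJ s x) t δ₁ δ₂ s) with ep
  set p' : E × E → ℝ → ℝ := fun δ s => D2 g (G.Z s x, vel g (G.psi s x)) (G.JJ s x δ, G.JD s x δ)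
    (brk (fun s => G.JJ s x) t δ₁ δ₂ s, brk (fun s => G.JD s x) t δ₁ δ₂ s) with ep'
  have hc : ∀ δ, Continuous (p δ) := fun δ =>
    (((G.contDiffOn_PP B.met).continuousOn.comp_continuous (f := fun s : ℝ => (s, x)) (by fun_prop)
      fun _ => hx).clm_apply continuous_const).clm_apply (brk_cont B hx h1 h2)
  have hp : ∀ δ, Function.Periodic (p δ) (2 * π) := fun δ s => by
    simp only [ep, brk, two_mul, ← add_assoc, add_sub_right_comm, saw_add_pi, sgp_add_pi, neg_neg,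
      B.JJ_add_pi _ hx, B.PP_add_pi _ hx]
  have hd : ∀ δ s, HasDerivWithinAt (p δ) (p' δ s) (Ici s) s := fun δ s =>
    G.var_right B.met s hx δ (brk_deriv B hx h0 s)
  have hq : ∀ δ δ' a b, IntervalIntegrable (fun s => D2 g (G.Z s x, vel g (G.psi s x))
      (G.JJ s x δ, G.JD s x δ) (G.JJ s x δ', G.JD s x δ')) volume a b := fun δ δ' a b =>
    (((G.nc_cont_second B.met hx).clm_apply ((Brk_cJ B hx δ).prodMk (G.nc_cont_JD B.met hx δ))).clm_apply
      ((Brk_cJ B hx δ').prodMk (G.nc_cont_JD B.met hx δ'))).intervalIntegrable a b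
  have hi : ∀ δ a b, IntervalIntegrable (p' δ) volume a b := fun δ a b => by
    simp only [ep', Brk_pair, D2, map_sum, map_add, map_smul, smul_eq_mul]
    have := fun c => (Brk_ii measurable_saw abs_saw_le (t c) (hq δ (δ₁ c) a b)).add
      (Brk_ii measurable_sgp abs_sgp_le (t c) (hq δ (δ₂ c) a b))
    exact ⟨integrable_finsetSum _ fun c _ => (this c).1, integrable_finsetSum _ fun c _ => (this c).2⟩
  have k1 : ∀ s, D2 g (G.Z s x, vel g (G.psi s x))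
      (brk (fun s => G.JJ s x) t δ₁ δ₂ s, brk (fun s => G.JD s x) t δ₁ δ₂ s)
      (brk (fun s => G.JJ s x) t δ₁ δ₂ s, brk (fun s => G.JD s x) t δ₁ δ₂ s) =
      ∑ a, (saw (s - t a) * p' (δ₁ a) s + sgp (s - t a) * p' (δ₂ a) s) := fun s => by
    conv_lhs => arg 3; rw [Brk_pair]
    simp only [ep', D2, map_sum (fderiv ℝ _ _), map_add (fderiv ℝ _ _), map_smul (fderiv ℝ _ _),
      sum_apply, add_apply, smul_apply, smul_eq_mul]
  have k2 : ∀ τ δ, G.JJ τ x δ = 0 → p δ τ + p δ (τ + π) = 2 * ∑ b, saw (τ - t b) * om g x δ (δ₁ b) ∧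
      p δ τ - p δ (τ + π) = 2 * ∑ b, sgp (τ - t b) * om g x δ (δ₂ b) := fun τ δ e => by
    simp only [ep, brk, add_sub_right_comm, saw_add_pi, sgp_add_pi, B.JJ_add_pi _ hx, B.PP_add_pi _ hx,
      map_sum, map_add, map_smul, smul_eq_mul, Brk_om B hx e, Finset.sum_add_distrib, neg_mul,
      Finset.sum_neg_distrib]
    constructor <;> ring
  have k3 : ∑ a, ∫ s in (0 : ℝ)..2 * π, p (δ₁ a) s = 0 := by
    rw [← intervalIntegral.integral_finsetSum fun a _ => (hc _).intervalIntegrable _ _]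
    simp only [ep, ← sum_apply, ← map_sum, h0, map_zero, zero_apply, intervalIntegral.integral_zero]
  have k4 : ∀ a, ∫ s in (0 : ℝ)..2 * π, (saw (s - t a) * p' (δ₁ a) s + sgp (s - t a) * p' (δ₂ a) s) =
      (∫ s in (0 : ℝ)..2 * π, p (δ₁ a) s) / π + (2 * ∑ b, saw (t b - t a) * om g x (δ₁ a) (δ₁ b) +
        2 * ∑ b, sgp (t b - t a) * om g x (δ₂ a) (δ₂ b)) := fun a => by
    rw [intervalIntegral.integral_add (Brk_ii measurable_saw abs_saw_le _ (hi _ _ _))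
      (Brk_ii measurable_sgp abs_sgp_le _ (hi _ _ _)), (Brk_two (hc _) (hp _) (hd _) (hi _) _).1,
      (Brk_two (hc _) (hp _) (hd _) (hi _) _).2, (k2 _ _ (h1 a)).1, ← neg_sub (p (δ₂ a) (t a)),
      (k2 _ _ (h2 a)).2]
    simp only [fun b => Brk_neg B hx saw_neg (h1 a) (h1 b), fun b => Brk_neg B hx sgp_neg (h2 a) (h2 b),
      Finset.sum_neg_distrib]
    ring
  simp only [k1]
  rw [intervalIntegral.integral_finsetSum fun a _ => (Brk_ii measurable_saw abs_saw_le _ (hi _ _ _)).add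
    (Brk_ii measurable_sgp abs_sgp_le _ (hi _ _ _))]
  simp only [k4, Finset.sum_add_distrib, ← Finset.sum_div, k3, ← Finset.mul_sum, zero_div, zero_add]

end

section
variable {H : Type} [NormedAddCommGroup H] [InnerProductSpace ℝ H] [FiniteDimensional ℝ H] {n : ℕ}
  {w : Bi H} {T : Submodule ℝ H} {V : ℝ → Submodule ℝ H} {t : ι → ℝ} {f : ι → H}

theorem Brk_flip (h : Sys0 n w T V) (hf : ∀ a, f a ∈ V (t a)) {c : ℝ → ℝ}
    (hc : ∀ {s}, sin s ≠ 0 → c (-s) = -c s) {s : ℝ} {κ u : H} (hκ : κ ∈ V s)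
    (e : ∑ a, c (s - t a) • f a - u ∈ V s) : ∑ a, c (t a - s) * w κ (f a) = -w κ u := by
  have k := h.iso s κ hκ _ e
  rw [map_sub, sub_eq_zero, map_sum] at k
  rw [← k, ← Finset.sum_neg_distrib]
  refine Finset.sum_congr rfl fun a _ => ?_
  rw [map_smul, smul_eq_mul]
  by_cases e : sin (t a - s) = 0
  · rw [h.iso' e hκ (hf a), mul_zero, mul_zero, neg_zero]
  · rw [← neg_sub (t a) s, hc e, neg_mul, neg_neg]

theorem brk_tr1 (h : Sys0 n w T V) (hf : ∀ a, f a ∈ V (t a)) (h0 : ∑ a, f a = 0) {u : H}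
    (h1 : ∑ a, saw (0 - t a) • f a - u ∈ V 0) (h2 : ∑ a, saw (π / 2 - t a) • f a - u ∈ V (π / 2)) :
    0 ≤ qf saw w t f f := by
  refine h.idx_pos1 0 hf h0 fun κ hκ => ?_
  simp only [sub_mul, Finset.sum_sub_distrib]
  rw [Brk_flip h hf saw_neg hκ.1 h1, Brk_flip h hf saw_neg hκ.2 (by rwa [zero_add]), sub_self]

theorem brk_tr2 (h : Sys0 n w T V) (hf : ∀ a, f a ∈ V (t a)) (h0 : ∑ a, sgp (0 - t a) • f a ∈ V 0)
    {u : H} (h1 : u ∈ V 0) (h2 : ∑ a, sgp (π / 2 - t a) • f a - u ∈ V (π / 2)) :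
    0 ≤ qf sgp w t f f := by
  refine h.idx_pos2 0 hf (fun v hv => ?_) fun κ hκ => ?_
  · rw [Brk_flip h hf sgp_neg (u := 0) hv (by rwa [sub_zero]), map_zero, neg_zero]
  · rw [Brk_flip h hf sgp_neg hκ.2 (by rwa [zero_add]), h.iso 0 κ hκ.1 u h1, neg_zero]

end

end Pool.Agent.Work.MP_8c604c_gt.O
end
end

-- merged part: Pool.Agent.Work.MP_8c604c_gt.OS.NDa
section
-- merged part: Pool.Agent.Work.MP_8c604c_gt.OS.GSys
section
/-!
The Jacobi fields of a Blaschke metric form a family of systems.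
Plan. `om_pos`: `nc_piece` on `[s, t]` for `η = JJ · x a` and on `[t, u]` for `η = JJ · x (a + b)`; the two fields agree at `t`; the first order terms vanish (`al_inv`); the triangle inequality and
`dd (Z s x) (Z u x) = u - s` (`dist_dd_Z`) show that the sum of the two integrals is nonnegative (`nc_small`); by `var` the integrals are boundary terms, the sum is `-PP t x b (JJ t x a) = om x a b` (`om_inv`).
For `h ∈ V y 0`: `P (ev h).1 = 0` (`JJ_zero`), so `DR x (ev h) = (0, u)` with `u` tangent, and `ρ h = JD 0 x (ev h) = nrm u` (`JD_zero`, `JD_Bdir`, `sub_DR_mem`, speed one).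
Dimensions: `ρ` maps `V y 0` bijectively onto the normal tangent vectors (dimension `d - 1`), and `JJ 0 x ∘ ev` maps `T y` onto them with kernel `V y 0`.  For other times use the invariance `V (f1 r y) t = V y (t + r)` (`JJ_add`).
`nd`: `lift`, `om_Bdir`, `om_fibre` with `u = nrm (ev h).1`, then `nc_fibre_ker`-type argument with `δ = (w, 0)`, `w` normal.  `tr`: `nc_pair_small`.  `iso`: `idx_lag`.
Continuity: `(Bdir x).comap (ev y)` has a closed graph (`Cl.comap`, `Cl.map` of `⊤ : Submodule ℝ ℝ`) and constant dimension; `CS.of_cl`, `CS.orthogonal`.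
-/

set_option maxSynthPendingDepth 3
set_option linter.unusedSectionVars false

open Set Filter Topology MeasureTheory
open scoped ContDiff

noncomputable section
namespace Pool.Agent.Work.MP_8c604c_gt.O

open OT OS Real Model
open T (RN cs)

variable {E : Type} [NormedAddCommGroup E] [InnerProductSpace ℝ E] [FiniteDimensional ℝ E] {d : ℕ}
  {μ : Model E d} {g : Met E} {G : Geo μ g} {m : ℕ}

/-- The symplectic form as a continuous bilinear map. -/
def omL (g : Met E) (x : E × E) : E × E →L[ℝ] E × E →L[ℝ] ℝ :=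
  (fderiv ℝ (fun y : E × E => g y.1 (vel g y)) x).bilinearComp (ContinuousLinearMap.id ℝ (E × E))
      (ContinuousLinearMap.fst ℝ E E) -
    ((fderiv ℝ (fun y : E × E => g y.1 (vel g y)) x).bilinearComp (ContinuousLinearMap.id ℝ (E × E))
      (ContinuousLinearMap.fst ℝ E E)).flip

theorem omL_apply (x a b : E × E) : omL g x a b = om g x a b := rfl

theorem GSys_piece (G : Geo μ g) (h : IsMetric μ g) {x : E × E} (hx : x ∈ μ.OO) {a b : ℝ}
    (hab : a ≤ b) (ξ : E × E) : ∃ C δ : ℝ, 0 < δ ∧ ∀ ε : ℝ, 0 ≤ ε → ε ≤ δ →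
      (G.Z a x + ε • G.JJ a x ξ ∈ μ.U ∧ G.Z b x + ε • G.JJ b x ξ ∈ μ.U) ∧
      dd μ g (G.Z a x + ε • G.JJ a x ξ) (G.Z b x + ε • G.JJ b x ξ) ≤ (b - a) +
        ε ^ 2 / 2 * (G.PP b x ξ (G.JJ b x ξ) - G.PP a x ξ (G.JJ a x ξ)) + C * ε ^ 3 := by
  have hd := fun s => G.hasDerivAt_JJ h s hx ξ
  obtain ⟨C, δ, hδ, p⟩ := G.nc_piece h hx hab hd (G.nc_cont_JD h hx ξ)
  refine ⟨C, δ, hδ, fun ε e0 e1 => ⟨(p ε e0 e1).1, ?_⟩⟩
  have q := (p ε e0 e1).2
  have i1 : (∫ τ in a..b, D2 g (G.Z τ x, vel g (G.psi τ x)) (G.JJ τ x ξ, G.JD τ x ξ)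
      (G.JJ τ x ξ, G.JD τ x ξ)) = G.PP b x ξ (G.JJ b x ξ) - G.PP a x ξ (G.JJ a x ξ) :=
    intervalIntegral.integral_eq_sub_of_hasDerivAt (f := fun τ => G.PP τ x ξ (G.JJ τ x ξ))
      (fun τ _ => G.var h τ hx ξ (hd τ))
      ((G.nc_cont_DD h hx (continuous_iff_continuousAt.2 fun τ => (hd τ).continuousAt)
        (G.nc_cont_JD h hx ξ)).intervalIntegrable _ _)
  rw [i1, G.al_inv h b hx, G.al_inv h a hx, sub_self, mul_zero, add_zero] at q
  exact q

theorem GSys_rk {V U : Type} [AddCommGroup V] [Module ℝ V] [FiniteDimensional ℝ V]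
    [AddCommGroup U] [Module ℝ U] (W : Submodule ℝ V) (f : V →ₗ[ℝ] U) (A : Submodule ℝ U)
    (h1 : ∀ w ∈ W, f w ∈ A) (h2 : ∀ a ∈ A, ∃ w ∈ W, f w = a) : Module.finrank ℝ W =
      Module.finrank ℝ (W ⊓ LinearMap.ker f : Submodule ℝ V) + Module.finrank ℝ A := by
  have e : LinearMap.range (f.domRestrict W) = A := by
    ext a
    constructor
    · rintro ⟨w, rfl⟩
      exact h1 w w.2
    · intro ha
      obtain ⟨w, hw, rfl⟩ := h2 a ha
      exact ⟨⟨w, hw⟩, rfl⟩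
  rw [← (f.domRestrict W).finrank_range_add_finrank_ker, e, LinearMap.ker_domRestrict,
    ← Submodule.map_comap_subtype, Submodule.finrank_map_subtype_eq, add_comm]

theorem GSys_rk' {V U : Type} [AddCommGroup V] [Module ℝ V] [FiniteDimensional ℝ V]
    [AddCommGroup U] [Module ℝ U] (W : Submodule ℝ V) (f : V →ₗ[ℝ] U) (A : Submodule ℝ U)
    (h1 : ∀ w ∈ W, f w ∈ A) (h2 : ∀ a ∈ A, ∃ w ∈ W, f w = a) (h3 : ∀ w ∈ W, f w = 0 → w = 0) :
    Module.finrank ℝ W = Module.finrank ℝ A := by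
  have e : W ⊓ LinearMap.ker f = ⊥ := eq_bot_iff.2 fun w hw => h3 w hw.1 hw.2
  rw [GSys_rk W f A h1 h2, e, finrank_bot, zero_add]

/-- The tangent vectors that are normal to the geodesic. -/
def GSys_NS (μ : Model E d) (g : Met E) (x : E × E) : Submodule ℝ E :=
  μ.Tan x.1 ⊓ LinearMap.ker (g x.1 x.2 : E →ₗ[ℝ] ℝ)

theorem GSys_mem_NS {x : E × E} {u : E} :
    u ∈ GSys_NS μ g x ↔ μ.P x.1 u = u ∧ g x.1 x.2 u = 0 := and_congr_left' mem_Tan

theorem GSys_NS_dim (h : IsMetric μ g) {x : E × E} (hx : x ∈ UT μ g) :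
    Module.finrank ℝ (GSys_NS μ g x) = d - 1 := by
  have h1 : g x.1 x.2 x.2 = 1 := by rw [← h.spd_sq hx.1.1.1, hx.2, one_pow]
  have h2 := Link_rk (μ.Tan x.1) (g x.1 x.2 : E →ₗ[ℝ] ℝ) fun y =>
    ⟨y • x.2, Submodule.smul_mem _ _ (mem_Tan.2 hx.1.2.1), by
      change g x.1 x.2 (y • x.2) = y
      rw [map_smul, h1, smul_eq_mul, mul_one]⟩
  rw [finrank_Tan hx.1.1, Module.finrank_self] at h2
  rw [GSys_NS]
  omega

theorem GSys_al {x : E × E} (hx : x ∈ UT μ g) (δ : E × E) : al g x δ = g x.1 x.2 δ.1 := by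
  rw [al_apply, Link_gv, hx.2, inv_one, one_mul]

theorem GSys_JD (G : Geo μ g) (h : IsMetric μ g) {x : E × E} (hx : x ∈ UT μ g) (u : E) :
    G.JD 0 x (0, u) = nrm μ g x u := by
  rw [G.JD_zero h hx.1, hx.2, inv_one, one_smul]

theorem GSys_JJ (G : Geo μ g) (h : IsMetric μ g) {x a b : E × E} (hx : x ∈ μ.OO)
    (e : a - b ∈ μ.Bdir x) (t : ℝ) : G.JJ t x a = G.JJ t x b := by
  rw [← sub_eq_zero, ← map_sub, G.JJ_Bdir h t hx e]

theorem GSys_JD' (G : Geo μ g) (h : IsMetric μ g) {x a b : E × E} (hx : x ∈ μ.OO)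
    (e : a - b ∈ μ.Bdir x) (t : ℝ) : G.JD t x a = G.JD t x b := by
  rw [← sub_eq_zero, ← map_sub, G.JD_Bdir h t hx e]

theorem GSys_fib (G : Geo μ g) (h : IsMetric μ g) {x δ : E × E} (hx : x ∈ UT μ g)
    (h0 : G.JJ 0 x δ = 0) :
    δ - (0, G.JD 0 x δ) ∈ μ.Bdir x ∧ G.JD 0 x δ ∈ GSys_NS μ g x := by
  have ho := TT_OO hx.1
  rw [G.JJ_zero ho] at h0
  have e : μ.DR x δ = (0, (μ.DR x δ).2) := Prod.ext (by rw [DR_fst ho.1, h0]) rfl
  have h1 := sub_DR_mem (TT_TM hx.1) δ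
  rw [e] at h1
  rw [GSys_JD' G h ho h1, GSys_JD G h hx]
  refine ⟨?_, GSys_mem_NS.2 ⟨P_nrm hx.1 _, by rw [h.symm _ _ _ ho.1, h.nrm_perp hx.1]⟩⟩
  have h2 := add_mem h1 ((fibre_mem_Bdir ho.1).2 (sub_nrm_mem (g := g) hx.1.1 (μ.DR x δ).2))
  have e2 : ∀ u v : E, δ - (0, u) + (0, u - v) = δ - (0, v) := fun u v => by
    ext <;> simp
  rwa [e2] at h2

theorem GSys_cA (h : IsMetric μ g) :
    ContinuousOn (fderiv ℝ fun y : E × E => g y.1 (vel g y)) μ.OO :=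
  ((h.smooth.comp contDiffOn_fst fun _ hx => hx.1).clm_apply
    h.contDiffOn_vel).continuousOn_fderiv_of_isOpen isOpen_OO (by simp)

/-- The index form is nonnegative on short broken Jacobi fields. -/
theorem Bl.om_pos (B : Bl g G) {x : E × E} (hx : x ∈ μ.OO) {s t u : ℝ} (h1 : s < t) (h2 : t < u)
    (h3 : u ≤ s + π / 2) {a b : E × E} (ha : G.JJ s x a = 0) (hb : G.JJ t x b = 0)
    (hc : G.JJ u x (a + b) = 0) : 0 ≤ om g x a b := by
  by_contra hneg
  rw [not_le] at hneg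
  have h := B.met
  obtain ⟨C₁, δ₁, hδ₁, p₁⟩ := GSys_piece G h hx h1.le a
  obtain ⟨C₂, δ₂, hδ₂, p₂⟩ := GSys_piece G h hx h2.le (a + b)
  obtain ⟨ε, hε0, hε1, hε⟩ := nc_small (C := C₁ + C₂) hneg (lt_min hδ₁ hδ₂)
  obtain ⟨⟨n₁, n₂⟩, q₁⟩ := p₁ ε hε0 (hε1.trans (min_le_left _ _))
  obtain ⟨⟨-, n₃⟩, q₂⟩ := p₂ ε hε0 (hε1.trans (min_le_right _ _))
  have e : G.JJ t x (a + b) = G.JJ t x a := by rw [map_add, hb, add_zero]
  have tri := h.dd_triangle n₁ n₂ n₃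
  have e2 := B.dist_dd_Z hx (h1.trans h2).le (by linarith)
  have e3 := G.om_inv h t hx a b
  rw [ha, smul_zero, add_zero] at q₁ tri
  rw [hc, smul_zero, add_zero] at q₂ tri
  rw [e, map_zero, map_add, add_apply] at q₂
  rw [map_zero] at q₁
  rw [hb, map_zero] at e3
  rw [← e3] at hε
  linarith

namespace EV
variable (D : EV G m)

/-- The symplectic form. -/
def sw (y : (E × E) × CM m) : Bi (RN D.M) := (omL g y.1).bilinearComp (D.ev y) (D.ev y)

/-- The space of normal Jacobi fields. -/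
def T (y : (E × E) × CM m) : Submodule ℝ (RN D.M) := ((μ.Bdir y.1).comap (D.ev y).toLinearMap)ᗮ

/-- The fields that vanish at time `t`. -/
def V (y : (E × E) × CM m) (t : ℝ) : Submodule ℝ (RN D.M) :=
  D.T y ⊓ LinearMap.ker ((G.JJ t y.1).comp (D.ev y)).toLinearMap

/-- The initial derivative. -/
def ρ (y : (E × E) × CM m) : RN D.M →L[ℝ] E := (G.JD 0 y.1).comp (D.ev y)

theorem sw_apply (y : (E × E) × CM m) (a b : RN D.M) :
    D.sw y a b = om g y.1 (D.ev y a) (D.ev y b) := rfl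

theorem mem_V {y : (E × E) × CM m} {t : ℝ} {h : RN D.M} :
    h ∈ D.V y t ↔ h ∈ D.T y ∧ G.JJ t y.1 (D.ev y h) = 0 := Iff.rfl

theorem GSys_zero {y : (E × E) × CM m} {h : RN D.M} (hT : h ∈ D.T y) (hB : D.ev y h ∈ μ.Bdir y.1) :
    h = 0 := inner_self_eq_zero.1 ((Submodule.mem_orthogonal _ _).1 hT h hB)

theorem GSys_lift {y : (E × E) × CM m} (hy : y ∈ XT μ g m) {δ : E × E} (h0 : al g y.1 δ = 0) :
    ∃ h ∈ D.T y, D.ev y h - δ ∈ μ.Bdir y.1 := by
  obtain ⟨h₀, e⟩ := D.surj y hy δ h0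
  obtain ⟨n, hn, t, ht, rfl⟩ :=
    ((μ.Bdir y.1).comap (D.ev y).toLinearMap).exists_add_mem_mem_orthogonal h₀
  refine ⟨t, ht, ?_⟩
  have h1 := sub_mem e (show D.ev y n ∈ μ.Bdir y.1 from hn)
  have e2 : D.ev y (n + t) - δ - D.ev y n = D.ev y t - δ := by
    rw [map_add]
    abel
  rwa [e2] at h1

variable (B : Bl g G) {y : (E × E) × CM m}
include B

theorem lift (hy : y ∈ XT μ g m) {δ : E × E} (h0 : al g y.1 δ = 0) :
    ∃ h ∈ D.T y, ∀ t, G.JJ t y.1 (D.ev y h) = G.JJ t y.1 δ := by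
  obtain ⟨h, hT, e⟩ := D.GSys_lift hy h0
  exact ⟨h, hT, GSys_JJ G B.met (TT_OO hy.1.1) e⟩

theorem cont_ρ : ContinuousOn D.ρ (XT μ g m) :=
  ((G.contDiffOn_JD B.met).continuousOn.comp (f := fun y : (E × E) × CM m => ((0 : ℝ), y.1))
    (continuousOn_const.prodMk continuousOn_fst) fun _ hy => TT_OO hy.1.1).clm_comp D.cev

theorem ρ_spec (hy : y ∈ XT μ g m) {h : RN D.M} (hh : h ∈ D.V y 0) :
    μ.P y.1.1 (D.ρ y h) = D.ρ y h ∧ g y.1.1 y.1.2 (D.ρ y h) = 0 ∧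
      (∀ t, G.JJ t y.1 (0, D.ρ y h) = G.JJ t y.1 (D.ev y h)) ∧ (D.ρ y h = 0 → h = 0) := by
  obtain ⟨h1, h2⟩ := GSys_fib G B.met hy.1 (D.mem_V.1 hh).2
  refine ⟨(GSys_mem_NS.1 h2).1, (GSys_mem_NS.1 h2).2,
    fun t => (GSys_JJ G B.met (TT_OO hy.1.1) h1 t).symm, fun e => D.GSys_zero hh.1 ?_⟩
  rw [show G.JD 0 y.1 (D.ev y h) = 0 from e, Prod.mk_zero_zero, sub_zero] at h1
  exact h1

theorem ρ_KS (hy : y ∈ XT μ g m) {h : RN D.M} (hh : h ∈ D.V y 0) :
    (D.ρ y h ∈ G.WS y.1 → h ∈ KK (D.V y) 0) ∧ (h ∈ KK (D.V y) 0 → D.ρ y h ∈ G.KS y.1) := by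
  obtain ⟨h1, h2, h3, -⟩ := D.ρ_spec B hy hh
  refine ⟨fun e => ⟨hh, D.mem_V.2 ⟨hh.1, ?_⟩⟩, fun e => G.mem_KS'.2 ⟨h1, h2, ?_⟩⟩
  · rw [zero_add, ← h3, (Geo.mem_WS.1 e).2]
  · have h4 := (D.mem_V.1 e.2).2
    rwa [zero_add, ← h3] at h4

theorem GSys_surj (hy : y ∈ XT μ g m) {u : E} (hu : u ∈ GSys_NS μ g y.1) :
    ∃ h ∈ D.V y 0, D.ρ y h = u := by
  have ho := TT_OO hy.1.1
  obtain ⟨h1, h2⟩ := GSys_mem_NS.1 hu
  obtain ⟨h, hT, e⟩ := D.GSys_lift hy (δ := (0, u)) (by rw [al_apply, map_zero])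
  refine ⟨h, D.mem_V.2 ⟨hT, ?_⟩, ?_⟩
  · rw [GSys_JJ G B.met ho e, G.JJ_zero ho, map_zero]
  · refine (GSys_JD' G B.met ho e 0).trans ?_
    rw [GSys_JD G B.met hy.1, B.met.nrm_of hy.1.1 h1 (by rw [B.met.symm _ _ _ ho.1, h2])]

theorem ρ_surj (hy : y ∈ XT μ g m) {u : E} (hu : u ∈ G.KS y.1) :
    ∃ h ∈ KK (D.V y) 0, D.ρ y h = u := by
  obtain ⟨h1, h2, h3⟩ := G.mem_KS'.1 hu
  obtain ⟨h, hh, rfl⟩ := D.GSys_surj B hy (GSys_mem_NS.2 ⟨h1, h2⟩)
  exact ⟨h, (D.ρ_KS B hy hh).1 (Geo.mem_WS.2 ⟨h1, h3⟩), rfl⟩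

theorem GSys_iT (r : ℝ) (hy : y ∈ XT μ g m) : D.T (G.f1 r y) = D.T y := by
  refine congrArg Submodule.orthogonal (Submodule.ext fun h => ?_)
  change D.ev (G.f1 r y) h ∈ μ.Bdir (G.psi r y.1) ↔ D.ev y h ∈ μ.Bdir y.1
  rw [D.eqv r y hy]
  exact ⟨G.Bdir_of_fderiv_psi B.met r (TT_OO hy.1.1), G.fderiv_psi_Bdir B.met r (TT_OO hy.1.1)⟩

theorem GSys_iV (r : ℝ) (hy : y ∈ XT μ g m) (t : ℝ) : D.V (G.f1 r y) t = D.V y (t + r) := by
  ext h
  rw [D.mem_V, D.mem_V, D.GSys_iT B r hy, D.eqv r y hy, G.JJ_add B.met t r (TT_OO hy.1.1)]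
  rfl

theorem GSys_dimV (hy : y ∈ XT μ g m) (t : ℝ) : Module.finrank ℝ (D.V y t) = d - 1 := by
  have hz := (G.flw B.met m).mem t hy
  rw [← zero_add t, ← D.GSys_iV B t hy, ← GSys_NS_dim B.met hz.1]
  refine GSys_rk' _ (D.ρ (G.f1 t y)).toLinearMap _ (fun w hw => ?_) (fun a ha => D.GSys_surj B hz ha)
    fun w hw => (D.ρ_spec B hz hw).2.2.2
  exact GSys_mem_NS.2 ⟨(D.ρ_spec B hz hw).1, (D.ρ_spec B hz hw).2.1⟩

theorem GSys_dimK (hy : y ∈ XT μ g m) (t : ℝ) :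
    Module.finrank ℝ (KK (D.V y) t) = G.kk (G.psi t y.1) := by
  have hz := (G.flw B.met m).mem t hy
  have e : KK (D.V y) t = KK (D.V (G.f1 t y)) 0 := by
    rw [KK, KK, D.GSys_iV B t hy, D.GSys_iV B t hy, zero_add, zero_add, add_comm]
  rw [e]
  exact GSys_rk' _ (D.ρ (G.f1 t y)).toLinearMap (G.KS (G.f1 t y).1)
    (fun w hw => (D.ρ_KS B hz hw.1).2 hw) (fun a ha => D.ρ_surj B hz ha)
    fun w hw => (D.ρ_spec B hz hw.1).2.2.2

theorem GSys_dimT (hy : y ∈ XT μ g m) : Module.finrank ℝ (D.T y) = 2 * (d - 1) := by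
  have ho := TT_OO hy.1.1
  have h1 := GSys_rk (D.T y) ((G.JJ 0 y.1).comp (D.ev y)).toLinearMap (GSys_NS μ g y.1)
    (fun w _ => by
      change G.JJ 0 y.1 (D.ev y w) ∈ _
      rw [G.JJ_zero ho, GSys_mem_NS, P_idem hy.1.1.1, B.met.P_right hy.1.1.1, ← GSys_al hy.1]
      exact ⟨rfl, D.al0 y hy w⟩)
    fun a ha => by
      obtain ⟨h1, h2⟩ := GSys_mem_NS.1 ha
      obtain ⟨h, hT, e⟩ := D.lift B hy (δ := (a, 0)) (by rw [GSys_al hy.1, h2])
      exact ⟨h, hT, (e 0).trans (by rw [G.JJ_zero ho, h1])⟩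
  have h2 := D.GSys_dimV B hy 0
  rw [V] at h2
  rw [h1, h2, GSys_NS_dim B.met hy.1, two_mul]

theorem GSys_nd (hy : y ∈ XT μ g m) {u : RN D.M} (hu : u ∈ D.T y)
    (h0 : ∀ w ∈ D.T y, D.sw y u w = 0) : u = 0 := by
  have h := B.met
  have ho := TT_OO hy.1.1
  have h1 : ∀ δ, al g y.1 δ = 0 → om g y.1 δ (D.ev y u) = 0 := fun δ hδ => by
    obtain ⟨w, hw, e⟩ := D.GSys_lift hy hδ
    have h2 := h.om_Bdir ho e (D.ev y u)
    rwa [om_sub, om_skew, ← D.sw_apply, h0 w hw, neg_zero, zero_sub, neg_eq_zero] at h2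
  have h2 := h1 (0, (D.ev y u).1) (by rw [al_apply, map_zero])
  rw [h.om_fibre ho, ← al_apply, D.al0 y hy, hy.1.2, inv_one, one_mul, mul_zero, sub_zero] at h2
  have h3 : G.JJ 0 y.1 (D.ev y u) = 0 := by rw [G.JJ_zero ho, h.P_eq_zero ho.1 h2]
  obtain ⟨h4, h5, -, h6⟩ := D.ρ_spec B hy (D.mem_V.2 ⟨hu, h3⟩)
  have h7 := G.star h 0 ho h3 (D.ρ y u, 0)
  rw [om_skew, h1 _ (by rw [GSys_al hy.1, h5]), neg_zero, G.JJ_zero ho, h4, G.Z_zero' hy.1.1] at h7
  exact h6 (h.eq_zero_of_tan ho.1 h4 h7)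

theorem GSys_cJ : ContinuousOn
    (fun p : ((E × E) × CM m) × ℝ => (G.JJ p.2 p.1.1).comp (D.ev p.1)) (XT μ g m ×ˢ univ) :=
  ((G.contDiffOn_JJ B.met).continuousOn.comp (f := fun p : ((E × E) × CM m) × ℝ => (p.2, p.1.1))
    (continuousOn_snd.prodMk continuous_fst.fst.continuousOn) fun _ hp => TT_OO hp.1.1.1).clm_comp
    (D.cev.comp continuousOn_fst fun _ hp => hp.1)

theorem GSys_cT : CS D.T (XT μ g m) := by
  have c : ∀ t : ℝ, ∀ p ∈ XT μ g m, Cl (fun y : (E × E) × CM m =>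
      LinearMap.ker ((G.JJ t y.1).comp (D.ev y)).toLinearMap) (XT μ g m) p := fun t p hp =>
    (cl_const ⊥).comap (((D.GSys_cJ B).comp (f := fun y : (E × E) × CM m => (y, t))
      (continuousOn_id.prodMk continuousOn_const) fun _ hy => ⟨hy, trivial⟩) p hp)
  refine CS.orthogonal (CS.of_cl (d := D.M - 2 * (d - 1)) (fun p hp => ?_) fun p hp => ?_)
  · refine ((c 0 p hp).inf (c (π / 4) p hp)).congr ?_ fun a ha => ?_
    · filter_upwards [self_mem_nhdsWithin] with z hz a ha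
      exact ⟨G.JJ_Bdir B.met _ (TT_OO hz.1.1) ha, G.JJ_Bdir B.met _ (TT_OO hz.1.1) ha⟩
    · exact B.nc_pair_small (TT_OO hp.1.1) (s := 0) (t := π / 4)
        ⟨by linarith [pi_pos], by linarith [pi_pos]⟩ ha.1 ha.2
  · have h1 := ((μ.Bdir p.1).comap (D.ev p).toLinearMap).finrank_add_finrank_orthogonal
    have h2 := D.GSys_dimT B hp
    rw [T] at h2
    rw [h2, finrank_euclideanSpace_fin] at h1
    omega

theorem fam {k : ℕ} (hk : ∀ x ∈ μ.TT, G.kk x = k) :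
    Fam (d - 1) k (XT μ g m) G.f1 D.sw D.T D.V where
  sys y hy :=
    { alt := fun u => sub_self _
      nd := fun u hu h0 => D.GSys_nd B hy hu h0
      dimT := D.GSys_dimT B hy
      le := fun t => inf_le_left
      dim := D.GSys_dimV B hy
      iso := fun t u hu w hw =>
        G.idx_lag B.met t (TT_OO hy.1.1) (D.mem_V.1 hu).2 (D.mem_V.1 hw).2
      per := fun t => by rw [V, V, B.JJ_add_pi t (TT_OO hy.1.1)]
      tr := fun s t h1 h2 u hs ht => D.GSys_zero hs.1 (B.nc_pair_small (TT_OO hy.1.1)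
        ⟨by linarith, by linarith⟩ (D.mem_V.1 hs).2 (D.mem_V.1 ht).2)
      pos := fun s x z h1 h2 h3 a ha b hb hc => B.om_pos (TT_OO hy.1.1) h1 h2 h3 (D.mem_V.1 ha).2
        (D.mem_V.1 hb).2 (by rw [← map_add]; exact (D.mem_V.1 hc).2)
      dimK := fun t => (D.GSys_dimK B hy t).trans (hk _ (G.psi_TT B.met t (TT_OO hy.1.1))) }
  cω := by
    have c := (GSys_cA B.met).comp (f := fun y : (E × E) × CM m => y.1) continuousOn_fst
      fun _ hy => TT_OO (show _ ∈ XT μ g m from hy).1.1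
    refine continuousOn_clm_apply.2 fun a => continuousOn_clm_apply.2 fun b => ?_
    have ca := D.cev.clm_apply (continuousOn_const (c := a))
    have cb := D.cev.clm_apply (continuousOn_const (c := b))
    exact ((c.clm_apply ca).clm_apply cb.fst).sub ((c.clm_apply cb).clm_apply ca.fst)
  cT := D.GSys_cT B
  cV := CS.of_cl (fun p hp => (((D.GSys_cT B).cl hp.1).comp continuousWithinAt_fst
    fun _ hq => hq.1).inf ((cl_const ⊥).comap (D.GSys_cJ B p hp))) fun p hp => D.GSys_dimV B hp.1 p.2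
  iω r y hy := by
    ext a b
    rw [D.sw_apply, D.sw_apply, D.eqv r y hy, D.eqv r y hy]
    exact G.om_psi B.met r (TT_OO hy.1.1) _ _
  iT r y hy := D.GSys_iT B r hy
  iV r y hy := D.GSys_iV B r hy

end EV

end Pool.Agent.Work.MP_8c604c_gt.O
end
end

-- merged part: Pool.Agent.Work.MP_8c604c_gt.OS.Trans
section
/-!
Transport along a homotopy of projectors.
Plan. `Q` is uniformly continuous in the first variable on the compact set: there is `M` with `‖Q (a, y) - Q (b, y)‖ < 1` for `|a - b| ≤ 1 / M`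
(`IsCompact.uniformContinuousOn_of_continuous`).  Define `Θ j y` by recursion: `Θ 0 y = Q (1, y)`, `Θ (j + 1) y = Q (1 - (j + 1) / M, y) ∘ Θ j y`.
If `Q' v = v` and `Q v = 0` then `‖v‖ = ‖(Q' - Q) v‖ < ‖v‖` unless `v = 0`.
-/

set_option maxSynthPendingDepth 3
set_option linter.unusedSectionVars false

open Set Filter Topology Real Module
open scoped RealInnerProductSpace

noncomputable section
namespace Pool.Agent.Work.MP_8c604c_gt.OS

theorem transport {Y W : Type} [MetricSpace Y] [NormedAddCommGroup W] [NormedSpace ℝ W]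
    {s : Set Y} (hs : IsCompact s) {Q : ℝ × Y → W →L[ℝ] W} (hQ : ContinuousOn Q (Icc 0 1 ×ˢ s))
    (hi : ∀ p ∈ Icc (0 : ℝ) 1 ×ˢ s, ∀ v, Q p (Q p v) = Q p v) :
    ∃ Θ : Y → W →L[ℝ] W, ContinuousOn Θ s ∧
      (∀ y ∈ s, ∀ v, Q (0, y) (Θ y v) = Θ y v ∧ (Θ y v = 0 → Q (1, y) v = 0)) ∧
      ∀ y y', (∀ τ ∈ Icc (0 : ℝ) 1, Q (τ, y') = Q (τ, y)) → Θ y' = Θ y := by
  obtain ⟨δ, hδ, hu⟩ := Metric.uniformContinuousOn_iff.1
    ((isCompact_Icc.prod hs).uniformContinuousOn_of_continuous hQ) 1 one_pos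
  obtain ⟨M, hM⟩ := exists_nat_one_div_lt hδ
  have h0 : (0 : ℝ) < M + 1 := by positivity
  have hm : ∀ j : ℕ, j ≤ M + 1 → 1 - (j : ℝ) / (M + 1) ∈ Icc (0 : ℝ) 1 := fun j hj =>
    ⟨sub_nonneg.2 ((div_le_one h0).2 (by exact_mod_cast hj)), sub_le_self _ (by positivity)⟩
  have hc : ∀ τ ∈ Icc (0 : ℝ) 1, ContinuousOn (fun y => Q (τ, y)) s := fun τ hτ =>
    hQ.comp (continuousOn_const.prodMk continuousOn_id) fun y hy => ⟨hτ, hy⟩
  have key : ∀ j : ℕ, j ≤ M + 1 → ∃ Θ : Y → W →L[ℝ] W, ContinuousOn Θ s ∧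
      (∀ y ∈ s, ∀ v, Q (1 - (j : ℝ) / (M + 1), y) (Θ y v) = Θ y v ∧ (Θ y v = 0 → Q (1, y) v = 0)) ∧
      ∀ y y', (∀ τ ∈ Icc (0 : ℝ) 1, Q (τ, y') = Q (τ, y)) → Θ y' = Θ y := by
    intro j
    induction j with
    | zero =>
      intro _
      have h1 : (1 : ℝ) ∈ Icc (0 : ℝ) 1 := ⟨zero_le_one, le_rfl⟩
      refine ⟨fun y => Q (1, y), hc 1 h1, fun y hy v => ⟨?_, id⟩, fun y y' h => h 1 h1⟩
      rw [Nat.cast_zero, zero_div, sub_zero]
      exact hi (1, y) ⟨h1, hy⟩ v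
    | succ j ih =>
      intro hj
      obtain ⟨Θ, h1, h2, h3⟩ := ih (by omega)
      have ha := hm _ hj
      have hb := hm j (by omega)
      refine ⟨fun y => (Q (1 - ((j + 1 : ℕ) : ℝ) / (M + 1), y)).comp (Θ y), (hc _ ha).clm_comp h1,
        fun y hy v => ⟨hi _ ⟨ha, hy⟩ _, fun h => (h2 y hy v).2 (by_contra fun hne => ?_)⟩,
        fun y y' h => congrArg₂ ContinuousLinearMap.comp (h _ ha) (h3 y y' h)⟩
      have h4 := hu (1 - (j : ℝ) / (M + 1), y) ⟨hb, hy⟩ (1 - ((j + 1 : ℕ) : ℝ) / (M + 1), y) ⟨ha, hy⟩ (by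
        rw [Prod.dist_eq, dist_self, Real.dist_eq, Nat.cast_succ, sub_sub_sub_cancel_left, ← sub_div,
          add_sub_cancel_left, abs_of_pos (by positivity)]
        exact max_lt hM hδ)
      have h5 := (Q (1 - (j : ℝ) / (M + 1), y) - Q (1 - ((j + 1 : ℕ) : ℝ) / (M + 1), y)).le_opNorm (Θ y v)
      rw [sub_apply, (h2 y hy v).1, show Q (1 - ((j + 1 : ℕ) : ℝ) / (M + 1), y) (Θ y v) = 0 from h,
        sub_zero, ← dist_eq_norm] at h5
      exact (h5.trans_lt (mul_lt_of_lt_one_left (norm_pos_iff.2 hne) h4)).false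
  have h := key (M + 1) le_rfl
  rwa [Nat.cast_succ, div_self h0.ne', sub_self] at h

end Pool.Agent.Work.MP_8c604c_gt.OS
end
end

-- merged part: Pool.Agent.Work.MP_8c604c_gt.OS.PreT
section
/-!
Transport of the data along a homotopy of families.
Plan. Four applications of `transport`.  Keep `K` and `P`.
`h1 y = Θ₁ y ∘ h1 y` for `Q (τ, y) = ngP (op1 ..)` (`level1` for the family on `Icc 0 1 ×ˢ s`, `Flw.prod`): if `K a = a ≠ 0` then `Q (1, y) (h1 a) ≠ 0` (`IsNegP.pos`, `inner_opq`), so `Θ₁ (h1 a)` is a nonzero vector fixed by `Q (0, y)` (`IsNegP.neg`).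
The same for `h2` on `S2 s z` (`isCompact_S2`, `level2`; `(τ, (y, ζ)) ↦ ((τ, y), ζ)`).  `R y = Θ y ∘ R y` for `Q = (KK (V (τ, y)) 0).starProjection` (`cs_KK`).
`R' p = Θ p.1 ∘ R' p` for `Q = (V (τ, y) 0).starProjection - (KK (V (τ, y)) 0).starProjection`, the projector onto the orthogonal complement of `KK V 0` in `V 0`.
-/

set_option maxSynthPendingDepth 3
set_option linter.unusedSectionVars false

open Set Filter Topology Real Module
open scoped RealInnerProductSpace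

noncomputable section
namespace Pool.Agent.Work.MP_8c604c_gt.OS

variable {H : Type} [NormedAddCommGroup H] [InnerProductSpace ℝ H] [FiniteDimensional ℝ H]
  {Y : Type} [MetricSpace Y] {s : Set Y} {n k m : ℕ} {ω : Y → Bi H} {T : Y → Submodule ℝ H}
  {φ : ℝ → Y → Y} {z : Y → Fin (m + 1) → ℂ}

theorem PreT_neg {X W : Type} [MetricSpace X] [NormedAddCommGroup W] [InnerProductSpace ℝ W]
    [FiniteDimensional ℝ W] {s : Set X} (hs : IsCompact s) {l : ℕ} {O : ℝ × X → W →L[ℝ] W}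
    (hc : ContinuousOn (fun p => ngP W (O p)) (Icc 0 1 ×ˢ s))
    (hn : ∀ p ∈ Icc (0 : ℝ) 1 ×ˢ s, B.IsNegP l (O p) (ngP W (O p))) :
    ∃ Θ : X → W →L[ℝ] W, ContinuousOn Θ s ∧
      (∀ y ∈ s, ∀ v, ⟪O (1, y) v, v⟫ < 0 → ⟪O (0, y) (Θ y v), Θ y v⟫ < 0) ∧
      ∀ y y', (∀ τ ∈ Icc (0 : ℝ) 1, O (τ, y') = O (τ, y)) → Θ y' = Θ y := by
  obtain ⟨Θ, h1, h2, h3⟩ := transport hs hc fun p hp => (hn p hp).idem
  refine ⟨Θ, h1, fun y hy v hv => ?_, fun y y' h => h3 y y' fun τ hτ => congrArg (ngP W) (h τ hτ)⟩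
  refine (hn (0, y) ⟨⟨le_rfl, zero_le_one⟩, hy⟩).neg _ (fun h => ?_) (h2 y hy v).1
  exact hv.not_ge ((hn (1, y) ⟨⟨zero_le_one, le_rfl⟩, hy⟩).pos v ((h2 y hy v).2 h))

theorem PreT_sub {A B : ℝ × Y → Submodule ℝ H} (hs : IsCompact s) (hA : CS A (Icc 0 1 ×ˢ s))
    (hB : CS B (Icc 0 1 ×ˢ s)) (hle : ∀ p, A p ≤ B p) :
    ∃ Θ : Y → H →L[ℝ] H, ContinuousOn Θ s ∧ ∀ y ∈ s, ∀ v, Θ y v ∈ B (0, y) ∧
      (v ∈ B (1, y) → Θ y v ∈ A (0, y) → v ∈ A (1, y)) := by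
  have e1 : ∀ p v, (A p).starProjection ((B p).starProjection v) = (A p).starProjection v :=
    fun p v => congrArg (fun f : H →L[ℝ] H => f v)
      (Submodule.starProjection_comp_starProjection_of_le (hle p))
  have e2 : ∀ p v, v ∈ A p → (A p).starProjection v = v := fun p v =>
    Submodule.starProjection_eq_self_iff.2
  have e3 : ∀ p v, v ∈ B p → (B p).starProjection v = v := fun p v =>
    Submodule.starProjection_eq_self_iff.2
  have m2 : ∀ p v, (A p).starProjection v ∈ A p := fun p v => Submodule.starProjection_apply_mem _ v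
  have m3 : ∀ p v, (B p).starProjection v ∈ B p := fun p v => Submodule.starProjection_apply_mem _ v
  obtain ⟨Θ, h1, h2, -⟩ := transport (Q := fun p => (B p).starProjection - (A p).starProjection) hs
    (ContinuousOn.sub hB hA) fun p _ v => by
      simp only [sub_apply]
      rw [e3 p _ (sub_mem (m3 p v) (hle p (m2 p v))), map_sub, e1, e2 p _ (m2 p v), sub_self, sub_zero]
  refine ⟨Θ, h1, fun y hy v => ⟨?_, fun hv h => ?_⟩⟩
  · rw [← (h2 y hy v).1]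
    exact sub_mem (m3 _ _) (hle _ (m2 _ _))
  · have h4 := (h2 y hy v).1
    simp only [sub_apply] at h4
    rw [e2 _ _ h, e3 _ _ (hle _ h), sub_self] at h4
    have h5 := (h2 y hy v).2 h4.symm
    simp only [sub_apply] at h5
    rw [e3 _ _ hv, sub_eq_zero] at h5
    rw [h5]
    exact m2 _ _

theorem Pre.transport {V' : ℝ × Y → ℝ → Submodule ℝ H} (L : Flw s φ z)
    (F : Fam n k (Icc (0 : ℝ) 1 ×ˢ s) (fun r p => (p.1, φ r p.2)) (fun p => ω p.2) (fun p => T p.2) V')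
    {A A' : Type} [NormedAddCommGroup A] [InnerProductSpace ℝ A] [FiniteDimensional ℝ A]
    [NormedAddCommGroup A'] [InnerProductSpace ℝ A'] [FiniteDimensional ℝ A']
    (D : Pre n k s φ z ω (fun y => V' (1, y)) A A') {V : Y → ℝ → Submodule ℝ H}
    (e : ∀ y ∈ s, V' (0, y) = V y) : Nonempty (Pre n k s φ z ω V A A') := by
  obtain ⟨-, -, a1, a2, a3⟩ := F.level1 L.prod
  obtain ⟨-, -, b1, b2, b3⟩ := F.level2 L.prod L.prod.adm
  obtain ⟨Θ₁, c1, n1, i1⟩ := PreT_neg L.cpt a1 a3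
  have hm : MapsTo (fun q : ℝ × Y × (Fin (m + 1) → ℂ) => ((q.1, q.2.1), q.2.2)) (Icc 0 1 ×ˢ S2 s z)
      (S2 (Icc (0 : ℝ) 1 ×ˢ s) fun p => z p.2) := fun q hq => ⟨⟨hq.1, hq.2.1⟩, hq.2.2⟩
  have b4 := b1.comp' (by fun_prop) hm
  obtain ⟨Θ₂, c2, n2, i2⟩ := PreT_neg (isCompact_S2 L.cpt L.cz)
    (O := fun q => op2 (ω q.2.1) (V' (q.1, q.2.1)) (wt (z q.2.1)) q.2.2)
    b4 fun q hq => b3 ((q.1, q.2.1), q.2.2) (hm hq)
  obtain ⟨Θ₃, c3, n3⟩ := PreT_sub (A := fun _ => ⊥) L.cpt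
    (continuousOn_const (c := (⊥ : Submodule ℝ H).starProjection)) (F.toFam0.cs_KK 0) fun _ => bot_le
  obtain ⟨Θ₄, c4, n4⟩ := PreT_sub L.cpt (F.toFam0.cs_KK 0)
    (F.toFam0.cs_V (τ := fun _ => 0) continuousOn_const) fun _ => inf_le_left
  exact ⟨{
    K := D.K, cK := D.cK, idK := D.idK, syK := D.syK, rkK := D.rkK, invK := D.invK
    R := fun y => (Θ₃ y).comp (D.R y)
    cR := c3.clm_comp D.cR
    memR := fun y hy a _ => e y hy ▸ (n3 y hy _).1
    injR := fun y hy a ha h => D.injR y hy a ha ((n3 y hy _).2 (D.memR y hy a ha) h)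
    h1 := fun y => (Θ₁ y).comp (D.h1 y)
    ch1 := c1.clm_comp D.ch1
    invh1 := fun r y hy => congrArg₂ ContinuousLinearMap.comp
      (i1 y _ fun τ hτ => a2 r (τ, y) ⟨hτ, hy⟩) (D.invh1 r y hy)
    neg1 := fun y hy a ha h0 => by
      have h := n1 y hy (D.h1 y a) ((inner_opq _ _ _ _ _ _).trans_lt (D.neg1 y hy a ha h0))
      rw [← e y hy]
      exact (inner_opq _ _ _ _ _ _).symm.trans_lt h
    P := D.P, cP := D.cP, idP := D.idP, rkP := D.rkP, invP := D.invP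
    R' := fun p => (Θ₄ p.1).comp (D.R' p)
    cR' := (c4.comp continuousOn_fst fun p hp => hp.1).clm_comp D.cR'
    memR' := fun p hp a _ => e p.1 hp.1 ▸ (n4 p.1 hp.1 _).1
    injR' := fun p hp a ha h => D.injR' p hp a ha ((n4 p.1 hp.1 _).2 (D.memR' p hp a ha)
      (by rw [← e p.1 hp.1] at h; exact h))
    h2 := fun p => (Θ₂ p).comp (D.h2 p)
    ch2 := c2.clm_comp D.ch2
    invh2 := fun r p hp v a => by
      rw [i2 p (φ2 φ r p) fun τ hτ => b2 r ((τ, p.1), p.2) ⟨⟨hτ, hp.1⟩, hp.2⟩]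
      exact congrArg (Θ₂ p) (D.invh2 r p hp v a)
    neg2 := fun p hp v k1 k2 k3 h0 => by
      have h := n2 p hp (D.h2 p v) ((inner_opq _ _ _ _ _ _).trans_lt (D.neg2 p hp v k1 k2 k3 h0))
      rw [← e p.1 hp.1]
      exact (inner_opq _ _ _ _ _ _).symm.trans_lt h }⟩

end Pool.Agent.Work.MP_8c604c_gt.OS
end
end

-- merged part: Pool.Agent.Work.MP_8c604c_gt.OS.Out
section
/-!
The output of the abstract part.
Plan. `Pre.out`: `F1 y = fr1 (V y) (z y) ∘ h1 y`, `F2 p = frc .. ∘ h2 p` (`level1`, `level2`, `frc_mem`, `frc0_mem`, `frc0_sum`).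
`exists_out`: `homotopy`, restrict the family to `τ = 1` (`Fam0.comp`), `pre_std`, `Pre.transport`, `Pre.out`.
-/

set_option maxSynthPendingDepth 3
set_option linter.unusedSectionVars false

open Set Filter Topology Real Module
open scoped RealInnerProductSpace

noncomputable section
namespace Pool.Agent.Work.MP_8c604c_gt.OS

variable {H : Type} [NormedAddCommGroup H] [InnerProductSpace ℝ H] [FiniteDimensional ℝ H]
  {Y : Type} [MetricSpace Y] {s : Set Y} {n k : ℕ} {ω : Y → Bi H} {T : Y → Submodule ℝ H}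
  {V : Y → ℝ → Submodule ℝ H}
  {m : ℕ} {φ : ℝ → Y → Y} {z : Y → Fin (m + 1) → ℂ}

theorem Out_zero {ζ : Fin (m + 1) → ℂ} {b : Te m} (h : ζ b.1 = 0) (U : ℝ → Submodule ℝ H)
    (t : Te m → ℝ) (x : WW (Te m) H) : frc U (wt ζ) t x b = 0 := by
  rw [frc_apply, wt, h, norm_zero, zero_smul]

theorem Pre.out (F : Fam n k s φ ω T V) (L : Flw s φ z)
    {A A' : Type} [NormedAddCommGroup A] [InnerProductSpace ℝ A] [FiniteDimensional ℝ A]
    [NormedAddCommGroup A'] [InnerProductSpace ℝ A'] [FiniteDimensional ℝ A']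
    (D : Pre n k s φ z ω V A A') : Nonempty (Out n k s φ z ω V A A') := by
  obtain ⟨c1, i1, -⟩ := F.level1 L
  obtain ⟨c2, i2, -⟩ := F.level2 L L.adm
  exact ⟨{
    K := D.K
    cK := D.cK
    idK := D.idK
    syK := D.syK
    rkK := D.rkK
    invK := D.invK
    R := D.R
    cR := D.cR
    memR := D.memR
    injR := D.injR
    F1 := fun y => (fr1 (V y) (z y)).comp (D.h1 y)
    cF1 := c1.clm_comp D.ch1
    invF1 := fun r y hy => by rw [i1 r y hy, D.invh1 r y hy]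
    memF1 := fun y _ a b => frc0_mem _ _ _ _ b
    zeroF1 := fun y _ a b h => Out_zero h _ _ _
    sumF1 := fun y _ a => frc0_sum _ _ _ _
    neg1 := D.neg1
    P := D.P
    cP := D.cP
    idP := D.idP
    rkP := D.rkP
    invP := D.invP
    R' := D.R'
    cR' := D.cR'
    memR' := D.memR'
    injR' := D.injR'
    F2 := fun p => (frc (V p.1) (wt (z p.1)) (tm2 p.2)).comp (D.h2 p)
    cF2 := c2.clm_comp D.ch2
    invF2 := fun r p hp v a => by
      rw [ContinuousLinearMap.comp_apply, ContinuousLinearMap.comp_apply, i2 r p hp,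
        D.invh2 r p hp]
    memF2 := fun p _ v b => frc_mem _ _ _ _ b
    zeroF2 := fun p hp v b h => Out_zero (by rw [← hp.2, Pi.mul_apply, h, zero_mul]) _ _ _
    neg2 := D.neg2 }⟩

theorem Fam.exists_out (F : Fam n k s φ ω T V) (L : Flw s φ z) :
    ∃ N N' : ℕ, Nonempty (Out n k s φ z ω V (EuclideanSpace ℝ (Fin N)) (EuclideanSpace ℝ (Fin N'))) := by
  obtain ⟨V', F', e, hs⟩ := F.homotopy L
  have h1 : ∀ y ∈ s, ((1 : ℝ), y) ∈ Icc (0 : ℝ) 1 ×ˢ s := fun y hy => ⟨right_mem_Icc.2 zero_le_one, hy⟩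
  have F1 : Fam n k s φ ω T fun y => V' (1, y) :=
    { toFam0 := F'.toFam0.comp (g := fun y => ((1 : ℝ), y)) (by fun_prop) h1
      iω := F.iω
      iT := F.iT
      iV := fun r y hy t => F'.iV r (1, y) (h1 y hy) t }
  obtain ⟨N, N', ⟨D⟩⟩ := F1.pre_std L hs
  obtain ⟨D'⟩ := D.transport L F' e
  exact ⟨N, N', D'.out F L⟩

end Pool.Agent.Work.MP_8c604c_gt.OS
end
end

-- merged part: Pool.Agent.Work.MP_8c604c_gt.OS.NDa
section
/-!
The negative fields: definitions and the description along a geodesic.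
Plan. `fld_fl`: `sq2_f2`, the invariance `invF1`, `invF2` (`rot (Circle.exp t) = rt t`, `φ2 G.f1 t (sq2 x, x.2) = (sq2 (f2 t x), (f2 t x).2)`), `D.eqv`, the chain rule `hL`, and the times:
`tm1_sq`, `tm2_flow` where `ζ b.1 ≠ 0` (`saw_int`, `sgp_int`); where `ζ b.1 = 0` the forces vanish (`zeroF1`, `zeroF2`).
`cX`: each term is `c (u z) • B z` with `B` continuous; `cont_coef` with `u z = -tm1 ..` or `-tm2 ..` (`wt_tm1`, `wt_tm2` or `arg_branch`); if the sine vanishes the force lies in `V y 0` (`per_int`), so `JJ 0 x (ev f) = 0`.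
`bd`: `|saw|, |sgp| ≤ 1/2` and continuous families of linear maps on the compact set `XT` are bounded.
-/

set_option maxSynthPendingDepth 3
set_option linter.unusedSectionVars false

open Set Filter Topology MeasureTheory
open scoped ContDiff

noncomputable section
namespace Pool.Agent.Work.MP_8c604c_gt.O

open OT OS Real
open T (RN cs)

variable {E : Type} [NormedAddCommGroup E] [InnerProductSpace ℝ E] [FiniteDimensional ℝ E] {d : ℕ}
  {μ : Model E d} {g : Met E} {G : Geo μ g} {m : ℕ}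

namespace EV
variable (D : EV G m) {n k N N' : ℕ} (O : Out n k (XT μ g m) G.f1 Prod.snd D.sw D.V (RN N) (RN N'))

/-- The periodic part, for `L = G.JJ 0` or `L = G.JD 0`. -/
def X1 (L : E × E → E × E →L[ℝ] E) (y : (E × E) × CM m) : RN N →L[ℝ] E :=
  ∑ b, saw (-tm1 y.2 b) •
    (L y.1).comp ((D.ev y).comp ((ContinuousLinearMap.proj b).comp (O.F1 y)))

/-- The antiperiodic part. -/
def X2 (L : E × E → E × E →L[ℝ] E) (x : (E × E) × CM m) : (RN N × RN N) × RN N' →L[ℝ] E :=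
  ∑ b, sgp (-tm2 x.2 b) •
    (L x.1).comp ((D.ev (sq2 x)).comp ((ContinuousLinearMap.proj b).comp (O.F2 (sq2 x, x.2))))

/-- The bundle `P` on the parameter space. -/
def P2 (x : (E × E) × CM m) : RN N' →L[ℝ] RN N' := O.P (sq2 x, x.2)

/-- The jumps of the periodic part. -/
def d1 (z : ((E × E) × CM m) × FB N N') (b : Te m) : E × E := D.ev (sq2 z.1) (O.F1 (sq2 z.1) z.2.1 b)

/-- The jumps of the antiperiodic part. -/
def d2 (z : ((E × E) × CM m) × FB N N') (b : Te m) : E × E :=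
  D.ev (sq2 z.1) (O.F2 (sq2 z.1, z.1.2) z.2.2 b)

theorem sq2_S2 {x : (E × E) × CM m} (hx : x ∈ XT μ g m) :
    (sq2 x, x.2) ∈ S2 (XT μ g m) (Prod.snd : (E × E) × CM m → CM m) := by
  exact ⟨sq2_mem hx, rfl⟩

theorem NDa_fld (L : E × E → E × E →L[ℝ] E) (z : ((E × E) × CM m) × FB N N') :
    fld (D.X1 O L) (D.X2 O L) z = ∑ b, (saw (-tm2 z.1.2 b) • L z.1.1 (D.d1 O z b) +
      sgp (-tm2 z.1.2 b) • L z.1.1 (D.d2 O z b)) := by
  rw [Finset.sum_add_distrib]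
  simp only [fld, X1, X2, sum_apply, smul_apply, ContinuousLinearMap.comp_apply,
    ContinuousLinearMap.proj_apply]
  refine congrArg₂ (· + ·) (Finset.sum_congr rfl fun b _ => ?_) rfl
  obtain ⟨j, hj⟩ := tm1_sq z.1.2 b
  have e : -tm1 (sq2 z.1).2 b = -tm2 z.1.2 b + (-j : ℤ) * π := by
    rw [show (sq2 z.1).2 = z.1.2 * z.1.2 from rfl, hj]
    push_cast
    ring
  rw [e, saw_int]
  rfl

theorem NDa_zero {z : ((E × E) × CM m) × FB N N'} (hz : z.1 ∈ XT μ g m) {b : Te m}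
    (h : z.1.2 b.1 = 0) : D.d1 O z b = 0 ∧ D.d2 O z b = 0 := by
  constructor
  · rw [d1, O.zeroF1 _ (sq2_mem hz) _ _ (by simp [sq2, h]), map_zero]
  · rw [d2, O.zeroF2 _ (sq2_S2 hz) _ _ h, map_zero]

theorem NDa_rot {A : Type} [AddCommGroup A] [Module ℝ A] (t : ℝ) (v : A × A) :
    rot (Circle.exp t) v = rt t v := by
  simp only [rot, rt, Circle.coe_exp, Complex.exp_ofReal_mul_I_re, Complex.exp_ofReal_mul_I_im]

theorem NDa_phi (t : ℝ) (x : (E × E) × CM m) :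
    (sq2 (G.f2 t x), (G.f2 t x).2) = φ2 G.f1 t (sq2 x, x.2) := by
  rw [G.sq2_f2]
  rfl

theorem NDa_d {z : ((E × E) × CM m) × FB N N'} (hz : z.1 ∈ XT μ g m) (t : ℝ) (b : Te m) :
    D.d1 O (G.fl t z) b = fderiv ℝ (G.psi t) z.1.1 (D.d1 O z b) ∧
      D.d2 O (G.fl t z) b = fderiv ℝ (G.psi t) z.1.1 (D.d2 O z b) := by
  constructor
  · change D.ev (sq2 (G.f2 t z.1)) (O.F1 (sq2 (G.f2 t z.1)) z.2.1 b) = _
    rw [G.sq2_f2, O.invF1 t _ (sq2_mem hz), D.eqv t _ (sq2_mem hz)]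
    rfl
  · change D.ev (sq2 (G.f2 t z.1)) (O.F2 (sq2 (G.f2 t z.1), (G.f2 t z.1).2)
      (rot (Circle.exp t) z.2.2.1, z.2.2.2) b) = _
    rw [NDa_phi, NDa_rot, O.invF2 t _ (sq2_S2 hz), G.sq2_f2, D.eqv t _ (sq2_mem hz)]
    rfl

theorem NDa_sq : Continuous (sq2 : (E × E) × CM m → (E × E) × CM m) :=
  continuous_fst.prodMk (continuous_snd.mul continuous_snd)

theorem NDa_cd (b : Te m) :
    ContinuousOn (fun z => D.d1 O z b) {z : ((E × E) × CM m) × FB N N' | z.1 ∈ XT μ g m} ∧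
      ContinuousOn (fun z => D.d2 O z b) {z : ((E × E) × CM m) × FB N N' | z.1 ∈ XT μ g m} := by
  have h0 : Continuous fun z : ((E × E) × CM m) × FB N N' => sq2 z.1 := NDa_sq.comp continuous_fst
  have h1 := D.cev.comp h0.continuousOn
    (s := {z : ((E × E) × CM m) × FB N N' | z.1 ∈ XT μ g m}) fun z hz => sq2_mem hz
  have h2 := O.cF1.comp h0.continuousOn
    (s := {z : ((E × E) × CM m) × FB N N' | z.1 ∈ XT μ g m}) fun z hz => sq2_mem hz
  have h3 := O.cF2.comp (h0.prodMk continuous_fst.snd).continuousOn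
    (s := {z : ((E × E) × CM m) × FB N N' | z.1 ∈ XT μ g m}) fun z hz => sq2_S2 hz
  exact ⟨h1.clm_apply ((continuous_apply b).comp_continuousOn
      (h2.clm_apply continuous_snd.fst.continuousOn)),
    h1.clm_apply ((continuous_apply b).comp_continuousOn
      (h3.clm_apply continuous_snd.snd.continuousOn))⟩

theorem NDa_saw (x : ℝ) (j : ℤ) : saw (x + j * (2 * π)) = saw x := by
  rw [← saw_int x (2 * j)]
  congr 1
  push_cast
  ring

variable (B : Bl g G) {z : ((E × E) × CM m) × FB N N'}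
include B

theorem fld_fl (L : ℝ → E × E → E × E →L[ℝ] E)
    (hL : ∀ t, ∀ x ∈ μ.OO, ∀ δ, L t x δ = L 0 (G.psi t x) (fderiv ℝ (G.psi t) x δ))
    (hz : z.1 ∈ XT μ g m) (t : ℝ) :
    fld (D.X1 O (L 0)) (D.X2 O (L 0)) (G.fl t z) =
      brk (fun s => L s z.1.1) (tm2 z.1.2) (D.d1 O z) (D.d2 O z) t := by
  rw [NDa_fld, brk]
  refine Finset.sum_congr rfl fun b _ => ?_
  obtain ⟨e1, e2⟩ := D.NDa_d O hz t b
  have hx : z.1.1 ∈ μ.OO := Model.TT_OO hz.1.1
  rw [e1, e2, hL t _ hx, hL t _ hx]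
  by_cases h : z.1.2 b.1 = 0
  · obtain ⟨a1, a2⟩ := D.NDa_zero O hz h
    simp only [a1, a2, map_zero, smul_zero]
  · obtain ⟨j, hj⟩ := tm2_flow z.1.2 t h
    have e : -tm2 (G.fl t z).1.2 b = t - tm2 z.1.2 b + (-j : ℤ) * (2 * π) := by
      change -tm2 ((Circle.exp t : ℂ) • z.1.2) b = _
      rw [Int.cast_neg]
      linarith
    rw [e, NDa_saw, sgp_int]
    rfl

theorem d_spec (hn : ∀ y ∈ XT μ g m, Sys n k (D.sw y) (D.T y) (D.V y)) (hz : z.1 ∈ XT μ g m) :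
    (∀ b, G.JJ (tm2 z.1.2 b) z.1.1 (D.d1 O z b) = 0) ∧
      (∀ b, G.JJ (tm2 z.1.2 b) z.1.1 (D.d2 O z b) = 0) ∧ ∑ b, D.d1 O z b = 0 := by
  refine ⟨fun b => ?_, fun b => (O.memF2 _ (sq2_S2 hz) z.2.2 b).2, ?_⟩
  · have h := O.memF1 _ (sq2_mem hz) z.2.1 b
    obtain ⟨j, hj⟩ := tm1_sq z.1.2 b
    rw [show (sq2 z.1).2 = z.1.2 * z.1.2 from rfl, hj, (hn _ (sq2_mem hz)).toSys0.per_int] at h
    exact h.2
  · simp only [d1]
    rw [← map_sum, O.sumF1 _ (sq2_mem hz), map_zero]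

theorem fl_mem (t : ℝ) : MapsTo (G.fl t) (tt2 (XT μ g m) O.K (D.P2 O)) (tt2 (XT μ g m) O.K (D.P2 O)) := by
  rintro z ⟨hz, h1, h2, h3, h4⟩
  have e : O.K (sq2 (G.f2 t z.1)) = O.K (sq2 z.1) := by
    rw [G.sq2_f2, O.invK t _ (sq2_mem hz)]
  refine ⟨G.f2_mem B.met t hz, ?_, ?_, ?_, ?_⟩
  · exact (DFunLike.congr_fun e _).trans h1
  · refine (DFunLike.congr_fun e _).trans ?_
    simp only [Geo.fl, rot, map_sub, map_smul, h2, h3]
  · refine (DFunLike.congr_fun e _).trans ?_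
    simp only [Geo.fl, rot, map_add, map_smul, h2, h3]
  · change O.P (sq2 (G.f2 t z.1), (G.f2 t z.1).2) z.2.2.2 = z.2.2.2
    rw [NDa_phi, O.invP t _ (sq2_S2 hz)]
    exact h4

theorem NDa_coef {c : ℝ → ℝ} (c1 : ∀ x, |c x| ≤ 1) (c2 : ∀ x, sin x ≠ 0 → ContinuousAt c x)
    (c3 : ∀ x (j : ℤ), c (x + j * (2 * π)) = c x) {b : Te m}
    {δ : ((E × E) × CM m) × FB N N' → E × E} (hδ : ContinuousOn δ {z | z.1 ∈ XT μ g m})
    (h0 : ∀ z : ((E × E) × CM m) × FB N N', z.1 ∈ XT μ g m → z.1.2 b.1 = 0 → δ z = 0)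
    (h1 : ∀ z : ((E × E) × CM m) × FB N N', z.1 ∈ XT μ g m → G.JJ (tm2 z.1.2 b) z.1.1 (δ z) = 0) :
    ContinuousOn (fun z : ((E × E) × CM m) × FB N N' => c (-tm2 z.1.2 b) • G.JJ 0 z.1.1 (δ z))
      {z | z.1 ∈ XT μ g m} := by
  have hJ : ContinuousOn (fun z : ((E × E) × CM m) × FB N N' => G.JJ 0 z.1.1)
      {z | z.1 ∈ XT μ g m} :=
    (G.contDiffOn_JJ B.met).continuousOn.comp
      (continuous_const.prodMk continuous_fst.fst).continuousOn fun z hz => Model.TT_OO hz.1.1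
  refine cont_coef c1 c2 c3 (hJ.clm_apply hδ) fun z hz => ?_
  by_cases h : z.1.2 b.1 = 0
  · left
    rw [h0 z hz h, map_zero]
  by_cases hs : sin (-tm2 z.1.2 b) = 0
  · left
    rw [sin_neg, neg_eq_zero, sin_eq_zero_iff] at hs
    obtain ⟨j, hj⟩ := hs
    have e := Function.Periodic.int_mul (f := fun t => G.JJ t z.1.1)
      (fun t => B.JJ_add_pi t (Model.TT_OO hz.1.1)) j 0
    rw [zero_add, hj] at e
    exact (DFunLike.congr_fun e _).symm.trans (h1 z hz)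
  · obtain ⟨τ, t1, t2⟩ := arg_branch (u := fun z : ((E × E) × CM m) × FB N N' => z.1.2 b.1)
      (s := {z | z.1 ∈ XT μ g m}) (y := z)
      ((continuous_apply b.1).comp continuous_fst.snd).continuousWithinAt h
    refine Or.inr ⟨hs, fun y => τ y - (b.2 : ℕ) * (π / 4), t1.sub continuousWithinAt_const, ?_⟩
    filter_upwards [t2] with y ⟨j, hj⟩
    refine ⟨j, ?_⟩
    rw [tm2, hj]
    ring

theorem cX (hn : ∀ y ∈ XT μ g m, Sys n k (D.sw y) (D.T y) (D.V y)) :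
    ContinuousOn (fld (D.X1 O (G.JJ 0)) (D.X2 O (G.JJ 0))) {z | z.1 ∈ XT μ g m} := by
  rw [funext (D.NDa_fld O (G.JJ 0))]
  refine continuousOn_finsetSum _ fun b _ => ContinuousOn.add ?_ ?_
  · exact NDa_coef B (fun x => (abs_saw_le x).trans (by norm_num)) (fun x => continuousAt_saw)
      NDa_saw (D.NDa_cd O b).1 (fun z hz h => (D.NDa_zero O hz h).1)
      fun z hz => (D.d_spec O B hn hz).1 b
  · exact NDa_coef B (fun x => (abs_sgp_le x).trans (by norm_num)) (fun x => continuousAt_sgp)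
      sgp_int (D.NDa_cd O b).2 (fun z hz h => (D.NDa_zero O hz h).2)
      fun z hz => (D.d_spec O B hn hz).2.1 b

theorem bd (L : E × E → E × E →L[ℝ] E) (hL : ContinuousOn L (UT μ g)) :
    ∃ C : ℝ, ∀ z : ((E × E) × CM m) × FB N N', z.1 ∈ XT μ g m →
      ‖fld (D.X1 O L) (D.X2 O L) z‖ ≤ C * ‖z.2‖ := by
  have hc := B.met.isCompact_XT m
  obtain ⟨C1, h1⟩ := B.met.isCompact_UT.exists_bound_of_continuousOn hL
  obtain ⟨C2, h2⟩ := hc.exists_bound_of_continuousOn D.cev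
  obtain ⟨C3, h3⟩ := hc.exists_bound_of_continuousOn O.cF1
  obtain ⟨C4, h4⟩ := (isCompact_S2 hc continuous_snd.continuousOn).exists_bound_of_continuousOn O.cF2
  refine ⟨∑ _b : Te m, (C1 * (C2 * C3) + C1 * (C2 * C4)), fun z hz => ?_⟩
  rw [NDa_fld, Finset.sum_mul]
  refine norm_sum_le_of_le _ fun b _ => ?_
  have key : ∀ (c C : ℝ) (f : Te m → RN D.M), |c| ≤ 1 / 2 → ‖f‖ ≤ C * ‖z.2‖ →
      ‖c • L z.1.1 (D.ev (sq2 z.1) (f b))‖ ≤ C1 * (C2 * C) * ‖z.2‖ := fun c C f hc hf => by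
    have a1 := ((L z.1.1).le_of_opNorm_le_of_le (h1 _ hz.1) ((D.ev (sq2 z.1)).le_of_opNorm_le_of_le
      (h2 _ (sq2_mem hz)) ((norm_le_pi_norm f b).trans hf)))
    rw [norm_smul, Real.norm_eq_abs]
    nlinarith [norm_nonneg (L z.1.1 (D.ev (sq2 z.1) (f b))), abs_nonneg c]
  rw [add_mul]
  exact norm_add_le_of_le
    (key _ _ _ (abs_saw_le _) ((O.F1 _).le_of_opNorm_le_of_le (h3 _ (sq2_mem hz)) (norm_fst_le _)))
    (key _ _ _ (abs_sgp_le _) ((O.F2 _).le_of_opNorm_le_of_le (h4 _ (sq2_S2 hz)) (norm_snd_le _)))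

end EV

end Pool.Agent.Work.MP_8c604c_gt.O
end
end

-- merged part: Pool.Agent.Work.MP_8c604c_gt.OS.Bil
section
/-!
The derivative of the fibration of the tangent spheres by the spheres of `WS` is a nonsingular bilinear map.
Plan. For `x ∈ TT` let `Pw x u = KP x u + g x.1 (vel x) u • vel x` be the `g`-orthogonal projector onto `WS x`, and `C x = nrm x - KP x` the projector onto its complement in the tangent space.
Both depend only on `x.1` and `WS x`; if `y.1 = x.1` and `Z (π/2) y = Z (π/2) x` then `WS y = WS x` (`link_iff`, scaling, dimension) and `WS (psi (π/2) y) = WS (psi (π/2) x)` (the same at the cut point, `Z_add_pi`).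
`JM x` is injective on the range of `C x` and its range is the range of `C x'`, `x' = psi (π/2) x` (it is tangent, orthogonal to the velocity by `al_inv` and to `KS x'` by `star`, `idx_lag`; count dimensions).
`cont_solve` gives `S x` with `C x (S x X) = S x X` and `JM x (S x X) = C x' X`.  Put `b x X w = C x (fderiv (fun y => Pw (R y)) x (0, S x X) (Pw x w))` (`contDiffOn_KP_R`).
Key identity: for `w ∈ WS x`, `w ≠ 0`: `JM (x.1, w) (b x X w) = C x' X`; differentiate `Z (π/2) (x.1, Pw (R (x.1, x.2 + s u)) w) = Z (π/2) (x.1, x.2 + s u)` at `s = 0` (`link_iff`, `Link_hasDerivAt_Z`).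
The identity determines `b x X w` in the range of `C x`, which gives the invariance; if `b x X w ∈ WS x` then it is zero and `C x' X = 0`.
`cont_solve`: define `S x` by linear algebra; for fixed `w` and `x_j → x` the vectors `S x_j w` are bounded (normalise otherwise) with unique cluster point; `continuousOn_clm_apply`.
-/

set_option maxSynthPendingDepth 3
set_option linter.unusedSectionVars false

open Set Filter Topology MeasureTheory
open scoped ContDiff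

noncomputable section
namespace Pool.Agent.Work.MP_8c604c_gt.O

open OT OS Real
open T (RN cs)

variable {E : Type} [NormedAddCommGroup E] [InnerProductSpace ℝ E] [FiniteDimensional ℝ E] {d : ℕ}
  {μ : Model E d} {g : Met E} {G : Geo μ g} {m : ℕ}

theorem cont_solve {X U V W : Type} [MetricSpace X] [NormedAddCommGroup U] [NormedSpace ℝ U]
    [FiniteDimensional ℝ U] [NormedAddCommGroup V] [NormedSpace ℝ V] [FiniteDimensional ℝ V]
    [NormedAddCommGroup W] [NormedSpace ℝ W] [FiniteDimensional ℝ W] {s : Set X}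
    {A : X → U →L[ℝ] V} {C : X → W →L[ℝ] V} {Z : X → Submodule ℝ U} (hA : ContinuousOn A s)
    (hC : ContinuousOn C s) (hZ : ∀ x ∈ s, Cl Z s x) (hi : ∀ x ∈ s, ∀ u ∈ Z x, A x u = 0 → u = 0)
    (he : ∀ x ∈ s, ∀ w, ∃ u ∈ Z x, A x u = C x w) :
    ∃ S : X → W →L[ℝ] U, ContinuousOn S s ∧ ∀ x ∈ s, ∀ w, S x w ∈ Z x ∧ A x (S x w) = C x w := by
  have uq : ∀ x ∈ s, ∀ u ∈ Z x, ∀ u' ∈ Z x, A x u = A x u' → u = u' := fun x hx u hu u' hu' e =>
    sub_eq_zero.1 (hi x hx _ (sub_mem hu hu') (by rw [map_sub, e, sub_self]))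
  have ex : ∀ x, ∃ S : W →L[ℝ] U, x ∈ s → ∀ w, S w ∈ Z x ∧ A x (S w) = C x w := fun x => by
    by_cases hx : x ∈ s
    · choose f h1 h2 using he x hx
      let L : W →ₗ[ℝ] U :=
        { toFun := f
          map_add' := fun a b => uq x hx _ (h1 _) _ (add_mem (h1 a) (h1 b))
            (by rw [map_add, h2, h2, h2, map_add])
          map_smul' := fun r a => uq x hx _ (h1 _) _ (Submodule.smul_mem _ r (h1 a))
            (by rw [map_smul, h2, h2, map_smul]; rfl) }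
      exact ⟨LinearMap.toContinuousLinearMap L, fun _ w => ⟨h1 w, h2 w⟩⟩
    · exact ⟨0, fun h => absurd h hx⟩
  choose S hS using ex
  refine ⟨S, continuousOn_clm_apply.2 fun w x₀ hx₀ => ?_, hS⟩
  refine (tendsto_iff_ultrafilter _ _ _).2 fun 𝒰 h𝒰 => ?_
  have hs : ∀ᶠ x in (𝒰 : Filter X), x ∈ s := h𝒰 self_mem_nhdsWithin
  have hx : Tendsto (fun x : X => x) 𝒰 (𝓝 x₀) := h𝒰.trans nhdsWithin_le_nhds
  let t : X → ℝ := fun x => (‖S x w‖ + 1)⁻¹
  have tp : ∀ x, 0 < t x := fun x => by positivity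
  have t1 : ∀ x, ‖t x • S x w‖ + t x = 1 := fun x => by
    rw [norm_smul, Real.norm_of_nonneg (tp x).le, ← mul_add_one]
    exact inv_mul_cancel₀ (by positivity)
  obtain ⟨⟨v, τ⟩, -, hv⟩ := ((isCompact_closedBall (0 : U) 1).prod
    (isCompact_Icc (a := (0 : ℝ)) (b := 1))).ultrafilter_le_nhds'
    (𝒰.map fun x => (t x • S x w, t x)) (Filter.mem_map.2 (Filter.univ_mem' fun x =>
      ⟨mem_closedBall_zero_iff.2 (by linarith [t1 x, tp x]),
        (tp x).le, by linarith [t1 x, norm_nonneg (t x • S x w)]⟩))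
  have hv1 : Tendsto (fun x => t x • S x w) 𝒰 (𝓝 v) := (continuous_fst.tendsto _).comp hv
  have hv2 : Tendsto t 𝒰 (𝓝 τ) := (continuous_snd.tendsto _).comp hv
  have e1 : ‖v‖ + τ = 1 := tendsto_nhds_unique (hv1.norm.add hv2)
    (tendsto_const_nhds.congr fun x => (t1 x).symm)
  have e2 : v ∈ Z x₀ := CS_flt (hZ x₀ hx₀)
    (hs.mono fun x hx => ⟨hx, Submodule.smul_mem _ _ (hS x hx w).1⟩) hx hv1
  have e3 : A x₀ v = τ • C x₀ w := tendsto_nhds_unique_of_eventuallyEq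
    (CS_app ((hA x₀ hx₀).tendsto.mono_left h𝒰) hv1)
    (hv2.smul (CS_app ((hC x₀ hx₀).tendsto.mono_left h𝒰) tendsto_const_nhds))
    (hs.mono fun x hx => by beta_reduce; rw [map_smul, (hS x hx w).2])
  have e4 : τ ≠ 0 := fun e => by
    rw [e, zero_smul] at e3
    rw [hi x₀ hx₀ v e2 e3, e] at e1
    norm_num at e1
  have e5 : S x₀ w = τ⁻¹ • v := uq x₀ hx₀ _ (hS x₀ hx₀ w).1 _ (Submodule.smul_mem _ _ e2)
    (by rw [(hS x₀ hx₀ w).2, map_smul, e3, smul_smul, inv_mul_cancel₀ e4, one_smul])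
  beta_reduce
  rw [e5]
  exact ((hv2.inv₀ e4).smul hv1).congr fun x => by
    rw [smul_smul, inv_mul_cancel₀ (tp x).ne', one_smul]

/-- The projector onto `WS x`. -/
def Bil_Pw (G : Geo μ g) (x : E × E) : E →L[ℝ] E :=
  G.KP x + (g x.1 (vel g x)).smulRight (vel g x)

/-- The projector onto the complement of `WS x` in the tangent space. -/
def Bil_C (G : Geo μ g) (x : E × E) : E →L[ℝ] E := μ.P x.1 - Bil_Pw G x

/-- The complement of `WS x` in the tangent space. -/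
def Bil_Z (G : Geo μ g) (x : E × E) : Submodule ℝ E :=
  (⊥ : Submodule ℝ E).comap
    ((Bil_C G x - ContinuousLinearMap.id ℝ E : E →L[ℝ] E) : E →ₗ[ℝ] E)

theorem Bil_Pw_apply (x : E × E) (u : E) :
    Bil_Pw G x u = G.KP x u + g x.1 (vel g x) u • vel g x := rfl

theorem Bil_C_apply (x : E × E) (u : E) : Bil_C G x u = μ.P x.1 u - Bil_Pw G x u := rfl

theorem Bil_mem_Z {x : E × E} {u : E} : u ∈ Bil_Z G x ↔ Bil_C G x u = u :=
  (Submodule.mem_bot ℝ).trans sub_eq_zero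

theorem Bil_JM (x : E × E) (u : E) : G.JM x u = G.JJ (π / 2) x (0, u) := rfl

section
variable (h : IsMetric μ g) {x : E × E} (hx : x ∈ μ.TT)
include h hx

theorem Bil_Pw_mem (u : E) : Bil_Pw G x u ∈ G.WS x :=
  (Geo.mem_WS_iff h hx).2 ⟨_, _, G.KP_mem h hx u, add_comm _ _⟩

theorem Bil_g_Pw {w : E} (hw : w ∈ G.WS x) (u : E) : g x.1 w (Bil_Pw G x u) = g x.1 w u := by
  obtain ⟨t, κ, hκ, rfl⟩ := (Geo.mem_WS_iff h hx).1 hw
  have h1 := Geo.vel_KS (G.KP_mem h hx u)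
  have h2 : g x.1 κ (vel g x) = 0 := by rw [h.symm _ _ _ hx.1.1, Geo.vel_KS hκ]
  simp only [Bil_Pw_apply, map_add, map_smul, add_apply,
    smul_apply, smul_eq_mul, h1, h2, G.g_KP h hx hκ,
    h.vel_unit (Model.TT_OO hx)]
  ring

theorem Bil_Pw_eq {u a : E} (ha : a ∈ G.WS x) (e : ∀ w ∈ G.WS x, g x.1 w a = g x.1 w u) :
    Bil_Pw G x u = a := by
  have h1 := sub_mem (Bil_Pw_mem (G := G) h hx u) ha
  refine sub_eq_zero.1 (h.eq_zero_of_tan hx.1.1 (Geo.mem_WS.1 h1).1 ?_)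
  rw [map_sub, Bil_g_Pw h hx h1, e _ h1, sub_self]

theorem Bil_Pw_of {w : E} (hw : w ∈ G.WS x) : Bil_Pw G x w = w := Bil_Pw_eq h hx hw fun _ _ => rfl

theorem Bil_P_C (u : E) : μ.P x.1 (Bil_C G x u) = Bil_C G x u := by
  rw [Bil_C_apply, map_sub, Model.P_idem hx.1, (Geo.mem_WS.1 (Bil_Pw_mem h hx u)).1]

theorem Bil_C_of {u : E} (h1 : μ.P x.1 u = u) (h2 : ∀ w ∈ G.WS x, g x.1 w u = 0) :
    u ∈ Bil_Z G x := by
  rw [Bil_mem_Z, Bil_C_apply, h1, Bil_Pw_eq h hx (zero_mem _) fun w hw => by rw [h2 w hw, map_zero],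
    sub_zero]

theorem Bil_C_mem (u : E) : Bil_C G x u ∈ Bil_Z G x :=
  Bil_C_of h hx (Bil_P_C h hx u) fun w hw => by
    rw [Bil_C_apply, map_sub, h.P_right hx.1, Bil_g_Pw h hx hw, sub_self]

theorem Bil_C_WS {u : E} (hu : u ∈ G.WS x) : Bil_C G x u = 0 := by
  rw [Bil_C_apply, (Geo.mem_WS.1 hu).1, Bil_Pw_of h hx hu, sub_self]

theorem Bil_WS_of {u : E} (h1 : μ.P x.1 u = u) (h2 : Bil_C G x u = 0) : u ∈ G.WS x := by
  rw [Bil_C_apply, h1, sub_eq_zero] at h2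
  rw [h2]
  exact Bil_Pw_mem h hx u

theorem Bil_tan {u : E} (hu : u ∈ Bil_Z G x) : μ.P x.1 u = u := by
  rw [← Bil_mem_Z.1 hu]
  exact Bil_P_C h hx u

theorem Bil_inj {u : E} (hu : u ∈ Bil_Z G x) (h0 : G.JM x u = 0) : u = 0 :=
  (Bil_mem_Z.1 hu).symm.trans (Bil_C_WS h hx (Geo.mem_WS.2 ⟨Bil_tan h hx hu, h0⟩))

theorem Bil_JM_C (u : E) : G.JM x (Bil_C G x u) = G.JM x u := by
  rw [Bil_C_apply, map_sub, Bil_JM, Bil_JM, Bil_JM, G.JJ_P h _ hx,
    (Geo.mem_WS.1 (Bil_Pw_mem h hx u)).2, sub_zero]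

theorem Bil_rk : Module.finrank ℝ (Bil_Z G x) + (G.kk x + 1) = d := by
  have e1 : Bil_Z G x ⊔ G.WS x = μ.Tan x.1 := by
    refine le_antisymm (sup_le (fun u hu => Model.mem_Tan.2 (Bil_tan h hx hu))
      fun u hu => Model.mem_Tan.2 (Geo.mem_WS.1 hu).1) fun u hu => ?_
    refine Submodule.mem_sup.2 ⟨_, Bil_C_mem h hx u, _, Bil_Pw_mem h hx u, ?_⟩
    rw [Bil_C_apply, sub_add_cancel, Model.mem_Tan.1 hu]
  have e2 : Bil_Z G x ⊓ G.WS x = ⊥ := (Submodule.eq_bot_iff _).2 fun u hu =>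
    (Bil_mem_Z.1 hu.1).symm.trans (Bil_C_WS h hx hu.2)
  have := Submodule.finrank_sup_add_finrank_inf_eq (Bil_Z G x) (G.WS x)
  rw [e1, e2, finrank_bot, add_zero, Model.finrank_Tan hx.1, Geo.finrank_WS h hx] at this
  exact this.symm

theorem Bil_Pw_congr {y : E × E} (hy : y ∈ μ.TT) (e : y.1 = x.1) (e' : G.WS y = G.WS x) :
    Bil_Pw G y = Bil_Pw G x := by
  ext1 u
  refine Bil_Pw_eq h hy (e' ▸ Bil_Pw_mem h hx u) fun w hw => ?_
  rw [e]
  exact Bil_g_Pw h hx (e' ▸ hw) u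

end

section
variable (B : Bl g G)
include B

theorem Bil_WS_congr {x y : E × E} (hx : x ∈ μ.TT) (hy : y ∈ μ.TT) (e : y.1 = x.1)
    (e' : G.Z (π / 2) y = G.Z (π / 2) x) : G.WS y = G.WS x := by
  ext w
  rw [Geo.mem_WS, Geo.mem_WS, e]
  refine and_congr_right fun h1 => ?_
  by_cases h0 : w = 0
  · subst h0
    exact iff_of_true (map_zero _) (map_zero _)
  have hw : (x.1, w) ∈ μ.OO := ⟨hx.1.1, by rw [h1]; exact h0⟩
  rw [← B.link_iff hx hw, ← B.link_iff hy (e ▸ hw), e, e']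

theorem Bil_C_congr {x y : E × E} (hx : x ∈ μ.TT) (hy : y ∈ μ.TT) (e : y.1 = x.1)
    (e' : G.Z (π / 2) y = G.Z (π / 2) x) : Bil_C G y = Bil_C G x := by
  rw [Bil_C, Bil_C, e, Bil_Pw_congr B.met hx hy e (Bil_WS_congr B hx hy e e')]

theorem Bil_back {x : E × E} (hx : x ∈ μ.TT) : G.Z (π / 2) (G.psi (π / 2) x) = x.1 := by
  rw [G.Z_add _ _ (Model.TT_OO hx), add_halves, ← zero_add π, B.Z_add_pi _ (Model.TT_OO hx),
    G.Z_zero' hx]

theorem Bil_range {x : E × E} (hx : x ∈ μ.TT) (u : E) : G.JM x u ∈ Bil_Z G (G.psi (π / 2) x) := by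
  have h := B.met
  have ho := Model.TT_OO hx
  have hx' := G.psi_TT h (π / 2) ho
  refine Bil_C_of h hx' (G.JJ_tan h _ ho _) fun w hw => ?_
  obtain ⟨t, κ, hκ, rfl⟩ := (Geo.mem_WS_iff h hx').1 hw
  have h1 : g (G.psi (π / 2) x).1 (vel g (G.psi (π / 2) x)) (G.JM x u) = 0 :=
    (G.al_inv h (π / 2) ho (0, u)).trans (map_zero (g x.1 (vel g x)))
  have h2 : G.JJ (π / 2) (G.psi (π / 2) x) (fderiv ℝ (G.psi (π / 2)) x (0, u)) = 0 := by
    rw [← G.JJ_add h _ _ ho, add_halves, ← zero_add π, B.JJ_add_pi _ ho, G.JJ_zero ho, map_zero]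
  have h3 := G.idx_fibre h (π / 2) (Model.TT_OO hx') h2 κ
  rw [G.idx_lag h (π / 2) (Model.TT_OO hx') (G.mem_KS'.1 hκ).2.2 h2, G.fst_fderiv_psi h _ ho] at h3
  have h4 : g (G.psi (π / 2) x).1 κ (G.JM x u) = 0 :=
    (mul_eq_zero.1 h3.symm).resolve_left (inv_pos.2 (h.spd_pos (Model.TT_OO hx'))).ne'
  rw [map_add, map_smul, add_apply, smul_apply, h1, h4,
    smul_zero, add_zero]

theorem Bil_surj {x : E × E} (hx : x ∈ μ.TT) (X : E) :
    ∃ u ∈ Bil_Z G x, G.JM x u = Bil_C G (G.psi (π / 2) x) X := by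
  have h := B.met
  have hx' := G.psi_TT h (π / 2) (Model.TT_OO hx)
  let f : Bil_Z G x →ₗ[ℝ] Bil_Z G (G.psi (π / 2) x) :=
    (G.JM x : E →ₗ[ℝ] E).restrict fun u _ => Bil_range B hx u
  have hf : Function.Injective f := (injective_iff_map_eq_zero f).2 fun u hu =>
    Subtype.ext (Bil_inj h hx u.2 (congrArg Subtype.val hu))
  have hd : Module.finrank ℝ (Bil_Z G x) = Module.finrank ℝ (Bil_Z G (G.psi (π / 2) x)) := by
    have h1 := Bil_rk (G := G) h hx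
    have h2 := Bil_rk (G := G) h hx'
    have h3 := B.kk_const hx hx'
    omega
  obtain ⟨u, hu⟩ := (LinearMap.injective_iff_surjective_of_finrank_eq_finrank hd).1 hf
    ⟨_, Bil_C_mem h hx' X⟩
  exact ⟨u.1, u.2, congrArg Subtype.val hu⟩

theorem Bil_smooth : ContDiffOn ℝ ∞ (fun y => Bil_Pw G (μ.R y)) μ.OO := by
  have h := B.met
  have hR : ContDiffOn ℝ ∞ μ.R μ.OO := Model.contDiffOn_R.mono fun _ hy => hy.1
  have hv : ContDiffOn ℝ ∞ (fun y => vel g (μ.R y)) μ.OO :=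
    h.contDiffOn_vel.comp hR fun _ hy => Model.TT_OO (Model.R_mem_TT hy)
  have hg : ContDiffOn ℝ ∞ (fun y => g (μ.R y).1) μ.OO :=
    h.smooth.comp hR.fst fun _ hy => (Model.R_mem_TT hy).1.1
  exact B.contDiffOn_KP_R.add ((hg.clm_apply hv).smulRight hv)

theorem Bil_cont_Pw : ContinuousOn (Bil_Pw G) μ.TT :=
  ((Bil_smooth B).continuousOn.mono fun _ hy => Model.TT_OO hy).congr fun y hy => by
    beta_reduce
    rw [Model.R_of_TT hy]

theorem Bil_cont_C : ContinuousOn (Bil_C G) μ.TT :=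
  (Model.contDiffOn_P.continuousOn.comp continuousOn_fst fun _ hy => hy.1.1).sub (Bil_cont_Pw B)

theorem Bil_key {x : E × E} (hx : x ∈ μ.TT) {u w : E} (hw : w ∈ G.WS x) (h0 : w ≠ 0) :
    G.JM (x.1, w) (fderiv ℝ (fun y => Bil_Pw G (μ.R y)) x (0, u) w) = G.JM x u := by
  have h := B.met
  have ho := Model.TT_OO hx
  have hc : HasDerivAt (fun s : ℝ => (x.1, x.2 + s • u)) (0, u) 0 :=
    (hasDerivAt_const _ x.1).prodMk (jac_line x.2 u)
  have c0 : (x.1, x.2 + (0 : ℝ) • u) = x := by rw [zero_smul, add_zero]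
  have hD := jac_curve (((Bil_smooth B).contDiffAt (Model.isOpen_OO.mem_nhds ho)).differentiableAt
    (by simp)) hc c0
  have hW : HasDerivAt (fun s : ℝ => Bil_Pw G (μ.R (x.1, x.2 + s • u)) w)
      (fderiv ℝ (fun y => Bil_Pw G (μ.R y)) x (0, u) w) 0 := by
    have := hD.clm_apply (hasDerivAt_const (0 : ℝ) w)
    rwa [map_zero, add_zero] at this
  have w0 : Bil_Pw G (μ.R (x.1, x.2 + (0 : ℝ) • u)) w = w := by
    rw [c0, Model.R_of_TT hx, Bil_Pw_of h hx hw]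
  have hwo : (x.1, w) ∈ μ.OO := ⟨hx.1.1, by rw [(Geo.mem_WS.1 hw).1]; exact h0⟩
  have d1 := Link_hasDerivAt_Z G h (π / 2) (z := x.1) hW (by rw [w0]; exact hwo)
  have d2 := Link_hasDerivAt_Z G h (π / 2) (z := x.1) (jac_line x.2 u) (by rw [c0]; exact ho)
  rw [w0] at d1
  rw [c0] at d2
  have e1 : ∀ᶠ s : ℝ in 𝓝 0, (x.1, x.2 + s • u) ∈ μ.OO :=
    hc.continuousAt.eventually_mem (Model.isOpen_OO.mem_nhds (by rw [c0]; exact ho))
  have e2 : ∀ᶠ s : ℝ in 𝓝 0, (x.1, Bil_Pw G (μ.R (x.1, x.2 + s • u)) w) ∈ μ.OO :=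
    (continuousAt_const.prodMk hW.continuousAt).eventually_mem
      (Model.isOpen_OO.mem_nhds (by rw [w0]; exact hwo))
  refine (d1.congr_of_eventuallyEq ((e1.and e2).mono fun s hs => ?_)).unique d2
  have hT := Model.R_mem_TT hs.1
  have e : (μ.R (x.1, x.2 + s • u)).1 = x.1 := hx.1.2
  have := (B.link_iff hT (e.symm ▸ hs.2)).2 (Geo.mem_WS.1 (Bil_Pw_mem h hT w)).2
  rw [e, G.Z_R h _ hs.1] at this
  exact this.symm

end

theorem Bl.exists_bil (B : Bl g G) : ∃ b : E × E → E →L[ℝ] E →L[ℝ] E, ContinuousOn b (UT μ g) ∧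
    (∀ x ∈ UT μ g, ∀ y ∈ UT μ g, y.1 = x.1 → G.Z (π / 2) y = G.Z (π / 2) x → b y = b x) ∧
    ∀ x ∈ UT μ g, ∀ X w, μ.P (G.Z (π / 2) x) X = X → X ∉ G.WS (G.psi (π / 2) x) → w ∈ G.WS x →
      w ≠ 0 → μ.P x.1 (b x X w) = b x X w ∧ b x X w ∉ G.WS x := by
  have h := B.met
  have hpsi : ContinuousOn (G.psi (π / 2)) μ.TT :=
    (G.contDiffOn_psi h).continuousOn.comp (f := fun x : E × E => (π / 2, x))
      (continuousOn_const.prodMk continuousOn_id) fun _ hy => Model.TT_OO hy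
  have hJ : ContinuousOn G.JM μ.TT :=
    ((G.contDiffOn_JJ h).continuousOn.comp (f := fun x : E × E => (π / 2, x))
      (continuousOn_const.prodMk continuousOn_id) fun _ hy => Model.TT_OO hy).clm_comp
      continuousOn_const
  obtain ⟨S, hS1, hS2⟩ := cont_solve (s := μ.TT) (A := G.JM)
    (C := fun x => Bil_C G (G.psi (π / 2) x)) (Z := Bil_Z G) hJ
    ((Bil_cont_C B).comp hpsi fun _ hy => G.psi_TT h _ (Model.TT_OO hy))
    (fun x hx => (cl_const ⊥).comap ((Bil_cont_C B x hx).sub continuousWithinAt_const))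
    (fun x hx u hu => Bil_inj h hx hu) fun x hx => Bil_surj B hx
  let D : E × E → E × E →L[ℝ] E →L[ℝ] E := fderiv ℝ fun y => Bil_Pw G (μ.R y)
  have hD : ContinuousOn D μ.TT :=
    ((Bil_smooth B).continuousOn_fderiv_of_isOpen Model.isOpen_OO (by simp)).mono
      fun _ hy => Model.TT_OO hy
  let b : E × E → E →L[ℝ] E →L[ℝ] E := fun x =>
    ((ContinuousLinearMap.compL ℝ E E E (Bil_C G x)).comp
      ((ContinuousLinearMap.compL ℝ E E E).flip (Bil_Pw G x))).comp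
      ((D x).comp ((ContinuousLinearMap.inr ℝ E E).comp (S x)))
  have hb : ∀ x X w, b x X w = Bil_C G x (D x (0, S x X) (Bil_Pw G x w)) := fun _ _ _ => rfl
  have key : ∀ x ∈ μ.TT, ∀ X w, Bil_Pw G x w ≠ 0 → (x.1, Bil_Pw G x w) ∈ μ.TT ∧
      G.Z (π / 2) (x.1, Bil_Pw G x w) = G.Z (π / 2) x ∧
      G.JM (x.1, Bil_Pw G x w) (b x X w) = Bil_C G (G.psi (π / 2) x) X := fun x hx X w h0 => by
    have hw := Bil_Pw_mem (G := G) h hx w
    have hT : (x.1, Bil_Pw G x w) ∈ μ.TT := ⟨hx.1, (Geo.mem_WS.1 hw).1, h0⟩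
    have hZ := (B.link_iff hx (Model.TT_OO hT)).2 (Geo.mem_WS.1 hw).2
    refine ⟨hT, hZ, ?_⟩
    rw [hb, ← Bil_C_congr B hx hT rfl hZ, Bil_JM_C h hT, Bil_key B hx hw h0]
    exact (hS2 x hx X).2
  refine ⟨b, ?_, fun x hx y hy e e' => ?_, fun x hx X w hX hX' hw h0 => ?_⟩
  · refine ContinuousOn.mono (s := μ.TT) ?_ fun _ hy => hy.1
    refine continuousOn_clm_apply.2 fun X => continuousOn_clm_apply.2 fun w => ?_
    exact (Bil_cont_C B).clm_apply ((hD.clm_apply (continuousOn_const.prodMk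
      (hS1.clm_apply continuousOn_const))).clm_apply ((Bil_cont_Pw B).clm_apply continuousOn_const))
  · have eP := Bil_Pw_congr h hx.1 hy.1 e (Bil_WS_congr B hx.1 hy.1 e e')
    have eC := Bil_C_congr B hx.1 hy.1 e e'
    have eC' : Bil_C G (G.psi (π / 2) y) = Bil_C G (G.psi (π / 2) x) :=
      Bil_C_congr B (G.psi_TT h _ (Model.TT_OO hx.1)) (G.psi_TT h _ (Model.TT_OO hy.1)) e'
        (by rw [Bil_back B hx.1, Bil_back B hy.1, e])
    ext X w
    by_cases h0 : Bil_Pw G x w = 0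
    · rw [hb, hb, eP, h0, map_zero, map_zero, map_zero, map_zero]
    obtain ⟨hT, hZ, k1⟩ := key x hx.1 X w h0
    obtain ⟨-, -, k2⟩ := key y hy.1 X w (by rw [eP]; exact h0)
    rw [eP, e, eC', ← k1] at k2
    have eC2 := Bil_C_congr B hx.1 hT rfl hZ
    refine sub_eq_zero.1 (Bil_inj h hT (sub_mem ?_ ?_) (by rw [map_sub, k2, sub_self]))
    · rw [hb, eC, ← eC2]
      exact Bil_C_mem h hT _
    · rw [hb, ← eC2]
      exact Bil_C_mem h hT _
  · refine ⟨Bil_P_C h hx.1 _, fun hm => hX' ?_⟩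
    obtain ⟨-, -, k1⟩ := key x hx.1 X w (by rw [Bil_Pw_of h hx.1 hw]; exact h0)
    have e : b x X w = 0 :=
      (Bil_mem_Z.1 (Bil_C_mem h hx.1 _)).symm.trans (Bil_C_WS h hx.1 hm)
    rw [e, map_zero] at k1
    exact Bil_WS_of h (G.psi_TT h _ (Model.TT_OO hx.1)) hX k1.symm

end Pool.Agent.Work.MP_8c604c_gt.O
end
end
end
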