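import Pool.Agent.Work.MP_8c604c_gt.OS.Jx
import Pool.Agent.Work.MP_8c604c_gt.OG.ZG

/-!
The complexification of a real bundle with a complex structure.

PLAN.  `Pj W J = (W - i J) / 2` is the projector onto the `i`-eigenspace; `cx_mul`, `continuous_cxm`
(prove `cxm (-B) = -cxm B`; the entries of `cxm B` are real, so the conjugate of `Pj` is `(W + i J) / 2`).
`CStr.cb`: the trace is `r - i t / 2` with `t` real (`RB.cb_cx`, `CB.trace`) and it is a natural number
(`idem_trace`), so `t = 0`; `idem_rank`.  `CStr.spl`: the sum of the two projectors is `cx W` and their product is zero.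
`CStr.fix`: real and imaginary parts (`cre_cxm`, `cim_cxm`, `cre_ext`; `cre (I • v) = -cim v`, `cim (I • v) = cre v`).
`CStr.eu_eq`: `(x, v) ↦ (x, cre v)` is a homeomorphism of pairs `tot (Pj W J) U → totR W U` with inverse
`(x, a) ↦ (x, ι a - I • ι (J x a))`, `ι a i = (finBasis ℝ A).repr a i` (`ZB.of_inv`, `ok_of`, `CB.lc_tot`, `RB.lc_tot`).
Both Thom classes are generators (`CB.thZ`, `RB.thZ`, `OT.thZ_gen_mul` with `a = 1`, `pull_oneH`, `cm_one`), `Gen.pul`, `Gen.eq_or`;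
pull back along the zero section (`pull_pull'`, `Sec.ok`, `sec_zero`).
`p2_of_J`: `cp_spl` with `8 = 4 + 4`, `Polynomial.coeff_mul`, `Finset.Nat.antidiagonal_succ`; the coefficients `2`, `3` of the two factors
vanish (`CB.cp_deg`, `Van.eq_zero`), `cp_coeff_top`, `cp_coeff_zero`, `CB.euE_val`, `eu_conj`, `CB.conj`.
-/

noncomputable section

set_option linter.unusedSectionVars false

namespace Pool.Agent.Work.MP_8c604c_gt.OS

open Set Matrix Module Pool.Agent.Work.MP_849ab0_ag.G T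

variable {X A : Type} [TopologicalSpace X] [RegularSpace X] [SecondCountableTopology X]
  [NormedAddCommGroup A] [NormedSpace ℝ A] [FiniteDimensional ℝ A] {U : Set X}
  {W J : X → A →L[ℝ] A} {r : ℕ}

/-- the projector onto the `i`-eigenspace of `J` -/
def Pj (W J : X → A →L[ℝ] A) (x : X) : Matrix (Fin (finrank ℝ A)) (Fin (finrank ℝ A)) ℂ :=
  (2⁻¹ : ℂ) • (cx W x - Complex.I • cx J x)

theorem Cj_cre (c : ℂ) (v : Fin (finrank ℝ A) → ℂ) :
    cre (c • v) = c.re • cre v - c.im • cim v := by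
  rw [cre, cre, cim, ← map_smul, ← map_smul, ← map_sub]
  exact congrArg _ (funext fun i => Complex.mul_re _ _)

theorem Cj_cim (c : ℂ) (v : Fin (finrank ℝ A) → ℂ) :
    cim (c • v) = c.re • cim v + c.im • cre v := by
  rw [cim, cre, cim, ← map_smul, ← map_smul, ← map_add]
  exact congrArg _ (funext fun i => Complex.mul_im _ _)

theorem Cj_gen (B C : A →L[ℝ] A) (c : ℂ) (hc : c.re = 0) (v : Fin (finrank ℝ A) → ℂ) :
    cre (((2⁻¹ : ℂ) • (cxm B - c • cxm C)) *ᵥ v) = (2⁻¹ : ℝ) • (B (cre v) + c.im • C (cim v)) ∧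
      cim (((2⁻¹ : ℂ) • (cxm B - c • cxm C)) *ᵥ v) =
        (2⁻¹ : ℝ) • (B (cim v) - c.im • C (cre v)) := by
  have e1 : (2⁻¹ : ℂ).re = 2⁻¹ := by norm_num
  have e2 : (2⁻¹ : ℂ).im = 0 := by norm_num
  rw [smul_mulVec, sub_mulVec, smul_mulVec, sub_eq_add_neg, ← neg_smul]
  simp only [Cj_cre, Cj_cim, cre_add, cim_add, cre_cxm, cim_cxm, e1, e2, Complex.neg_re,
    Complex.neg_im, hc]
  constructor <;> module

theorem Cj_re (x : X) (v : Fin (finrank ℝ A) → ℂ) :
    cre (Pj W J x *ᵥ v) = (2⁻¹ : ℝ) • (W x (cre v) + J x (cim v)) := by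
  have := (Cj_gen (W x) (J x) Complex.I Complex.I_re v).1
  rwa [Complex.I_im, one_smul] at this

theorem Cj_im (x : X) (v : Fin (finrank ℝ A) → ℂ) :
    cim (Pj W J x *ᵥ v) = (2⁻¹ : ℝ) • (W x (cim v) - J x (cre v)) := by
  have := (Cj_gen (W x) (J x) Complex.I Complex.I_re v).2
  rwa [Complex.I_im, one_smul] at this

theorem Cj_star (x : X) :
    (Pj W J x).map star = (2⁻¹ : ℂ) • (cxm (W x) - (-Complex.I) • cxm (J x)) := by
  ext i j
  simp [Pj, T.cx, cxm, map_ofNat]

theorem Cj_re' (x : X) (v : Fin (finrank ℝ A) → ℂ) :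
    cre ((Pj W J x).map star *ᵥ v) = (2⁻¹ : ℝ) • (W x (cre v) - J x (cim v)) := by
  rw [Cj_star, (Cj_gen (W x) (J x) _ (by simp) v).1, Complex.neg_im, Complex.I_im, neg_one_smul,
    sub_eq_add_neg]

theorem Cj_im' (x : X) (v : Fin (finrank ℝ A) → ℂ) :
    cim ((Pj W J x).map star *ᵥ v) = (2⁻¹ : ℝ) • (W x (cim v) + J x (cre v)) := by
  rw [Cj_star, (Cj_gen (W x) (J x) _ (by simp) v).2, Complex.neg_im, Complex.I_im, neg_one_smul,
    sub_neg_eq_add]

theorem CStr.cb (c : CStr W J U) (h : RB W (r + r) U) : CB (Pj W J) r U := by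
  have i : ∀ x ∈ U, Pj W J x * Pj W J x = Pj W J x := fun x hx => by
    refine Matrix.ext_of_mulVec_single fun j => ?_
    rw [← mulVec_mulVec]
    refine cre_ext ?_ ?_ <;>
      simp only [Cj_re, Cj_im, map_smul, map_add, map_sub, h.idem x hx, c.wj x hx, c.jw x hx,
        c.jj x hx] <;> module
  refine ⟨h.lc, (h.cb_cx.cont.sub ((continuous_cxm.comp_continuousOn c.cJ).const_smul
    Complex.I)).const_smul (2⁻¹ : ℂ), i, fun x hx => ?_⟩
  have h1 := congrArg Complex.re (idem_trace (i x hx))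
  have h2 : (cx J x).trace.im = 0 := by simp [trace, T.cx, Complex.im_sum]
  rw [Complex.natCast_re] at h1
  have h3 : (Pj W J x).trace.re = r := by
    rw [Pj, trace_smul, trace_sub, trace_smul, h.cb_cx.trace hx]
    simp [h2]
    ring
  exact_mod_cast h1.symm.trans h3

theorem CStr.spl (c : CStr W J U) (h : RB W (r + r) U) :
    Spl (cx W) (Pj W J) (fun x => (Pj W J x).map star) U := by
  refine ⟨fun x hx => ?_, fun x hx => ?_, fun x hx v h1 h2 => ?_⟩
  · refine Matrix.ext_of_mulVec_single fun j => ?_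
    rw [← mulVec_mulVec]
    refine cre_ext ?_ ?_ <;>
      simp only [cx_eq, cre_cxm, cim_cxm, Cj_re, Cj_im, map_smul, map_add, map_sub, h.idem x hx,
        c.wj x hx]
  · refine Matrix.ext_of_mulVec_single fun j => ?_
    rw [← mulVec_mulVec]
    refine cre_ext ?_ ?_ <;>
      simp only [cx_eq, cre_cxm, cim_cxm, Cj_re', Cj_im', map_smul, map_add, map_sub, h.idem x hx,
        c.wj x hx]
  · have a1 := Cj_re (W := W) (J := J) x v
    have a2 := Cj_im (W := W) (J := J) x v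
    have a3 := Cj_re' (W := W) (J := J) x v
    have a4 := Cj_im' (W := W) (J := J) x v
    rw [h1] at a1 a2
    rw [h2] at a3 a4
    have b1 : J x (cim v) = 0 := by linear_combination (norm := module) a3 - a1
    have b2 : J x (cre v) = 0 := by linear_combination (norm := module) a2 - a4
    have b3 := c.jj x hx (cre v)
    have b4 := c.jj x hx (cim v)
    rw [b2, map_zero, eq_comm, neg_eq_zero] at b3
    rw [b1, map_zero, eq_comm, neg_eq_zero] at b4
    rw [b1, b3, add_zero, smul_zero] at a1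
    rw [b2, b4, sub_zero, smul_zero] at a2
    exact cre_eq_zero.2 ⟨a1, a2⟩

theorem CStr.fix (c : CStr W J U) (h : RB W (r + r) U) {x : X} (hx : x ∈ U)
    {v : Fin (finrank ℝ A) → ℂ} :
    Pj W J x *ᵥ v = v ↔ W x (cre v) = cre v ∧ cim v = -J x (cre v) := by
  constructor
  · intro e
    have a1 := Cj_re (W := W) (J := J) x v
    have a2 := Cj_im (W := W) (J := J) x v
    rw [e] at a1 a2
    have b1 := congrArg (W x) a1
    have b2 := congrArg (W x) a2
    rw [map_smul, map_add, h.idem x hx, c.wj x hx, ← a1] at b1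
    rw [map_smul, map_sub, h.idem x hx, c.wj x hx, ← a2] at b2
    rw [b2] at a2
    exact ⟨b1, by linear_combination (norm := module) (2 : ℝ) • a2⟩
  · rintro ⟨h1, h2⟩
    refine cre_ext ?_ ?_
    · rw [Cj_re, h2, map_neg, c.jj x hx, h1]
      module
    · rw [Cj_im, h2, map_neg, c.wj x hx]
      module

/-- the real vector with given coordinates -/
def Cj_i (a : A) : Fin (finrank ℝ A) → ℂ := fun i => ((finBasis ℝ A).equivFun a i : ℝ)

theorem Cj_i_re (a : A) : cre (Cj_i a) = a := (finBasis ℝ A).equivFun.symm_apply_apply a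

theorem Cj_i_im (a : A) : cim (Cj_i a) = 0 := (finBasis ℝ A).equivFun.symm.map_zero

theorem Cj_i_cont : Continuous (Cj_i : A → _) :=
  continuous_pi fun i => Complex.continuous_ofReal.comp ((continuous_apply i).comp
    (finBasis ℝ A).equivFun.toLinearMap.continuous_of_finiteDimensional)

theorem Cj_s_re (a b : A) : cre (Cj_i a + (-Complex.I) • Cj_i b) = a := by
  rw [cre_add, Cj_cre, Cj_i_re, Cj_i_im]
  simp

theorem Cj_s_im (a b : A) : cim (Cj_i a + (-Complex.I) • Cj_i b) = -b := by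
  rw [cim_add, Cj_cim, Cj_i_re, Cj_i_im, Cj_i_im]
  simp

theorem CStr.eu_eq (c : CStr W J U) (h : RB W (r + r) U) {o : X → A [⋀^Fin (r + r)]→L[ℝ] ℝ}
    (ho : Ori W (r + r) U o) (hr : 0 < r) (g : Gen 0 (1 : H U univ)) :
    eu (Pj W J) r U = euR W (r + r) o U ∨ eu (Pj W J) r U = -euR W (r + r) o U := by
  have hP := c.cb h
  have o1 : Ok (fun z : X × (Fin (finrank ℝ A) → ℂ) => (z.1, cre z.2)) (tot (Pj W J) U) (zs X _)
      (totR W U) (zs X A) :=
    ok_of hP.lc_tot (continuous_fst.prodMk (continuous_cre.comp continuous_snd)).continuousOn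
      (fun z hz => ⟨hz.1, ((c.fix h hz.1).1 hz.2).1⟩) fun z hz k => by
        have k1 : cre z.2 = 0 := k
        have k2 := ((c.fix h hz.1).1 hz.2).2
        rw [k1, map_zero, neg_zero] at k2
        exact cre_eq_zero.2 ⟨k1, k2⟩
  have o2 : Ok (fun y : X × A => (y.1, Cj_i y.2 + (-Complex.I) • Cj_i (J y.1 y.2))) (totR W U)
      (zs X A) (tot (Pj W J) U) (zs X _) :=
    ok_of h.lc_tot (continuousOn_fst.prodMk ((Cj_i_cont.comp continuous_snd).continuousOn.add
      ((Cj_i_cont.comp_continuousOn ((c.cJ.comp continuousOn_fst fun _ k => k.1).clm_apply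
        continuousOn_snd)).const_smul (-Complex.I))))
      (fun y hy => ⟨hy.1, (c.fix h hy.1).2 (by
        rw [Cj_s_re, Cj_s_im]
        exact ⟨hy.2, rfl⟩)⟩) fun y _ k => by
        have k1 : Cj_i y.2 + (-Complex.I) • Cj_i (J y.1 y.2) = 0 := k
        have k2 := Cj_s_re y.2 (J y.1 y.2)
        rw [k1, cx_re_zero] at k2
        exact k2.symm
  have zb := ZB.of_inv o1 o2 (fun z hz => Prod.ext rfl (cre_ext (Cj_s_re _ _)
    ((Cj_s_im _ _).trans ((c.fix h hz.1).1 hz.2).2.symm))) fun y _ => Prod.ext rfl (Cj_s_re _ _)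
  have t1 := hP.thZ
  have t2 := h.thZ ho (by omega)
  have g1 := OT.thZ_gen_mul t1 g
  have g2 := OT.thZ_gen_mul t2 g
  rw [pull_oneH t1.base.ok, cm_one] at g1
  rw [pull_oneH t2.base.ok, cm_one, show (0 : ℤ) + ((r + r : ℕ) : ℤ) = 0 + 2 * r by
    push_cast; ring] at g2
  have e : pull (fun x => (x, (0 : X → Fin (finrank ℝ A) → ℂ) x)) U univ
      (pull (fun z : X × (Fin (finrank ℝ A) → ℂ) => (z.1, cre z.2)) (tot (Pj W J) U) (zs X _)
        (thR W (r + r) U o)) = euR W (r + r) o U :=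
    pull_pull' (F := fun x => (x, (0 : X → A) x)) ((sec_zero (Pj W J) U).ok h.lc) o1 (fun x _ => Prod.ext rfl cx_re_zero) _
  refine ((g2.pul zb).eq_or g1).imp (fun k => ?_) fun k => ?_
  · rw [eu, ec, k, e]
  · rw [eu, ec, k, map_neg, e]

theorem p2_of_J (c : CStr W J U) (h : RB W 8 U) {o : X → A [⋀^Fin 8]→L[ℝ] ℝ} (ho : Ori W 8 U o)
    (g : Gen 0 (1 : H U univ)) (v2 : Van 2 U univ) (v4 : Van 4 U univ) :
    ∃ s : ℤ, (s = 1 ∨ s = -1) ∧
      ((cp (cx W) 8 U).coeff 4 : H U univ) = (2 * s : ℂ) • euR W 8 o U := by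
  have h' : RB W (4 + 4) U := h
  have h1 := c.cb h'
  have h2 := h1.conj
  have e := cp_spl h'.cb_cx h1 h2 (c.spl h')
  have a2 : (cp (Pj W J) 4 U).coeff 2 = 0 := Subtype.ext (v4.eq_zero (h1.cp_deg 2))
  have a3 : (cp (Pj W J) 4 U).coeff 3 = 0 := Subtype.ext (v2.eq_zero (h1.cp_deg 3))
  have b3 : (cp (fun x => (Pj W J x).map star) 4 U).coeff 3 = 0 :=
    Subtype.ext (v2.eq_zero (h2.cp_deg 3))
  have e1 : (cp (cx W) 8 U).coeff 4 =
      euE (Pj W J) 4 U + euE (fun x => (Pj W J x).map star) 4 U := by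
    refine (congrArg (fun p => Polynomial.coeff p 4) e).trans ?_
    rw [Polynomial.coeff_mul, Finset.Nat.sum_antidiagonal_eq_sum_range_succ_mk]
    simp only [Finset.sum_range_succ, Finset.sum_range_zero, Nat.reduceSub, Nat.sub_zero,
      Nat.sub_self, a2, a3, b3, cp_coeff_top h1, cp_coeff_top h2, cp_coeff_zero h1,
      cp_coeff_zero h2, zero_mul, mul_zero, mul_one, one_mul, add_zero, zero_add]
  have e2 : ((cp (cx W) 8 U).coeff 4 : H U univ) = (2 : ℂ) • eu (Pj W J) 4 U := by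
    rw [e1, Subalgebra.coe_add, h1.euE_val, h2.euE_val, eu_conj h1, two_smul]
    norm_num
  rcases c.eu_eq h' ho (by norm_num) g with k | k
  · exact ⟨1, Or.inl rfl, by rw [e2, k, Int.cast_one, mul_one]⟩
  · exact ⟨-1, Or.inr rfl, by rw [e2, k, Int.cast_neg, Int.cast_one, mul_neg, mul_one, neg_smul,
      smul_neg]⟩

end Pool.Agent.Work.MP_8c604c_gt.OS
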