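import Pool.Agent.Work.MP_8c604c_gt.T.Deg
import Pool.Agent.Work.MP_8c604c_gt.T.Gys
import Pool.Agent.Work.MP_8c604c_gt.T.Cx

-- merged part: Pool.Agent.Work.MP_8c604c_gt.T.Cnt
section
/-!
The degree is the signed number of preimages.
-/

noncomputable section

namespace Pool.Agent.Work.MP_8c604c_gt.T

open Set Topology Pool.Agent.Work.MP_849ab0_ag.G

variable {A B : Type} [NormedAddCommGroup A] [NormedSpace ℝ A] [FiniteDimensional ℝ A]
  [NormedAddCommGroup B] [NormedSpace ℝ B] [FiniteDimensional ℝ B]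

theorem cnt_deg {F : A → B} (hF : Continuous F) {w : B} {T : Finset A} {L : A → A →L[ℝ] B}
    (hT : ∀ x, F x = w ↔ x ∈ T) (hd : ∀ x ∈ T, HasFDerivAt F (L x) x)
    (hL : ∀ x ∈ T, Function.Injective (L x)) (e : B ≃L[ℝ] A) {K : Set A}
    (hK : ∀ x ∈ T, ∀ t ∈ Icc (0 : ℝ) 1, t • x ∈ K) (h0 : 0 ∈ K) (ω : H (univ : Set B) {0}) :
    pull (fun x => F x - w) univ K ω =
      (∑ x ∈ T, (SignType.sign ((L x).comp (e : B →L[ℝ] A)).det : ℂ)) •
        pull e.symm univ K ω := by
  classical
  have TK : ∀ x ∈ T, x ∈ K := fun x hx => by simpa using hK x hx 1 ⟨zero_le_one, le_rfl⟩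
  have o : Ok (fun x => F x - w) univ (T : Set A) univ {0} :=
    .of_mem (.of_continuous (hF.sub continuous_const) _) (mapsTo_univ _ _)
      fun x _ k => (hT x).1 (sub_eq_zero.1 k)
  have oe : Ok e.symm univ {0} univ {0} := .of_mem (.of_continuous e.symm.continuous _)
    (mapsTo_univ _ _) fun x _ k => e.symm.map_eq_zero_iff.1 k
  have sT : ∀ (i : T), ∀ y ∈ (univ : Set A), y ∈ ({i.1} : Set A) → y ∈ (T : Set A) :=
    fun i y _ k => (mem_singleton_iff.1 k).symm ▸ i.2
  have os : ∀ p : A, Ok (fun x => x - p) univ {p} univ {0} := fun p => (zb_sub p).ok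
  obtain ⟨a, ha⟩ := (additivity (U := univ) (Z := (T : Set A)) (Zi := fun i : T => {i.1})
    (fun i => .of_isClosed isClosed_singleton _)
    (fun i j x _ k k' => Subtype.ext (k.symm.trans k'))
    fun x _ => ⟨fun k => ⟨⟨x, k⟩, rfl⟩, fun ⟨i, k⟩ => k ▸ i.2⟩).2
      (pull (fun x => F x - w) univ (T : Set A) ω)
  have key : ∀ i : T, a i = (SignType.sign ((L i).comp (e : B →L[ℝ] A)).det : ℂ) •
      pull (fun x => x - i.1) univ {i.1} (pull e.symm univ {0} ω) := fun i => by
    have hO : IsOpen ((T.erase i.1 : Set A)ᶜ) := (Finset.finite_toSet _).isClosed.isOpen_compl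
    have mO : ∀ x ∈ ((T.erase i.1 : Set A)ᶜ), x ∈ T → x = i.1 := fun x k k' => by
      by_contra ne
      exact k (Finset.mem_coe.2 (Finset.mem_erase.2 ⟨ne, k'⟩))
    refine (ZB.excision_univ (O := (T.erase i.1 : Set A)ᶜ) isClosed_singleton fun x k =>
      hO.mem_nhds (by rw [k]; simp)).bij.1 ?_
    have e1 := congrArg (pull id ((T.erase i.1 : Set A)ᶜ) {i.1}) ha
    have oT : Ok id ((T.erase i.1 : Set A)ᶜ) {i.1} univ (T : Set A) :=
      .id (subset_univ _) mO
    simp only [map_sum] at e1
    rw [Finset.sum_eq_single i (fun j _ ne => by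
        rw [pull_res oT subset_rfl (sT j)]
        exact pull_miss (.of_continuous continuous_id _) (mapsTo_univ _ _) (fun x k k' =>
          ne (Subtype.ext (Eq.trans (Eq.symm k') (mO x k (sT j x trivial k'))))) _) (by simp),
      pull_res oT subset_rfl (sT i), res_pull (W₁ := {i.1}) o (subset_univ _) mO,
      ← (hT i).2 i.2, pull_deriv_det hO hF.continuousOn (hd _ i.2) (hL _ i.2)
        (fun x k k' => mO x k ((hT x).1 (k'.trans ((hT i).2 i.2)))) e] at e1
    rw [e1, map_smul, pull_pull (os i) oe,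
      res_pull (oe.comp (os i)) (subset_univ _) fun _ _ k => k]
    rfl
  rw [← res_pull o subset_rfl fun x _ k => TK x k, ← ha, map_sum, Finset.sum_smul,
    ← Finset.sum_coe_sort T]
  refine Finset.sum_congr rfl fun i _ => ?_
  rw [pull_res (.id subset_rfl fun x _ k => TK x k) subset_rfl (sT i), key, map_smul,
    res_pull (os i) subset_rfl fun y m k => TK _ (sT i y m k), pull_sub (hK _ i.2),
    res_pull oe subset_rfl fun y _ k => (mem_singleton_iff.1 k).symm ▸ h0]

end Pool.Agent.Work.MP_8c604c_gt.T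
end
end

-- merged part: Pool.Agent.Work.MP_8c604c_gt.OS.Jx
section
/-!
An operator without real eigenvalues defines a complex structure, continuously in parameters.

PLAN.  In a Banach algebra let `p` be idempotent and `p b = b = b p`.  Formally `b = tan φ` and
`Jr p b t = tan (φ - t)`.  All of `p`, `b`, `Jm p b t`, `Ring.inverse (Jm p b t)` commute
(`Commute.ring_inverse_ring_inverse`, or cancel the unit: `IsUnit.mul_left_cancel`).
`Jr_per`: `Jm (t + π) * Jr t = Jn (t + π)` since `(1 - p) * Jr t = 0`, cancel the unit.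
`Jr_add`: multiply by the unit `Jm t * Jm (t + s)`; with `m = cos • p + sin • b` one has
`n n' + m m' = cos s • (p + b * b)` and `n m' - n' m = sin s • (p + b * b)` (`cos_add`, `sin_add`).
`Jx_sq`: `(∫ Jr) * (∫ Jr) = ∫ t, ∫ s, Jr t * Jr (t + s)` (`Function.Periodic.intervalIntegral_add_eq`,
`intervalIntegral.integral_comp_add_left`, `ContinuousLinearMap.intervalIntegral_comp_comm` for left and right
multiplication), swap the integrals (`MeasureTheory.integral_integral_swap`, the integrand is continuous);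
for `0 < s < π` integrate `Jr_add` in `t`: `∫ t, Jr t * Jr (t + s) = -π • p`.
`cont_Jx`: restrict to the subtype, `NormedRing.inverse_continuousAt`,
`intervalIntegral.continuous_parametric_intervalIntegral_of_continuous'`.
`exists_J`: `p = W x`, `b = B x ∘ W x` in `A →L[ℝ] A`; `Jm p b t` is injective, so a unit
(`ContinuousLinearMap.isUnit_iff_bijective`, `LinearMap.injective_iff_surjective`): if `Jm p b t a = 0` apply `W x`
to get `cos t • w + sin t • B x w = 0` for `w = W x a`, so `w = 0`, then `a = 0`.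
-/

noncomputable section

set_option linter.unusedSectionVars false

namespace Pool.Agent.Work.MP_8c604c_gt.OS

open Set Real

section Alg

variable {𝔸 : Type} [NormedRing 𝔸] [NormedAlgebra ℝ 𝔸] [CompleteSpace 𝔸] {p b : 𝔸}

/-- the denominator -/
def Jm (p b : 𝔸) (t : ℝ) : 𝔸 := cos t • p + sin t • b + (1 - p)

/-- the numerator -/
def Jn (p b : 𝔸) (t : ℝ) : 𝔸 := -sin t • p + cos t • b

/-- the Moebius transform of `b` -/
def Jr (p b : 𝔸) (t : ℝ) : 𝔸 := Ring.inverse (Jm p b t) * Jn p b t

/-- the mean of the Moebius transforms -/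
def Jx (p b : 𝔸) : 𝔸 := π⁻¹ • ∫ t in (0 : ℝ)..π, Jr p b t

/-- `b` acts on the range of `p` without real eigenvalue -/
structure JH (p b : 𝔸) : Prop where
  pp : p * p = p
  pb : p * b = b
  bp : b * p = b
  un : ∀ t, IsUnit (Jm p b t)

theorem JH.Jx_mr (h : JH p b) (t : ℝ) : Jm p b t * Jr p b t = Jn p b t :=
  Ring.mul_inverse_cancel_left _ _ (h.un t)

theorem JH.Jx_mp (h : JH p b) (t : ℝ) : Jm p b t * p = p * Jm p b t := by
  simp only [Jm, mul_add, add_mul, mul_sub, sub_mul, smul_mul_assoc, mul_smul_comm, h.pp, h.pb,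
    h.bp, mul_one, one_mul]

theorem JH.Jx_pn (h : JH p b) (t : ℝ) : p * Jn p b t = Jn p b t := by
  simp only [Jn, mul_add, mul_smul_comm, h.pp, h.pb]

theorem JH.Jx_np (h : JH p b) (t : ℝ) : Jn p b t * p = Jn p b t := by
  simp only [Jn, add_mul, smul_mul_assoc, h.pp, h.bp]

theorem JH.Jx_mm (h : JH p b) (t s : ℝ) : Jm p b t * Jm p b s = Jm p b s * Jm p b t := by
  simp only [Jm, mul_add, add_mul, mul_sub, sub_mul, smul_mul_assoc, mul_smul_comm, h.pp, h.pb,
    h.bp, mul_one, one_mul]
  module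

theorem JH.Jx_mn (h : JH p b) (t s : ℝ) : Jm p b t * Jn p b s = Jn p b s * Jm p b t := by
  simp only [Jm, Jn, mul_add, add_mul, mul_sub, sub_mul, smul_mul_assoc, mul_smul_comm, h.pp, h.pb,
    h.bp, mul_one, one_mul]
  module

theorem Jx_cont {Y : Type} [TopologicalSpace Y] {p b : Y → 𝔸} {t : Y → ℝ} (hp : Continuous p)
    (hb : Continuous b) (ht : Continuous t) (h : ∀ y, IsUnit (Jm (p y) (b y) (t y))) :
    Continuous fun y => Jr (p y) (b y) (t y) := by
  have hm : Continuous fun y => Jm (p y) (b y) (t y) := by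
    unfold Jm
    fun_prop
  have hn : Continuous fun y => Jn (p y) (b y) (t y) := by
    unfold Jn
    fun_prop
  refine Continuous.mul (continuous_iff_continuousAt.2 fun y => ?_) hn
  exact ContinuousAt.comp (g := Ring.inverse) (f := fun y => Jm (p y) (b y) (t y))
    (NormedRing.inverse_continuousAt (h y).unit) hm.continuousAt

theorem Jx_left {f : ℝ → 𝔸} (hf : Continuous f) (c : 𝔸) (u v : ℝ) :
    ∫ t in u..v, c * f t = c * ∫ t in u..v, f t :=
  (ContinuousLinearMap.mul ℝ 𝔸 c).intervalIntegral_comp_comm (hf.intervalIntegrable u v)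

theorem Jx_right {f : ℝ → 𝔸} (hf : Continuous f) (c : 𝔸) (u v : ℝ) :
    ∫ t in u..v, f t * c = (∫ t in u..v, f t) * c :=
  ((ContinuousLinearMap.mul ℝ 𝔸).flip c).intervalIntegral_comp_comm (hf.intervalIntegrable u v)

theorem JH.p_mul_Jr (h : JH p b) (t : ℝ) : p * Jr p b t = Jr p b t := by
  refine (h.un t).mul_left_cancel ?_
  rw [← mul_assoc, h.Jx_mp, mul_assoc, h.Jx_mr, h.Jx_pn]

theorem JH.Jr_mul_p (h : JH p b) (t : ℝ) : Jr p b t * p = Jr p b t := by
  rw [Jr, mul_assoc, h.Jx_np]

theorem JH.Jr_per (h : JH p b) (t : ℝ) : Jr p b (t + π) = Jr p b t := by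
  refine (h.un (t + π)).mul_left_cancel ?_
  have e : Jm p b (t + π) = -Jm p b t + (2 : ℝ) • (1 - p) := by
    rw [Jm, Jm, cos_add_pi, sin_add_pi]
    module
  rw [h.Jx_mr, e, add_mul, neg_mul, h.Jx_mr, smul_mul_assoc, sub_mul, one_mul, h.p_mul_Jr, Jn, Jn,
    cos_add_pi, sin_add_pi]
  module

theorem JH.Jr_add (h : JH p b) (t s : ℝ) :
    sin s • (Jr p b t * Jr p b (t + s) + p) = cos s • (Jr p b t - Jr p b (t + s)) := by
  refine ((h.un t).mul (h.un (t + s))).mul_left_cancel ?_
  have e1 : Jm p b t * Jm p b (t + s) * Jr p b t = Jm p b (t + s) * Jn p b t := by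
    rw [h.Jx_mm, mul_assoc, h.Jx_mr]
  have e2 : Jm p b t * Jm p b (t + s) * Jr p b (t + s) = Jm p b t * Jn p b (t + s) := by
    rw [mul_assoc, h.Jx_mr]
  have e3 : Jm p b t * Jm p b (t + s) * (Jr p b t * Jr p b (t + s)) = Jn p b t * Jn p b (t + s) := by
    rw [← mul_assoc, e1, h.Jx_mn, mul_assoc, h.Jx_mr]
  rw [mul_smul_comm, mul_smul_comm, mul_add, mul_sub, e1, e2, e3]
  simp only [Jm, Jn, mul_add, add_mul, mul_sub, sub_mul, smul_mul_assoc, mul_smul_comm, h.pp, h.pb,
    h.bp, mul_one, one_mul, mul_assoc, cos_add, sin_add]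
  module

theorem JH.cont_Jr (h : JH p b) : Continuous (Jr p b) := by
  exact Jx_cont continuous_const continuous_const continuous_id h.un

theorem JH.p_mul_Jx (h : JH p b) : p * Jx p b = Jx p b := by
  rw [Jx, mul_smul_comm, ← Jx_left h.cont_Jr]
  simp only [h.p_mul_Jr]

theorem JH.Jx_mul_p (h : JH p b) : Jx p b * p = Jx p b := by
  rw [Jx, smul_mul_assoc, ← Jx_right h.cont_Jr]
  simp only [h.Jr_mul_p]

theorem JH.Jx_sq (h : JH p b) : Jx p b * Jx p b = -p := by
  have hc := h.cont_Jr
  have hper : Function.Periodic (Jr p b) π := h.Jr_per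
  have e1 (t : ℝ) : ∫ s in (0 : ℝ)..π, Jr p b (t + s) = ∫ s in (0 : ℝ)..π, Jr p b s := by
    rw [intervalIntegral.integral_comp_add_left, add_zero, hper.intervalIntegral_add_eq t 0, zero_add]
  have e2 (s : ℝ) (hs : s ∈ Ioo 0 π) :
      ∫ t in (0 : ℝ)..π, Jr p b t * Jr p b (t + s) = -(π • p) := by
    have h1 : Continuous fun t => Jr p b (t + s) := hc.comp (continuous_id.add continuous_const)
    have h2 : ∫ t in (0 : ℝ)..π, sin s • (Jr p b t * Jr p b (t + s) + p) =
        ∫ t in (0 : ℝ)..π, cos s • (Jr p b t - Jr p b (t + s)) := by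
      simp only [h.Jr_add]
    rw [intervalIntegral.integral_smul, intervalIntegral.integral_smul,
      intervalIntegral.integral_add ((hc.fun_mul h1).intervalIntegrable _ _)
        intervalIntegrable_const,
      intervalIntegral.integral_sub (hc.intervalIntegrable _ _) (h1.intervalIntegrable _ _),
      intervalIntegral.integral_const, sub_zero] at h2
    simp only [add_comm _ s] at h2 ⊢
    rw [e1 s, sub_self, smul_zero, smul_eq_zero] at h2
    exact eq_neg_of_add_eq_zero_left (h2.resolve_left (sin_pos_of_mem_Ioo hs).ne')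
  have e3 : (∫ t in (0 : ℝ)..π, Jr p b t) * ∫ t in (0 : ℝ)..π, Jr p b t = π • -(π • p) := by
    have h1 : Continuous (Function.uncurry fun t s => Jr p b t * Jr p b (t + s)) :=
      (hc.comp continuous_fst).mul (hc.comp (continuous_fst.add continuous_snd))
    calc _ = ∫ t in (0 : ℝ)..π, ∫ s in (0 : ℝ)..π, Jr p b t * Jr p b (t + s) := by
          rw [← Jx_right hc]
          refine intervalIntegral.integral_congr fun t _ => ?_
          rw [Jx_left (f := fun s => Jr p b (t + s)) (hc.comp (continuous_const.add continuous_id)),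
            e1]
      _ = ∫ s in (0 : ℝ)..π, ∫ t in (0 : ℝ)..π, Jr p b t * Jr p b (t + s) :=
          MeasureTheory.intervalIntegral_intervalIntegral_swap
            ((h1.continuousOn.integrableOn_compact (isCompact_uIcc.prod isCompact_uIcc)).mono_set
              (prod_mono uIoc_subset_uIcc uIoc_subset_uIcc))
      _ = ∫ _ in (0 : ℝ)..π, -(π • p) := intervalIntegral.integral_congr_Ioo_of_le pi_pos.le e2
      _ = _ := by rw [intervalIntegral.integral_const, sub_zero]
  rw [Jx, smul_mul_smul_comm, e3, smul_neg, smul_neg, smul_smul, smul_smul]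
  rw [show π⁻¹ * π⁻¹ * π * π = 1 by field_simp, one_smul]

theorem cont_Jx {X : Type} [TopologicalSpace X] {U : Set X} {p b : X → 𝔸} (hp : ContinuousOn p U)
    (hb : ContinuousOn b U) (h : ∀ x ∈ U, JH (p x) (b x)) :
    ContinuousOn (fun x => Jx (p x) (b x)) U := by
  rw [continuousOn_iff_continuous_domRestrict] at hp hb ⊢
  refine Continuous.const_smul
    (intervalIntegral.continuous_parametric_intervalIntegral_of_continuous'
      (f := fun (x : U) t => Jr (p x) (b x) t) ?_ 0 π) _
  exact Jx_cont (hp.comp continuous_fst) (hb.comp continuous_fst) continuous_snd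
    fun y => (h y.1 y.1.2).un y.2

end Alg

variable {X A : Type} [TopologicalSpace X] [NormedAddCommGroup A] [NormedSpace ℝ A]
  [FiniteDimensional ℝ A] {U : Set X}

/-- `J` is a complex structure on the bundle `W` -/
structure CStr (W J : X → A →L[ℝ] A) (U : Set X) : Prop where
  cJ : ContinuousOn J U
  wj : ∀ x ∈ U, ∀ a, W x (J x a) = J x a
  jw : ∀ x ∈ U, ∀ a, J x (W x a) = J x a
  jj : ∀ x ∈ U, ∀ a, J x (J x a) = -W x a

theorem exists_J {W B : X → A →L[ℝ] A} (cW : ContinuousOn W U) (cB : ContinuousOn B U)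
    (iW : ∀ x ∈ U, ∀ a, W x (W x a) = W x a) (mB : ∀ x ∈ U, ∀ a, W x a = a → W x (B x a) = B x a)
    (nB : ∀ x ∈ U, ∀ a, W x a = a → ∀ t : ℝ, B x a = t • a → a = 0) : ∃ J, CStr W J U := by
  have := FiniteDimensional.complete ℝ A
  have h : ∀ x ∈ U, JH (W x) (B x * W x) := fun x hx => by
    refine ⟨ContinuousLinearMap.ext (iW x hx),
      ContinuousLinearMap.ext fun a => mB x hx _ (iW x hx a),
      ContinuousLinearMap.ext fun a => congrArg (B x) (iW x hx a), fun t => ?_⟩
    have hi : Function.Injective (Jm (W x) (B x * W x) t : A →L[ℝ] A) := by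
      refine (injective_iff_map_eq_zero _).2 fun a ha => ?_
      change cos t • W x a + sin t • B x (W x a) + (a - W x a) = 0 at ha
      have h1 := congrArg (W x) ha
      rw [map_add, map_add, map_smul, map_smul, map_sub, iW x hx, mB x hx _ (iW x hx a), sub_self,
        add_zero, map_zero] at h1
      have h2 : W x a = 0 := by
        by_cases h0 : sin t = 0
        · rw [h0, zero_smul, add_zero, smul_eq_zero] at h1
          refine h1.resolve_left fun h3 => ?_
          have h4 := sin_sq_add_cos_sq t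
          rw [h0, h3] at h4
          norm_num at h4
        · refine nB x hx _ (iW x hx a) (-(cos t / sin t)) (smul_right_injective A h0 ?_)
          beta_reduce
          rw [smul_smul, mul_neg, mul_div_cancel₀ _ h0, neg_smul]
          exact eq_neg_of_add_eq_zero_right h1
      rwa [h1, h2, sub_zero, zero_add] at ha
    exact ContinuousLinearMap.isUnit_iff_bijective.2
      ⟨hi, (LinearMap.injective_iff_surjective (f := (Jm (W x) (B x * W x) t).toLinearMap)).1 hi⟩
  exact ⟨fun x => Jx (W x) (B x * W x), cont_Jx cW (cB.mul cW) h,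
    fun x hx a => ContinuousLinearMap.ext_iff.1 (h x hx).p_mul_Jx a,
    fun x hx a => ContinuousLinearMap.ext_iff.1 (h x hx).Jx_mul_p a,
    fun x hx a => ContinuousLinearMap.ext_iff.1 (h x hx).Jx_sq a⟩

end Pool.Agent.Work.MP_8c604c_gt.OS
end
end
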