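import Pool.Agent.Work.MP_8c604c_gt.C.Pts
import Pool.Agent.Work.MP_8c604c_gt.C.Flow
import Pool.Agent.Work.MP_8c604c_gt.OC.Main
import Pool.Agent.Work.MP_8c604c_gt.C.Count
import Pool.Agent.Work.MP_8c604c_gt.C.Change
import Pool.Agent.Work.MP_8c604c_gt.OG.HS
import Pool.Agent.Work.MP_8c604c_gt.OS.Jx
import Pool.Agent.Work.MP_8c604c_gt.OS.Cj

-- merged part: Pool.Agent.Work.MP_8c604c_gt.C.VolC
section
/-!
Volumes in the chart.
Plan. radial: integral_fun_norm_addHaar, integrable_fun_norm_addHaar, InnerProductSpace.volume_ball_of_dim_even (model ../FSAux.lean fs_int_log, vol_fsM'; substitute r -> r rho,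
integral_comp_mul_right_Ioi). All other statements: the integrands are nonnegative and measurable, so integral_eq_lintegral_of_nonneg_ae and Tonelli; no integrability is needed.
int_chart: for fixed a the form Ga = g (aff a) (aff0 .) (aff0 .) is positive definite (sc0_mem, pos); a linear T with Ga (T u) (T v) = <u, v> (LinearMap.BilinForm.exists_orthogonal_basis,
model ../NVolA.lean), det T ^ 2 * detG = 1 (cdet_comp, cdet_inner, detG_aff), spd g (sc0 (a, T u)) = |u|, radial with k = 2n, rho = 1.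
int_target: nr w is the norm of WithLp.toLp 2 w, WithLp.volume_preserving_toLp, radial with k = 4n.
-/

set_option maxSynthPendingDepth 3

open Set Filter Topology MeasureTheory
open scoped ContDiff Quaternion

noncomputable section
namespace Pool.Agent.Work.MP_8c604c_gt.C

open H T TopologicalSpace Lam Om

variable {n : ℕ}

open Real

theorem VolC_int_log {ρ : ℝ} (hρ : 0 < ρ) : ∫ y in Ioi (0 : ℝ), y⁻¹ * wt (log (y * ρ)) = 1 := by
  have h := integral_image_eq_integral_abs_deriv_smul (s := univ) (f := Real.exp) (f' := Real.exp)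
    MeasurableSet.univ (fun x _ => (Real.hasDerivAt_exp x).hasDerivWithinAt)
    Real.exp_injective.injOn (fun y => y⁻¹ * wt (log (y * ρ)))
  rw [image_univ, Real.range_exp, Measure.restrict_univ] at h
  rw [h, ← integral_wt, ← integral_add_right_eq_self wt (log ρ)]
  refine integral_congr_ae (Eventually.of_forall fun x => ?_)
  simp only [Real.log_mul (Real.exp_pos x).ne' hρ.ne', Real.log_exp, smul_eq_mul,
    abs_of_pos (Real.exp_pos x)]
  field_simp

theorem radial {V : Type} [NormedAddCommGroup V] [InnerProductSpace ℝ V] [FiniteDimensional ℝ V]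
    [MeasurableSpace V] [BorelSpace V] {k : ℕ} (hk : Module.finrank ℝ V = 2 * k) (h1 : 1 ≤ k)
    {ρ : ℝ} (hρ : 0 < ρ) : Integrable (fun v : V => wt (log (‖v‖ * ρ)) / ‖v‖ ^ (2 * k)) ∧
      ∫ v : V, wt (log (‖v‖ * ρ)) / ‖v‖ ^ (2 * k) = 2 * k * π ^ k / k.factorial := by
  have : Nontrivial V := Module.nontrivial_of_finrank_pos (R := ℝ) (by omega)
  have hb : (volume : Measure V).real (Metric.ball 0 1) = π ^ k / k.factorial := by
    rw [Measure.real, InnerProductSpace.volume_ball_of_dim_even (k := k) hk 0 1]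
    simp only [ENNReal.ofReal_one, one_pow, one_mul]
    exact ENNReal.toReal_ofReal (by positivity)
  have h2 : ∫ y in Ioi (0 : ℝ), y ^ (2 * k - 1) • (wt (log (y * ρ)) / y ^ (2 * k)) = 1 := by
    rw [← VolC_int_log hρ]
    refine setIntegral_congr_fun measurableSet_Ioi fun y hy => ?_
    have hy0 : y ≠ 0 := ne_of_gt hy
    obtain ⟨m, hm⟩ : ∃ m, 2 * k = m + 1 := ⟨2 * k - 1, by omega⟩
    simp only [smul_eq_mul, hm, Nat.add_sub_cancel, pow_succ]
    field_simp
  have h3 : ∫ v : V, wt (log (‖v‖ * ρ)) / ‖v‖ ^ (2 * k) = 2 * k * π ^ k / k.factorial := by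
    rw [integral_fun_norm_addHaar volume (fun r : ℝ => wt (log (r * ρ)) / r ^ (2 * k)), hb, hk, h2]
    simp only [smul_eq_mul, nsmul_eq_mul]
    push_cast
    ring
  refine ⟨Integrable.of_integral_ne_zero ?_, h3⟩
  rw [h3]
  have : (0 : ℝ) < k := by exact_mod_cast h1
  positivity

theorem VolC_frame {V : Type} [NormedAddCommGroup V] [InnerProductSpace ℝ V]
    [FiniteDimensional ℝ V] (G : V →L[ℝ] V →L[ℝ] ℝ) (hs : ∀ u w, G u w = G w u)
    (hp : ∀ u, u ≠ 0 → 0 < G u u) : ∃ T : V →ₗ[ℝ] V, ∀ u w, G (T u) (T w) = inner ℝ u w := by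
  obtain ⟨b, hv⟩ := LinearMap.BilinForm.exists_orthogonal_basis (B := G.toLinearMap₁₂)
    ⟨fun u w => hs u w⟩
  have hb1 : ∀ i j, i ≠ j → G (b i) (b j) = 0 := fun i j hij => hv hij
  have hb2 : ∀ i, 0 < G (b i) (b i) := fun i => hp _ (b.ne_zero i)
  obtain ⟨e, he⟩ : ∃ e : Fin (Module.finrank ℝ V) → V, ∀ i, e i = (√(G (b i) (b i)))⁻¹ • b i :=
    ⟨_, fun _ => rfl⟩
  have he1 : ∀ i j, G (e i) (e j) = if i = j then 1 else 0 := fun i j => by
    simp only [he, map_smul, smul_apply, smul_eq_mul]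
    split_ifs with hij
    · subst hij
      have h1 := Real.mul_self_sqrt (hb2 i).le
      have h2 := (Real.sqrt_pos.2 (hb2 i)).ne'
      field_simp
      linarith
    · rw [hb1 i j hij, mul_zero, mul_zero]
  let J := (stdOrthonormalBasis ℝ V).repr
  refine ⟨Fintype.linearCombination ℝ e ∘ₗ (WithLp.linearEquiv 2 ℝ _).toLinearMap ∘ₗ
    J.toLinearEquiv.toLinearMap, fun y y' => ?_⟩
  show G (∑ i, J y i • e i) (∑ i, J y' i • e i) = _
  rw [← J.inner_map_map]
  simp only [map_sum, map_smul, sum_apply, smul_apply, he1, smul_eq_mul, mul_ite, mul_one,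
    mul_zero, Finset.sum_ite_eq', Finset.mem_univ, if_true, PiLp.inner_apply]
  exact Finset.sum_congr rfl fun i _ => by simp

theorem VolC_meas (k : ℕ) : Measurable (rw0 k) :=
  (contDiff_wt.continuous.measurable.comp measurable_log).div (measurable_id.pow_const k)

theorem VolC_nonneg (k : ℕ) {r : ℝ} (hr : 0 ≤ r) : 0 ≤ rw0 k r :=
  div_nonneg (wt_nonneg _) (pow_nonneg hr k)

theorem VolC_fibre (hn : 1 ≤ n) {g : Met n} (h : IsMetric g) (a : EA n) :
    ∫⁻ u : EA n, ENNReal.ofReal (rw0 (4 * n) (spd g (sc0 (a, u))) * detG g (aff a)) =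
      ENNReal.ofReal (4 * n * π ^ (2 * n) / (2 * n).factorial) *
        ENNReal.ofReal √(detG g (aff a)) := by
  obtain ⟨G, hG⟩ : ∃ G : EA n →L[ℝ] EA n →L[ℝ] ℝ, G = (g (aff a)).bilinearComp (a0L n) (a0L n) :=
    ⟨_, rfl⟩
  have hG' : ∀ u w, G u w = g (aff a) (aff0 u) (aff0 w) := fun u w => by rw [hG]; rfl
  obtain ⟨T, hT⟩ := VolC_frame G (fun u w => by rw [hG', hG', h.symm _ _ _ (aff_ne a)])
    fun u hu => by
      rw [hG']
      exact h.pos _ _ (aff_ne a) (sc0_mem (y := (a, u)) hu).2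
  have hdet : (LinearMap.det T) ^ 2 * detG g (aff a) = 1 := by
    have h1 := cdet_comp G (LinearMap.toContinuousLinearMap T)
    rw [LinearMap.det_toContinuousLinearMap] at h1
    rw [detG_aff h, ← hG, ← h1, ← cdet_inner (n := n)]
    congr 1
    ext u w
    exact hT u w
  have hd0 : LinearMap.det T ≠ 0 := by
    intro e
    rw [e] at hdet
    simp at hdet
  have hsq : √(detG g (aff a)) = |(LinearMap.det T)⁻¹| := by
    rw [← Real.sqrt_sq_eq_abs, inv_pow, eq_inv_of_mul_eq_one_right hdet]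
  have hF : Measurable fun u : EA n => ENNReal.ofReal (rw0 (4 * n) √(G u u)) :=
    ((VolC_meas _).comp ((G.continuous.clm_apply continuous_id).sqrt).measurable).ennreal_ofReal
  have e : ∀ u : EA n, ENNReal.ofReal (rw0 (4 * n) (spd g (sc0 (a, u))) * detG g (aff a)) =
      ENNReal.ofReal (rw0 (4 * n) √(G u u)) * ENNReal.ofReal √(detG g (aff a)) *
        ENNReal.ofReal √(detG g (aff a)) := fun u => by
    rw [mul_assoc, ← ENNReal.ofReal_mul (sqrt_nonneg _),
      Real.mul_self_sqrt (h.detG_pos (aff_ne a)).le,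
      ← ENNReal.ofReal_mul (VolC_nonneg _ (sqrt_nonneg _)), hG']
    rfl
  simp only [e]
  rw [lintegral_mul_const _ (hF.mul_const _), lintegral_mul_const _ hF]
  congr 1
  rw [mul_comm, hsq, ← smul_eq_mul, ← lintegral_smul_measure,
    ← Measure.map_linearMap_addHaar_eq_smul_addHaar volume hd0,
    lintegral_map hF T.continuous_of_finiteDimensional.measurable]
  obtain ⟨h1, h2⟩ := radial (V := EA n) (k := 2 * n) (by rw [finrank_EA]; ring) (by omega) one_pos
  simp only [mul_one, show 2 * (2 * n) = 4 * n by ring] at h1 h2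
  rw [show (4 * n * π ^ (2 * n) / (2 * n).factorial : ℝ) = ∫ v : EA n, rw0 (4 * n) ‖v‖ by
    rw [show ∫ v : EA n, rw0 (4 * n) ‖v‖ = _ from h2]; push_cast; ring,
    ofReal_integral_eq_lintegral_ofReal (f := fun v : EA n => rw0 (4 * n) ‖v‖) h1
      (Eventually.of_forall fun v => VolC_nonneg _ (norm_nonneg v))]
  refine lintegral_congr fun u => ?_
  rw [hT, real_inner_self_eq_norm_sq, Real.sqrt_sq (norm_nonneg _)]

/-- The Riemannian volume computed in the affine chart. -/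
def vch (g : Met n) : ℝ := (∫⁻ a : EA n, ENNReal.ofReal √(detG g (aff a))).toReal

theorem int_chart (hn : 1 ≤ n) {g : Met n} (h : IsMetric g) :
    ∫ y : CH n, rw0 (4 * n) (spd g (sc0 y)) * detG g (aff y.1) =
      4 * n * π ^ (2 * n) / (2 * n).factorial * vch g := by
  have ca : Continuous fun y : CH n => aff y.1 := contDiff_sc0.continuous.fst
  have cb : Continuous fun y : CH n => aff0 y.2 := contDiff_sc0.continuous.snd
  have cg : Continuous fun y : CH n => g (aff y.1) :=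
    h.smooth.continuousOn.comp_continuous ca fun y => aff_ne y.1
  have cs : Continuous fun y : CH n => spd g (sc0 y) := by
    show Continuous fun y : CH n => √(g (aff y.1) (aff0 y.2) (aff0 y.2))
    exact ((cg.clm_apply cb).clm_apply cb).sqrt
  have cd : Continuous fun y : CH n => detG g (aff y.1) :=
    h.continuousOn_detG.comp_continuous ca fun y => aff_ne y.1
  have hm : Measurable fun y : CH n => rw0 (4 * n) (spd g (sc0 y)) * detG g (aff y.1) :=
    ((VolC_meas _).comp cs.measurable).mul cd.measurable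
  have h0 : ∀ y : CH n, 0 ≤ rw0 (4 * n) (spd g (sc0 y)) * detG g (aff y.1) := fun y =>
    mul_nonneg (VolC_nonneg _ (sqrt_nonneg _)) (h.detG_pos (aff_ne y.1)).le
  rw [integral_eq_lintegral_of_nonneg_ae (Eventually.of_forall h0)
    hm.aestronglyMeasurable, Measure.volume_eq_prod,
    lintegral_prod _ hm.ennreal_ofReal.aemeasurable]
  simp only [VolC_fibre hn h]
  rw [lintegral_const_mul' _ _ ENNReal.ofReal_ne_top, ENNReal.toReal_mul,
    ENNReal.toReal_ofReal (by positivity), vch]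

theorem int_target (hn : 1 ≤ n) : Integrable (fun w : CH n => rw0 (8 * n) (nr w)) ∧
    ∫ w : CH n, rw0 (8 * n) (nr w) = 8 * n * π ^ (4 * n) / (4 * n).factorial := by
  obtain ⟨h1, h2⟩ := radial (V := WithLp 2 (EA n × EA n)) (k := 4 * n) (by
    rw [(WithLp.linearEquiv 2 ℝ _).finrank_eq, Module.finrank_prod, finrank_EA]
    ring) (by omega) one_pos
  simp only [mul_one, show 2 * (4 * n) = 8 * n by ring] at h1 h2
  have hP := WithLp.volume_preserving_toLp (EA n) (EA n)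
  have hE : MeasurableEmbedding (WithLp.toLp 2 : EA n × EA n → _) :=
    (MeasurableEquiv.toLp 2 _).measurableEmbedding
  have e : (fun w : CH n => rw0 (8 * n) (nr w)) =
      fun w : CH n => rw0 (8 * n) ‖WithLp.toLp 2 w‖ := by
    ext w
    rw [WithLp.prod_norm_eq_of_L2]
    rfl
  rw [e]
  refine ⟨(hP.integrable_comp_emb hE (g := fun v => rw0 (8 * n) ‖v‖)).2 h1, ?_⟩
  rw [hP.integral_comp hE fun v => rw0 (8 * n) ‖v‖]
  refine h2.trans ?_
  push_cast
  ring

end Pool.Agent.Work.MP_8c604c_gt.C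
end
end

-- merged part: Pool.Agent.Work.MP_8c604c_gt.C.VolD
section
/-!
The volume upstairs and the volume in the chart.
Plan. The integrand is nonnegative and measurable, so integral_eq_lintegral_of_nonneg_ae and Tonelli; no integrability is needed.
vol_chart: E n is isometric to WithLp 2 (H x EA n) by (l, v) -> l . aff 0 + aff0 v (LinearIsometryEquiv.measurePreserving, WithLp.volume_preserving_ofLp); for l not 0 substitute v = l . a
(Measure.map_linearMap_addHaar_eq_smul_addHaar, determinant |l|^(4n) as in H/Base det_csmul), l . aff 0 + aff0 (l . a) = l . aff a, detG_smul, swap, radial with k = 2, rho = |aff a|.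
-/

set_option maxSynthPendingDepth 3

open Set Filter Topology MeasureTheory
open scoped ContDiff Quaternion

noncomputable section
namespace Pool.Agent.Work.MP_8c604c_gt.C

open H T TopologicalSpace Lam Om

variable {n : ℕ}

open Real

/-- Splitting off the first coordinate. -/
def VolD_iso (n : ℕ) : WithLp 2 (ℍ × EA n) ≃ₗᵢ[ℝ] E n where
  toFun p := WithLp.toLp 2 (Fin.cons p.fst p.snd)
  invFun z := WithLp.toLp 2 (z 0, tl n z)
  map_add' p q := by
    ext i : 1
    refine Fin.cases ?_ (fun j => ?_) i <;> simp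
  map_smul' r p := by
    ext i : 1
    refine Fin.cases ?_ (fun j => ?_) i <;> simp
  left_inv p := rfl
  right_inv z := by
    ext i : 1
    refine Fin.cases ?_ (fun j => ?_) i <;> rfl
  norm_map' p := by
    refine (sq_eq_sq₀ (norm_nonneg _) (norm_nonneg _)).1 ?_
    rw [WithLp.prod_norm_sq_eq_of_L2, PiLp.norm_sq_eq_of_L2, PiLp.norm_sq_eq_of_L2,
      Fin.sum_univ_succ]
    rfl

theorem VolD_smul (l : ℍ) (a : EA n) : VolD_iso n (WithLp.toLp 2 (l, l • a)) = l • aff a := by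
  ext i : 1
  refine Fin.cases ?_ (fun j => ?_) i
  · exact (mul_one l).symm
  · rfl

theorem VolD_det (c : ℍ) : (c • ContinuousLinearMap.id ℝ (EA n)).det = ‖c‖ ^ (4 * n) := by
  cases n with
  | zero => exact LinearMap.det_eq_one_of_finrank_eq_zero finrank_EA _
  | succ m => exact det_csmul (n := m) c

theorem VolD_subst {l : ℍ} (hl : l ≠ 0) (F : EA n → ENNReal) :
    ∫⁻ v, F v = ∫⁻ a, ENNReal.ofReal (‖l‖ ^ (4 * n)) * F (l • a) := by
  have h := lintegral_image_eq_lintegral_abs_det_fderiv_mul (volume : Measure (EA n))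
    MeasurableSet.univ (f := fun a => l • a) (f' := fun _ => l • ContinuousLinearMap.id ℝ (EA n))
    (fun x _ => (l • ContinuousLinearMap.id ℝ (EA n)).hasFDerivAt.hasFDerivWithinAt)
    (MulAction.injective₀ hl).injOn F
  rw [image_univ_of_surjective (fun v => ⟨l⁻¹ • v, smul_inv_smul₀ hl v⟩), Measure.restrict_univ,
    VolD_det, abs_of_nonneg (by positivity)] at h
  exact h

theorem VolD_ne (a : EA n) : aff a ≠ 0 := fun h => by
  simpa [aff] using congrArg (fun z : E n => z 0) h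

theorem VolD_cont : Continuous (aff : EA n → E n) := by
  rw [funext (aff_eq (n := n))]
  exact continuous_const.add (a0L n).continuous

theorem vol_chart {g : Met n} (h : IsMetric g) : vol g = 2 * π ^ 2 * vch g := by
  have mw : Measurable fun r : ℝ => wt (log r) := contDiff_wt.continuous.measurable.comp measurable_log
  have md : Measurable fun y : E n => √(detG g y) :=
    (measurable_of_continuousOn_compl_singleton 0 h.continuousOn_detG).sqrt
  have m1 : Measurable fun y : E n => √(detG g y) * wt (log ‖y‖) := md.mul (mw.comp measurable_norm)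
  have ma : Measurable fun a : EA n => ENNReal.ofReal √(detG g (aff a)) :=
    (md.comp VolD_cont.measurable).ennreal_ofReal
  have hp := ((VolD_iso n).measurePreserving).comp (WithLp.volume_preserving_toLp ℍ (EA n))
  have e1 : ∀ l : ℍ, l ≠ 0 → ∀ a : EA n, ENNReal.ofReal (‖l‖ ^ (4 * n)) *
      ENNReal.ofReal (√(detG g (l • aff a)) * wt (log ‖l • aff a‖)) =
      ENNReal.ofReal √(detG g (aff a)) *
        ENNReal.ofReal (wt (log (‖l‖ * ‖aff a‖)) / ‖l‖ ^ (2 * 2)) := by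
    intro l hl a
    have hn := norm_pos_iff.2 hl
    rw [← ENNReal.ofReal_mul (by positivity), ← ENNReal.ofReal_mul (sqrt_nonneg _), norm_smul,
      ← h.detG_smul hl (VolD_ne a), sqrt_mul' _ (by positivity),
      show ‖l‖ ^ (8 * n + 8) = (‖l‖ ^ (4 * n) * ‖l‖ ^ (2 * 2)) ^ 2 by ring,
      sqrt_sq (by positivity)]
    congr 1
    field_simp
  have e2 : ∀ a : EA n, ∫⁻ l : ℍ, ENNReal.ofReal (wt (log (‖l‖ * ‖aff a‖)) / ‖l‖ ^ (2 * 2)) =
      ENNReal.ofReal (2 * π ^ 2) := by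
    intro a
    obtain ⟨k1, k2⟩ := radial (V := ℍ) (k := 2) Quaternion.finrank_eq_four one_le_two
      (norm_pos_iff.2 (VolD_ne a))
    rw [← ofReal_integral_eq_lintegral_ofReal k1
      (.of_forall fun l => div_nonneg (wt_nonneg _) (by positivity)), k2]
    congr 1
    simp only [Nat.factorial, Nat.cast_ofNat, Nat.succ_eq_add_one, Nat.reduceAdd, Nat.reduceMul]
    ring
  have mb : Measurable fun p : ℍ × EA n =>
      ENNReal.ofReal (wt (log (‖p.1‖ * ‖aff p.2‖)) / ‖p.1‖ ^ (2 * 2)) :=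
    ((mw.comp (measurable_fst.norm.mul (VolD_cont.measurable.comp measurable_snd).norm)).div
      (measurable_fst.norm.pow_const _)).ennreal_ofReal
  have mc : Measurable fun p : ℍ × EA n => ENNReal.ofReal
      (√(detG g ((VolD_iso n ∘ WithLp.toLp 2) p)) * wt (log ‖(VolD_iso n ∘ WithLp.toLp 2) p‖)) :=
    m1.ennreal_ofReal.comp hp.measurable
  have me : Measurable (Function.uncurry fun (l : ℍ) (a : EA n) => ENNReal.ofReal √(detG g (aff a)) *
      ENNReal.ofReal (wt (log (‖l‖ * ‖aff a‖)) / ‖l‖ ^ (2 * 2))) := (ma.comp measurable_snd).mul mb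
  rw [vol, integral_eq_lintegral_of_nonneg_ae
    (.of_forall fun y => mul_nonneg (sqrt_nonneg _) (wt_nonneg _)) m1.aestronglyMeasurable,
    ← hp.lintegral_comp m1.ennreal_ofReal, Measure.volume_eq_prod,
    lintegral_prod _ mc.aemeasurable]
  have e3 : ∀ᵐ l : ℍ, ∫⁻ v : EA n, ENNReal.ofReal
      (√(detG g ((VolD_iso n ∘ WithLp.toLp 2) (l, v))) *
        wt (log ‖(VolD_iso n ∘ WithLp.toLp 2) (l, v)‖)) =
      ∫⁻ a : EA n, ENNReal.ofReal √(detG g (aff a)) *
        ENNReal.ofReal (wt (log (‖l‖ * ‖aff a‖)) / ‖l‖ ^ (2 * 2)) := by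
    filter_upwards [Measure.ae_ne volume (0 : ℍ)] with l hl
    rw [VolD_subst hl]
    refine lintegral_congr fun a => ?_
    rw [Function.comp_apply, VolD_smul, e1 l hl]
  rw [lintegral_congr_ae e3, lintegral_lintegral_swap me.aemeasurable]
  have e4 : ∀ a : EA n, ∫⁻ l : ℍ, ENNReal.ofReal √(detG g (aff a)) *
      ENNReal.ofReal (wt (log (‖l‖ * ‖aff a‖)) / ‖l‖ ^ (2 * 2)) =
      ENNReal.ofReal √(detG g (aff a)) * ENNReal.ofReal (2 * π ^ 2) := fun a => by
    rw [lintegral_const_mul' _ _ ENNReal.ofReal_ne_top, e2]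
  rw [lintegral_congr e4, lintegral_mul_const _ ma, ENNReal.toReal_mul,
    ENNReal.toReal_ofReal (by positivity), vch, mul_comm]

end Pool.Agent.Work.MP_8c604c_gt.C
end
end

-- merged part: Pool.Agent.Work.MP_8c604c_gt.C.Main
section
/-!
Block C, assembly: the volume bound.
-/

set_option maxSynthPendingDepth 3

open Set Filter Topology MeasureTheory
open scoped ContDiff Quaternion

noncomputable section
namespace Pool.Agent.Work.MP_8c604c_gt.C

open H T TopologicalSpace Lam Om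

variable {n : ℕ}

open Real

theorem catalan_eq (hn : 1 ≤ n) : ((4 * n).choose (2 * n) : ℝ) - (4 * n).choose (2 * n - 1) =
    (4 * n).factorial / ((2 * n).factorial * (2 * n + 1).factorial) := by
  obtain ⟨k, hk⟩ : ∃ k, 2 * n = k + 1 := ⟨2 * n - 1, by omega⟩
  rw [Nat.cast_choose ℝ (by omega : 2 * n ≤ 4 * n), Nat.cast_choose ℝ (by omega : 2 * n - 1 ≤ 4 * n),
    show 4 * n - 2 * n = 2 * n by omega, show 4 * n - (2 * n - 1) = 2 * n + 1 by omega, hk,
    Nat.add_sub_cancel, Nat.factorial_succ (k + 1), Nat.factorial_succ k]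
  push_cast
  field_simp
  ring

theorem nr_nonneg (w : CH n) : 0 ≤ nr w := sqrt_nonneg _

theorem nr_sq (w : CH n) : nr w ^ 2 = ‖w.1‖ ^ 2 + ‖w.2‖ ^ 2 := sq_sqrt (by positivity)

theorem nr_smul {r : ℝ} (hr : 0 ≤ r) (w : CH n) : nr (r • w) = r * nr w := by
  rw [nr, nr, Prod.smul_fst, Prod.smul_snd, norm_smul, norm_smul, mul_pow, mul_pow, ← mul_add,
    sqrt_mul (sq_nonneg _), Real.norm_eq_abs, sq_abs, sqrt_sq hr]

theorem nr_pos {w : CH n} (hw : w ≠ 0) : 0 < nr w := by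
  refine sqrt_pos.2 (lt_of_le_of_ne (by positivity) fun e => hw ?_)
  have h1 : ‖w.1‖ ^ 2 = 0 := by nlinarith [sq_nonneg ‖w.1‖, sq_nonneg ‖w.2‖]
  have h2 : ‖w.2‖ ^ 2 = 0 := by nlinarith [sq_nonneg ‖w.1‖, sq_nonneg ‖w.2‖]
  exact Prod.ext (by simpa using h1) (by simpa using h2)

theorem nr_rot (t : ℝ) (w : CH n) : nr (cos t • w + sin t • Jc w) = nr w := by
  simp only [nr, Jc, Prod.fst_add, Prod.snd_add, Prod.smul_fst, Prod.smul_snd, norm_add_sq_real,
    norm_smul, Real.norm_eq_abs, mul_pow, sq_abs, norm_neg, real_inner_smul_left,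
    real_inner_smul_right, inner_neg_right, real_inner_comm w.1 w.2]
  congr 1
  linear_combination (‖w.1‖ ^ 2 + ‖w.2‖ ^ 2) * cos_sq_add_sin_sq t

theorem contDiffAt_nr {w : CH n} (hw : w ≠ 0) : ContDiffAt ℝ ∞ (nr : CH n → ℝ) w :=
  (((contDiff_norm_sq ℝ).comp contDiff_fst).add ((contDiff_norm_sq ℝ).comp contDiff_snd)).contDiffAt.sqrt
    (sqrt_pos.1 (nr_pos hw)).ne'

theorem rw0_nonneg (k : ℕ) {r : ℝ} (hr : 0 ≤ r) : 0 ≤ rw0 k r :=
  div_nonneg (wt_nonneg _) (pow_nonneg hr k)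

theorem vol_le_of_fd (hn : 2 ≤ n) (hcl : CountLe n) {g : Met n} (h : IsMetric g) {D : TD n} {lp : VV n → LM n}
    (L : Lnk g D lp) (P : FD g) (e : (Fin (4 * n) → ℂ) ≃L[ℝ] CH n)
    (hΦ : ∀ x ∈ OO n, e (D.Φ (lp x)) = P.f x) :
    vol g ≤ 2 * π ^ (2 * n + 2) / (2 * n + 1).factorial := by
  have hn1 : 1 ≤ n := by omega
  obtain ⟨c, hc, hp⟩ := den_pts hn1
  obtain ⟨p1, p2⟩ := hp g h
  have hU : IsOpen {y : CH n | y.2 ≠ 0} := (U0 n).isOpen
  have e1 := P.indep h (4 * n - 1)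
  have i1 := integrable_den (adm_spd h)
    (mul_mem P.alP_basic (pow_mem ((actB n).d_mem P.alP_basic) (4 * n - 1)))
  rw [funext (p2 P)] at i1
  simp only [p1, p2 P] at e1
  rw [integral_const_mul, integral_const_mul, int_chart hn1 h] at e1
  have e2 : ∀ y ∈ {y : CH n | y.2 ≠ 0}, spd g (sc0 y) = nr (P.cone (sc0 y)) := fun y hy => by
    rw [FD.cone, nr_smul (h.spd_pos (sc0_mem hy)).le, P.f_unit _ (sc0_mem hy), mul_one]
  have i2 := ((integrable_const_mul_iff (IsUnit.mk0 _ (div_ne_zero hc two_ne_zero)) _).1 i1).integrableOn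
    (s := {y : CH n | y.2 ≠ 0})
  have e3 := catalan_eq hn1
  have a1 := area_bound volume hU (f := fun y => P.cone (sc0 y))
    (((P.contDiffOn_cone h).comp contDiff_sc0.contDiffOn fun _ hy => sc0_mem hy).of_le (by simp))
    (φ := fun w => rw0 (8 * n) (nr w)) (fun w => rw0_nonneg _ (nr_nonneg w)) (int_target hn1).1
    (i2.congr_fun (fun y hy => by simp only [e2 y hy]) hU.measurableSet) (by rw [e3]; positivity)
    (count_bound hn hcl h L P e hΦ)
  rw [(int_target hn1).2, e3, ← setIntegral_congr_fun hU.measurableSet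
    (f := fun y => rw0 (8 * n) (spd g (sc0 y)) * (fderiv ℝ (fun y => P.cone (sc0 y)) y).det)
    (fun y hy => by simp only [e2 y hy]), setIntegral_eq_integral_of_forall_compl_eq_zero
    (fun y hy => by
      have : y.2 = 0 := not_not.1 hy
      have h0 : spd g (sc0 y) = 0 := by simp [spd, sc0, this, ← a0L_apply]
      rw [h0, rw0, zero_pow (by omega), div_zero, zero_mul])] at a1
  have e4 := mul_left_cancel₀ hc (show c * _ = c * _ from (by rw [← e1]; ring :
    c * (4 * n * π ^ (2 * n) / (2 * n).factorial * vch g) = c * (1 / 2 * ∫ y : CH n,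
      rw0 (8 * n) (spd g (sc0 y)) * (fderiv ℝ (fun y => P.cone (sc0 y)) y).det)))
  have a2 := (le_abs_self _).trans a1
  have n0 : (0 : ℝ) < n := by exact_mod_cast hn1
  have k0 : 0 < 4 * n * π ^ (2 * n) / (2 * n).factorial := by positivity
  have a3 : vch g ≤ π ^ (2 * n) / (2 * n + 1).factorial := by
    refine le_of_mul_le_mul_left ?_ k0
    rw [e4]
    refine (mul_le_mul_of_nonneg_left a2 (by norm_num)).trans_eq ?_
    rw [show 4 * n = 2 * n + 2 * n by ring, pow_add]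
    field_simp
    ring
  rw [vol_chart h]
  refine (mul_le_mul_of_nonneg_left a3 (by positivity)).trans_eq ?_
  ring

theorem main_e {e : (Fin (4 * n) → ℂ) ≃L[ℝ] CH n} (he : ∀ w, e (Complex.I • w) = Jc (e w)) (t : ℝ)
    (w : Fin (4 * n) → ℂ) : e (Complex.exp (t * Complex.I) • w) = cos t • e w + sin t • Jc (e w) := by
  rw [Complex.exp_mul_I, add_smul, mul_smul, ← Complex.ofReal_cos, ← Complex.ofReal_sin,
    Complex.coe_smul, Complex.coe_smul, map_add, map_smul, map_smul, he]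

/-- The output of block C. -/
theorem vol_le (hn : 2 ≤ n) (hcl : CountLe n) {g : Met n} (h : IsMetric g) (G : Geo g) (D : TD n) (lp : VV n → LM n)
    (F : VV n → Fin (4 * n) → ℂ) (hF : ContDiffOn ℝ ∞ F (OO n)) (hI : H.Inv F)
    (hψ : ∀ t, ∀ x ∈ OO n, F (G.psi t x) = Complex.exp (2 * t * Complex.I) • F x)
    (hS : ∀ c, c ∈ D.S ↔ ∃ x ∈ OO n, c = lp x) (h1 : ∀ x ∈ OO n, lp x 1 = pr x.1)
    (hv : ∀ x ∈ OO n, D.vel (lp x) = fderiv ℝ pr x.1 (vel g x))
    (hΦ : ∀ x ∈ OO n, D.Φ (lp x) = F x) :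
    vol g ≤ 2 * π ^ (2 * n + 2) / (2 * n + 1).factorial := by
  obtain ⟨e, he⟩ := exists_e n
  have p0 : ∀ c ∈ D.S, e (D.Φ c) ≠ 0 := fun c hc h0 => D.neΦ c hc (e.map_eq_zero_iff.1 h0)
  have p1 : ∀ x ∈ OO n, e (F x) ≠ 0 := fun x hx => hΦ x hx ▸ p0 _ ((hS _).2 ⟨x, hx, rfl⟩)
  have hs : ContDiffOn ℝ ∞ (fun x => e (F x)) (OO n) := e.contDiff.comp_contDiffOn hF
  have hr : ∀ t, ∀ x ∈ OO n, e (F (G.psi t x)) =
      cos (2 * t) • e (F x) + sin (2 * t) • Jc (e (F x)) := fun t x hx => by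
    rw [hψ t x hx, ← main_e he]
    push_cast
    rfl
  let D' : TD n :=
    { D with
      Φ := fun c => (nr (e (D.Φ c)))⁻¹ • D.Φ c
      cΦ := fun c hc => (((contDiffAt_nr (p0 c hc)).continuousAt.comp_continuousWithinAt
        (f := fun c => e (D.Φ c)) (e.continuous.comp_continuousOn D.cΦ c hc)).inv₀
          (nr_pos (p0 c hc)).ne').smul (D.cΦ c hc)
      eqΦ := fun θ c hc => by
        rw [D.eqΦ θ c hc, smul_comm]
        congr 3
        rw [← Circle.exp_arg θ, Circle.coe_exp, main_e he, nr_rot]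
      neΦ := fun c hc => smul_ne_zero (inv_ne_zero (nr_pos (p0 c hc)).ne') (D.neΦ c hc) }
  let P : FD g :=
    { ψ := G.psi
      ψ_smooth := G.contDiffOn_psi h
      ψ_mem := fun t _ hx => G.psi_mem h t hx
      ψ_zero := fun _ hx => G.psi_zero h hx
      ψ_add := fun s t _ hx => G.psi_add h s t hx
      ψ_al := fun t _ hx δ => G.al_psi h t hx δ
      ψ_vel := fun x hx => by
        have := G.hasDerivAt_Z h 0 hx
        rwa [G.psi_zero h hx] at this
      f := fun x => (nr (e (F x)))⁻¹ • e (F x)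
      f_smooth := ContDiffOn.smul (ContDiffOn.inv (f := fun x => nr (e (F x))) (fun x hx =>
        ContDiffAt.comp_contDiffWithinAt (g := nr) x (contDiffAt_nr (p1 x hx)) (hs x hx))
          fun x hx => (nr_pos (p1 x hx)).ne') hs
      f_inv := fun l m c x hl hm hx => by simp only [hI l m c x hl hm hx]
      f_unit := fun x hx => by
        rw [nr_smul (inv_nonneg.2 (nr_nonneg _)), inv_mul_cancel₀ (nr_pos (p1 x hx)).ne']
      f_rot := fun t x hx => by
        rw [hr t x hx, nr_rot]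
        simp only [Jc, smul_add, Prod.smul_mk, Prod.smul_fst, Prod.smul_snd,
          smul_neg, smul_comm (nr (e (F x)))⁻¹] }
  refine vol_le_of_fd hn hcl h (D := D') (lp := lp) ⟨hS, h1, hv⟩ P e fun x hx => ?_
  change e ((nr (e (D.Φ (lp x))))⁻¹ • D.Φ (lp x)) = (nr (e (F x)))⁻¹ • e (F x)
  rw [hΦ x hx, map_smul]

end Pool.Agent.Work.MP_8c604c_gt.C
end
end

-- merged part: Pool.Agent.Work.MP_8c604c_gt.OG.Cone
section
/-!
The cone over the equivariant map, the chart of the tangent bundle.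
Hints.  `tch_mem`: `r (φ a) = φ a`, chain rule with `𝕄.der`.  `exists_tch_inv`: the derivative `A a = fderiv φ a` is injective and
continuous in `a`, its range is the range of `tp (φ a)` (rank 16); the left inverse `(A† A)⁻¹ A†` is continuous in `a`
(`ContinuousLinearMap.adjoint`, `ContinuousLinearMap.inverse`, `contDiffAt_map_inverse`); `ti y = (χ y.1, left inverse at χ y.1 of y.2)`.
`exists_ptT`: `exists_gen`, `zb_tch`, `Gen.exists_pul`, `gen_supp_sign` with `gen_wT`; the vanishing of `H^32 (Tt \ pt, zs)` by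
excision to `totR tp (M \ {p})`, `RB.thZ`, `ThZ.van`, `Q.vanp`.
-/

noncomputable section

set_option linter.unusedSectionVars false
set_option linter.unusedVariables false

namespace Pool.Agent.Work.MP_8c604c_gt.OT

open Set Topology Real Pool.Agent.Work.MP_849ab0_ag.G T

variable {V : Type} [NormedAddCommGroup V] [InnerProductSpace ℝ V] [FiniteDimensional ℝ V]
  {𝕄 : Mf V} {k : ℕ}

/-- vectors of length at most `R` -/
def KR (V : Type) [Norm V] (R : ℝ) : Set (V × V) := {y | ‖y.2‖ ≤ R}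

theorem zb_KR {R : ℝ} (hR : 0 ≤ R) : ZB id 𝕄.Tt (KR V R) 𝕄.Tt (zs V V) := by
  have cz : IsClosed (zs V V) := isClosed_eq continuous_snd continuous_const
  have key : ∀ y : V × V, y.2 ≠ 0 → ∀ t ∈ Icc (0 : ℝ) 1,
      ‖(1 + t * (R + 1) / ‖y.2‖) • y.2‖ = ‖y.2‖ + t * (R + 1) := fun y h t ht => by
    have h1 := norm_pos_iff.2 h
    have h2 := ht.1
    rw [norm_smul, Real.norm_of_nonneg (by positivity)]
    field_simp
  have sub : ∀ y : V × V, y ∈ zs V V → y ∈ KR V R := fun y h => by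
    have : y.2 = 0 := h
    show ‖y.2‖ ≤ R
    rwa [this, norm_zero]
  refine ZB.supp (fun y _ h => sub y h) (ZB.retract (Z := univ)
    (F := fun z => (z.1.1, (1 + z.2 * (R + 1) / ‖z.1.2‖) • z.1.2))
    (fun y h => ⟨h.1, fun k => h.2 (sub y k)⟩) (fun _ _ => Iff.rfl)
    (ext_htpy (lc_Tt.inter cz.isOpen_compl.isLocallyClosed) ?_) (fun y h t ht => ⟨h.1.rsmul _, ?_⟩)
    (fun y h t ht => ⟨h.1.rsmul _, ?_⟩) (fun _ _ _ _ _ => trivial) (fun y _ => by simp)
    fun y h => ⟨h.1.rsmul _, ?_⟩)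
  · have c1 : ContinuousOn (fun z : (V × V) × ℝ => z.2 * (R + 1) / ‖z.1.2‖)
        ((𝕄.Tt \ zs V V) ×ˢ Icc 0 1) :=
      ContinuousOn.div (by fun_prop) (by fun_prop) fun z hz => norm_ne_zero_iff.2 hz.1.2
    exact continuous_fst.fst.continuousOn.prodMk
      ((continuousOn_const.add c1).smul continuous_fst.snd.continuousOn)
  · intro k
    have k1 := key y h.2 t ht
    have k2 : (1 + t * (R + 1) / ‖y.2‖) • y.2 = 0 := k
    have k3 := norm_pos_iff.2 (h.2 : y.2 ≠ 0)
    rw [k2, norm_zero] at k1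
    nlinarith [ht.1]
  · intro k
    have k1 := key y (fun e => h.2 (sub y e)) t ht
    have k2 : ‖(1 + t * (R + 1) / ‖y.2‖) • y.2‖ ≤ R := k
    have k3 : ¬ ‖y.2‖ ≤ R := h.2
    rw [k1] at k2
    nlinarith [ht.1]
  · intro k
    have k1 := key y h.2 1 ⟨zero_le_one, le_rfl⟩
    have k2 : ‖(1 + 1 * (R + 1) / ‖y.2‖) • y.2‖ ≤ R := k
    rw [k1] at k2
    linarith [norm_nonneg y.2]

namespace TD0

variable (D : TD0 𝕄 k) {Φ : LM V → Fin 16 → ℂ}

/-- the cone over `Φ` -/
def Cn (Φ : LM V → Fin 16 → ℂ) (y : V × V) : Fin 16 → ℂ := D.gr y • Φ (D.gc y)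

theorem Cn_eq {c : LM V} (hc : c ∈ D.S) {r : ℝ} (hr : 0 < r) :
    D.Cn Φ (c 1, r • D.vel c) = r • Φ c := by
  rw [Cn, (D.gc_eq hc hr).1, (D.gc_eq hc hr).2]

variable (cΦ : ContinuousOn Φ D.S) (neΦ : ∀ c ∈ D.S, Φ c ≠ 0)

include cΦ in
theorem cont_Cn : ContinuousOn (D.Cn Φ) 𝕄.Tt := by
  obtain ⟨M, hM⟩ := D.cpt.exists_bound_of_continuousOn cΦ
  refine geob_smul_cont (Z := zs V V) (M := M)
    (isClosed_eq continuous_snd continuous_const) D.cont_gr
    (cΦ.comp D.cont_gc fun y h => (D.gc_spec h.1 h.2).1) (fun y _ h => ?_)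
    fun y h => hM _ (D.gc_spec h.1 h.2).1
  obtain ⟨p, X⟩ := y
  obtain rfl : X = 0 := h
  exact D.gr_zero p

include neΦ in
theorem Cn_eq_zero {y : V × V} (hy : y ∈ 𝕄.Tt) : D.Cn Φ y = 0 ↔ y.2 = 0 := by
  refine ⟨fun e => by_contra fun h => ?_, fun e => ?_⟩
  · have k := D.gc_spec hy h
    exact (smul_ne_zero k.2.2.1.ne' (neΦ _ k.1)) e
  · obtain ⟨p, X⟩ := y
    obtain rfl : X = 0 := e
    rw [Cn, D.gr_zero, zero_smul]

include cΦ neΦ

theorem Cn_bound : ∃ a : ℝ, 0 < a ∧ ∀ y ∈ 𝕄.Tt, a * ‖y.2‖ ≤ ‖D.Cn Φ y‖ := by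
  obtain ⟨a, b, ha, -, h⟩ := D.gr_bound
  rcases D.S.eq_empty_or_nonempty with e | ne
  · refine ⟨1, one_pos, fun y hy => ?_⟩
    by_cases h0 : y.2 = 0
    · rw [h0, norm_zero, mul_zero]
      exact norm_nonneg _
    · exact absurd (D.gc_spec hy h0).1 (e ▸ notMem_empty _)
  obtain ⟨c, hc, hm⟩ := D.cpt.exists_isMinOn ne cΦ.norm
  have hp := norm_pos_iff.2 (neΦ c hc)
  refine ⟨a * ‖Φ c‖, by positivity, fun y hy => ?_⟩
  by_cases h0 : y.2 = 0
  · rw [h0, norm_zero, mul_zero]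
    exact norm_nonneg _
  · have k := D.gc_spec hy h0
    rw [Cn, norm_smul, Real.norm_of_nonneg k.2.2.1.le, mul_right_comm]
    exact mul_le_mul (h y hy).1 (hm k.1) hp.le k.2.2.1.le

theorem ok_Cn : Ok (D.Cn Φ) 𝕄.Tt (zs V V) univ {0} :=
  ok_of lc_Tt (D.cont_Cn cΦ) (mapsTo_univ _ _) fun _ h e => (D.Cn_eq_zero neΦ h).1 e

/-- moving the value -/
theorem Cn_move (w : Fin 16 → ℂ) : ∃ R₀ : ℝ, ∀ R, R₀ ≤ R →
    ∀ a : H (univ : Set (Fin 16 → ℂ)) {0},
      pull (fun y => D.Cn Φ y - w) 𝕄.Tt (KR V R) a = pull (D.Cn Φ) 𝕄.Tt (KR V R) a := by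
  obtain ⟨a, ha, h⟩ := D.Cn_bound cΦ neΦ
  refine ⟨‖w‖ / a, fun R hR b => ?_⟩
  refine (LinearMap.congr_fun (pull_htpy' (U' := univ) (Z' := {0})
    (F := fun z => D.Cn Φ z.1 - z.2 • w)
    (ext_htpy lc_Tt (((D.cont_Cn cΦ).comp continuousOn_fst fun z hz => hz.1).sub (by fun_prop)))
    (fun _ _ _ _ => trivial) (fun y hy t ht k => ?_) (fun _ _ => by simp)
    fun _ _ => by simp) b).symm
  have k1 : D.Cn Φ y = t • w := sub_eq_zero.1 k
  have k2 := h y hy
  rw [k1, norm_smul, Real.norm_of_nonneg ht.1] at k2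
  refine le_trans ((le_div_iff₀ ha).2 ?_) hR
  nlinarith [ht.2, norm_nonneg w]

end TD0

/-- a continuous family of injective maps has a continuous family of left inverses -/
theorem Cone_li {X E : Type} [TopologicalSpace X] [NormedAddCommGroup E] [InnerProductSpace ℝ E]
    [FiniteDimensional ℝ E] {A : X → E →L[ℝ] V} (hA : Continuous A)
    (h : ∀ a, Function.Injective (A a)) :
    ∃ L : X → V →L[ℝ] E, Continuous L ∧ ∀ a v, L a (A a v) = v := by
  have := FiniteDimensional.complete ℝ E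
  have := FiniteDimensional.complete ℝ V
  have c : Continuous fun a => ContinuousLinearMap.adjoint (A a) :=
    ContinuousLinearMap.adjoint.continuous.comp hA
  have j : ∀ T : E →L[ℝ] E, Function.Injective T → T.IsInvertible := fun T hT =>
    ⟨(LinearEquiv.ofInjectiveEndo (T : E →ₗ[ℝ] E) hT).toContinuousLinearEquiv,
      ContinuousLinearMap.ext fun _ => rfl⟩
  have i : ∀ a, ((ContinuousLinearMap.adjoint (A a)).comp (A a)).IsInvertible := fun a =>
    j _ (by
      rw [ContinuousLinearMap.coe_comp]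
      exact (A a).adjoint_comp_self_injective_iff.2 (h a))
  refine ⟨fun a => ((ContinuousLinearMap.adjoint (A a)).comp (A a)).inverse.comp
    (ContinuousLinearMap.adjoint (A a)), Continuous.clm_comp
      (continuous_iff_continuousAt.2 fun a => ?_) c, fun a v => (i a).inverse_apply_self v⟩
  exact ContinuousAt.comp (f := fun a => (ContinuousLinearMap.adjoint (A a)).comp (A a))
    ((i a).contDiffAt_map_inverse (n := 0)).continuousAt (c.clm_comp hA).continuousAt

namespace Ch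

variable (C : Ch 𝕄)

/-- the chart of the tangent bundle -/
def tch (x : RN 16 × RN 16) : V × V := (C.φ x.1, fderiv ℝ C.φ x.1 x.2)

theorem continuous_tch : Continuous C.tch :=
  (C.sm.continuous.comp continuous_fst).prodMk
    (((C.sm.continuous_fderiv (by simp)).comp continuous_fst).clm_apply continuous_snd)

theorem tch_mem (x : RN 16 × RN 16) : C.tch x ∈ 𝕄.Tt := by
  have h := (C.sm.differentiable (by simp) x.1).hasFDerivAt
  have h1 := (𝕄.der _ (C.mem x.1).1).comp x.1 h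
  rw [show 𝕄.r ∘ C.φ = C.φ from funext fun a => 𝕄.fix _ (C.mem a).1] at h1
  exact ⟨(C.mem x.1).1, DFunLike.congr_fun (h1.unique h) x.2⟩

theorem tch_snd {x : RN 16 × RN 16} : (C.tch x).2 = 0 ↔ x.2 = 0 :=
  map_eq_zero_iff _ (C.inj x.1)

theorem exists_tch_inv : ∃ (O : Set (V × V)) (ti : V × V → RN 16 × RN 16), IsOpen O ∧
    ContinuousOn ti O ∧ (∀ x, C.tch x ∈ O) ∧ (∀ x, ti (C.tch x) = x) ∧
    ∀ y ∈ 𝕄.Tt ∩ O, C.tch (ti y) = y := by
  obtain ⟨L, c, e⟩ := Cone_li (C.sm.continuous_fderiv (by simp)) C.inj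
  have c1 : ContinuousOn (fun y : V × V => C.χ y.1) (Prod.fst ⁻¹' C.O) :=
    C.cχ.comp continuousOn_fst fun _ h => h
  refine ⟨Prod.fst ⁻¹' C.O, fun y => (C.χ y.1, L (C.χ y.1) y.2), C.opn.preimage continuous_fst,
    c1.prodMk ((c.comp_continuousOn c1).clm_apply continuousOn_snd), fun x => (C.mem x.1).2,
    fun x => ?_, fun y hy => ?_⟩
  · simp only [tch, C.li, e]
  · have k := C.ri y.1 ⟨hy.1.1, hy.2⟩
    obtain ⟨v, hv⟩ := 𝕄.rb.surj_fib (C.mem (C.χ y.1)).1
      (T := (fderiv ℝ C.φ (C.χ y.1) : RN 16 →ₗ[ℝ] V) ∘ₗ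
        (WithLp.linearEquiv 2 ℝ (Fin 16 → ℝ)).symm.toLinearMap)
      ((C.inj _).comp (WithLp.linearEquiv 2 ℝ (Fin 16 → ℝ)).symm.injective)
      (fun v => (C.tch_mem (C.χ y.1, _)).2) (a := y.2) (by rw [k]; exact hy.1.2)
    refine Prod.ext k ?_
    change fderiv ℝ C.φ (C.χ y.1) (L (C.χ y.1) y.2) = y.2
    rw [← hv]
    exact congrArg _ (e _ _)

theorem tch_injective : Function.Injective C.tch := by
  obtain ⟨-, ti, -, -, -, e, -⟩ := C.exists_tch_inv
  exact Function.LeftInverse.injective e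

theorem zb_tch {K : Set (RN 16 × RN 16)} (hK : IsCompact K) :
    ZB C.tch univ K 𝕄.Tt (C.tch '' K) := by
  obtain ⟨O, ti, hO, c, m, e, e'⟩ := C.exists_tch_inv
  have z : ZB C.tch univ K (𝕄.Tt ∩ O) (C.tch '' K) :=
    .of_inv (s := ti) (ok_of isOpen_univ.isLocallyClosed C.continuous_tch.continuousOn
      (fun x _ => ⟨C.tch_mem x, m x⟩) fun x _ h => C.tch_injective.mem_set_image.1 h)
      (ok_of (lc_Tt.inter hO.isLocallyClosed) (c.mono inter_subset_right)
        (mapsTo_univ _ _) fun y hy h => ⟨_, h, e' y hy⟩) (fun x _ => e x) e'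
  exact z.comp (ZB.excision_open hO (.of_isClosed (hK.image C.continuous_tch).isClosed _)
    fun _ _ ⟨x, _, h⟩ => h ▸ m x) fun _ _ => rfl

/-- the class of a point of the zero section -/
theorem exists_ptT (Q : MT 𝕄) : ∃ c : H 𝕄.Tt (C.tch '' {0}), Gen 32 c ∧
    pull id 𝕄.Tt (zs V V) c = Q.wT := by
  obtain ⟨ω, hω⟩ := exists_gen (RN 16 × RN 16)
  rw [Module.finrank_prod, finrank_euclideanSpace_fin] at hω
  obtain ⟨c, hc, -⟩ := hω.exists_pul (C.zb_tch isCompact_singleton)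
  have hp := (C.mem 0).1
  have e0 : C.tch 0 = (C.φ 0, 0) := Prod.ext rfl (C.tch_snd.2 rfl)
  have v : Van 32 (totR 𝕄.tp (𝕄.M \ {C.φ 0})) (zs V V) :=
    ((𝕄.rb.mono (lc_M.inter isOpen_compl_singleton.isLocallyClosed) sdiff_subset).thZ
      (Q.ori_T.mono sdiff_subset) (by norm_num)).van (Q.vanp _ hp)
  have e : totR 𝕄.tp (𝕄.M \ {C.φ 0}) = (𝕄.Tt \ C.tch '' {0}) ∩ Prod.fst ⁻¹' {C.φ 0}ᶜ := by
    refine Set.ext fun y => ⟨fun h => ⟨⟨⟨h.1.1, h.2⟩, ?_⟩, h.1.2⟩, fun h => ⟨⟨h.1.1.1, h.2⟩, h.1.1.2⟩⟩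
    rintro ⟨_, rfl, rfl⟩
    exact h.1.2 rfl
  rw [e] at v
  have v' : Van 32 (𝕄.Tt \ C.tch '' {0}) (zs V V) :=
    v.of_pul (ZB.excision_open (isOpen_compl_singleton.preimage continuous_fst)
      (.of_isClosed isClosed_zsR _) fun y h k k' =>
        h.2 ⟨0, rfl, e0.trans (Prod.ext (Eq.symm k') (Eq.symm k))⟩)
  rcases gen_supp_sign rfl (diff_diff_supp (by
    rintro _ - ⟨_, rfl, rfl⟩
    exact C.tch_snd.2 rfl)) Q.gen_wT hc v' with h | h
  · exact ⟨c, hc, h⟩
  · exact ⟨-c, hc.neg, by rw [map_neg, h, neg_neg]⟩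

end Ch

end Pool.Agent.Work.MP_8c604c_gt.OT
end
end

-- merged part: Pool.Agent.Work.MP_8c604c_gt.OS.St2
section
/-!
A nonsingular bilinear map `P' × W → P` of bundles of rank 8 gives a complex structure on `W` over the space of
two-frames of `P'`.

PLAN.  `gysD_ker`: as `CB.sp_eq_zero'` in `T/Gys` (`GysD.pull_eq_zero`, `cup_prj_left`, `GysD.isDeg_e`).
`rb_sub`: the rank of an idempotent is its trace (`LinearMap.IsProj.trace`, see `cx_trace`), `LinearMap.trace_mul_comm`.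
`rb_ln`: the range is the span of `z.2` (`RB.lc_nz`, `finrank_span_singleton`).
`ori_pc`: `ContinuousAlternatingMap.curryLeft_apply_apply`, `curryLeftLI` is continuous, `linearIndependent_finCons`
(`z.2` is not in the span of vectors killed by `Ln z`).
`bmap_inv`: `OT.Cone_li` on the subtype `U` for `a ↦ toLp 2 (μ x (W x a), a - W x a)`; `ν x = W x ∘ L x ∘ inl`; a vector of the fibre
of `P` is `μ x w` with `W x w = w` (dimensions: `RB.exists_frame`, `RB.surj_fib`).
`pencil`: `U₁ = totR P' U \ zs`, `U₂ = totR (Pc P') U₁ \ zs`.  `RB.thZ`, `ThZ.van_sp`, `van_neg`, `OT.thZ_gen_sp`, `pull_oneH` give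
`Gen 0 1`, `Van 1, 2, 4` on `U₁` and `Gen 0 1`, `Van 2, 4` on `U₂`.  On `U₁` invert `μ z = m z.1 z.2` (`bmap_inv`, `RB.comp`); on `U₂` put
`B z = ν z.1 ∘ m z.1.1 z.2`; if `B z a = t • a` then `m (z.2 - t • z.1.2) a = 0` and `z.2 - t • z.1.2 ≠ 0` (apply `Ln z.1`).
`exists_J`, `p2_of_J` for `W ∘ fst ∘ fst`; naturality by `cp_cx_map` or `cp_pull`, `Polynomial.coeff_map`, `pR_val`, `pull_euR`
(bundle map `B = 1`); `gysD_ker` for `gysD_thR` of `Pc P'` with `p = 8`, `d = 7`.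
-/

noncomputable section

set_option linter.unusedSectionVars false

namespace Pool.Agent.Work.MP_8c604c_gt.OS

open Set Pool.Agent.Work.MP_849ab0_ag.G T

theorem gysD_ker {X Y : Type} [TopologicalSpace X] [RegularSpace X] [SecondCountableTopology X]
    [TopologicalSpace Y] [RegularSpace Y] [SecondCountableTopology Y] {π : X → Y} {E Z : Set X}
    {U : Set Y} {τ : H E Z} {d p : ℤ} {e a : H U univ} (h : GysD π E Z U τ d e) (ha : IsDeg p a)
    (k : pull π (E \ Z) univ a = 0) : ∃ b, IsDeg (p - d) b ∧ a = b * e := by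
  obtain ⟨b, hb⟩ := (h.pull_eq_zero a).1 k
  refine ⟨_, isDeg_prj _ b, ?_⟩
  rw [mulH, cup_prj_left (t := {p}) (fun q => by simp [eq_sub_iff_add_eq]) b h.isDeg_e, ← mulH,
    ← hb, ha.prj_eq (mem_singleton _)]

variable {X V : Type} [TopologicalSpace X] [RegularSpace X] [SecondCountableTopology X]
  [NormedAddCommGroup V] [InnerProductSpace ℝ V] [FiniteDimensional ℝ V] {U : Set X}
  {R P P' W : X → V →L[ℝ] V} {r r' : ℕ}

/-- the complement of a subbundle -/
def Cpl (R P : X → V →L[ℝ] V) (x : X) : V →L[ℝ] V := R x - (P x).comp (R x)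

theorem cpl_apply (x : X) (a : V) : Cpl R P x a = R x a - P x (R x a) := rfl

theorem cpl_fix (hR : RB R (r + r') U) (hP : RB P r U) (e : ∀ x ∈ U, ∀ a, R x (P x a) = P x a)
    {x : X} (hx : x ∈ U) {a : V} : Cpl R P x a = a ↔ R x a = a ∧ P x a = 0 := by
  rw [cpl_apply]
  refine ⟨fun k => ⟨?_, ?_⟩, fun k => by rw [k.1, k.2, sub_zero]⟩
  · rw [← k, map_sub, hR.idem x hx, e x hx]
  · rw [← k, map_sub, hP.idem x hx, sub_self]

theorem St2_tr {B : V →L[ℝ] V} (h : ∀ a, B (B a) = B a) :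
    LinearMap.trace ℝ V (B : V →ₗ[ℝ] V) = Module.finrank ℝ (LinearMap.range (B : V →ₗ[ℝ] V)) := by
  have h1 : IsIdempotentElem (B : V →ₗ[ℝ] V) := LinearMap.ext h
  exact ((LinearMap.isProj_range_iff_isIdempotentElem _).2 h1).trace

theorem rb_sub (hR : RB R (r + r') U) (hP : RB P r U) (e : ∀ x ∈ U, ∀ a, R x (P x a) = P x a) :
    RB (Cpl R P) r' U := by
  have i : ∀ x ∈ U, ∀ a, Cpl R P x (Cpl R P x a) = Cpl R P x a := fun x hx a =>
    (cpl_fix hR hP e hx).2 ⟨by rw [cpl_apply, map_sub, hR.idem x hx, e x hx],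
      by rw [cpl_apply, map_sub, hP.idem x hx, sub_self]⟩
  refine ⟨hR.lc, hR.cont.sub (hP.cont.clm_comp hR.cont), i, fun x hx => ?_⟩
  have e1 : (Cpl R P x : V →ₗ[ℝ] V) = (R x : V →ₗ[ℝ] V) - (P x : V →ₗ[ℝ] V) * (R x : V →ₗ[ℝ] V) :=
    LinearMap.ext fun _ => rfl
  have e2 : (R x : V →ₗ[ℝ] V) * (P x : V →ₗ[ℝ] V) = (P x : V →ₗ[ℝ] V) := LinearMap.ext (e x hx)
  have t := St2_tr (i x hx)
  rw [e1, map_sub, LinearMap.trace_mul_comm, e2, St2_tr (hR.idem x hx), St2_tr (hP.idem x hx),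
    hR.rank x hx, hP.rank x hx, ← e1] at t
  refine Nat.cast_injective (R := ℝ) ?_
  rw [← t]
  push_cast
  ring

/-- the projector onto the line of `z.2` -/
def Ln (z : X × V) : V →L[ℝ] V := (‖z.2‖ ^ 2)⁻¹ • (innerSL ℝ z.2).smulRight z.2

theorem St2_ln (z : X × V) (a : V) : Ln z a = ((‖z.2‖ ^ 2)⁻¹ * inner ℝ z.2 a) • z.2 := by
  rw [mul_smul]
  rfl

theorem ln_self {z : X × V} (h : z.2 ≠ 0) : Ln z z.2 = z.2 := by
  rw [St2_ln, real_inner_self_eq_norm_sq, inv_mul_cancel₀ (pow_ne_zero _ (norm_ne_zero_iff.2 h)),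
    one_smul]

theorem St2_lc (h : RB P r U) : IsLocallyClosed (totR P U \ zs X V) :=
  h.lc_tot.inter isClosed_zsR.isOpen_compl.isLocallyClosed

theorem rb_ln (h : RB P r U) : RB Ln 1 (totR P U \ zs X V) := by
  refine ⟨St2_lc h, ?_, fun z hz a => ?_, fun z hz => ?_⟩
  · refine ContinuousOn.smul (f := fun z : X × V => (‖z.2‖ ^ 2)⁻¹)
      ((continuous_snd.norm.pow 2).continuousOn.inv₀ fun z hz =>
        pow_ne_zero _ (norm_ne_zero_iff.2 hz.2)) (Continuous.continuousOn ?_)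
    have c : Continuous fun z : X × V => ContinuousLinearMap.smulRightL ℝ V V (innerSL ℝ z.2) :=
      (ContinuousLinearMap.smulRightL ℝ V V).continuous.comp
        ((innerSL ℝ (E := V)).continuous.comp continuous_snd)
    exact c.clm_apply continuous_snd
  · rw [St2_ln z a, map_smul, ln_self hz.2]
  · have : LinearMap.range (Ln z : V →ₗ[ℝ] V) = Submodule.span ℝ {z.2} := by
      refine le_antisymm ?_ ((Submodule.span_singleton_le_iff_mem _ _).2 ⟨z.2, ln_self hz.2⟩)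
      rintro _ ⟨a, rfl⟩
      exact Submodule.mem_span_singleton.2 ⟨_, (St2_ln z a).symm⟩
    rw [this]
    exact finrank_span_singleton hz.2

/-- the complement of the tautological line -/
def Pc (P : X → V →L[ℝ] V) : X × V → V →L[ℝ] V := Cpl (fun z => P z.1) Ln

theorem St2_up {W : X → V →L[ℝ] V} (hW : RB W r' U) (h : RB P r U) :
    RB (fun z : X × V => W z.1) r' (totR P U \ zs X V) :=
  hW.comp (St2_lc h) continuousOn_fst fun _ k => k.1.1

theorem St2_e : ∀ z ∈ totR P U \ zs X V, ∀ a, P z.1 (Ln z a) = Ln z a := fun z hz a => by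
  rw [St2_ln, map_smul, hz.1.2]

theorem pc_fix (h : RB P (r + 1) U) {z : X × V} (hz : z ∈ totR P U \ zs X V) {a : V} :
    Pc P z a = a ↔ P z.1 a = a ∧ Ln z a = 0 := by
  exact cpl_fix (r := 1) (r' := r) (by rw [add_comm]; exact St2_up h h) (rb_ln h) St2_e hz

theorem rb_pc (h : RB P (r + 1) U) : RB (Pc P) r (totR P U \ zs X V) := by
  exact rb_sub (r := 1) (by rw [add_comm]; exact St2_up h h) (rb_ln h) St2_e

theorem ori_pc (h : RB P (r + 1) U) {o : X → V [⋀^Fin (r + 1)]→L[ℝ] ℝ} (ho : Ori P (r + 1) U o) :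
    Ori (Pc P) r (totR P U \ zs X V) fun z => (o z.1).curryLeft z.2 := by
  refine ⟨?_, fun z hz b li hb => ?_⟩
  · exact ((ContinuousAlternatingMap.curryLeftLI (𝕜 := ℝ) (E := V) (F := ℝ)
      (n := r)).continuous.comp_continuousOn
        (ho.cont.comp continuousOn_fst fun _ k => k.1.1)).clm_apply continuousOn_snd
  · rw [ContinuousAlternatingMap.curryLeft_apply_apply]
    refine ho.ne _ hz.1.1 _ (linearIndependent_finCons.2 ⟨li, fun k => hz.2 ?_⟩) fun i => ?_
    · have : Submodule.span ℝ (range b) ≤ LinearMap.ker (Ln z : V →ₗ[ℝ] V) :=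
        Submodule.span_le.2 (by rintro _ ⟨i, rfl⟩; exact ((pc_fix h hz).1 (hb i)).2)
      exact (ln_self hz.2).symm.trans (this k)
    · exact Fin.cases hz.1.2 (fun i => ((pc_fix h hz).1 (hb i)).1) i

/-- the inverse of a bundle map -/
theorem bmap_inv (hW : RB W r U) (hP : RB P r U) {μ : X → V →L[ℝ] V} (b : BMap W U P U id μ) :
    ∃ ν : X → V →L[ℝ] V, ContinuousOn ν U ∧ ∀ x ∈ U, ∀ a,
      W x (ν x a) = ν x a ∧ (P x a = a → μ x (ν x a) = a) := by
  classical
  let e : (V × V) →L[ℝ] WithLp 2 (V × V) := (WithLp.prodContinuousLinearEquiv 2 ℝ V V).symm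
  have ei : Function.Injective e := (WithLp.prodContinuousLinearEquiv 2 ℝ V V).symm.injective
  let A : U → V →L[ℝ] WithLp 2 (V × V) := fun x =>
    e.comp ((ContinuousLinearMap.inl ℝ V V).comp ((μ x).comp (W x)) +
      (ContinuousLinearMap.inr ℝ V V).comp (1 - W x))
  have hA : ∀ x a, A x a = e (μ x (W x a), a - W x a) := fun x a =>
    congrArg e (Prod.ext (add_zero _) (zero_add _))
  have cW : Continuous fun x : U => W x := hW.cont.domRestrict
  have cμ : Continuous fun x : U => μ x := b.cB.domRestrict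
  obtain ⟨L, cL, hL⟩ := OT.Cone_li (A := A)
    (continuous_const.clm_comp ((continuous_const.clm_comp (cμ.clm_comp cW)).add
      (continuous_const.clm_comp (continuous_const.sub cW))))
    fun x => (injective_iff_map_eq_zero _).2 fun a k => by
      rw [hA, ← map_zero e] at k
      have k' := ei k
      have k1 : W x a = 0 := b.inj x x.2 _ (hW.idem x x.2 a) (congrArg Prod.fst k')
      simpa [k1] using congrArg Prod.snd k'
  refine ⟨fun x => if h : x ∈ U then
    (W x).comp ((L ⟨x, h⟩).comp (e.comp (ContinuousLinearMap.inl ℝ V V))) else 0, ?_,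
    fun x hx a => ?_⟩
  · rw [continuousOn_iff_continuous_domRestrict]
    refine (cW.clm_comp (cL.clm_comp (continuous_const
      (y := e.comp (ContinuousLinearMap.inl ℝ V V))))).congr fun x => ?_
    simp [x.2]
  · simp only [dif_pos hx]
    refine ⟨hW.idem x hx _, fun ha => ?_⟩
    obtain ⟨O, T, S, h1, h2⟩ := hW.exists_frame hx
    obtain ⟨v, hv⟩ := hP.surj_fib hx (T := (μ x : V →ₗ[ℝ] V) ∘ₗ (T x : (Fin r → ℝ) →ₗ[ℝ] V))
      ((injective_iff_map_eq_zero _).2 fun v k => by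
        have := b.inj x hx _ (h2.mem x ⟨hx, h1⟩ v) k
        rw [← h2.left x ⟨hx, h1⟩ v, this, map_zero])
      (fun v => b.mem x hx _ (h2.mem x ⟨hx, h1⟩ v)) ha
    have hv' : μ x (T x v) = a := hv
    have k := hL ⟨x, hx⟩ (T x v)
    rw [hA, h2.mem x ⟨hx, h1⟩ v, hv', sub_self] at k
    change μ x (W x (L ⟨x, hx⟩ (e (a, 0)))) = a
    rw [k, h2.mem x ⟨hx, h1⟩ v, hv']

theorem pencil (hW : RB W 8 U) {o : X → V [⋀^Fin 8]→L[ℝ] ℝ} (ho : Ori W 8 U o) (hP : RB P 8 U)
    (hP' : RB P' 8 U) {o' : X → V [⋀^Fin 8]→L[ℝ] ℝ} (ho' : Ori P' 8 U o')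
    (g : Gen 0 (1 : H U univ)) (v1 : Van 1 U univ) (v2 : Van 2 U univ) (v4 : Van 4 U univ)
    {m : X → V →L[ℝ] V →L[ℝ] V} (cm : ContinuousOn m U)
    (mem : ∀ x ∈ U, ∀ u w, P x (m x u w) = m x u w)
    (ne : ∀ x ∈ U, ∀ u w, P' x u = u → W x w = w → m x u w = 0 → u = 0 ∨ w = 0) :
    ∃ s : ℤ, (s = 1 ∨ s = -1) ∧ pull Prod.fst (totR P' U \ zs X V) univ
      (((cp (cx W) 8 U).coeff 4 : H U univ) - (2 * s : ℂ) • euR W 8 o U) = 0 := by
  have h1 := hP'.thZ ho' (by norm_num)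
  have o1 := (gysD_thR hP' ho').ok0
  have g1 := OT.thZ_gen_sp h1 g (van_neg (by norm_num)) (van_neg (by norm_num))
  rw [pull_oneH o1] at g1
  have a1 := h1.van_sp v1 (van_neg (by norm_num))
  have a2 := h1.van_sp v2 (van_neg (by norm_num))
  have a4 := h1.van_sp v4 (van_neg (by norm_num))
  have hc := rb_pc (r := 7) hP'
  have oc := ori_pc (r := 7) hP' ho'
  have h2 := hc.thZ oc (by norm_num)
  have G := gysD_thR hc oc
  have o2 := G.ok0
  have g2 := OT.thZ_gen_sp h2 g1 (van_neg (by norm_num)) (van_neg (by norm_num))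
  rw [pull_oneH o2] at g2
  have b2 := h2.van_sp a2 (van_neg (by norm_num))
  have b4 := h2.van_sp a4 (van_neg (by norm_num))
  have hW1 := St2_up hW hP'
  have cm1 : ContinuousOn (fun z : X × V => m z.1) (totR P' U \ zs X V) :=
    cm.comp continuousOn_fst fun _ k => k.1.1
  obtain ⟨ν, cν, hν⟩ := bmap_inv hW1 (St2_up hP hP') (μ := fun z => m z.1 z.2)
    ⟨continuousOn_id, mapsTo_id _, cm1.clm_apply continuousOn_snd, fun z k a _ => mem _ k.1.1 _ _,
      fun z k a ha e => (ne _ k.1.1 _ _ k.1.2 ha e).resolve_left k.2⟩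
  have hW2 := St2_up hW1 hc
  have mf : MapsTo (fun z : (X × V) × V => z.1.1)
      (totR (Pc P') (totR P' U \ zs X V) \ zs (X × V) V) U := fun _ k => k.1.1.1.1
  have cf : ContinuousOn (fun z : (X × V) × V => z.1.1)
      (totR (Pc P') (totR P' U \ zs X V) \ zs (X × V) V) := continuous_fst.fst.continuousOn
  have ho2 := ho.comp cf mf
  obtain ⟨J, c⟩ := exists_J (B := fun z : (X × V) × V => (ν z.1).comp (m z.1.1 z.2)) hW2.cont
    ((cν.comp continuousOn_fst fun _ k => k.1.1).clm_comp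
      ((cm.comp cf mf).clm_apply continuousOn_snd)) hW2.idem
    (fun z k a _ => (hν _ k.1.1 _).1) fun z k a ha t e => by
      have f := (pc_fix (r := 7) hP' k.1.1).1 k.1.2
      have e1 := (hν _ k.1.1 (m z.1.1 z.2 a)).2 (mem _ (mf k) _ _)
      have e2 : ν z.1 (m z.1.1 z.2 a) = t • a := e
      rw [e2, map_smul] at e1
      refine (ne _ (mf k) (z.2 - t • z.1.2) a (by rw [map_sub, map_smul, f.1, k.1.1.1.2]) ha
        (by rw [map_sub, map_smul, sub_apply, smul_apply, e1, sub_self])).resolve_left fun e3 => k.2 ?_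
      have e4 : z.2 = t • z.1.2 := sub_eq_zero.1 e3
      have e5 := f.2
      rw [e4, map_smul, ln_self k.1.1.2, ← e4] at e5
      exact e5
  obtain ⟨s, hs, e⟩ := p2_of_J c hW2 ho2 g2 b2 b4
  refine ⟨s, hs, ?_⟩
  have ok : Ok (fun z : (X × V) × V => z.1.1)
      (totR (Pc P') (totR P' U \ zs X V) \ zs (X × V) V) univ U univ :=
    .of_mem (.of_continuous continuous_fst.fst _) mf fun _ _ _ => trivial
  have bm : BMap (fun z : (X × V) × V => W z.1.1)
      (totR (Pc P') (totR P' U \ zs X V) \ zs (X × V) V) W U (fun z => z.1.1) fun _ => 1 :=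
    ⟨cf, mf, continuousOn_const, fun _ _ _ k => k, fun _ _ _ _ k => k⟩
  have d : IsDeg 8 (((cp (cx W) 8 U).coeff 4 : H U univ) - (2 * s : ℂ) • euR W 8 o U) :=
    IsDeg.sub (hW.cb_cx.cp_deg 4) ((isDeg_euR hW ho).smul _)
  obtain ⟨b, hb, k⟩ := gysD_ker G (d.pull Prod.fst (totR P' U \ zs X V) univ) (by
    rw [pull_pull' (F := fun z => z.1.1) o2 o1 fun _ _ => rfl, map_sub, map_smul,
      pull_euR hW ho hW2 ho2 bm fun _ _ _ _ => rfl, ← e, ← cp_cx_map hW hW2 bm ok,
      Polynomial.coeff_map, pR_val, sub_self])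
  rw [k, a1.eq_zero hb, zero_mul]

end Pool.Agent.Work.MP_8c604c_gt.OS
end
end

-- merged part: Pool.Agent.Work.MP_8c604c_gt.OG.Norm
section
/-!
The degree of the equivariant map.
-/

noncomputable section

set_option linter.unusedSectionVars false
set_option linter.unusedVariables false

namespace Pool.Agent.Work.MP_8c604c_gt.OT

open Set Topology Pool.Agent.Work.MP_849ab0_ag.G T

variable {V : Type} [NormedAddCommGroup V] [InnerProductSpace ℝ V] [FiniteDimensional ℝ V]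
  {𝕄 : Mf V} {k : ℕ}

namespace TD0

variable (D : TD0 𝕄 k) (Q : MT 𝕄) {Φ : LM V → Fin 16 → ℂ} (cΦ : ContinuousOn Φ D.S)
  (neΦ : ∀ c ∈ D.S, Φ c ≠ 0) {C : Ch 𝕄} {w : Fin 16 → ℂ} {S : Finset (RN 16 × RN 16)}
  {L : RN 16 × RN 16 → (RN 16 × RN 16) →L[ℝ] (Fin 16 → ℂ)}

include neΦ in
theorem Norm_all (h : Reg D Φ C w S L) {y : V × V} (hy : y ∈ 𝕄.Tt) (e : D.Cn Φ y = w) :
    ∃ x ∈ S, C.tch x = y := by
  have h0 : y.2 ≠ 0 := fun k => h.ne (e.symm.trans ((D.Cn_eq_zero neΦ hy).2 k))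
  obtain ⟨c, hc, r, hr, rfl⟩ := D.geob_Tt hy h0
  obtain ⟨x, hx, e1, e2⟩ := h.all c hc r hr ((D.Cn_eq hc hr).symm.trans e)
  exact ⟨x, hx, Prod.ext e1.symm e2⟩

include cΦ neΦ

theorem Cn_orient (h : Reg D Φ C w S L) (e : (Fin 16 → ℂ) ≃L[ℝ] RN 16 × RN 16) :
    ∃ s : ℤ, (s = 1 ∨ s = -1) ∧ pull (D.Cn Φ) 𝕄.Tt (zs V V) (orient (Fin 16)) =
      ((s : ℂ) * ∑ x ∈ S,
        (SignType.sign ((L x).comp (e : (Fin 16 → ℂ) →L[ℝ] RN 16 × RN 16)).det : ℂ)) • Q.wT := by
  obtain ⟨F, hF, hd⟩ := h.der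
  obtain ⟨c, hc, ec⟩ := C.exists_ptT Q
  have cF : Continuous fun x => D.Cn Φ (C.tch x) :=
    (D.cont_Cn cΦ).comp_continuous C.continuous_tch C.tch_mem
  have e1 : ∀ x : RN 16 × RN 16, x.2 ≠ 0 → D.Cn Φ (C.tch x) = F x := fun x hx => by
    obtain ⟨c, hc, r, hr, k⟩ := D.geob_Tt (C.tch_mem x) (mt C.tch_snd.1 hx)
    rw [k, D.Cn_eq hc hr, hF x c hc r hr (congrArg Prod.fst k).symm (congrArg Prod.snd k)]
  have hT : ∀ x, D.Cn Φ (C.tch x) = w ↔ x ∈ S := fun x => ⟨fun k => by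
    obtain ⟨x', hx, k'⟩ := D.Norm_all neΦ h (C.tch_mem x) k
    rwa [← C.tch_injective k'], fun k => (e1 x (hd x k).1).trans (hd x k).2.1⟩
  have hD : ∀ x ∈ S, HasFDerivAt (fun x => D.Cn Φ (C.tch x)) (L x) x := fun x k =>
    (hd x k).2.2.1.congr_of_eventuallyEq (by
      filter_upwards [(isOpen_ne_fun continuous_snd continuous_const).mem_nhds (hd x k).1] with y hy
      exact e1 y hy)
  obtain ⟨ρ, hρ0, hρ⟩ := S.finite_toSet.isBounded.subset_closedBall_lt 0 0
  set K : Set (RN 16 × RN 16) := Metric.closedBall 0 ρ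
  have h0 : (0 : RN 16 × RN 16) ∈ K := Metric.mem_closedBall_self hρ0.le
  have cK : IsCompact K := isCompact_closedBall 0 ρ
  have cnt := cnt_deg cF hT hD (fun x k => (hd x k).2.2.2) e (K := K)
    (fun x k t ht => (convex_closedBall 0 ρ).smul_mem_of_zero_mem h0 (hρ k) ht) h0
    (orient (Fin 16))
  have zl : ZB e.symm univ {0} univ {0} := zb_lin e.symm.toLinearEquiv
  have g2 : Gen 32 (pull e.symm univ {0} (orient (Fin 16))) := by
    have := (gen_orient (Fin 16)).pul zl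
    rwa [Fintype.card_fin] at this
  have z0 := C.zb_tch (isCompact_singleton (x := 0))
  obtain ⟨s, hs, es⟩ := (hc.pul z0).eq_sign g2
  refine ⟨s, hs, ?_⟩
  have k0 : ∀ x ∈ (univ : Set (RN 16 × RN 16)), x ∈ ({0} : Set (RN 16 × RN 16)) → x ∈ K :=
    fun x _ k => k ▸ h0
  have oA : Ok (fun y => D.Cn Φ y - w) 𝕄.Tt (C.tch '' K) univ {0} :=
    ok_of lc_Tt ((D.cont_Cn cΦ).sub continuousOn_const) (mapsTo_univ _ _) fun y hy k => by
      obtain ⟨x, hx, rfl⟩ := D.Norm_all neΦ h hy (sub_eq_zero.1 k)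
      exact ⟨x, hρ hx, rfl⟩
  have oB : Ok id 𝕄.Tt (C.tch '' K) 𝕄.Tt (C.tch '' {0}) :=
    .id subset_rfl fun y _ k => image_mono (singleton_subset_iff.2 h0) k
  have z := C.zb_tch cK
  have e2 : pull (fun y => D.Cn Φ y - w) 𝕄.Tt (C.tch '' K) (orient (Fin 16)) =
      ((s : ℂ) * ∑ x ∈ S,
        (SignType.sign ((L x).comp (e : (Fin 16 → ℂ) →L[ℝ] RN 16 × RN 16)).det : ℂ)) •
        pull id 𝕄.Tt (C.tch '' K) c := by
    refine z.bij.1 ?_
    rw [map_smul, pull_pull' z.ok oA (F := fun x => D.Cn Φ (C.tch x) - w) fun _ _ => rfl, cnt,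
      pull_pull' z.ok oB (F := C.tch) fun _ _ => rfl,
      ← res_pull zl.ok Subset.rfl k0, es, map_smul, res_pull z0.ok Subset.rfl k0, smul_smul,
      mul_comm]
  obtain ⟨R₀, hR⟩ := D.Cn_move cΦ neΦ w
  obtain ⟨R₁, hR₁⟩ := cK.exists_bound_of_continuousOn
    (f := fun x => (C.tch x).2) C.continuous_tch.snd.continuousOn
  set R := max (max R₀ R₁) 0
  have k1 : ∀ y ∈ 𝕄.Tt, y ∈ C.tch '' K → y ∈ KR V R := fun y _ ⟨x, hx, k⟩ =>
    k ▸ (hR₁ x hx).trans ((le_max_right _ _).trans (le_max_left _ _))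
  have z' : ZB id 𝕄.Tt (KR V R) 𝕄.Tt (zs V V) := zb_KR (le_max_right _ _)
  have k2 : ∀ y ∈ 𝕄.Tt, y ∈ zs V V → y ∈ KR V R := fun y hy k => z'.ok.mem hy k
  have k3 : ∀ y ∈ 𝕄.Tt, y ∈ C.tch '' {0} → y ∈ zs V V := by
    rintro _ - ⟨_, rfl, rfl⟩
    exact C.tch_snd.2 rfl
  refine z'.bij.1 ?_
  have e3 := congrArg (pull id 𝕄.Tt (KR V R)) e2
  rw [map_smul, res_pull oA Subset.rfl k1, res_pull oB Subset.rfl k1,
    hR R ((le_max_left _ _).trans (le_max_left _ _))] at e3
  rw [map_smul, res_pull (D.ok_Cn cΦ neΦ) Subset.rfl k2, e3, ← ec,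
    res_pull (.id Subset.rfl k3) Subset.rfl k2]

theorem Φ_sig {N : ℂ} (h : pull (D.Cn Φ) 𝕄.Tt (zs V V) (orient (Fin 16)) = N • Q.wT)
    {σ : H ({0}ᶜ : Set (Fin 16 → ℂ)) univ} (dσ : IsDeg 31 σ)
    (hσ : dlt univ {0} σ = orient (Fin 16)) : pull Φ D.S univ σ = N • D.sS Q := by
  have o1 := D.ok_Cn cΦ neΦ
  have o2 : Ok (D.Cn Φ) (𝕄.Tt \ zs V V) univ {0}ᶜ univ :=
    .of_mem (o1.ext.mono sdiff_subset) (fun y hy => (o1.supp hy).2) fun _ _ _ => trivial
  have e1 : pull (D.Cn Φ) (𝕄.Tt \ zs V V) univ σ = N • Q.sig := by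
    refine sub_eq_zero.1 (dlt_inj' (U := 𝕄.Tt) (Z₁ := zs V V) rfl GysD.aux
      ((Q.van 31 (by omega) (by omega) (by omega)).pul Q.thZ_T.base)
      ((dσ.pull _ _ _).sub (Q.gen_sig.deg.smul _)) ?_)
    rw [map_sub, map_smul, Q.dlt_sig, ← pull_dlt o1.ext Subset.rfl sdiff_subset o1 o2 Subset.rfl
      (fun _ k => k.2), hσ, h, sub_self]
  rw [sS, ← map_smul, ← e1, pull_pull' D.zb_S.ok o2 (F := Φ) fun c hc => ?_]
  simpa using D.Cn_eq hc one_pos

end TD0

end Pool.Agent.Work.MP_8c604c_gt.OT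
end
end
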