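import Pool.Agent.Work.MP_8c604c_gt.OS.Bil

/-!
The nonsingular bilinear map in the form used by block B.
-/

set_option maxSynthPendingDepth 3

noncomputable section
namespace Pool.Agent.Work.MP_8c604c_gt.O

variable {E : Type} [NormedAddCommGroup E] [InnerProductSpace ℝ E] [FiniteDimensional ℝ E] {d : ℕ}
  {μ : Model E d} {g : Met E} {G : Geo μ g}

theorem Bl.bil0 (B : Bl g G) : G.Bil0 := by
  obtain ⟨b, c, i, h⟩ := B.exists_bil
  exact ⟨b, c, fun x hx y hy e e' => i y hy x hx e e', h⟩

end Pool.Agent.Work.MP_8c604c_gt.O
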