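import Pool.Agent.Work.MP_8c604c_gt.OS.Pol
import Pool.Agent.Work.MP_8c604c_gt.OS.Saw

-- merged part: Pool.Agent.Work.MP_8c604c_gt.OS.Idx
section
/-!
The index of the forms of a comb.
Plan. `idx_of_iso`: take `P` from `B.Neg_ex`; `P` is injective on `I`: if `P x = 0` then `⟪A x, x⟫ = 0` and `A` is nonnegative on the kernel of `P`, so `⟪A x, w⟫ = 0` on that
kernel (discriminant), and on the range of `P` too (`comm`, `symm`), so `A x = 0`.  The image `P I` is negative definite of dimension `k`.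
`idx2`: teeth `a 0, ..., a 3` at `s + j π/4` (distinct, since the times are).  Nonnegative subspace: the kernel of the map to `dual (V s) × dual (KK V s)` given by `idx_pos2`.
Isotropic subspace: `v ∈ V s` at `a 0` and `κ ∈ KK V s` at `a 2` (divide by the weights; image of `V s × KK V s` under an injective map).  If such an element is in the kernel, pair it with a force `u` at `a 1`:
`ω (v - κ) u = 0` for all `u ∈ V (s + π/4)`, and at `a 3`: `ω (v + κ) u = 0` for all `u ∈ V (s + 3π/4)`; `orth_V` and `tr'` give `v = κ` and `v = -κ`.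
`dimK_eq`: the comb with index type `Fin 2 × Fin 4` that contains both groups of teeth; the index is unique (`B.Neg_ex`, `B.Neg_rank`).
`idx1`: isotropic subspace `κ` at `a 0`, `-κ` at `a 2`; pair with `u ∈ V (s + π/4)` at `a 1` and `-u = b + c` split along `V (s + π/2) ⊔ V (s + 3π/4) = T` at `a 2`, `a 3`.
-/

set_option maxSynthPendingDepth 3
set_option linter.unusedSectionVars false

open Set Filter Topology Real Module
open scoped RealInnerProductSpace

noncomputable section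
namespace Pool.Agent.Work.MP_8c604c_gt.OS

variable {H : Type} [NormedAddCommGroup H] [InnerProductSpace ℝ H] [FiniteDimensional ℝ H]
  {n k : ℕ} {ω : Bi H} {T : Submodule ℝ H} {V : ℝ → Submodule ℝ H} {ι : Type} [Fintype ι]
  {w t : ι → ℝ}

theorem idx_of_iso {W : Type} [NormedAddCommGroup W] [InnerProductSpace ℝ W] [FiniteDimensional ℝ W]
    {A : W →L[ℝ] W} {k : ℕ} (hs : ∀ u v, ⟪A u, v⟫ = ⟪u, A v⟫) {I Z : Submodule ℝ W}
    (h1 : finrank ℝ I = k) (h2 : ∀ u ∈ I, ⟪A u, u⟫ = 0) (h3 : ∀ u ∈ I, A u = 0 → u = 0)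
    (h4 : finrank ℝ W ≤ finrank ℝ Z + k) (h5 : ∀ v ∈ Z, 0 ≤ ⟪A v, v⟫) : B.Idx k A := by
  obtain ⟨P, l, hP⟩ := B.Neg_ex hs
  have inj : ∀ u ∈ I, P u = 0 → u = 0 := fun u hu h0 => by
    have hA : P (A u) = 0 := by rw [← hP.comm, h0, map_zero]
    have hq : ∀ r : ℝ, 0 ≤ ⟪A (A u), A u⟫ * (r * r) + 2 * ⟪A u, A u⟫ * r + 0 := fun r => by
      have := hP.pos (u + r • A u) (by rw [map_add, map_smul, h0, hA, smul_zero, add_zero])
      rw [map_add, map_smul, inner_add_left, inner_add_right, inner_add_right, h2 u hu,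
        real_inner_smul_left, real_inner_smul_left, real_inner_smul_right, real_inner_smul_right,
        hs (A u) u] at this
      linarith
    have hd := discrim_le_zero hq
    rw [discrim, mul_zero, sub_zero] at hd
    have h6 : ⟪A u, A u⟫ = 0 := by nlinarith [pow_eq_zero_iff (two_ne_zero) |>.1 (le_antisymm hd (sq_nonneg _))]
    exact h3 u hu (inner_self_eq_zero.1 h6)
  refine ⟨hs, ⟨I.map (P : W →ₗ[ℝ] W), ?_, ?_⟩, Z, h4, h5⟩
  · rw [← h1, ← LinearMap.range_domRestrict]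
    exact LinearMap.finrank_range_of_inj ((injective_iff_map_eq_zero _).2 fun u hu =>
      Subtype.ext (inj u u.2 hu))
  · rintro _ ⟨u, -, rfl⟩ h0
    exact hP.neg _ h0 (hP.idem u)

theorem frc_mem (V : ℝ → Submodule ℝ H) (w t : ι → ℝ) (h : WW ι H) (a : ι) :
    frc V w t h a ∈ V (t a) :=
  Submodule.smul_mem _ _ (Submodule.starProjection_apply_mem _ _)

theorem frc0_mem (V : ℝ → Submodule ℝ H) (w t : ι → ℝ) (h : WW ι H) (a : ι) :
    frc0 V w t h a ∈ V (t a) := frc_mem V w t _ a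

theorem frc0_sum (V : ℝ → Submodule ℝ H) (w t : ι → ℝ) (h : WW ι H) :
    ∑ a, frc0 V w t h a = 0 :=
  (tot_apply _).symm.trans (Submodule.starProjection_apply_mem (ker0 V w t) h)

theorem frc0_eq {h : WW ι H} (e : ∑ a, frc V w t h a = 0) : frc0 V w t h = frc V w t h :=
  congrArg (frc V w t) (Submodule.starProjection_eq_self_iff.2 ((tot_apply _).trans e))

/-- The kernel of a pairing has small codimension. -/
theorem Idx_codim {W U : Type} [AddCommGroup W] [Module ℝ W] [FiniteDimensional ℝ W]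
    [AddCommGroup U] [Module ℝ U] [FiniteDimensional ℝ U] (β : W →ₗ[ℝ] U →ₗ[ℝ] ℝ) :
    finrank ℝ W ≤ finrank ℝ (LinearMap.ker β) + finrank ℝ U := by
  have h1 := LinearMap.finrank_range_add_finrank_ker β
  have h2 := (LinearMap.range β).finrank_le
  have h3 : finrank ℝ (U →ₗ[ℝ] ℝ) = finrank ℝ U := Subspace.dual_finrank_eq
  omega

/-- The pairing of a weighted sum of forces with a subspace. -/
def Idx_pair {W U : Type} [AddCommGroup W] [Module ℝ W] [AddCommGroup U] [Module ℝ U] (ω : Bi H)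
    (c : ι → ℝ) (F : W →ₗ[ℝ] ι → H) (i : U →ₗ[ℝ] H) : W →ₗ[ℝ] U →ₗ[ℝ] ℝ :=
  LinearMap.mk₂ ℝ (fun x u => ∑ a, c a * ω (i u) (F x a))
    (fun x y u => by simp only [map_add, Pi.add_apply, mul_add, Finset.sum_add_distrib])
    (fun r x u => by simp only [map_smul, Pi.smul_apply, smul_eq_mul, Finset.mul_sum, mul_left_comm])
    (fun x u v => by simp only [map_add, add_apply, mul_add, Finset.sum_add_distrib])
    (fun r x u => by simp only [map_smul, smul_apply, smul_eq_mul, Finset.mul_sum, mul_left_comm])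

/-- The times of four consecutive teeth. -/
def Idx_tm (s : ℝ) (j : Fin 4) : ℝ := s + (j : ℕ) * (π / 4)

theorem Idx_tm0 (s : ℝ) : Idx_tm s 0 = s := by simp [Idx_tm]

theorem Idx_tm1 (s : ℝ) : Idx_tm s 1 = s + π / 4 := by simp [Idx_tm]

theorem Idx_tm2 (s : ℝ) : Idx_tm s 2 = s + π / 2 := by
  rw [Idx_tm, show ((2 : Fin 4) : ℕ) = 2 from rfl]
  push_cast
  ring

theorem Idx_tm3 (s : ℝ) : Idx_tm s 3 = s + 3 * π / 4 := by
  rw [Idx_tm, show ((3 : Fin 4) : ℕ) = 3 from rfl]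
  push_cast
  ring

theorem Idx_adm {s : ℝ} {x0 x1 x2 x3 : H} (h0 : x0 ∈ V s) (h1 : x1 ∈ V (s + π / 4))
    (h2 : x2 ∈ V (s + π / 2)) (h3 : x3 ∈ V (s + 3 * π / 4)) (j : Fin 4) :
    ![x0, x1, x2, x3] j ∈ V (Idx_tm s j) := by
  rw [← Idx_tm0 s] at h0
  rw [← Idx_tm1] at h1
  rw [← Idx_tm2] at h2
  rw [← Idx_tm3] at h3
  fin_cases j
  exacts [h0, h1, h2, h3]

/-- Combs that live on four consecutive teeth. -/
theorem Idx_comb (V : ℝ → Submodule ℝ H) {s : ℝ}
    (hs : ∀ j : Fin 4, ∃ a, w a ≠ 0 ∧ t a = s + (j : ℕ) * (π / 4)) :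
    ∃ L : (Fin 4 → H) →ₗ[ℝ] WW ι H, Function.Injective L ∧
      (∀ g, (∀ j, g j ∈ V (Idx_tm s j)) → ∑ b, frc V w t (L g) b = ∑ j, g j) ∧
      ∀ c ω g g', (∀ j, g j ∈ V (Idx_tm s j)) → (∀ j, g' j ∈ V (Idx_tm s j)) →
        qf c ω t (frc V w t (L g)) (frc V w t (L g')) = qf c ω (Idx_tm s) g g' := by
  classical
  choose a hw ht using hs
  have ht' : ∀ j, t (a j) = Idx_tm s j := ht
  have inj : Function.Injective a := fun i j e => by
    have h1 := (ht i).symm.trans ((congrArg t e).trans (ht j))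
    exact Fin.ext (Nat.cast_injective (R := ℝ)
      (mul_right_cancel₀ (by positivity : π / 4 ≠ 0) (add_left_cancel h1)))
  let L : (Fin 4 → H) →ₗ[ℝ] WW ι H := (WithLp.linearEquiv 2 ℝ (ι → H)).symm.toLinearMap ∘ₗ
    ∑ j, (w (a j))⁻¹ • (LinearMap.single ℝ (fun _ : ι => H) (a j)) ∘ₗ LinearMap.proj j
  have hL : ∀ g b, L g b = ∑ j, if b = a j then (w (a j))⁻¹ • g j else 0 := fun g b => by
    simp [L, Finset.sum_apply, Pi.single_apply]
  have hF : ∀ g, (∀ j, g j ∈ V (Idx_tm s j)) → ∀ b,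
      frc V w t (L g) b = ∑ j, if b = a j then g j else 0 := fun g hg b => by
    rw [frc_apply, hL, map_sum, Finset.smul_sum]
    refine Finset.sum_congr rfl fun j _ => ?_
    split_ifs with e
    · rw [e, map_smul, smul_inv_smul₀ (hw j), ht', Submodule.starProjection_eq_self_iff.2 (hg j)]
    · rw [map_zero, smul_zero]
  refine ⟨L, (injective_iff_map_eq_zero _).2 fun g hg => funext fun j => ?_, fun g hg => ?_,
    fun c ω g g' hg hg' => ?_⟩
  · have h1 := hL g (a j)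
    rw [hg] at h1
    simp only [inj.eq_iff, Finset.sum_ite_eq, Finset.mem_univ, if_true] at h1
    exact (smul_eq_zero.1 h1.symm).resolve_left (inv_ne_zero (hw j))
  · simp only [hF g hg]
    rw [Finset.sum_comm]
    simp only [Finset.sum_ite_eq', Finset.mem_univ, if_true]
  · have key : ∀ (φ : ι → H →L[ℝ] ℝ) (x : Fin 4 → H),
        ∑ b, φ b (∑ j, if b = a j then x j else 0) = ∑ j, φ (a j) (x j) := fun φ x => by
      simp only [map_sum, apply_ite (φ _), map_zero]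
      rw [Finset.sum_comm]
      simp only [Finset.sum_ite_eq', Finset.mem_univ, if_true]
    simp only [qf, hF g hg, hF g' hg']
    have e1 := fun b => key (fun b' => c (t b' - t b) • ω (∑ j, if b = a j then g j else 0)) g'
    have e2 := key (fun b => ∑ i, c (t (a i) - t b) • ω.flip (g' i)) g
    simp only [smul_apply, smul_eq_mul, sum_apply, ContinuousLinearMap.flip_apply] at e1 e2
    simp only [e1]
    rw [e2]
    simp only [ht']

theorem Idx_symm (h : Sys0 n ω T V) {c : ℝ → ℝ} (hc : ∀ s, sin s ≠ 0 → c (-s) = -c s)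
    {F : WW ι H →L[ℝ] ι → H} (hF : ∀ x a, F x a ∈ V (t a)) (u v : WW ι H) :
    ⟪opq c ω t F u, v⟫ = ⟪u, opq c ω t F v⟫ := by
  rw [real_inner_comm, real_inner_comm, real_inner_comm (opq c ω t F v), inner_opq, inner_opq,
    h.qf_symm hc (hF u) (hF v)]

theorem Idx_iso (h : Sys0 n ω T V) {s : ℝ} (c : ℝ → ℝ) (τ : Fin 4 → ℝ) {x y : H} (hx : x ∈ V s)
    (hy : y ∈ V s) : qf c ω τ ![x, 0, y, 0] ![x, 0, y, 0] = 0 := by
  have hg : ∀ j, ![x, 0, y, 0] j ∈ V s := fun j => by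
    fin_cases j
    exacts [hx, zero_mem _, hy, zero_mem _]
  exact Finset.sum_eq_zero fun i _ => Finset.sum_eq_zero fun j _ => by
    rw [h.iso s _ (hg i) _ (hg j), mul_zero]

theorem Idx_zero (h : Sys0 n ω T V) {s r : ℝ} (e : sin (2 * (r - s)) ≠ 0) {x : H} (hx : x ∈ V s)
    (h0 : ∀ u ∈ V r, ω x u = 0) : x = 0 := by
  refine h.tr' e hx ?_
  rw [← h.orth_V]
  exact ⟨h.le s hx, fun u hu => by rw [h.toSym.skew, h0 u hu, neg_zero]⟩

theorem Idx_sin1 (s : ℝ) : sin (2 * (s + π / 4 - s)) ≠ 0 := by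
  rw [show 2 * (s + π / 4 - s) = π / 2 by ring, sin_pi_div_two]
  exact one_ne_zero

theorem Idx_sin2 (s : ℝ) : sin (2 * (s + 3 * π / 4 - (s + π / 2))) ≠ 0 := by
  rw [show 2 * (s + 3 * π / 4 - (s + π / 2)) = π / 2 by ring, sin_pi_div_two]
  exact one_ne_zero

theorem Idx_sin3 (s : ℝ) : sin (2 * (s + 3 * π / 4 - s)) ≠ 0 := by
  rw [show 2 * (s + 3 * π / 4 - s) = π / 2 + π by ring, sin_add_pi, sin_pi_div_two]
  exact neg_ne_zero.2 one_ne_zero

/-- Two vectors at the teeth `0` and `2`. -/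
def Idx_two {U : Type} [AddCommGroup U] [Module ℝ U] (i i' : U →ₗ[ℝ] H) : U →ₗ[ℝ] Fin 4 → H :=
  LinearMap.pi ![i, 0, i', 0]

theorem Idx_two_apply {U : Type} [AddCommGroup U] [Module ℝ U] (i i' : U →ₗ[ℝ] H) (u : U) :
    Idx_two i i' u = ![i u, 0, i' u, 0] := by
  funext j
  fin_cases j <;> rfl

theorem Sys0.idx2 (h : Sys0 n ω T V) {s : ℝ}
    (hs : ∀ j : Fin 4, ∃ a, w a ≠ 0 ∧ t a = s + (j : ℕ) * (π / 4)) :
    B.Idx (n + finrank ℝ (KK V s)) (opq sgp ω t (frc V w t)) := by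
  obtain ⟨L, inj, -, hq⟩ := Idx_comb V hs
  have hp := pi_pos
  let i := (V s).subtype ∘ₗ LinearMap.fst ℝ (V s) (KK V s)
  let i' := (KK V s).subtype ∘ₗ LinearMap.snd ℝ (V s) (KK V s)
  have hd : finrank ℝ (V s × KK V s) = n + finrank ℝ (KK V s) := by rw [finrank_prod, h.dim]
  have adm : ∀ p, ∀ j, ![i p, 0, i' p, 0] j ∈ V (Idx_tm s j) := fun p =>
    Idx_adm p.1.2 (zero_mem _) p.2.2.2 (zero_mem _)
  let β := Idx_pair ω (fun a => sgp (t a - s)) (frc V w t).toLinearMap i +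
    Idx_pair ω (fun a => sgp (t a - (s + π / 2))) (frc V w t).toLinearMap i'
  refine idx_of_iso (I := LinearMap.range (L ∘ₗ Idx_two i i')) (Z := LinearMap.ker β)
    (Idx_symm h (fun _ => sgp_neg) (frc_mem V w t)) ?_ ?_ ?_ (hd ▸ Idx_codim β) fun x hx => ?_
  · rw [← hd]
    refine LinearMap.finrank_range_of_inj (inj.comp ((injective_iff_map_eq_zero _).2 fun p e => ?_))
    rw [Idx_two_apply] at e
    exact Prod.ext (Subtype.ext (congrFun e 0)) (Subtype.ext (congrFun e 2))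
  · rintro _ ⟨p, rfl⟩
    rw [inner_opq, LinearMap.comp_apply, Idx_two_apply, hq _ _ _ _ (adm p) (adm p)]
    exact Idx_iso h _ _ p.1.2 p.2.2.1
  · rintro _ ⟨p, rfl⟩ e
    rw [LinearMap.comp_apply, Idx_two_apply] at e ⊢
    have key : ∀ g, (∀ j, g j ∈ V (Idx_tm s j)) →
        qf sgp ω (Idx_tm s) ![i p, 0, i' p, 0] g = 0 := fun g hg => by
      rw [← hq _ _ _ _ (adm p) hg, ← inner_opq, e, inner_zero_left]
    have h1 : i p - i' p = 0 := Idx_zero h (Idx_sin1 s) (sub_mem p.1.2 p.2.2.1) fun u hu => by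
      have := key _ (Idx_adm (zero_mem _) hu (zero_mem _) (zero_mem _))
      simp only [qf, Fin.sum_univ_four, Matrix.cons_val, map_zero, zero_apply, mul_zero, add_zero,
        zero_add, Idx_tm0, Idx_tm1, Idx_tm2] at this
      rw [sgp_eq ⟨by linarith, by linarith⟩, sgp_eq' ⟨by linarith, by linarith⟩] at this
      rw [map_sub, sub_apply]
      linarith
    have h2 : i p + i' p = 0 := Idx_zero h (Idx_sin3 s) (add_mem p.1.2 p.2.2.1) fun u hu => by
      have := key _ (Idx_adm (zero_mem _) (zero_mem _) (zero_mem _) hu)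
      simp only [qf, Fin.sum_univ_four, Matrix.cons_val, map_zero, zero_apply, mul_zero, add_zero,
        zero_add, Idx_tm0, Idx_tm3, Idx_tm2] at this
      rw [sgp_eq ⟨by linarith, by linarith⟩, sgp_eq ⟨by linarith, by linarith⟩] at this
      rw [map_add, add_apply]
      linarith
    have h3 : i p = 0 := by
      have : (2 : ℝ) • i p = 0 := by
        rw [show (2 : ℝ) • i p = (i p - i' p) + (i p + i' p) by rw [two_smul]; abel, h1, h2, add_zero]
      exact (smul_eq_zero.1 this).resolve_left two_ne_zero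
    have h4 : i' p = 0 := by rwa [h3, zero_add] at h2
    rw [h3, h4, ← L.map_zero]
    congr 1
    funext j
    fin_cases j <;> rfl
  · rw [inner_opq]
    refine h.idx_pos2 s (frc_mem V w t x) (fun v hv => ?_) fun κ hκ => ?_
    · simpa [β, Idx_pair, i, i'] using LinearMap.congr_fun hx (⟨v, hv⟩, 0)
    · simpa [β, Idx_pair, i, i'] using LinearMap.congr_fun hx (0, ⟨κ, hκ⟩)

theorem Sys0.dimK_eq (h : Sys0 n ω T V) (s s' : ℝ) :
    finrank ℝ (KK V s) = finrank ℝ (KK V s') := by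
  let t : Fin 2 × Fin 4 → ℝ := fun a => ![s, s'] a.1 + (a.2 : ℕ) * (π / 4)
  have h1 := h.idx2 (w := fun _ => 1) (t := t) (s := s) fun j => ⟨(0, j), one_ne_zero, rfl⟩
  have h2 := h.idx2 (w := fun _ => 1) (t := t) (s := s') fun j => ⟨(1, j), one_ne_zero, rfl⟩
  obtain ⟨P, l, hP⟩ := B.Neg_ex h1.symm
  exact Nat.add_left_cancel ((B.Neg_rank h1 hP).symm.trans (B.Neg_rank h2 hP))

theorem Sys.idx2' (h : Sys n k ω T V) (hf : Full w t) :
    B.Idx (n + k) (opq sgp ω t (frc V w t)) := by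
  obtain ⟨s, hs⟩ := hf
  rw [← h.dimK s]
  exact h.toSys0.idx2 hs

theorem Sys0.ker0_dim (h : Sys0 n ω T V) (hf : Full w t) :
    finrank ℝ (ker0 V w t) + 2 * n = finrank ℝ (WW ι H) := by
  obtain ⟨s, hs⟩ := hf
  obtain ⟨L, -, hL, -⟩ := Idx_comb V hs
  have e : LinearMap.range ((tot ι H).comp (frc V w t) : WW ι H →ₗ[ℝ] H) = T := by
    refine le_antisymm ?_ fun x hx => ?_
    · rintro _ ⟨x, rfl⟩
      have : ∑ a, frc V w t x a ∈ T := T.sum_mem fun a _ => h.le _ (frc_mem V w t x a)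
      rwa [← tot_apply] at this
    · rw [← h.sup_eq (Idx_sin1 s)] at hx
      obtain ⟨y, hy, z, hz, rfl⟩ := Submodule.mem_sup.1 hx
      refine ⟨L ![y, z, 0, 0], (tot_apply _).trans
        ((hL _ (Idx_adm hy hz (zero_mem _) (zero_mem _))).trans ?_)⟩
      simp only [Fin.sum_univ_four, Matrix.cons_val, add_zero]
  rw [← LinearMap.finrank_range_add_finrank_ker ((tot ι H).comp (frc V w t) : WW ι H →ₗ[ℝ] H), e,
    h.dimT, add_comm]
  rfl

theorem Sys.idx1 (h : Sys n k ω T V) (hf : Full w t) :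
    B.Idx k (opq saw ω t (frc0 V w t)) := by
  obtain ⟨s, hs⟩ := hf
  obtain ⟨L, inj, hL, hq⟩ := Idx_comb V hs
  have hp := pi_pos
  let i := (KK V s).subtype
  have adm : ∀ p, ∀ j, ![i p, 0, (-i) p, 0] j ∈ V (Idx_tm s j) := fun p =>
    Idx_adm p.2.1 (zero_mem _) (neg_mem p.2.2) (zero_mem _)
  have sum : ∀ p, frc0 V w t (L ![i p, 0, (-i) p, 0]) = frc V w t (L ![i p, 0, (-i) p, 0]) :=
    fun p => frc0_eq (by
      rw [hL _ (adm p)]
      simp only [Fin.sum_univ_four, Matrix.cons_val, add_zero, LinearMap.neg_apply, add_neg_cancel])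
  let β := Idx_pair ω (fun a => saw (t a - s) - saw (t a - (s + π / 2))) (frc0 V w t).toLinearMap i
  refine idx_of_iso (I := LinearMap.range (L ∘ₗ Idx_two i (-i))) (Z := LinearMap.ker β)
    (Idx_symm h.toSys0 (fun _ => saw_neg) (frc0_mem V w t)) ?_ ?_ ?_ (h.dimK s ▸ Idx_codim β)
    fun x hx => ?_
  · rw [← h.dimK s]
    refine LinearMap.finrank_range_of_inj (inj.comp ((injective_iff_map_eq_zero _).2 fun p e => ?_))
    rw [Idx_two_apply] at e
    exact Subtype.ext (congrFun e 0)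
  · rintro _ ⟨p, rfl⟩
    rw [inner_opq, LinearMap.comp_apply, Idx_two_apply, sum, hq _ _ _ _ (adm p) (adm p)]
    exact Idx_iso h.toSys0 _ _ p.2.1 (neg_mem p.2.1)
  · rintro _ ⟨p, rfl⟩ e
    rw [LinearMap.comp_apply, Idx_two_apply] at e ⊢
    have h1 : i p = 0 := Idx_zero h.toSys0 (Idx_sin1 s) p.2.1 fun u hu => by
      have hT := neg_mem (h.le _ hu)
      rw [← h.toSys0.sup_eq (Idx_sin2 s)] at hT
      obtain ⟨y, hy, z, hz, e'⟩ := Submodule.mem_sup.1 hT
      have hg := Idx_adm (zero_mem _) hu hy hz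
      have h2 : frc0 V w t (L ![0, u, y, z]) = frc V w t (L ![0, u, y, z]) := frc0_eq (by
        rw [hL _ hg]
        simp only [Fin.sum_univ_four, Matrix.cons_val, zero_add, add_assoc, e', add_neg_cancel])
      have h3 := inner_opq saw ω t (frc0 V w t) (L ![i p, 0, (-i) p, 0]) (L ![0, u, y, z])
      have h4 : ω (i p) y = 0 := h.iso _ _ p.2.2 _ hy
      have h5 : ω (i p) z = -ω (i p) u := by rw [← map_neg, ← e', map_add, h4, zero_add]
      rw [e, inner_zero_left, sum, h2, hq _ _ _ _ (adm p) hg] at h3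
      simp only [qf, Fin.sum_univ_four, Matrix.cons_val, map_zero, zero_apply, mul_zero, add_zero,
        zero_add, Idx_tm0, Idx_tm1, Idx_tm2, Idx_tm3, LinearMap.neg_apply, map_neg, neg_apply, h4, h5,
        neg_zero] at h3
      rw [← saw_add_pi (s + π / 4 - (s + π / 2)), saw_eq ⟨by linarith, by linarith⟩,
        saw_eq ⟨by linarith, by linarith⟩, saw_eq ⟨by linarith, by linarith⟩,
        saw_eq ⟨by linarith, by linarith⟩] at h3
      field_simp at h3
      nlinarith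
    rw [LinearMap.neg_apply, h1, neg_zero, ← L.map_zero]
    congr 1
    funext j
    fin_cases j <;> rfl
  · rw [inner_opq]
    exact h.toSys0.idx_pos1 s (frc0_mem V w t x) (frc0_sum V w t x) fun κ hκ =>
      LinearMap.congr_fun hx ⟨κ, hκ⟩

end Pool.Agent.Work.MP_8c604c_gt.OS
end
end

-- merged part: Pool.Agent.Work.MP_8c604c_gt.OS.Trig
section
/-!
Two trigonometric sums over the teeth.  The times are `t a = s a.1 + a.2 π/4`.
Plan. Expand the sums over `Fin 4` (`Fintype.sum_prod_type`, `Fin.sum_univ_four`) for fixed phases `i, j`, with `x = s j - s i`.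
`trig1`: the function `g x = saw x * sin (2 x)` has period `π`, and `g x + g (x + π/2) = |sin (2 x)| / 2` (`saw_half`); so the sixteen terms add up to a
sum of absolute values, which is positive for `i = j` (`x = π/4`).
`trig2`: `cos a cos b = (cos (a-b) + cos (a+b))/2`, and so on.  The part with `cos (b - a)` gives `sgp x * sin (2 x) * cos x = |sin x| cos x ^ 2` (`sgp_sin`).
The part that depends on `a + b` cancels: the summand does not change when one time is moved by `π` (`sgp_add_pi`), and it changes sign when both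
times are moved by `π/2`; pair the tooth `(k, k')` with `(k + 2, k' + 2)` modulo 4.
-/

set_option maxSynthPendingDepth 3
set_option linter.unusedSectionVars false

open Set Filter Topology Real Module
open scoped RealInnerProductSpace

noncomputable section
namespace Pool.Agent.Work.MP_8c604c_gt.OS

variable {m : ℕ}

/-- The tooth a quarter turn later. -/
def Trig_sh (m : ℕ) : Te m ≃ Te m := (Equiv.refl _).prodCongr (Equiv.addRight 2)

theorem Trig_shift {s : Fin (m + 1) → ℝ} {t : Te m → ℝ}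
    (ht : ∀ a, t a = s a.1 + (a.2 : ℕ) * (π / 4)) {f : ℝ → ℝ} (hf : ∀ x, f (x + π) = f x)
    (a : Te m) : f (t (Trig_sh m a)) = f (t a + π / 2) := by
  obtain ⟨i, k⟩ := a
  have h : ((k + 2 : Fin 4) : ℕ) = k + 2 ∨ (k : ℕ) = (k + 2 : Fin 4) + 2 := by revert k; decide
  have e : t (Trig_sh m (i, k)) = s i + ((k + 2 : Fin 4) : ℕ) * (π / 4) := ht _
  rw [e, ht]
  rcases h with h | h
  · rw [h]
    exact congrArg f (by push_cast; ring)
  · rw [← hf]
    refine congrArg f ?_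
    have : ((k : ℕ) : ℝ) = ((k + 2 : Fin 4) : ℕ) + 2 := by exact_mod_cast h
    simp only [this]
    ring

theorem Trig_pos {W s : Fin (m + 1) → ℝ} (h0 : ∀ i, 0 ≤ W i) (h1 : W ≠ 0) {t : Te m → ℝ}
    (ht : ∀ a, t a = s a.1 + (a.2 : ℕ) * (π / 4)) {φ : ℝ → ℝ} (p0 : ∀ x, 0 ≤ φ x)
    (p1 : 0 < φ (π / 4)) : 0 < ∑ a : Te m, ∑ b : Te m, W a.1 * W b.1 * φ (t b - t a) := by
  obtain ⟨i, hi⟩ := Function.ne_iff.1 h1
  have hi' : 0 < W i := (h0 i).lt_of_ne' hi
  have n : ∀ a b : Te m, 0 ≤ W a.1 * W b.1 * φ (t b - t a) := fun a b =>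
    mul_nonneg (mul_nonneg (h0 _) (h0 _)) (p0 _)
  refine Finset.sum_pos' (fun a _ => Finset.sum_nonneg fun b _ => n a b) ⟨(i, 0), Finset.mem_univ _,
    Finset.sum_pos' (fun b _ => n _ b) ⟨(i, 1), Finset.mem_univ _, ?_⟩⟩
  rw [show t (i, 1) - t (i, 0) = π / 4 by simp [ht]]
  exact mul_pos (mul_pos hi' hi') p1

theorem trig1 {W s : Fin (m + 1) → ℝ} (h0 : ∀ i, 0 ≤ W i) (h1 : W ≠ 0) {t : Te m → ℝ}
    (ht : ∀ a, t a = s a.1 + (a.2 : ℕ) * (π / 4)) :
    0 < ∑ a : Te m, ∑ b : Te m, saw (t b - t a) * (W a.1 * W b.1 * sin (2 * (t b - t a))) := by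
  have h2 := Trig_pos h0 h1 ht (φ := fun x => |sin (2 * x)| / 2) (fun _ => by positivity) (by
    rw [show 2 * (π / 4) = π / 2 by ring, sin_pi_div_two]
    norm_num)
  have h3 : ∀ a : Te m, ∑ b : Te m, W a.1 * W b.1 * (|sin (2 * (t b - t a))| / 2) =
      2 * ∑ b : Te m, saw (t b - t a) * (W a.1 * W b.1 * sin (2 * (t b - t a))) := fun a => by
    rw [two_mul]
    nth_rewrite 2 [← (Trig_sh m).sum_comp]
    rw [← Finset.sum_add_distrib]
    refine Finset.sum_congr rfl fun b _ => ?_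
    rw [Trig_shift ht (f := fun x => saw (x - t a) * (W a.1 * W (Trig_sh m b).1 *
      sin (2 * (x - t a)))) (fun x => by
        rw [add_sub_right_comm, saw_add_pi, mul_add 2, sin_add_two_pi]), ← saw_half,
      add_sub_right_comm, show 2 * (t b - t a + π / 2) = 2 * (t b - t a) + π by ring, sin_add_pi,
      show (Trig_sh m b).1 = b.1 from rfl]
    ring
  simp only [h3, ← Finset.mul_sum] at h2
  linarith

theorem trig2 {W s : Fin (m + 1) → ℝ} (h0 : ∀ i, 0 ≤ W i) (h1 : W ≠ 0) {t : Te m → ℝ}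
    (ht : ∀ a, t a = s a.1 + (a.2 : ℕ) * (π / 4)) : ∃ c : ℝ, 0 < c ∧ ∀ x y u : ℝ,
    ∑ a : Te m, ∑ b : Te m, sgp (t b - t a) * (W a.1 * W b.1 * sin (2 * (t b - t a)) *
      (cos (t a) * cos (t b) * x - (cos (t a) * sin (t b) + sin (t a) * cos (t b)) * u +
        sin (t a) * sin (t b) * y)) = c * (x + y) := by
  refine ⟨_, half_pos (Trig_pos h0 h1 ht (φ := fun x => |sin x| * cos x ^ 2)
    (fun _ => by positivity) (by rw [sin_pi_div_four, cos_pi_div_four]; positivity)),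
    fun x y u => ?_⟩
  let H : ℝ → ℝ → ℝ → ℝ := fun w α β => sgp (β - α) * (w * sin (2 * (β - α)) *
    (cos α * cos β * x - (cos α * sin β + sin α * cos β) * u + sin α * sin β * y))
  have e1 : ∀ w α β, H w α (β + π) = H w α β := fun w α β => by
    simp only [H]
    rw [add_sub_right_comm, sgp_add_pi, mul_add 2, sin_add_two_pi, sin_add_pi, cos_add_pi]
    ring
  have e2 : ∀ w β α, H w (α + π) β = H w α β := fun w β α => by
    have := sgp_add_pi (β - (α + π))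
    rw [show β - (α + π) + π = β - α by ring] at this
    simp only [H]
    rw [this, show 2 * (β - (α + π)) = 2 * (β - α) - 2 * π by ring, sin_sub_two_pi, sin_add_pi,
      cos_add_pi]
    ring
  have e3 : ∀ w α β, H w α β + H w (α + π / 2) (β + π / 2) =
      w * (|sin (β - α)| * cos (β - α) ^ 2) * (x + y) := fun w α β => by
    simp only [H]
    rw [add_sub_add_right_eq_sub, sin_add_pi_div_two, sin_add_pi_div_two, cos_add_pi_div_two,
      cos_add_pi_div_two, sin_two_mul]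
    linear_combination 2 * w * (x + y) * cos (β - α) ^ 2 * sgp_sin (β - α) -
      2 * w * (x + y) * cos (β - α) * sgp (β - α) * sin (β - α) * cos_sub β α
  have e4 : ∑ a : Te m, ∑ b : Te m, H (W a.1 * W b.1) (t a) (t b) =
      ∑ a : Te m, ∑ b : Te m, H (W a.1 * W b.1) (t a + π / 2) (t b + π / 2) := by
    rw [← (Trig_sh m).sum_comp]
    refine Finset.sum_congr rfl fun a _ => ?_
    rw [← (Trig_sh m).sum_comp]
    refine Finset.sum_congr rfl fun b _ => ?_
    exact (Trig_shift ht (e1 _ _) b).trans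
      (Trig_shift ht (f := fun α => H (W a.1 * W b.1) α (t b + π / 2)) (e2 _ _) a)
  have e5 : ∑ a : Te m, ∑ b : Te m, H (W a.1 * W b.1) (t a) (t b) +
      ∑ a : Te m, ∑ b : Te m, H (W a.1 * W b.1) (t a + π / 2) (t b + π / 2) =
      (∑ a : Te m, ∑ b : Te m, W a.1 * W b.1 * (|sin (t b - t a)| * cos (t b - t a) ^ 2)) *
        (x + y) := by
    simp only [← Finset.sum_add_distrib, e3, Finset.sum_mul]
  change ∑ a : Te m, ∑ b : Te m, H (W a.1 * W b.1) (t a) (t b) = _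
  linarith

end Pool.Agent.Work.MP_8c604c_gt.OS
end
end

-- merged part: Pool.Agent.Work.MP_8c604c_gt.OS.Gr
section
/-!
Rotations, and the rotation attached to a system.
Plan. `Rot.om`: expand.  `Rot.inj`: `ω (evt t p) (evt (t + π/4) p) = ω p.1 p.2`.  `Rot.sys`: the two images meet in zero (`ω p.1 p.2 = ω q.2 p.2 = 0` if `p.1 = q.2`); a relation
`evt s p + evt x q + evt y r = 0` means `cos (2s) p + cos (2x) q + cos (2y) r = 0` and the same with sines (both projections are injective on `G`), so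
`sin (2 (y - s)) p = -sin (2 (y - x)) q`; if `y - s = π/2` then `q = 0`.
`Rot.neg1`, `Rot.neg2`: `Rot.om` and `trig1`, `trig2` with `x = ω p.1 p.2`, `y = ω q.1 q.2`, `u = ω p.1 q.2`.
`Gr_ex`: `κ ∈ T = V (π/8) ⊔ V (π/4)`, then `split1`.  `neg`: `pos_lt` at the times `0 < π/8 < π/4` with `a = κ`, `b = -(κ + c)`.  `sy`: `V (π/8)` is isotropic.
-/

set_option maxSynthPendingDepth 3
set_option linter.unusedSectionVars false

open Set Filter Topology Real Module
open scoped RealInnerProductSpace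

noncomputable section
namespace Pool.Agent.Work.MP_8c604c_gt.OS

variable {H : Type} [NormedAddCommGroup H] [InnerProductSpace ℝ H] [FiniteDimensional ℝ H]
  {n k : ℕ} {ω : Bi H} {T : Submodule ℝ H} {V : ℝ → Submodule ℝ H}

/-- The data of a rotation. -/
structure Rot (k : ℕ) (ω : Bi H) (G : Submodule ℝ (H × H)) : Prop where
  alt : ∀ u, ω u u = 0
  dim : finrank ℝ G = k
  i1 : ∀ p ∈ G, ∀ q ∈ G, ω p.1 q.1 = 0
  i2 : ∀ p ∈ G, ∀ q ∈ G, ω p.2 q.2 = 0
  sy : ∀ p ∈ G, ∀ q ∈ G, ω p.1 q.2 = ω q.1 p.2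
  neg : ∀ p ∈ G, p ≠ 0 → ω p.1 p.2 < 0

variable {G : Submodule ℝ (H × H)}

theorem evt_int (t : ℝ) (j : ℤ) (p : H × H) : evt (t + j * π) p = evt t p := by
  rw [evt_apply, evt_apply, show 2 * (t + j * π) = 2 * t + j * (2 * π) by ring,
    cos_add_int_mul_two_pi, sin_add_int_mul_two_pi]

theorem evt_half (t : ℝ) (p : H × H) : evt (t + π / 2) p = -evt t p := by
  rw [evt_apply, evt_apply, show 2 * (t + π / 2) = 2 * t + π by ring, cos_add_pi, sin_add_pi,
    neg_smul, neg_smul, neg_add]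

theorem Gr_zero (p : H × H) : evt 0 p = p.1 := by
  rw [evt_apply, mul_zero, cos_zero, sin_zero, one_smul, zero_smul, add_zero]

theorem Gr_four (p : H × H) : evt (π / 4) p = p.2 := by
  rw [evt_apply, show 2 * (π / 4) = π / 2 by ring, cos_pi_div_two, sin_pi_div_two, one_smul,
    zero_smul, zero_add]

theorem Gr_rank {f : H × H →ₗ[ℝ] H} (hf : ∀ p ∈ G, f p = 0 → p = 0) :
    finrank ℝ (G.map f) = finrank ℝ G := by
  rw [← LinearMap.range_domRestrict]
  exact LinearMap.finrank_range_of_inj ((injective_iff_map_eq_zero _).2 fun p hp =>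
    Subtype.ext (hf p p.2 hp))

theorem Gr_skew (h : ∀ u, ω u u = 0) (u w : H) : ω u w = -ω w u := by
  have := h (u + w)
  simp only [map_add, add_apply, h] at this
  linarith

theorem Gr_eq (h : Rot k ω G) {p : H × H} (hp : p ∈ G) (e : ω p.1 p.2 = 0) : p = 0 :=
  by_contra fun hn => (h.neg p hp hn).ne e

theorem Gr_le (h : Rot k ω G) {p : H × H} (hp : p ∈ G) : ω p.1 p.2 ≤ 0 := by
  rcases eq_or_ne p 0 with rfl | hn
  · exact (map_zero _).le
  · exact (h.neg p hp hn).le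

theorem cm_mul (u v : ℂ) (p : H × H) : cm (u * v) p = cm u (cm v p) := by
  simp only [cm_apply, Complex.mul_re, Complex.mul_im, Prod.mk.injEq]
  constructor <;> module

theorem cm_real (r : ℝ) (p : H × H) : cm (r : ℂ) p = r • p := by
  rw [cm_apply, Complex.ofReal_re, Complex.ofReal_im, zero_smul, zero_smul, add_zero, sub_zero]
  rfl

theorem cm_fst (t : ℝ) (p : H × H) : (cm (Complex.exp (2 * t * Complex.I)) p).1 = evt t p := by
  rw [cm_apply, evt_apply, show (2 * t : ℂ) = ((2 * t : ℝ) : ℂ) by push_cast; rfl,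
    Complex.exp_ofReal_mul_I_re, Complex.exp_ofReal_mul_I_im]

theorem evt_cm (t r : ℝ) (p : H × H) :
    evt t (cm (Complex.exp (2 * r * Complex.I)) p) = evt (t + r) p := by
  rw [← cm_fst, ← cm_fst, ← cm_mul, ← Complex.exp_add, Complex.ofReal_add, mul_add, add_mul]

theorem continuous_cm : Continuous (cm : ℂ → H × H →L[ℝ] H × H) := by
  refine continuous_clm_apply.2 fun p => ?_
  simp only [cm_apply]
  fun_prop

theorem continuous_evt : Continuous (evt : ℝ → H × H →L[ℝ] H) := by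
  refine continuous_clm_apply.2 fun p => ?_
  simp only [evt_apply]
  fun_prop

theorem Rot.om (h : Rot k ω G) {p q : H × H} (hp : p ∈ G) (hq : q ∈ G) (s t : ℝ) :
    ω (evt s p) (evt t q) = sin (2 * (t - s)) * ω p.1 q.2 := by
  simp only [evt_apply, map_add, map_smul, add_apply, smul_apply, smul_eq_mul]
  rw [h.i1 p hp q hq, h.i2 p hp q hq, Gr_skew h.alt p.2 q.1, ← h.sy p hp q hq, mul_sub, sin_sub]
  ring

theorem Rot.inj (h : Rot k ω G) {p : H × H} (hp : p ∈ G) {t : ℝ} (e : evt t p = 0) : p = 0 := by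
  have h1 := h.om hp hp t (t + π / 4)
  rw [e, map_zero, zero_apply, show 2 * (t + π / 4 - t) = π / 2 by ring, sin_pi_div_two,
    one_mul] at h1
  exact Gr_eq h hp h1.symm

theorem Gr_rank1 (h : Rot k ω G) : finrank ℝ (G.map (LinearMap.fst ℝ H H)) = k :=
  (Gr_rank fun p hp e => h.inj hp ((Gr_zero p).trans e)).trans h.dim

theorem Gr_rank2 (h : Rot k ω G) : finrank ℝ (G.map (LinearMap.snd ℝ H H)) = k :=
  (Gr_rank fun p hp e => h.inj hp ((Gr_four p).trans e)).trans h.dim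

theorem Rot.sys (h : Rot k ω G) :
    Sys k k ω (G.map (LinearMap.fst ℝ H H) ⊔ G.map (LinearMap.snd ℝ H H))
      fun t => G.map (evt (H := H) t).toLinearMap := by
  have hd : ∀ t, finrank ℝ (G.map (evt (H := H) t).toLinearMap) = k := fun t =>
    (Gr_rank fun p hp e => h.inj hp e).trans h.dim
  have m1 : ∀ p ∈ G, p.1 ∈ G.map (LinearMap.fst ℝ H H) ⊔ G.map (LinearMap.snd ℝ H H) :=
    fun p hp => Submodule.mem_sup_left ⟨p, hp, rfl⟩
  have m2 : ∀ p ∈ G, p.2 ∈ G.map (LinearMap.fst ℝ H H) ⊔ G.map (LinearMap.snd ℝ H H) :=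
    fun p hp => Submodule.mem_sup_right ⟨p, hp, rfl⟩
  have i0 : ∀ t, ∀ p ∈ G, ∀ q ∈ G, ω (evt t p) (evt t q) = 0 := fun t p hp q hq => by
    rw [h.om hp hq, sub_self, mul_zero, sin_zero, zero_mul]
  refine ⟨⟨⟨h.alt, fun u hu e => ?_, ?_⟩, fun t => ?_, hd, fun t => ?_, fun t => ?_,
    fun s t h1 h2 => ?_, fun s x y h1 h2 h3 => ?_⟩, fun t => ?_⟩
  · obtain ⟨_, ⟨p, hp, rfl⟩, _, ⟨q, hq, rfl⟩, rfl⟩ := Submodule.mem_sup.1 hu
    have e1 := e _ (m2 p hp)
    have e2 := e _ (m1 q hq)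
    simp only [LinearMap.fst_apply, LinearMap.snd_apply, map_add, add_apply] at e1 e2
    rw [h.i2 q hq p hp, add_zero] at e1
    rw [h.i1 p hp q hq, zero_add, Gr_skew h.alt, neg_eq_zero] at e2
    rw [Gr_eq h hp e1, Gr_eq h hq e2, map_zero, map_zero, add_zero]
  · have e1 := Submodule.finrank_sup_add_finrank_inf_eq (G.map (LinearMap.fst ℝ H H))
      (G.map (LinearMap.snd ℝ H H))
    have e2 : G.map (LinearMap.fst ℝ H H) ⊓ G.map (LinearMap.snd ℝ H H) = ⊥ := by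
      rw [eq_bot_iff]
      rintro _ ⟨⟨p, hp, rfl⟩, q, hq, e⟩
      have e3 := h.i2 q hq p hp
      rw [show q.2 = p.1 from e] at e3
      rw [Gr_eq h hp e3, map_zero]
      exact zero_mem _
    rw [e2, finrank_bot, Gr_rank1 h, Gr_rank2 h] at e1
    omega
  · rintro _ ⟨p, hp, rfl⟩
    exact add_mem (Submodule.smul_mem _ _ (m1 p hp)) (Submodule.smul_mem _ _ (m2 p hp))
  · rintro _ ⟨p, hp, rfl⟩ _ ⟨q, hq, rfl⟩
    exact i0 t p hp q hq
  · have e : evt (H := H) (t + π) = evt t := ContinuousLinearMap.ext fun p => by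
      simpa only [Int.cast_one, one_mul] using evt_int t 1 p
    simp only [e]
  · rintro _ ⟨p, hp, rfl⟩ ⟨q, hq, e⟩
    have e1 := h.om hp hp s t
    rw [← show evt t q = evt s p from e, i0 t q hq p hp] at e1
    rw [Gr_eq h hp ((mul_eq_zero.1 e1.symm).resolve_left
      (sin_pos_of_pos_of_lt_pi (by linarith) (by linarith)).ne'), map_zero]
  · rintro _ ⟨p, hp, rfl⟩ _ ⟨q, hq, rfl⟩ ⟨r, hr, e⟩
    change 0 ≤ ω (evt s p) (evt x q)
    rcases eq_or_ne q 0 with rfl | hn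
    · rw [map_zero, map_zero]
    have e1 := i0 y r hr q hq
    rw [show evt y r = evt s p + evt x q from e, map_add, add_apply, h.om hp hq, h.om hq hq] at e1
    have e2 := mul_neg_of_pos_of_neg
      (sin_pos_of_pos_of_lt_pi (x := 2 * (y - x)) (by linarith) (by linarith)) (h.neg q hq hn)
    have e3 := sin_nonneg_of_nonneg_of_le_pi (x := 2 * (y - s)) (by linarith) (by linarith)
    rw [h.om hp hq]
    refine mul_nonneg (sin_nonneg_of_nonneg_of_le_pi (by linarith) (by linarith))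
      (not_lt.1 fun e4 => ?_)
    have := mul_nonpos_of_nonneg_of_nonpos e3 e4.le
    linarith
  · rw [KK, inf_eq_left.2, hd]
    rintro _ ⟨p, hp, rfl⟩
    refine ⟨-p, neg_mem hp, ?_⟩
    change evt (t + π / 2) (-p) = evt t p
    rw [evt_half, map_neg, neg_neg]

theorem Rot.neg1 (h : Rot k ω G) {m : ℕ} {W s : Fin (m + 1) → ℝ} (h0 : ∀ i, 0 ≤ W i) (h1 : W ≠ 0)
    {t : Te m → ℝ} (ht : ∀ a, t a = s a.1 + (a.2 : ℕ) * (π / 4)) {p : H × H} (hp : p ∈ G)
    (hn : p ≠ 0) {f : Te m → H} (hf : ∀ a, f a = W a.1 • evt (t a) p) : qf saw ω t f f < 0 := by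
  have e : qf saw ω t f f = (∑ a : Te m, ∑ b : Te m, saw (t b - t a) *
      (W a.1 * W b.1 * sin (2 * (t b - t a)))) * ω p.1 p.2 := by
    simp only [qf, hf, map_smul, smul_apply, smul_eq_mul, h.om hp hp, Finset.sum_mul]
    refine Finset.sum_congr rfl fun a _ => Finset.sum_congr rfl fun b _ => ?_
    ring
  rw [e]
  exact mul_neg_of_pos_of_neg (trig1 h0 h1 ht) (h.neg p hp hn)

theorem Rot.neg2 (h : Rot k ω G) {m : ℕ} {W s : Fin (m + 1) → ℝ} (h0 : ∀ i, 0 ≤ W i) (h1 : W ≠ 0)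
    {t : Te m → ℝ} (ht : ∀ a, t a = s a.1 + (a.2 : ℕ) * (π / 4)) {p q : H × H} (hp : p ∈ G)
    (hq : q ∈ G) (hn : p ≠ 0 ∨ q ≠ 0) {f : Te m → H}
    (hf : ∀ a, f a = W a.1 • (cos (t a) • evt (t a) p - sin (t a) • evt (t a) q)) :
    qf sgp ω t f f < 0 := by
  obtain ⟨c, hc, e⟩ := trig2 h0 h1 ht
  have e1 : qf sgp ω t f f = c * (ω p.1 p.2 + ω q.1 q.2) := by
    rw [← e _ _ (ω p.1 q.2)]
    simp only [qf, hf, map_smul, map_sub, sub_apply, smul_apply, smul_eq_mul, h.om hp hp,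
      h.om hp hq, h.om hq hp, h.om hq hq, h.sy q hq p hp]
    refine Finset.sum_congr rfl fun a _ => Finset.sum_congr rfl fun b _ => ?_
    ring
  rw [e1]
  refine mul_neg_of_pos_of_neg hc ?_
  rcases hn with hn | hn
  · exact add_neg_of_neg_of_nonpos (h.neg p hp hn) (Gr_le h hq)
  · exact add_neg_of_nonpos_of_neg (Gr_le h hp) (h.neg q hq hn)

theorem Sys.Gr_ex (h : Sys n k ω T V) {κ : H} (hκ : κ ∈ KK V 0) : ∃ l, (κ, l) ∈ Gr ω T V := by
  have h1 := h.le 0 hκ.1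
  rw [← h.toSys0.sup_eq (s := π / 8) (t := π / 4) (by
    rw [show 2 * (π / 4 - π / 8) = π / 4 by ring, sin_pi_div_four]
    positivity)] at h1
  obtain ⟨a, ha, b, hb, rfl⟩ := Submodule.mem_sup.1 h1
  obtain ⟨l, hl, e⟩ := h.split1 0 (x := -b) (by simpa using hb)
  exact ⟨l, hκ, hl, -b, neg_mem hb, by simpa using ha, e⟩

theorem Sys.rot_Gr (h : Sys n k ω T V) : Rot k ω (Gr ω T V) := by
  have hp := pi_pos
  have key : ∀ {a c l : H}, a ∈ KK V 0 → c - l ∈ Tp ω T V → ω a c = ω a l := fun ha e => by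
    have := e.2 _ (Submodule.mem_sup_left ha)
    rwa [map_sub, sub_eq_zero] at this
  have hn : ∀ p ∈ Gr ω T V, p ≠ 0 → ω p.1 p.2 < 0 := by
    rintro p ⟨p1, p2, c, c1, c2, c3⟩ hn
    have h1 := h.toSys0.pos_lt (s := 0) (x := π / 8) (y := π / 4) (by linarith) (by linarith)
      (by linarith) p1.1 (neg_mem c2) (by simpa using c1) fun e => hn (by
        have e1 : p.1 = -c := eq_neg_of_add_eq_zero_left (neg_eq_zero.1 e)
        have e2 : p.1 = 0 := h.tr 0 (π / 4) (by linarith) (by linarith) _ p1.1 (e1 ▸ neg_mem c1)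
        rw [neg_eq_zero.1 (e1.symm.trans e2), zero_sub, neg_mem_iff] at c3
        exact Prod.ext e2 (h.toSys0.Sg_Tp (Submodule.mem_sup_right p2) c3))
    rwa [map_neg, map_add, h.alt, zero_add, key p1 c3, neg_pos] at h1
  refine ⟨h.alt, ?_, fun p hp q hq => h.iso 0 _ hp.1.1 _ hq.1.1,
    fun p hp q hq => h.iso _ _ hp.2.1.1 _ hq.2.1.1, ?_, hn⟩
  · have e : (Gr ω T V).map (LinearMap.fst ℝ H H) = KK V 0 := by
      refine le_antisymm ?_ fun κ hκ => (h.Gr_ex hκ).elim fun l hl => ⟨_, hl, rfl⟩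
      rintro _ ⟨p, hp, rfl⟩
      exact hp.1
    rw [← h.dimK 0, ← e, Gr_rank fun p hp e => by_contra fun k => (hn p hp k).ne ?_]
    rw [show p.1 = 0 from e, map_zero, zero_apply]
  · rintro p ⟨p1, p2, c, c1, c2, c3⟩ q ⟨q1, q2, e, e1, e2, e3⟩
    have h1 := h.iso _ _ c2 _ e2
    simp only [map_add, add_apply] at h1
    rw [h.iso 0 _ p1.1 _ q1.1, h.iso _ _ c1 _ e1, h.toSym.skew c, key p1 e3, key q1 c3] at h1
    linarith

theorem Gr_map1 (h : Sys n k ω T V) : (Gr ω T V).map (LinearMap.fst ℝ H H) = KK V 0 := by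
  refine Submodule.eq_of_le_of_finrank_eq ?_ ((Gr_rank1 h.rot_Gr).trans (h.dimK _).symm)
  rintro _ ⟨p, hp, rfl⟩
  exact hp.1

theorem Gr_map2 (h : Sys n k ω T V) : (Gr ω T V).map (LinearMap.snd ℝ H H) = KK V (π / 4) := by
  refine Submodule.eq_of_le_of_finrank_eq ?_ ((Gr_rank2 h.rot_Gr).trans (h.dimK _).symm)
  rintro _ ⟨p, hp, rfl⟩
  exact hp.2.1

theorem Sys.Gr_ex' (h : Sys n k ω T V) {l : H} (hl : l ∈ KK V (π / 4)) :
    ∃ κ, (κ, l) ∈ Gr ω T V := by
  rw [← Gr_map2 h] at hl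
  obtain ⟨p, hp, rfl⟩ := hl
  exact ⟨p.1, hp⟩

theorem Sys.sys_VS (h : Sys n k ω T V) : Sys k k ω (Sg V) (VS ω T V) := by
  have h1 := h.rot_Gr.sys
  rw [Gr_map1 h, Gr_map2 h] at h1
  exact h1

theorem Sys0.Sec_le (h : Sys0 n ω T V) : Sec V ≤ Gr ω T V := by
  intro p hp
  rw [mem_Sec] at hp
  have key : ∀ t, evt t p ∈ KK V t := fun t => ⟨hp t, by
    have := hp (t + π / 2)
    rwa [evt_half, neg_mem_iff] at this⟩
  refine ⟨Gr_zero p ▸ key 0, Gr_four p ▸ key _, p.2, Gr_four p ▸ hp _, ?_, ?_⟩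
  · have h1 := hp (π / 8)
    rw [evt_apply, show 2 * (π / 8) = π / 4 by ring, sin_pi_div_four, cos_pi_div_four,
      ← smul_add] at h1
    exact (Submodule.smul_mem_iff _ (by positivity)).1 h1
  · rw [sub_self]
    exact zero_mem _

theorem mem_Sec_shift (r : ℝ) (p : H × H) :
    cm (Complex.exp (2 * r * Complex.I)) p ∈ Sec (fun t => V (t + r)) ↔ p ∈ Sec V := by
  simp only [mem_Sec, evt_cm]
  exact ⟨fun h t => by simpa only [sub_add_cancel] using h (t - r), fun h t => h _⟩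

end Pool.Agent.Work.MP_8c604c_gt.OS
end
end

-- merged part: Pool.Agent.Work.MP_8c604c_gt.OS.Dfm
section
/-!
The deformation of a system is a system.
Plan. For `x ∈ dfm θ t` with witnesses `κ, l, u, p` put `y = κ + cos θ l + u ∈ V t` and `z = evt t p = cos (2t) p.1 + sin θ l ∈ VS t`.
`dfm_om`: `ω x x' = ω y y' + ω z z'` (expand; `KK V 0`, `KK V (π/4)` are isotropic and `Tp` is orthogonal to both).
`dim`: at most `n` by `iso_dim`; if `sin (2t) = 0` use `dfm_half`; otherwise the witnesses `(y, p) ∈ V t × Gr` with `cos θ sin (2t) p.2 = sin θ y_l` form the kernel of a map to `KK V (π/4)`, of dimension at least `n`,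
and they are mapped injectively to `x` (`three`, `tr'`).  A convenient way: the linear map `(κ, l, u, p) ↦ (class of κ + cos θ l + u modulo V t, sin (2t) p.2 - sin θ l)` from a space of dimension `2n + k`
to a space of dimension at most `n + k`.
`pos`: put `x₃ = -(x₁ + x₂)`.  By `three`, `α = ∑ y_i` and `β = ∑ z_i` lie in `KK V 0` and `cos θ α + sin θ β = 0`.  Choose `r = j π/2` in the window `[s, s + π/2]` (`Int.ceil`) and close both triangles with
`-α`, `-β` at the time `r` (`KK_le`); apply `pol_nonneg` (index type `Fin 4`) to `V` and to `VS` (`sys_VS`); the extra terms add up to multiples of `ω l_i (cos θ α + sin θ β) = 0`.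
`tr`: for `x ∈ dfm s ⊓ dfm t` with witnesses `y, z` and `y', z'` one has `α = y - y'`, `β = z - z'` in `KK V 0`, and `ω y y' + ω z z' = 0`.  Order the times `s`, `t` and a suitable `r = j π/2` in a window of length `π/2`
(if some `r` lies in `[s, t]` take it; if `r = s` or `r = t` use `tr` directly); both triangles have nonnegative form with sum zero, so by `pos_lt` the middle vectors vanish, and then `x = 0`.
`dimK`: `Sys0.dimK_eq` and `dfm_half`.
-/

set_option maxSynthPendingDepth 3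
set_option linter.unusedSectionVars false

open Set Filter Topology Real Module
open scoped RealInnerProductSpace

noncomputable section
namespace Pool.Agent.Work.MP_8c604c_gt.OS

variable {H : Type} [NormedAddCommGroup H] [InnerProductSpace ℝ H] [FiniteDimensional ℝ H]
  {n k : ℕ} {ω : Bi H} {T : Submodule ℝ H} {V : ℝ → Submodule ℝ H}

theorem Dfm_cs (θ : ℝ) (v : H) : cos θ • cos θ • v + sin θ • sin θ • v = v := by
  rw [smul_smul, smul_smul, ← add_smul, ← sq, ← sq, cos_sq_add_sin_sq, one_smul]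

theorem Dfm_KV (h : Sys0 n ω T V) {r : ℝ} (e : sin (2 * r) = 0) : KK V 0 ≤ V r := by
  obtain ⟨j, hj⟩ := sin_eq_zero_iff.1 e
  rw [show r = 0 + j * (π / 2) by linarith]
  exact h.KK_le 0 j

theorem Dfm_KS (h : Sys n k ω T V) {r : ℝ} (e : sin (2 * r) = 0) : KK V 0 ≤ VS ω T V r := by
  intro κ hκ
  obtain ⟨l, hl⟩ := h.Gr_ex hκ
  refine ⟨cos (2 * r) • (κ, l), Submodule.smul_mem _ _ hl, ?_⟩
  have := Dfm_cs (2 * r) κ
  rw [e, zero_smul, add_zero] at this
  change evt r _ = _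
  rw [evt_apply, e, zero_smul, add_zero]
  exact this

theorem Dfm_r (s : ℝ) : ∃ r, sin (2 * r) = 0 ∧ s < r ∧ r ≤ s + π / 2 := by
  have hp : 0 < π / 2 := half_pos pi_pos
  refine ⟨(⌊s / (π / 2)⌋ + 1 : ℤ) * (π / 2), sin_eq_zero_iff.2 ⟨⌊s / (π / 2)⌋ + 1, by ring⟩, ?_, ?_⟩
  · have := (div_lt_iff₀ hp).1 (Int.lt_floor_add_one (s / (π / 2)))
    push_cast
    exact this
  · have := (le_div_iff₀ hp).1 (Int.floor_le (s / (π / 2)))
    push_cast
    linarith

theorem Dfm_om3 (h : Sys0 n ω T V) {κ l u κ' l' u' : H} (hκ : κ ∈ KK V 0) (hl : l ∈ KK V (π / 4))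
    (hu : u ∈ Tp ω T V) (hκ' : κ' ∈ KK V 0) (hl' : l' ∈ KK V (π / 4)) (hu' : u' ∈ Tp ω T V) :
    ω (κ + l + u) (κ' + l' + u') = ω κ l' + ω l κ' + ω u u' := by
  simp only [map_add, add_apply]
  rw [h.iso _ _ hκ.1 _ hκ'.1, h.iso _ _ hl.1 _ hl'.1, hu'.2 κ (Submodule.mem_sup_left hκ),
    hu'.2 l (Submodule.mem_sup_right hl), h.skew u κ', h.skew u l',
    hu.2 κ' (Submodule.mem_sup_left hκ'), hu.2 l' (Submodule.mem_sup_right hl')]
  ring

/-- The witnesses of a vector of the deformed system. -/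
structure Dfm_W (ω : Bi H) (T : Submodule ℝ H) (V : ℝ → Submodule ℝ H) (κ a l u : H) : Prop where
  hκ : κ ∈ KK V 0
  ha : a ∈ KK V 0
  hl : l ∈ KK V (π / 4)
  hu : u ∈ Tp ω T V

theorem Dfm_W.x {κ a l u : H} (w : Dfm_W ω T V κ a l u) (θ : ℝ) : cos θ • κ + sin θ • a ∈ KK V 0 :=
  add_mem (Submodule.smul_mem _ _ w.hκ) (Submodule.smul_mem _ _ w.ha)

theorem Dfm_W.add {κ a l u κ' a' l' u' : H} (w : Dfm_W ω T V κ a l u) (w' : Dfm_W ω T V κ' a' l' u') :
    Dfm_W ω T V (κ + κ') (a + a') (l + l') (u + u') :=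
  ⟨add_mem w.hκ w'.hκ, add_mem w.ha w'.ha, add_mem w.hl w'.hl, add_mem w.hu w'.hu⟩

theorem Dfm_W.om (h : Sys0 n ω T V) (θ : ℝ) {κ a l u κ' a' l' u' : H} (w : Dfm_W ω T V κ a l u)
    (w' : Dfm_W ω T V κ' a' l' u') :
    ω (cos θ • κ + sin θ • a + l + u) (cos θ • κ' + sin θ • a' + l' + u') =
      ω (κ + cos θ • l + u) (κ' + cos θ • l' + u') + ω (a + sin θ • l) (a' + sin θ • l') := by
  have e := Dfm_om3 h w.ha (Submodule.smul_mem _ (sin θ) w.hl) (zero_mem _) w'.ha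
    (Submodule.smul_mem _ (sin θ) w'.hl) (zero_mem _)
  rw [add_zero, add_zero] at e
  rw [e, Dfm_om3 h (w.x θ) w.hl w.hu (w'.x θ) w'.hl w'.hu,
    Dfm_om3 h w.hκ (Submodule.smul_mem _ _ w.hl) w.hu w'.hκ (Submodule.smul_mem _ _ w'.hl) w'.hu]
  simp only [map_add, map_smul, add_apply, smul_apply, smul_eq_mul, map_zero]
  ring

theorem Dfm_W.zero (h : Sys0 n ω T V) {θ : ℝ} {κ a l u : H} (w : Dfm_W ω T V κ a l u)
    (e : κ + cos θ • l + u = 0) (e' : a + sin θ • l = 0) : cos θ • κ + sin θ • a + l + u = 0 := by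
  obtain ⟨e1, e2, e3⟩ := h.three w.hκ (Submodule.smul_mem _ _ w.hl) w.hu e
  obtain ⟨e4, e5, -⟩ := h.three w.ha (Submodule.smul_mem _ _ w.hl) (zero_mem _) ((add_zero _).trans e')
  rw [← Dfm_cs θ l, e1, e2, e3, e4, e5]
  simp

theorem Dfm_evt {θ t : ℝ} {p : H × H} {l : H} (e : sin (2 * t) • p.2 = sin θ • l) :
    evt t p = cos (2 * t) • p.1 + sin θ • l := by
  rw [evt_apply, e]

theorem Dfm_wit {θ t : ℝ} {x : H} (hx : x ∈ dfm ω T V θ t) : ∃ κ a l u, Dfm_W ω T V κ a l u ∧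
    κ + cos θ • l + u ∈ V t ∧ a + sin θ • l ∈ VS ω T V t ∧ x = cos θ • κ + sin θ • a + l + u := by
  obtain ⟨κ, hκ, l, hl, u, hu, p, hp, h1, h2, rfl⟩ := hx
  exact ⟨κ, cos (2 * t) • p.1, l, u, ⟨hκ, Submodule.smul_mem _ _ hp.1, hl, hu⟩, h1,
    ⟨p, hp, Dfm_evt h2⟩, by rw [mul_smul]⟩

theorem Sys.dfm_zero (h : Sys n k ω T V) (t : ℝ) : dfm ω T V 0 t = V t := by
  ext x
  constructor
  · rintro ⟨κ, hκ, l, hl, u, hu, p, hp, h1, h2, rfl⟩
    simpa using h1
  · intro hx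
    obtain ⟨κ, hκ, l, hl, u, hu, rfl⟩ := Lin_dec h.toSys0 (h.le _ hx)
    exact ⟨κ, hκ, l, hl, u, hu, 0, zero_mem _, by simpa using hx, by simp, by simp⟩

theorem Sys.dfm_int (h : Sys n k ω T V) (θ t : ℝ) (j : ℤ) :
    dfm ω T V θ (t + j * π) = dfm ω T V θ t := by
  ext x
  simp only [mem_dfm, h.toSys0.per_int, show 2 * (t + j * π) = 2 * t + j * (2 * π) by ring,
    sin_add_int_mul_two_pi, cos_add_int_mul_two_pi]

theorem Sys.dfm_half (h : Sys n k ω T V) (θ : ℝ) {t : ℝ} (e : sin (2 * t) = 0) :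
    dfm ω T V θ t = V t := by
  have hK := Dfm_KV h.toSys0 e
  have hs : ∀ x ∈ V t, ∃ κ ∈ KK V 0, x - κ ∈ Tp ω T V := fun x hx => by
    obtain ⟨j, hj⟩ := sin_eq_zero_iff.1 e
    exact h.split0 j (by rwa [show j * (π / 2) = t by linarith])
  ext x
  constructor
  · rintro ⟨κ, hκ, l, hl, u, hu, p, hp, h1, h2, rfl⟩
    obtain ⟨κ', hκ', h3⟩ := hs _ h1
    obtain ⟨-, h4, -⟩ := h.toSys0.three (sub_mem hκ hκ') (Submodule.smul_mem _ (cos θ) hl)
      (sub_mem hu h3) (by abel)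
    rw [e, zero_smul] at h2
    have h5 : l = 0 := by rw [← Dfm_cs θ l, h4, ← h2, smul_zero, smul_zero, add_zero]
    rw [h4, add_zero] at h1
    rw [h5, add_zero]
    exact add_mem (hK (add_mem (Submodule.smul_mem _ _ hκ) (Submodule.smul_mem _ _ hp.1)))
      (by simpa using sub_mem h1 (hK hκ))
  · intro hx
    obtain ⟨κ, hκ, hu⟩ := hs x hx
    obtain ⟨l, hl⟩ := h.Gr_ex hκ
    have e1 : cos (2 * t) * cos (2 * t) = 1 := by
      have := cos_sq_add_sin_sq (2 * t)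
      rw [e] at this
      linarith
    refine ⟨cos θ • κ, Submodule.smul_mem _ _ hκ, 0, zero_mem _, x - κ, hu,
      (sin θ * cos (2 * t)) • (κ, l), Submodule.smul_mem _ _ hl, ?_, by simp [e], ?_⟩
    · rw [smul_zero, add_zero]
      exact add_mem (Submodule.smul_mem _ _ (hK hκ)) (sub_mem hx (hK hκ))
    · rw [Prod.smul_fst, smul_smul (sin θ * _), mul_mul_mul_comm, e1, mul_one, mul_smul, Dfm_cs]
      abel

theorem Sys.dfm_quart (h : Sys n k ω T V) (θ : ℝ) {t : ℝ} (e : cos (2 * t) = 0) :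
    dfm ω T V θ t = V t := by
  obtain ⟨j, hj⟩ := cos_eq_zero_iff.1 e
  have ht : π / 4 + j * (π / 2) = t := by linarith
  have hK : KK V (π / 4) ≤ V t := ht ▸ h.toSys0.KK_le _ j
  have hs : ∀ x ∈ V t, ∃ l ∈ KK V (π / 4), x - l ∈ Tp ω T V := fun x hx => h.split1 j (by rwa [ht])
  ext x
  constructor
  · rintro ⟨κ, hκ, l, hl, u, hu, p, hp, h1, h2, rfl⟩
    obtain ⟨l', hl', h3⟩ := hs _ h1
    obtain ⟨h4, -, -⟩ := h.toSys0.three hκ (sub_mem (Submodule.smul_mem _ (cos θ) hl) hl')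
      (sub_mem hu h3) (by abel)
    rw [h4, zero_add] at h1
    rw [h4, e, mul_zero, zero_smul, smul_zero, add_zero, zero_add]
    exact add_mem (hK hl) (by simpa using sub_mem h1 (Submodule.smul_mem _ (cos θ) (hK hl)))
  · intro hx
    obtain ⟨l, hl, hu⟩ := hs x hx
    obtain ⟨κ, hκ⟩ := h.Gr_ex' hl
    have e1 : sin (2 * t) * sin (2 * t) = 1 := by
      have := cos_sq_add_sin_sq (2 * t)
      rw [e] at this
      linarith
    refine ⟨0, zero_mem _, l, hl, x - l, hu, (sin (2 * t) * sin θ) • (κ, l),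
      Submodule.smul_mem _ _ hκ, ?_, ?_, by simp [e]⟩
    · rw [zero_add]
      exact add_mem (Submodule.smul_mem _ _ (hK hl)) (sub_mem hx (hK hl))
    · rw [Prod.smul_snd, smul_smul, ← mul_assoc, e1, one_mul]

theorem Sys.dfm_om (h : Sys n k ω T V) {θ t t' : ℝ} {κ l u κ' l' u' : H} {p p' : H × H}
    (hκ : κ ∈ KK V 0) (hl : l ∈ KK V (π / 4)) (hu : u ∈ Tp ω T V) (hp : p ∈ Gr ω T V)
    (e : sin (2 * t) • p.2 = sin θ • l)
    (hκ' : κ' ∈ KK V 0) (hl' : l' ∈ KK V (π / 4)) (hu' : u' ∈ Tp ω T V) (hp' : p' ∈ Gr ω T V)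
    (e' : sin (2 * t') • p'.2 = sin θ • l') :
    ω (cos θ • κ + (sin θ * cos (2 * t)) • p.1 + l + u)
        (cos θ • κ' + (sin θ * cos (2 * t')) • p'.1 + l' + u') =
      ω (κ + cos θ • l + u) (κ' + cos θ • l' + u') + ω (evt t p) (evt t' p') := by
  rw [Dfm_evt e, Dfm_evt e', mul_smul, mul_smul]
  exact Dfm_W.om h.toSys0 θ ⟨hκ, Submodule.smul_mem _ _ hp.1, hl, hu⟩
    ⟨hκ', Submodule.smul_mem _ _ hp'.1, hl', hu'⟩

theorem Sys.dfm_le (h : Sys n k ω T V) (θ t : ℝ) : dfm ω T V θ t ≤ T := by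
  intro x hx
  obtain ⟨κ, a, l, u, w, -, -, rfl⟩ := Dfm_wit hx
  exact add_mem (add_mem (h.le _ (w.x θ).1) (h.le _ w.hl.1)) w.hu.1

theorem Sys.dfm_iso (h : Sys n k ω T V) (θ t : ℝ) :
    ∀ u ∈ dfm ω T V θ t, ∀ w ∈ dfm ω T V θ t, ω u w = 0 := by
  intro x hx x' hx'
  obtain ⟨κ, a, l, u, w, h1, h2, rfl⟩ := Dfm_wit hx
  obtain ⟨κ', a', l', u', w', h1', h2', rfl⟩ := Dfm_wit hx'
  rw [w.om h.toSys0 θ w', h.iso t _ h1 _ h1', h.sys_VS.iso t _ h2 _ h2', add_zero]

theorem Sys.dfm_dim (h : Sys n k ω T V) (θ t : ℝ) : finrank ℝ (dfm ω T V θ t) = n := by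
  by_cases e : sin (2 * t) = 0
  · rw [h.dfm_half θ e, h.dim]
  refine le_antisymm (h.toSym.iso_dim (h.dfm_le θ t) (h.dfm_iso θ t)) ?_
  let P := (KK V 0 × KK V (π / 4)) × Tp ω T V × Gr ω T V
  let β : P →ₗ[ℝ] (V t × KK V 0) →ₗ[ℝ] ℝ := LinearMap.mk₂ ℝ
    (fun w v => ω v.1 (w.1.1 + cos θ • w.1.2 + w.2.1) + ω v.2 (sin (2 * t) • w.2.2.1.2 - sin θ • w.1.2))
    (fun _ _ _ => by simp [P]; ring) (fun _ _ _ => by simp [P]; ring)
    (fun _ _ _ => by simp; ring) (fun _ _ _ => by simp; ring)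
  let X : P →ₗ[ℝ] H :=
    { toFun := fun w => cos θ • w.1.1 + (sin θ * cos (2 * t)) • w.2.2.1.1 + w.1.2 + w.2.1
      map_add' := fun _ _ => by simp [P]; abel
      map_smul' := fun r _ => by simp [P, smul_comm r] }
  have k1 : ∀ w ∈ LinearMap.ker β, (w.1.1 + cos θ • w.1.2 + w.2.1 : H) ∈ V t ∧
      sin (2 * t) • w.2.2.1.2 = sin θ • (w.1.2 : H) := fun w hw => by
    refine ⟨h.toSys0.orth_V t ▸ ⟨add_mem (add_mem (h.le _ w.1.1.2.1)
      (Submodule.smul_mem _ _ (h.le _ w.1.2.2.1))) w.2.1.2.1, fun v hv => ?_⟩,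
      sub_eq_zero.1 (h.toSys0.pair' (sub_mem (Submodule.smul_mem _ _ w.2.2.2.2.1)
        (Submodule.smul_mem _ _ w.1.2.2)) fun v hv => ?_)⟩
    · simpa only [β, LinearMap.mk₂_apply, ZeroMemClass.coe_zero, map_zero, zero_apply, add_zero,
        LinearMap.zero_apply] using LinearMap.congr_fun hw (⟨v, hv⟩, 0)
    · simpa only [β, LinearMap.mk₂_apply, ZeroMemClass.coe_zero, map_zero, zero_apply, zero_add,
        LinearMap.zero_apply] using LinearMap.congr_fun hw (0, ⟨v, hv⟩)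
  have k2 : Function.Injective (X ∘ₗ (LinearMap.ker β).subtype) := by
    refine (injective_iff_map_eq_zero _).2 fun ⟨⟨⟨κ, l⟩, u, p⟩, hw⟩ e0 => ?_
    obtain ⟨a1, a2⟩ := k1 _ hw
    obtain ⟨-, b2, b3⟩ := h.toSys0.three
      (add_mem (Submodule.smul_mem _ _ κ.2) (Submodule.smul_mem _ _ p.2.1)) l.2 u.2 e0
    dsimp only at a1 a2
    rw [b2, smul_zero, smul_eq_zero, or_iff_right e] at a2
    rw [b2, b3, smul_zero, add_zero, add_zero] at a1
    have b4 : p.1 = 0 := by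
      by_contra hp
      have := h.rot_Gr.neg _ p.2 hp
      rw [a2, map_zero] at this
      exact lt_irrefl _ this
    have b1 : κ.1 = 0 := h.toSys0.tr' (s := 0) (by rwa [sub_zero]) κ.2.1 a1
    exact Subtype.ext (Prod.ext (Prod.ext (Subtype.ext b1) (Subtype.ext b2))
      (Prod.ext (Subtype.ext b3) (Subtype.ext b4)))
  have k3 : LinearMap.range (X ∘ₗ (LinearMap.ker β).subtype) ≤ dfm ω T V θ t := by
    rintro _ ⟨⟨w, hw⟩, rfl⟩
    exact ⟨_, w.1.1.2, _, w.1.2.2, _, w.2.1.2, _, w.2.2.2, (k1 w hw).1, (k1 w hw).2, rfl⟩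
  have k4 := Submodule.finrank_mono k3
  have k5 := Idx_codim β
  have k6 := h.le_n
  rw [LinearMap.finrank_range_of_inj k2] at k4
  generalize finrank ℝ (LinearMap.ker β) = m at k4 k5
  simp only [P, finrank_prod, h.dimK, h.dim, h.sym_Tp.dimT, h.rot_Gr.dim] at k5
  omega

theorem Dfm_quad (h : Sys0 n ω T V) {s x y r : ℝ} (h1 : s < x) (h2 : x < y) (h3 : y ≤ s + π / 2)
    (h4 : s < r) (h5 : r ≤ s + π / 2) {a b c g : H} (ha : a ∈ V s) (hb : b ∈ V x) (hc : c ∈ V y)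
    (hg : g ∈ V r) (e : a + b + c + g = 0) : 0 ≤ ω a b + ω a c + ω b c +
      2 * (hsg (r - s) * ω a g + hsg (r - x) * ω b g + hsg (r - y) * ω c g) := by
  have hp := pi_pos
  have k := h.pol_nonneg (s := s) (t := ![s, x, y, r]) (f := ![a, b, c, g])
    (fun i => by fin_cases i <;> exact ⟨by simp <;> linarith, by simp <;> linarith⟩)
    (fun i => by fin_cases i <;> assumption) (by rwa [Fin.sum_univ_four])
  have e1 : ∀ v, hsg (v - r) = -hsg (r - v) := fun v => by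
    rw [← neg_sub r v, hsg, hsg, Left.sign_neg]
    simp [neg_div]
  simp only [qf, Fin.sum_univ_four, Matrix.cons_val, h.alt, mul_zero, (Pol_pt h ha hb h1.le).1,
    (Pol_pt h ha hb h1.le).2, (Pol_pt h ha hc (h1.trans h2).le).1, (Pol_pt h ha hc (h1.trans h2).le).2,
    (Pol_pt h hb hc h2.le).1, (Pol_pt h hb hc h2.le).2, e1 s, e1 x, e1 y, h.skew g a, h.skew g b,
    h.skew g c] at k
  linarith

theorem Sys.dfm_pos (h : Sys n k ω T V) (θ : ℝ) {s x y : ℝ} (h1 : s < x) (h2 : x < y)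
    (h3 : y ≤ s + π / 2) {a b : H} (ha : a ∈ dfm ω T V θ s) (hb : b ∈ dfm ω T V θ x)
    (hc : a + b ∈ dfm ω T V θ y) : 0 ≤ ω a b := by
  obtain ⟨r, hr, r1, r2⟩ := Dfm_r s
  obtain ⟨κ₁, a₁, l₁, u₁, w₁, y₁, z₁, e₁⟩ := Dfm_wit ha
  obtain ⟨κ₂, a₂, l₂, u₂, w₂, y₂, z₂, e₂⟩ := Dfm_wit hb
  obtain ⟨κ₃, a₃, l₃, u₃, w₃, y₃, z₃, e₃⟩ := Dfm_wit (neg_mem hc)
  have w := (w₁.add w₂).add w₃
  obtain ⟨s1, s2, s3⟩ := h.toSys0.three (w.x θ) w.hl w.hu (by
    rw [← add_neg_cancel (a + b), e₃]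
    conv_rhs => rw [e₁, e₂]
    simp only [smul_add]
    abel)
  have q1 := Dfm_quad h.toSys0 h1 h2 h3 r1 r2 y₁ y₂ y₃ (neg_mem (Dfm_KV h.toSys0 hr w.hκ)) (by
    rw [← add_zero (0 : H)]
    conv_rhs => rw [← s3]; lhs; rw [s3, ← smul_zero (cos θ), ← s2]
    simp only [smul_add]
    abel)
  have q2 := Dfm_quad h.sys_VS.toSys0 h1 h2 h3 r1 r2 z₁ z₂ z₃ (neg_mem (Dfm_KS h hr w.ha)) (by
    rw [← smul_zero (sin θ), ← s2]
    simp only [smul_add]
    abel)
  have wg : Dfm_W ω T V (-(κ₁ + κ₂ + κ₃)) (-(a₁ + a₂ + a₃)) 0 0 :=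
    ⟨neg_mem w.hκ, neg_mem w.ha, zero_mem _, zero_mem _⟩
  have o1 := w₁.om h.toSys0 θ wg
  have o2 := w₂.om h.toSys0 θ wg
  have o3 := w₃.om h.toSys0 θ wg
  simp only [smul_zero, add_zero, smul_neg (cos θ), smul_neg (sin θ), ← neg_add, s1, neg_zero, map_zero] at o1 o2 o3
  have o4 := w₁.om h.toSys0 θ w₂
  have o5 := w₁.om h.toSys0 θ w₃
  have o6 := w₂.om h.toSys0 θ w₃
  rw [← e₁, ← e₂] at o4
  rw [← e₁, ← e₃, map_neg, map_add, h.alt] at o5
  rw [← e₂, ← e₃, map_neg, map_add, h.alt, h.skew b a] at o6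
  rw [eq_neg_of_add_eq_zero_left o1.symm, eq_neg_of_add_eq_zero_left o2.symm,
    eq_neg_of_add_eq_zero_left o3.symm] at q1
  linarith

theorem Dfm_triA (h : Sys0 n ω T V) {s t r : ℝ} (h1 : s < r) (h2 : r ≤ t) (h3 : t < s + π / 2)
    {y y' : H} (hy : y ∈ V s) (hy' : y' ∈ V t) (e : y - y' ∈ V r) :
    0 ≤ ω y y' ∧ (ω y y' = 0 → y = 0) := by
  rcases h2.eq_or_lt with rfl | h2
  · have : y = 0 := h.tr s r h1 h3 y hy (by simpa using add_mem e hy')
    simp [this]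
  have e1 : ω y y' = ω y (-(y - y')) := by rw [neg_sub, map_sub, h.alt, sub_zero]
  have e2 : y + -(y - y') ∈ V t := by simpa using hy'
  refine ⟨e1 ▸ h.pos s r t h1 h2 h3.le y hy _ (neg_mem e) e2, fun e0 => ?_⟩
  have e3 : -(y - y') = 0 := by
    by_contra h0
    exact (h.pos_lt h1 h2 h3.le hy (neg_mem e) e2 h0).ne' (e1 ▸ e0)
  rw [e3, add_zero] at e2
  exact h.tr s t (h1.trans h2) h3 y hy e2

theorem Dfm_triB (h : Sys0 n ω T V) {s t r : ℝ} (h1 : s < t) (h2 : t < r) (h3 : r ≤ s + π / 2)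
    {y y' : H} (hy : y ∈ V s) (hy' : y' ∈ V t) (e : y - y' ∈ V r) :
    ω y y' ≤ 0 ∧ (ω y y' = 0 → y' = 0) := by
  rw [sub_eq_add_neg] at e
  refine ⟨by simpa using h.pos s t r h1 h2 h3 y hy _ (neg_mem hy') e, fun e0 => ?_⟩
  by_contra h0
  have := h.pos_lt h1 h2 h3 hy (neg_mem hy') e (neg_ne_zero.2 h0)
  rw [map_neg, e0, neg_zero] at this
  exact lt_irrefl _ this

theorem Sys.dfm_tr (h : Sys n k ω T V) (θ : ℝ) {s t : ℝ} (h1 : s < t) (h2 : t < s + π / 2) {u : H}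
    (hs : u ∈ dfm ω T V θ s) (ht : u ∈ dfm ω T V θ t) : u = 0 := by
  obtain ⟨r, hr, r1, r2⟩ := Dfm_r s
  obtain ⟨κ, a, l, v, w, y₁, z₁, e₁⟩ := Dfm_wit hs
  obtain ⟨κ', a', l', v', w', y₂, z₂, e₂⟩ := Dfm_wit ht
  obtain ⟨-, s2, s3⟩ := h.toSys0.three (sub_mem (w.x θ) (w'.x θ)) (sub_mem w.hl w'.hl)
    (sub_mem w.hu w'.hu) (by
      rw [← sub_self u]
      conv_rhs => rw [sub_eq_add_neg, e₂]; enter [1]; rw [← e₂, e₁]
      abel)
  obtain rfl := sub_eq_zero.1 s2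
  obtain rfl := sub_eq_zero.1 s3
  have o := w.om h.toSys0 θ w'
  rw [← e₁, ← e₂, h.alt] at o
  have m1 : κ + cos θ • l + v - (κ' + cos θ • l + v) ∈ V r := by
    simpa using Dfm_KV h.toSys0 hr (sub_mem w.hκ w'.hκ)
  have m2 : a + sin θ • l - (a' + sin θ • l) ∈ VS ω T V r := by
    simpa using Dfm_KS h hr (sub_mem w.ha w'.ha)
  rcases le_or_gt r t with r3 | r3
  · obtain ⟨p1, p2⟩ := Dfm_triA h.toSys0 r1 r3 h2 y₁ y₂ m1
    obtain ⟨p3, p4⟩ := Dfm_triA h.sys_VS.toSys0 r1 r3 h2 z₁ z₂ m2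
    rw [e₁]
    exact w.zero h.toSys0 (p2 (by linarith)) (p4 (by linarith))
  · obtain ⟨p1, p2⟩ := Dfm_triB h.toSys0 h1 r3 r2 y₁ y₂ m1
    obtain ⟨p3, p4⟩ := Dfm_triB h.sys_VS.toSys0 h1 r3 r2 z₁ z₂ m2
    rw [e₂]
    exact w'.zero h.toSys0 (p2 (by linarith)) (p4 (by linarith))

theorem Sys.sys_dfm (h : Sys n k ω T V) (θ : ℝ) : Sys n k ω T (dfm ω T V θ) := by
  have h0 : Sys0 n ω T (dfm ω T V θ) :=
    { toSym := h.toSym
      le := h.dfm_le θ
      dim := h.dfm_dim θ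
      iso := h.dfm_iso θ
      per := fun t => by simpa using h.dfm_int θ t 1
      tr := fun s t h1 h2 u => h.dfm_tr θ h1 h2
      pos := fun s x y h1 h2 h3 a ha b hb => h.dfm_pos θ h1 h2 h3 ha hb }
  refine ⟨h0, fun t => ?_⟩
  rw [h0.dimK_eq t 0, KK, h.dfm_half θ (by simp),
    h.dfm_half θ (by rw [zero_add, mul_div_cancel₀ _ two_ne_zero, sin_pi])]
  exact h.dimK 0

end Pool.Agent.Work.MP_8c604c_gt.OS
end
end
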